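import Pool.Agent.Helper28.BW.Walk

/-!
# BW-02: adding one edge, number of balanced components

Let `t = (u, v, g)` be a triple.
(a) If `t ∈ cl T` then `T` and `insert t T` have the same balanced components meeting `S`.
 Proof. If `W T u v g` then `insert t T` and `T` have the same walks (`W.of_edges`). If `u` and `v` are
 both unbalanced in `T`: a walk of `insert t T` from a vertex `p` whose `T`-component contains neither `u`
 nor `v` never uses `t`, so it is a walk of `T` (`W_closed` with `C = cls T p`); hence for a vertex `p`
 which is balanced in `T` (its component contains neither `u` nor `v`) the component and balancedness are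
 unchanged, and a vertex balanced in `insert t T` is balanced in `T`. So `balC` is the same set.
(b) If `t ∉ cl T` and `u, v ∈ S`, `S` finite, then exactly one balanced component (meeting `S`) is lost.
 Proof. Components of `T` containing neither `u` nor `v` are unchanged. Case 1: `u`, `v` are joined in `T`,
 with gain `g' ≠ g`, and `u` is balanced (otherwise `t ∈ cl T`). Then the components are the same, and the
 component of `u` becomes unbalanced (gain `g * g'⁻¹`); the others keep their status. Case 2: `u`, `v` not
 joined. The new component is `cls T u ∪ cls T v`. If both are balanced, it is balanced: every walk of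
 `insert t T` from `u` to `p ∈ cls T u` has the gain of the `T`-walk, and to `p ∈ cls T v` it has gain
 `g *` (gain of the `T`-walk from `v` to `p`) (induction on the walk). So two balanced components are
 replaced by one. If exactly one of `u`, `v` is balanced, the new component is unbalanced, so one balanced
 component is lost. (Both unbalanced is excluded by `t ∉ cl T`.)
-/

set_option autoImplicit false
set_option linter.unusedSectionVars false

namespace Pool.Agent.Helper28.BW

variable {H : Type} [Group H]

theorem balC_insert_of_mem {T : Set (Tri H)} {t : Tri H} (S : Set ℕ) (ht : t ∈ cl T) :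
    balC (insert t T) S = balC T S := by
  have key : ∀ u, ¬ Unb T u → ∀ v g, W (insert t T) u v g → W T u v g := by
    intro u hu v g hw
    rcases ht with ht | ⟨h1, h2⟩
    · refine W.of_edges ?_ hw
      rintro s (rfl | hs)
      · exact ht
      · exact W.edge hs
    · refine (W_closed (C := cls T u) (mem_cls_self T u) ?_ hw).2
      rintro s (rfl | hs) h
      · exfalso
        rcases h with h | h
        · exact hu (h1.of_con (Con.symm h))
        · exact hu (h2.of_con (Con.symm h))
      · rcases h with h | h
        · exact ⟨h, Con.trans h ⟨_, W.edge hs⟩, hs⟩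
        · exact ⟨Con.trans h (Con.symm ⟨_, W.edge hs⟩), h, hs⟩
  have hsub : T ⊆ insert t T := Set.subset_insert t T
  have hcls : ∀ u, ¬ Unb T u → cls (insert t T) u = cls T u := by
    intro u hu
    ext v
    constructor
    · rintro ⟨g, hg⟩
      exact ⟨g, key u hu v g hg⟩
    · rintro ⟨g, hg⟩
      exact ⟨g, hg.mono hsub⟩
  ext c
  constructor
  · rintro ⟨u, hu, hb, rfl⟩
    have hb' : ¬ Unb T u := fun h => hb (h.mono hsub)
    exact ⟨u, hu, hb', hcls u hb'⟩
  · rintro ⟨u, hu, hb, rfl⟩
    refine ⟨u, hu, ?_, (hcls u hb).symm⟩
    rintro ⟨g, hg, hw⟩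
    exact hb ⟨g, hg, key u hb u g hw⟩

theorem balC_eq_image (T : Set (Tri H)) (S : Set ℕ) :
    balC T S = cls T '' {u ∈ S | ¬ Unb T u} := by
  ext c
  constructor
  · rintro ⟨u, hu, hb, rfl⟩
    exact ⟨u, ⟨hu, hb⟩, rfl⟩
  · rintro ⟨u, ⟨hu, hb⟩, rfl⟩
    exact ⟨u, hu, hb, rfl⟩

theorem balC_finite (T : Set (Tri H)) {S : Set ℕ} (hS : S.Finite) : (balC T S).Finite := by
  rw [balC_eq_image]
  exact (hS.subset (Set.sep_subset _ _)).image _

theorem bal_le_ncard (T : Set (Tri H)) {S : Set ℕ} (hS : S.Finite) : bal T S ≤ S.ncard := by
  rw [bal, balC_eq_image]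
  exact (Set.ncard_image_le (hS.subset (Set.sep_subset _ _))).trans
    (Set.ncard_le_ncard (Set.sep_subset _ _) hS)

theorem bal_empty (S : Set ℕ) : bal (∅ : Set (Tri H)) S = S.ncard := by
  have h1 : ∀ u, ¬ Unb (∅ : Set (Tri H)) u := by
    rintro u ⟨g, hg, hw⟩
    exact hg (W.empty_iff.1 hw).2
  have h2 : ∀ u, cls (∅ : Set (Tri H)) u = {u} := by
    intro u
    ext v
    constructor
    · rintro ⟨g, hg⟩
      exact (W.empty_iff.1 hg).1.symm
    · rintro rfl
      exact Con.refl _ _
  have h3 : {u ∈ S | ¬ Unb (∅ : Set (Tri H)) u} = S := by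
    ext u
    exact ⟨fun h => h.1, fun h => ⟨h, h1 u⟩⟩
  rw [bal, balC_eq_image, h3]
  apply Set.ncard_image_of_injective
  intro u v h
  rw [h2, h2] at h
  exact Set.singleton_injective h

theorem bal_insert_of_notMem {T : Set (Tri H)} {t : Tri H} {S : Set ℕ} (hS : S.Finite)
    (h1 : t.1 ∈ S) (h2 : t.2.1 ∈ S) (ht : t ∉ cl T) : bal (insert t T) S + 1 = bal T S := by
  obtain ⟨u, v, g⟩ := t
  simp only at h1 h2
  have ht1 : ¬ W T u v g := fun h => ht (Or.inl h)
  have ht2 : ¬ (Unb T u ∧ Unb T v) := fun h => ht (Or.inr h)
  set T' := insert (u, v, g) T with hT'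
  have hsub : T ⊆ T' := Set.subset_insert _ T
  have he : W T' u v g := W.edge (Set.mem_insert _ _)
  -- walks from other vertices
  have key : ∀ p, ¬ Con T p u → ¬ Con T p v → ∀ q h, W T' p q h → W T p q h := by
    intro p hpu hpv q h hw
    refine (W_closed (C := cls T p) (mem_cls_self T p) ?_ hw).2
    rintro s (rfl | hs) h
    · exfalso
      rcases h with h | h
      · exact hpu h
      · exact hpv h
    · rcases h with h | h
      · exact ⟨h, Con.trans h ⟨_, W.edge hs⟩, hs⟩
      · exact ⟨Con.trans h (Con.symm ⟨_, W.edge hs⟩), h, hs⟩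
  have hcls : ∀ p, ¬ Con T p u → ¬ Con T p v → cls T' p = cls T p := by
    intro p hpu hpv
    ext q
    constructor
    · rintro ⟨g, hg⟩
      exact ⟨g, key p hpu hpv q g hg⟩
    · rintro ⟨g, hg⟩
      exact ⟨g, hg.mono hsub⟩
  have hunb : ∀ p, ¬ Con T p u → ¬ Con T p v → Unb T' p → Unb T p := by
    rintro p hpu hpv ⟨k, hk, hw⟩
    exact ⟨k, hk, key p hpu hpv p k hw⟩
  have hcon : ∀ p, (Con T p u ∨ Con T p v) → Con T' p u := by
    rintro p (h | h)
    · exact h.mono hsub
    · exact (h.mono hsub).trans (Con.symm ⟨g, he⟩)
  set R : Set (Set ℕ) := {c ∈ balC T S | c ≠ cls T u ∧ c ≠ cls T v} with hR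
  have hRfin : R.Finite := (balC_finite T hS).subset (Set.sep_subset _ _)
  -- elements of R
  have hRT' : R ⊆ balC T' S := by
    rintro c ⟨⟨p, hp, hb, rfl⟩, hcu, hcv⟩
    have hpu : ¬ Con T p u := fun h => hcu (cls_eq_iff.2 h)
    have hpv : ¬ Con T p v := fun h => hcv (cls_eq_iff.2 h)
    exact ⟨p, hp, fun h => hb (hunb p hpu hpv h), (hcls p hpu hpv).symm⟩
  have hT'R : ∀ c ∈ balC T' S, c ∈ R ∨ (c = cls T' u ∧ ¬ Unb T' u) := by
    rintro c ⟨p, hp, hb, rfl⟩
    by_cases h : Con T p u ∨ Con T p v
    · right
      have := hcon p h
      exact ⟨cls_eq_iff.2 this, fun h' => hb (h'.of_con this.symm)⟩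
    · left
      push Not at h
      rw [hcls p h.1 h.2]
      exact ⟨⟨p, hp, fun h' => hb (h'.mono hsub), rfl⟩, fun h' => h.1 (cls_eq_iff.1 h'),
        fun h' => h.2 (cls_eq_iff.1 h')⟩
  have hR_u : ∀ c ∈ R, u ∉ c := by
    rintro c ⟨⟨p, hp, hb, rfl⟩, hcu, hcv⟩ hu
    exact hcu (cls_eq_iff.2 hu)
  have hR_v : ∀ c ∈ R, v ∉ c := by
    rintro c ⟨⟨p, hp, hb, rfl⟩, hcu, hcv⟩ hu
    exact hcv (cls_eq_iff.2 hu)
  have hclsu : ¬ Unb T u → cls T u ∈ balC T S := fun h => ⟨u, h1, h, rfl⟩
  have hclsv : ¬ Unb T v → cls T v ∈ balC T S := fun h => ⟨v, h2, h, rfl⟩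
  have hnot : ∀ w, Unb T w → cls T w ∉ balC T S := by
    rintro w hw ⟨p, hp, hb, h⟩
    exact hb (hw.of_con (cls_eq_iff.1 h))
  have hTR : ∀ c ∈ balC T S, c ∈ R ∨ c = cls T u ∨ c = cls T v := by
    intro c hc
    by_cases h : c = cls T u ∨ c = cls T v
    · exact Or.inr h
    · push Not at h
      exact Or.inl ⟨hc, h⟩
  have hRsub : R ⊆ balC T S := Set.sep_subset _ _
  by_cases hb' : Unb T' u
  · have e1 : balC T' S = R := by
      apply Set.Subset.antisymm _ hRT'
      intro c hc
      rcases hT'R c hc with h | h
      · exact h
      · exact absurd hb' h.2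
    -- the T side: exactly one class
    have e2 : ∃ w, (w = u ∨ w = v) ∧ balC T S = insert (cls T w) R := by
      by_cases hcn : Con T u v
      · have hbu : ¬ Unb T u := fun h => ht2 ⟨h, h.of_con hcn⟩
        refine ⟨u, Or.inl rfl, ?_⟩
        apply Set.Subset.antisymm
        · intro c hc
          rcases hTR c hc with h | h | h
          · exact Or.inr h
          · exact Or.inl h
          · exact Or.inl (h.trans (cls_eq_iff.2 hcn.symm))
        · exact Set.insert_subset (hclsu hbu) hRsub
      · -- not connected: one of them is unbalanced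
        have hone : Unb T u ∨ Unb T v := by
          by_contra hcon2
          push Not at hcon2
          obtain ⟨hbu, hbv⟩ := hcon2
          have key2 : ∀ p h, W T' u p h → W T u p h ∨ W T v p (g⁻¹ * h) := by
            intro p h hw
            induction hw with
            | refl => exact Or.inl (W.refl _)
            | @fwd v' w' h k _ ht3 ih =>
              rcases ht3 with ht3 | ht3
              · simp only [Prod.mk.injEq] at ht3
                obtain ⟨rfl, rfl, rfl⟩ := ht3
                rcases ih with ih | ih
                · right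
                  have : h = 1 := W_unique hbu ih (W.refl _)
                  rw [this, one_mul, inv_mul_cancel]
                  exact W.refl _
                · exact absurd (Con.symm ⟨_, ih⟩) hcn
              · rcases ih with ih | ih
                · exact Or.inl (W.fwd ih ht3)
                · right
                  rw [← mul_assoc]
                  exact W.fwd ih ht3
            | @bwd v' w' h k _ ht3 ih =>
              rcases ht3 with ht3 | ht3
              · simp only [Prod.mk.injEq] at ht3
                obtain ⟨rfl, rfl, rfl⟩ := ht3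
                rcases ih with ih | ih
                · exact absurd ⟨_, ih⟩ hcn
                · left
                  have : k⁻¹ * h = 1 := W_unique hbv ih (W.refl _)
                  have h' : h = k := by
                    rw [inv_mul_eq_one] at this
                    exact this.symm
                  rw [h', mul_inv_cancel]
                  exact W.refl _
              · rcases ih with ih | ih
                · exact Or.inl (W.bwd ih ht3)
                · right
                  rw [← mul_assoc]
                  exact W.bwd ih ht3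
          obtain ⟨k, hk, hw⟩ := hb'
          rcases key2 u k hw with h | h
          · exact hbu ⟨k, hk, h⟩
          · exact hcn (Con.symm ⟨_, h⟩)
        rcases hone with hu | hv
        · have hbv : ¬ Unb T v := fun h => ht2 ⟨hu, h⟩
          refine ⟨v, Or.inr rfl, ?_⟩
          apply Set.Subset.antisymm
          · intro c hc
            rcases hTR c hc with h | h | h
            · exact Or.inr h
            · exact absurd (h ▸ hc) (hnot u hu)
            · exact Or.inl h
          · exact Set.insert_subset (hclsv hbv) hRsub
        · have hbu : ¬ Unb T u := fun h => ht2 ⟨h, hv⟩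
          refine ⟨u, Or.inl rfl, ?_⟩
          apply Set.Subset.antisymm
          · intro c hc
            rcases hTR c hc with h | h | h
            · exact Or.inr h
            · exact Or.inl h
            · exact absurd (h ▸ hc) (hnot v hv)
          · exact Set.insert_subset (hclsu hbu) hRsub
    obtain ⟨w, hw, e2⟩ := e2
    have hwR : cls T w ∉ R := by
      intro h
      rcases hw with rfl | rfl
      · exact hR_u _ h (mem_cls_self _ _)
      · exact hR_v _ h (mem_cls_self _ _)
    rw [bal, bal, e1, e2, Set.ncard_insert_of_notMem hwR hRfin]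
  · -- the new component is balanced
    have e1 : balC T' S = insert (cls T' u) R := by
      apply Set.Subset.antisymm
      · intro c hc
        rcases hT'R c hc with h | h
        · exact Or.inr h
        · exact Or.inl h.1
      · exact Set.insert_subset ⟨u, h1, hb', rfl⟩ hRT'
    have huR : cls T' u ∉ R := fun h => hR_u _ h (mem_cls_self _ _)
    have hbu : ¬ Unb T u := fun h => hb' (h.mono hsub)
    have hbv : ¬ Unb T v := fun h => hb' ((h.mono hsub).of_con (Con.symm ⟨g, he⟩))
    have hcn : ¬ Con T u v := by
      rintro ⟨k, hk⟩
      apply hb'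
      refine Unb.of_two he (hk.mono hsub) ?_
      rintro rfl
      exact ht1 hk
    have e2 : balC T S = insert (cls T u) (insert (cls T v) R) := by
      apply Set.Subset.antisymm
      · intro c hc
        rcases hTR c hc with h | h | h
        · exact Or.inr (Or.inr h)
        · exact Or.inl h
        · exact Or.inr (Or.inl h)
      · exact Set.insert_subset (hclsu hbu) (Set.insert_subset (hclsv hbv) hRsub)
    have hvR : cls T v ∉ R := fun h => hR_v _ h (mem_cls_self _ _)
    have huR' : cls T u ∉ insert (cls T v) R := by
      rintro (h | h)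
      · exact hcn (cls_eq_iff.1 h)
      · exact hR_u _ h (mem_cls_self _ _)
    rw [bal, bal, e1, e2, Set.ncard_insert_of_notMem huR hRfin,
      Set.ncard_insert_of_notMem huR' (hRfin.insert _), Set.ncard_insert_of_notMem hvR hRfin]

end Pool.Agent.Helper28.BW
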