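import Pool.Agent.Helper28.BW.Defs

/-!
# BW-01: walks, components, vertex sets (basic facts)

All facts are immediate from the definition of `W` (induction on the walk).
* `W` is transitive (gains multiply), symmetric (gain inverted), monotone in `T`.
* `Con` is an equivalence relation; `Unb` only depends on the component.
* In a balanced component the gain between two vertices is unique: from `W T u v h` and
  `W T u v h'` we get `W T u u (h * h'⁻¹)`, so `h = h'` if `¬ Unb T u`.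
* A walk between different vertices, or a walk of gain `≠ 1`, has both ends in `vx T`.
* `vx` of a union is the union; `vx` of a finite set is finite (ends of finitely many triples).
* `img` of a union is the union of the images, etc.
-/

set_option autoImplicit false
set_option linter.unusedSectionVars false

namespace Pool.Agent.Helper28.BW

variable {H : Type} [Group H] {T T' : Set (Tri H)} {u v w : ℕ} {g h : H}

theorem W.trans (h1 : W T u v g) (h2 : W T v w h) : W T u w (g * h) := by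
  induction h2 with
  | refl => rwa [mul_one]
  | fwd _ ht ih => rw [← mul_assoc]; exact W.fwd ih ht
  | bwd _ ht ih => rw [← mul_assoc]; exact W.bwd ih ht

theorem W.edge (h1 : (u, v, g) ∈ T) : W T u v g := by
  have := W.fwd (W.refl u) h1
  rwa [one_mul] at this

theorem W.edge_inv (h1 : (u, v, g) ∈ T) : W T v u g⁻¹ := by
  have := W.bwd (W.refl v) h1
  rwa [one_mul] at this

theorem W.symm (h1 : W T u v g) : W T v u g⁻¹ := by
  induction h1 with
  | refl => rw [inv_one]; exact W.refl _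
  | fwd _ ht ih => rw [mul_inv_rev]; exact (W.edge_inv ht).trans ih
  | bwd _ ht ih => rw [mul_inv_rev, inv_inv]; exact (W.edge ht).trans ih

theorem W.mono (h1 : W T u v g) (hT : T ⊆ T') : W T' u v g := by
  induction h1 with
  | refl => exact W.refl _
  | fwd _ ht ih => exact W.fwd ih (hT ht)
  | bwd _ ht ih => exact W.bwd ih (hT ht)

/-- If every triple of `T` is realised by a walk of `T'`, every walk of `T` is. -/
theorem W.of_edges (hT : ∀ t ∈ T, W T' t.1 t.2.1 t.2.2) (h1 : W T u v g) : W T' u v g := by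
  induction h1 with
  | refl => exact W.refl _
  | fwd _ ht ih => exact ih.trans (hT _ ht)
  | bwd _ ht ih => exact ih.trans (hT _ ht).symm

theorem W.empty_iff : W (∅ : Set (Tri H)) u v g ↔ u = v ∧ g = 1 := by
  constructor
  · intro h1
    induction h1 with
    | refl => exact ⟨rfl, rfl⟩
    | fwd _ ht _ => exact absurd ht (Set.notMem_empty _)
    | bwd _ ht _ => exact absurd ht (Set.notMem_empty _)
  · rintro ⟨rfl, rfl⟩
    exact W.refl _

theorem Con.refl (T : Set (Tri H)) (u : ℕ) : Con T u u := ⟨1, W.refl u⟩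

theorem Con.symm (h1 : Con T u v) : Con T v u := by
  obtain ⟨g, hg⟩ := h1
  exact ⟨_, hg.symm⟩

theorem Con.trans (h1 : Con T u v) (h2 : Con T v w) : Con T u w := by
  obtain ⟨g, hg⟩ := h1
  obtain ⟨h, hh⟩ := h2
  exact ⟨_, hg.trans hh⟩

theorem Con.mono (h1 : Con T u v) (hT : T ⊆ T') : Con T' u v := by
  obtain ⟨g, hg⟩ := h1
  exact ⟨_, hg.mono hT⟩

theorem Unb.mono (h1 : Unb T u) (hT : T ⊆ T') : Unb T' u := by
  obtain ⟨g, hg, hw⟩ := h1
  exact ⟨g, hg, hw.mono hT⟩

theorem Unb.of_con (h1 : Unb T u) (h2 : Con T u v) : Unb T v := by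
  obtain ⟨g, hg, hw⟩ := h1
  obtain ⟨h, hh⟩ := h2
  refine ⟨h⁻¹ * g * h, ?_, (hh.symm.trans hw).trans hh⟩
  intro he
  apply hg
  have : g = h * (h⁻¹ * g * h) * h⁻¹ := by group
  rw [this, he]
  group

/-- two different gains between `u` and `v` make `u` unbalanced -/
theorem Unb.of_two (h1 : W T u v g) (h2 : W T u v h) (hne : g ≠ h) : Unb T u := by
  refine ⟨g * h⁻¹, ?_, h1.trans h2.symm⟩
  intro he
  exact hne (mul_inv_eq_one.1 he)

theorem W_unique (hb : ¬ Unb T u) (h1 : W T u v g) (h2 : W T u v h) : g = h := by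
  by_contra hne
  exact hb (Unb.of_two h1 h2 hne)

theorem cls_eq_iff : cls T u = cls T v ↔ Con T u v := by
  constructor
  · intro h1
    have : v ∈ cls T u := by rw [h1]; exact Con.refl T v
    exact this
  · intro h1
    ext x
    exact ⟨fun h2 => h1.symm.trans h2, fun h2 => h1.trans h2⟩

theorem mem_cls_self (T : Set (Tri H)) (u : ℕ) : u ∈ cls T u := Con.refl T u

theorem W_ends (h1 : W T u v g) : (u = v ∧ g = 1) ∨ (u ∈ vx T ∧ v ∈ vx T) := by
  induction h1 with
  | refl => exact Or.inl ⟨rfl, rfl⟩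
  | fwd _ ht ih =>
    rcases ih with ⟨rfl, rfl⟩ | ⟨ha, hb⟩
    · exact Or.inr ⟨⟨_, ht, Or.inl rfl⟩, ⟨_, ht, Or.inr rfl⟩⟩
    · exact Or.inr ⟨ha, ⟨_, ht, Or.inr rfl⟩⟩
  | bwd _ ht ih =>
    rcases ih with ⟨rfl, rfl⟩ | ⟨ha, hb⟩
    · exact Or.inr ⟨⟨_, ht, Or.inr rfl⟩, ⟨_, ht, Or.inl rfl⟩⟩
    · exact Or.inr ⟨ha, ⟨_, ht, Or.inl rfl⟩⟩

theorem Con_ends (h1 : Con T u v) : u = v ∨ (u ∈ vx T ∧ v ∈ vx T) := by
  obtain ⟨g, hg⟩ := h1
  rcases W_ends hg with ⟨h, _⟩ | h
  · exact Or.inl h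
  · exact Or.inr h

theorem Unb.mem_vx (h1 : Unb T u) : u ∈ vx T := by
  obtain ⟨g, hg, hw⟩ := h1
  rcases W_ends hw with ⟨_, h⟩ | h
  · exact absurd h hg
  · exact h.1

theorem mem_vx_left {t : Tri H} (ht : t ∈ T) : t.1 ∈ vx T := ⟨t, ht, Or.inl rfl⟩

theorem mem_vx_right {t : Tri H} (ht : t ∈ T) : t.2.1 ∈ vx T := ⟨t, ht, Or.inr rfl⟩

theorem vx_mono (hT : T ⊆ T') : vx T ⊆ vx T' := by
  rintro u ⟨t, ht, h⟩
  exact ⟨t, hT ht, h⟩

theorem vx_union (T T' : Set (Tri H)) : vx (T ∪ T') = vx T ∪ vx T' := by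
  ext u
  constructor
  · rintro ⟨t, ht | ht, h⟩
    · exact Or.inl ⟨t, ht, h⟩
    · exact Or.inr ⟨t, ht, h⟩
  · rintro (⟨t, ht, h⟩ | ⟨t, ht, h⟩)
    · exact ⟨t, Or.inl ht, h⟩
    · exact ⟨t, Or.inr ht, h⟩

theorem vx_empty : vx (∅ : Set (Tri H)) = ∅ := by
  ext u
  constructor
  · rintro ⟨t, ht, _⟩
    exact absurd ht (Set.notMem_empty _)
  · intro h
    exact absurd h (Set.notMem_empty _)

theorem vx_insert (t : Tri H) (T : Set (Tri H)) :
    vx (insert t T) = insert t.1 (insert t.2.1 (vx T)) := by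
  ext u
  constructor
  · rintro ⟨s, hs | hs, h⟩
    · subst hs
      rcases h with h | h
      · exact Or.inl h
      · exact Or.inr (Or.inl h)
    · exact Or.inr (Or.inr ⟨s, hs, h⟩)
  · rintro (h | h | ⟨s, hs, h⟩)
    · exact ⟨t, Or.inl rfl, Or.inl h⟩
    · exact ⟨t, Or.inl rfl, Or.inr h⟩
    · exact ⟨s, Or.inr hs, h⟩

theorem vx_finite (hT : T.Finite) : (vx T).Finite := by
  have : vx T ⊆ (fun t : Tri H => t.1) '' T ∪ (fun t : Tri H => t.2.1) '' T := by
    rintro u ⟨t, ht, h | h⟩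
    · exact Or.inl ⟨t, ht, h.symm⟩
    · exact Or.inr ⟨t, ht, h.symm⟩
  exact ((hT.image _).union (hT.image _)).subset this

theorem img_finite (G : GG H) (X : Finset ℕ) : (img G X).Finite := X.finite_toSet.image _

theorem img_union (G : GG H) (X Y : Finset ℕ) : img G (X ∪ Y) = img G X ∪ img G Y := by
  rw [img, Finset.coe_union, Set.image_union]
  rfl

theorem img_mono (G : GG H) {X Y : Finset ℕ} (h : X ⊆ Y) : img G X ⊆ img G Y :=
  Set.image_mono (Finset.coe_subset.2 h)

theorem img_insert (G : GG H) (X : Finset ℕ) (e : ℕ) :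
    img G (insert e X) = insert (G e) (img G X) := by
  rw [img, Finset.coe_insert, Set.image_insert_eq]
  rfl

theorem img_empty (G : GG H) : img G ∅ = ∅ := by
  rw [img, Finset.coe_empty, Set.image_empty]

theorem vs_union (G : GG H) (X Y : Finset ℕ) : vs G (X ∪ Y) = vs G X ∪ vs G Y := by
  rw [vs, img_union, vx_union]
  rfl

theorem vs_mono (G : GG H) {X Y : Finset ℕ} (h : X ⊆ Y) : vs G X ⊆ vs G Y :=
  vx_mono (img_mono G h)

theorem vs_finite (G : GG H) (X : Finset ℕ) : (vs G X).Finite := vx_finite (img_finite G X)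

theorem bd_finite (G : GG H) (E X : Finset ℕ) : (bd G E X).Finite :=
  (vs_finite G X).subset Set.inter_subset_left

theorem bd_compl (G : GG H) {E X : Finset ℕ} (h : X ⊆ E) : bd G E (E \ X) = bd G E X := by
  rw [bd, bd, Finset.sdiff_sdiff_eq_self h, Set.inter_comm]

/-- closures are monotone -/
theorem cl_mono (hT : T ⊆ T') : cl T ⊆ cl T' := by
  rintro t (h | ⟨h1, h2⟩)
  · exact Or.inl (h.mono hT)
  · exact Or.inr ⟨h1.mono hT, h2.mono hT⟩

theorem subset_cl (T : Set (Tri H)) : T ⊆ cl T := fun _ ht => Or.inl (W.edge ht)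

/-- The component of `u` in `T` depends only on the edges at vertices of that component: if `C` is
a set of vertices containing `u` such that every triple of `T` with one end in `C` has both ends
in `C` and lies in `T'`, and `T' ⊆ T`, then walks of `T` from `u` are walks of `T'` from `u`. -/
theorem W_closed {C : Set ℕ} (hu : u ∈ C)
    (hC : ∀ t ∈ T, (t.1 ∈ C ∨ t.2.1 ∈ C) → t.1 ∈ C ∧ t.2.1 ∈ C ∧ t ∈ T')
    (h1 : W T u v g) : v ∈ C ∧ W T' u v g := by
  induction h1 with
  | refl => exact ⟨hu, W.refl _⟩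
  | fwd _ ht ih =>
    obtain ⟨hv, hw⟩ := ih
    have := hC _ ht (Or.inl hv)
    exact ⟨this.2.1, W.fwd hw this.2.2⟩
  | bwd _ ht ih =>
    obtain ⟨hv, hw⟩ := ih
    have := hC _ ht (Or.inr hv)
    exact ⟨this.1, W.bwd hw this.2.2⟩

/-- injective renaming of vertices -/
theorem W_map {σ : ℕ → ℕ} (h1 : W T u v g) :
    W ((fun t : Tri H => (σ t.1, σ t.2.1, t.2.2)) '' T) (σ u) (σ v) g := by
  induction h1 with
  | refl => exact W.refl _
  | fwd _ ht ih => exact W.fwd ih ⟨_, ht, rfl⟩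
  | bwd _ ht ih => exact W.bwd ih ⟨_, ht, rfl⟩

/-- walks of the renamed edge set, when `σ` is injective on the vertices of `T` together with `u` -/
theorem W_map_iff {σ : ℕ → ℕ} {D : Set ℕ} (hD : vx T ⊆ D) (hσ : Set.InjOn σ D) (hu : u ∈ D)
    (hv : v ∈ D) :
    W ((fun t : Tri H => (σ t.1, σ t.2.1, t.2.2)) '' T) (σ u) (σ v) g ↔ W T u v g := by
  refine ⟨fun h1 => ?_, fun h1 => W_map h1⟩
  have key : ∀ (a b : ℕ) (g : H), W ((fun t : Tri H => (σ t.1, σ t.2.1, t.2.2)) '' T) a b g →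
      ∀ u ∈ D, σ u = a → ∃ v ∈ D, σ v = b ∧ W T u v g := by
    intro a b g h1
    induction h1 with
    | refl =>
      intro u hu hua
      exact ⟨u, hu, hua, W.refl _⟩
    | fwd _ ht ih =>
      intro u hu hua
      obtain ⟨v, hv, hvb, hw⟩ := ih u hu hua
      obtain ⟨t, ht, hte⟩ := ht
      simp only [Prod.mk.injEq] at hte
      obtain ⟨h1, h2, h3⟩ := hte
      have h4 : t.1 = v := hσ (hD (mem_vx_left ht)) hv (h1.trans hvb.symm)
      refine ⟨t.2.1, hD (mem_vx_right ht), h2, ?_⟩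
      rw [← h3]
      refine W.fwd hw ?_
      rw [← h4]
      exact ht
    | bwd _ ht ih =>
      intro u hu hua
      obtain ⟨v, hv, hvb, hw⟩ := ih u hu hua
      obtain ⟨t, ht, hte⟩ := ht
      simp only [Prod.mk.injEq] at hte
      obtain ⟨h1, h2, h3⟩ := hte
      have h4 : t.2.1 = v := hσ (hD (mem_vx_right ht)) hv (h2.trans hvb.symm)
      refine ⟨t.1, hD (mem_vx_left ht), h1, ?_⟩
      rw [← h3]
      refine W.bwd hw ?_
      rw [← h4]
      exact ht
  obtain ⟨v', hv', he, hw⟩ := key _ _ _ h1 u hu rfl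
  have := hσ hv' hv he
  rwa [this] at hw

end Pool.Agent.Helper28.BW
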