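import Pool.Agent.Helper28.BW.ChooseY
import Pool.Agent.Helper28.BW.Walk

/-!
# BW-53: the size of the boundary is symmetric and submodular

`bd (X ∪ Y) ∪ bd (X ∩ Y) ⊆ bd X ∪ bd Y` and `bd (X ∪ Y) ∩ bd (X ∩ Y) ⊆ bd X ∩ bd Y` for `X, Y ⊆ E`: use `vs_union`, `vs_mono` and `E \ (X ∪ Y) ⊆ E \ X`, `E \ (X ∩ Y) = (E \ X) ∪ (E \ Y)`. Cardinalities:
`Set.ncard_union_add_ncard_inter`. `bd_compl` and `bd ∅ = ∅`.
-/

set_option autoImplicit false

namespace Pool.Agent.Helper28.BW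

variable {H : Type} [Group H]

private theorem bs_card {A B C D : Set ℕ} (hC : C.Finite) (hD : D.Finite)
    (h1 : A ∪ B ⊆ C ∪ D) (h2 : A ∩ B ⊆ C ∩ D) : A.ncard + B.ncard ≤ C.ncard + D.ncard := by
  have hA : A.Finite := (hC.union hD).subset (Set.subset_union_left.trans h1)
  have hB : B.Finite := (hC.union hD).subset (Set.subset_union_right.trans h1)
  rw [← Set.ncard_union_add_ncard_inter A B hA hB, ← Set.ncard_union_add_ncard_inter C D hC hD]
  exact add_le_add (Set.ncard_le_ncard h1 (hC.union hD))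
    (Set.ncard_le_ncard h2 (hC.subset Set.inter_subset_left))

theorem symSub_bd (G : GG H) (E : Finset ℕ) : SymSub E fun X => (bd G E X).ncard := by
  refine ⟨?_, ?_, ?_⟩
  · have h1 : bd G E ∅ = ∅ := by
      have h2 : vs G ∅ = ∅ := by
        rw [vs, img_empty, vx_empty]
      rw [bd, h2, Set.empty_inter]
    simp only [h1, Set.ncard_empty]
  · intro X hX
    simp only [bd_compl G hX]
  · intro X hX Y hY
    have e1 : E \ (X ∩ Y) = (E \ X) ∪ (E \ Y) := Finset.sdiff_inter_distrib_right _ _ _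
    have e2 : E \ (X ∪ Y) ⊆ E \ X := Finset.sdiff_subset_sdiff le_rfl Finset.subset_union_left
    have e3 : E \ (X ∪ Y) ⊆ E \ Y := Finset.sdiff_subset_sdiff le_rfl Finset.subset_union_right
    have f2 := vs_mono G e2
    have f3 := vs_mono G e3
    have g1 : vs G (X ∩ Y) ⊆ vs G X := vs_mono G Finset.inter_subset_left
    have g2 : vs G (X ∩ Y) ⊆ vs G Y := vs_mono G Finset.inter_subset_right
    refine bs_card (bd_finite G E X) (bd_finite G E Y) ?_ ?_
    · rintro u (⟨h1, h2⟩ | ⟨h1, h2⟩)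
      · rw [vs_union] at h1
        rcases h1 with h1 | h1
        · exact Or.inl ⟨h1, f2 h2⟩
        · exact Or.inr ⟨h1, f3 h2⟩
      · rw [e1, vs_union] at h2
        rcases h2 with h2 | h2
        · exact Or.inl ⟨g1 h1, h2⟩
        · exact Or.inr ⟨g2 h1, h2⟩
    · rintro u ⟨⟨_, h2⟩, ⟨h3, _⟩⟩
      exact ⟨⟨g1 h3, f2 h2⟩, ⟨g2 h3, f3 h2⟩⟩

end Pool.Agent.Helper28.BW
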