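import Mathlib

/-!
# Branch-width of a matroid: definitions
-/

set_option autoImplicit false

namespace Pool.Agent.Helper28.BW

/-- the connectivity of the set `X` in `N` is at most `k`: `r(X) + r(E - X) ≤ r(E) + k` -/
def ConnLe (N : Matroid ℕ) (k : ℕ) (X : Set ℕ) : Prop :=
  N.eRk X + N.eRk (N.E \ X) ≤ N.eRank + k

/-- rooted binary decomposition of a set into single elements, all displayed sets have
connectivity at most `k` -/
inductive Decomp (N : Matroid ℕ) (k : ℕ) : Set ℕ → Prop
  | leaf (e : ℕ) : ConnLe N k {e} → Decomp N k {e}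
  | node (A B : Set ℕ) : Disjoint A B → Decomp N k A → Decomp N k B → ConnLe N k (A ∪ B) →
      Decomp N k (A ∪ B)

/-- `N` has branch-width at most `k` -/
def BwLe (N : Matroid ℕ) (k : ℕ) : Prop := N.E = ∅ ∨ Decomp N k N.E

end Pool.Agent.Helper28.BW
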