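import Mathlib

/-!
# BW-38: branch decompositions and chains

`Dec l k A`: the finite set `A` has a rooted binary decomposition into single elements in which every occurring set `B` has
`l B ≤ k`. With `l` the connectivity function of a matroid and `A` the ground set this says that the branch-width (maximum of `l` over the
displayed sets) is at most `k` (subdivide an edge of the cubic tree to get the root, and conversely).
`dec_chain`: if `2 ^ m ≤ |A|` then there are sets `X 0 ⊂ X 1 ⊂ ... ⊂ X m = A` with `l (X i) ≤ k`. Induction on `Dec`: leaf: `m = 0`, `X 0 = A`. Node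
`A = A1 ∪ A2`: for `m = 0` take `X 0 = A`; for `m + 1` one of `A1`, `A2` has at least `2 ^ m` elements, take its chain and add `A` (`A1 ⊂ A` as `A2` is
nonempty). All sets in a decomposition are nonempty.
-/

set_option autoImplicit false

namespace Pool.Agent.Helper28.BW

/-- rooted binary decomposition of `A` into single elements, all sets `B` in it satisfy `l B ≤ k` -/
inductive Dec (l : Finset ℕ → ℕ) (k : ℕ) : Finset ℕ → Prop
  | leaf (e : ℕ) : l {e} ≤ k → Dec l k {e}
  | node (A B : Finset ℕ) : Disjoint A B → Dec l k A → Dec l k B → l (A ∪ B) ≤ k →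
      Dec l k (A ∪ B)

theorem Dec.nonempty {l : Finset ℕ → ℕ} {k : ℕ} {A : Finset ℕ} (h : Dec l k A) :
    A.Nonempty := by
  induction h with
  | leaf e _ => exact Finset.singleton_nonempty e
  | node A B _ _ _ _ ihA _ => exact ihA.mono Finset.subset_union_left

theorem dec_chain {l : Finset ℕ → ℕ} {k : ℕ} {A : Finset ℕ} (h : Dec l k A) :
    ∀ m, 2 ^ m ≤ A.card → ∃ X : ℕ → Finset ℕ, X m = A ∧
      (∀ i j, i < j → j ≤ m → X i ⊂ X j) ∧ ∀ i, i ≤ m → l (X i) ≤ k := by
  have key : ∀ (A A' : Finset ℕ) (m : ℕ), A ⊂ A' → l A' ≤ k →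
      (∃ X : ℕ → Finset ℕ, X m = A ∧ (∀ i j, i < j → j ≤ m → X i ⊂ X j) ∧
        ∀ i, i ≤ m → l (X i) ≤ k) →
      ∃ X : ℕ → Finset ℕ, X (m + 1) = A' ∧ (∀ i j, i < j → j ≤ m + 1 → X i ⊂ X j) ∧
        ∀ i, i ≤ m + 1 → l (X i) ≤ k := by
    rintro A A' m hA hl ⟨X, h1, h2, h3⟩
    have hle : ∀ i, i ≤ m → X i ⊆ A := by
      intro i hi
      rcases Nat.lt_or_eq_of_le hi with h | h
      · rw [← h1]
        exact (h2 i m h le_rfl).subset
      · rw [h, h1]
    refine ⟨fun i => if i ≤ m then X i else A', ?_, ?_, ?_⟩
    · exact if_neg (by omega)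
    · intro i j hij hj
      change (if i ≤ m then X i else A') ⊂ (if j ≤ m then X j else A')
      rcases Nat.lt_or_ge m j with hmj | hmj
      · rw [if_neg (show ¬ j ≤ m by omega), if_pos (show i ≤ m by omega)]
        exact lt_of_le_of_lt (hle i (by omega)) hA
      · rw [if_pos hmj, if_pos (show i ≤ m by omega)]
        exact h2 i j hij hmj
    · intro i hi
      change l (if i ≤ m then X i else A') ≤ k
      rcases Nat.lt_or_ge m i with hmi | hmi
      · rw [if_neg (show ¬ i ≤ m by omega)]
        exact hl
      · rw [if_pos hmi]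
        exact h3 i hmi
  have zero : ∀ A : Finset ℕ, l A ≤ k → ∃ X : ℕ → Finset ℕ, X 0 = A ∧
      (∀ i j, i < j → j ≤ 0 → X i ⊂ X j) ∧ ∀ i, i ≤ 0 → l (X i) ≤ k := fun A hA =>
    ⟨fun _ => A, rfl, fun i j hij hj => absurd hij (by omega), fun _ _ => hA⟩
  induction h with
  | leaf e he =>
    intro m hm
    rw [Finset.card_singleton] at hm
    have hm0 : m = 0 := by
      by_contra hne
      have : 1 < 2 ^ m := Nat.one_lt_two_pow hne
      omega
    subst hm0
    exact zero {e} he
  | node A B hAB hA hB hl ihA ihB =>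
    intro m hm
    cases m with
    | zero => exact zero (A ∪ B) hl
    | succ m =>
      rw [Finset.card_union_of_disjoint hAB, pow_succ] at hm
      rcases Nat.lt_or_ge A.card (2 ^ m) with h | h
      · have hB' : 2 ^ m ≤ B.card := by omega
        have hss : B ⊂ A ∪ B := by
          rw [Finset.ssubset_iff_subset_ne]
          refine ⟨Finset.subset_union_right, fun heq => ?_⟩
          obtain ⟨a, ha⟩ := hA.nonempty
          have : a ∈ B := heq ▸ Finset.mem_union_left B ha
          exact Finset.disjoint_left.mp hAB ha this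
        exact key B (A ∪ B) m hss hl (ihB m hB')
      · have hss : A ⊂ A ∪ B := by
          rw [Finset.ssubset_iff_subset_ne]
          refine ⟨Finset.subset_union_left, fun heq => ?_⟩
          obtain ⟨a, ha⟩ := hB.nonempty
          have : a ∈ A := heq ▸ Finset.mem_union_right A ha
          exact Finset.disjoint_left.mp hAB this ha
        exact key A (A ∪ B) m hss hl (ihA m h)

end Pool.Agent.Helper28.BW
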