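import Pool.Agent.Helper28.BW.Frozen

/-!
# BW-37: rank functions of finite matroids on subsets of `ℕ`

`mrk N X` is the rank of the finite set `X` in the matroid `N` (elements outside the ground set have rank `0`).
It is a rank function (`Matroid.eRk` is monotone, submodular, increases by at most one). `mrk N X = |X| ↔ N.Indep X` for
`X ⊆ N.E` (for `X` finite: `Matroid.Indep` iff `eRk = encard`). Contraction: `(N.contract C).eRk X + N.eRk C = N.eRk (X ∪ C)`.
`gainGraphic_iff_rep`: `N` is gain-graphic in the sense of Helper25 iff `mrk N` has a representation on the ground set: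
if `G.Rep N` then `ofG G` has the same independent sets as `mrk N` (`ind_iff_rk`) and `rkFn_ext`; conversely use `toG`.
`minor_rep`: if every proper minor of `N` is gain-graphic then every proper minor of `(mrk N, E)` has a representation:
`(N.contract C).delete D` is a minor, different from `N` since the ground set is smaller, and its rank function on `E \ (C ∪ D)` is `contr (mrk N) C`.
-/

set_option autoImplicit false

namespace Pool.Agent.Helper28.BW

open Pool.Agent.Helper25.GG

/-- the rank of a finite set in a matroid -/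
noncomputable def mrk (N : Matroid ℕ) (X : Finset ℕ) : ℕ := (N.eRk (X : Set ℕ)).toNat

private theorem coe_mrk (N : Matroid ℕ) (X : Finset ℕ) :
    ((mrk N X : ℕ) : ℕ∞) = N.eRk (X : Set ℕ) := by
  rw [mrk]
  apply ENat.natCast_toNat
  intro h
  have h1 := N.eRk_le_encard (X : Set ℕ)
  rw [h, Set.encard_coe_eq_coe_finsetCard] at h1
  exact absurd h1 (by simp)

theorem mrk_rkFn (N : Matroid ℕ) : RkFn (mrk N) := by
  refine ⟨?_, ?_, ?_, ?_⟩
  · rw [mrk, Finset.coe_empty, Matroid.eRk_empty]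
    rfl
  · intro X Y h
    have h1 := N.eRk_mono (Finset.coe_subset.2 h)
    rw [← coe_mrk, ← coe_mrk] at h1
    exact_mod_cast h1
  · intro X e
    have h1 := N.eRk_insert_le_add_one e (X : Set ℕ)
    rw [← Finset.coe_insert, ← coe_mrk, ← coe_mrk] at h1
    exact_mod_cast h1
  · intro X Y
    have h1 := N.eRk_inter_add_eRk_union_le (X : Set ℕ) (Y : Set ℕ)
    rw [← Finset.coe_inter, ← Finset.coe_union, ← coe_mrk, ← coe_mrk, ← coe_mrk, ← coe_mrk] at h1
    have h2 : mrk N (X ∩ Y) + mrk N (X ∪ Y) ≤ mrk N X + mrk N Y := by exact_mod_cast h1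
    omega

private theorem indep_iff_mrk (N : Matroid ℕ) (X : Finset ℕ) :
    mrk N X = X.card ↔ N.Indep (X : Set ℕ) := by
  rw [Matroid.indep_iff_eRk_eq_encard_of_finite X.finite_toSet, ← coe_mrk,
    Set.encard_coe_eq_coe_finsetCard]
  exact ENat.natCast_inj.symm

theorem mrk_indep {N : Matroid ℕ} {X : Finset ℕ} (hX : (X : Set ℕ) ⊆ N.E) :
    mrk N X = X.card ↔ N.Indep (X : Set ℕ) :=
  indep_iff_mrk N X

private theorem mrk_contract (N : Matroid ℕ) {C X : Finset ℕ} (hC : Disjoint X C) :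
    mrk (N.contract (C : Set ℕ)) X + mrk N C = mrk N (X ∪ C) := by
  obtain ⟨I', hI'⟩ := N.exists_isBasis' (C : Set ℕ)
  obtain ⟨K', hK'⟩ := (N.contract (C : Set ℕ)).exists_isBasis' (X : Set ℕ)
  have hIf : I'.Finite := C.finite_toSet.subset hI'.subset
  have hKf : K'.Finite := X.finite_toSet.subset hK'.subset
  obtain ⟨I, rfl⟩ := hIf.exists_finset_coe
  obtain ⟨K, rfl⟩ := hKf.exists_finset_coe
  have hIC : I ⊆ C := Finset.coe_subset.1 hI'.subset
  have hKX : K ⊆ X := Finset.coe_subset.1 hK'.subset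
  have hKI : Disjoint K I := Finset.disjoint_of_subset_left hKX (Finset.disjoint_of_subset_right hIC hC)
  have h1 : mrk N C = I.card := by
    have h := hI'.eRk_eq_encard
    rw [← coe_mrk, Set.encard_coe_eq_coe_finsetCard] at h
    exact_mod_cast h
  have h2 : mrk (N.contract (C : Set ℕ)) X = K.card := by
    have h := hK'.eRk_eq_encard
    rw [← coe_mrk, Set.encard_coe_eq_coe_finsetCard] at h
    exact_mod_cast h
  have h3 : N.Indep ((K ∪ I : Finset ℕ) : Set ℕ) := by
    have h := hK'.indep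
    rw [hI'.contract_indep_iff] at h
    rw [Finset.coe_union]
    exact h.1
  have h4 : mrk N (K ∪ I) = K.card + I.card := by
    rw [(indep_iff_mrk N _).2 h3, Finset.card_union_of_disjoint hKI]
  have h5 : mrk N (K ∪ I) ≤ mrk N (X ∪ C) := (mrk_rkFn N).mono _ _ (Finset.union_subset_union hKX hIC)
  have h6 : mrk N (X ∪ C) ≤ mrk N (K ∪ I) := by
    by_contra hlt
    push Not at hlt
    have h7 : N.eRk ((K ∪ I : Finset ℕ) : Set ℕ) < N.eRk ((X ∪ C : Finset ℕ) : Set ℕ) := by
      rw [← coe_mrk, ← coe_mrk]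
      exact_mod_cast hlt
    obtain ⟨y, hy, hy1⟩ := Matroid.exists_eRk_insert_eq_add_one_of_lt h7
    rw [← Finset.coe_insert, ← coe_mrk, ← coe_mrk] at hy1
    have hy2 : mrk N (insert y (K ∪ I)) = mrk N (K ∪ I) + 1 := by exact_mod_cast hy1
    have hyn : y ∉ K ∪ I := fun h => hy.2 (Finset.mem_coe.2 h)
    have hyd : y ∈ X ∪ C := Finset.mem_coe.1 hy.1
    have h8 : N.Indep ((insert y (K ∪ I) : Finset ℕ) : Set ℕ) := by
      rw [← indep_iff_mrk, hy2, h4, Finset.card_insert_of_notMem hyn, Finset.card_union_of_disjoint hKI]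
    rw [Finset.notMem_union] at hyn
    by_cases hyC : y ∈ C
    · have h9 : N.Indep ((insert y I : Finset ℕ) : Set ℕ) := by
        refine h8.subset (Finset.coe_subset.2 ?_)
        exact Finset.insert_subset_insert y Finset.subset_union_right
      have h10 : insert y I ⊆ C := Finset.insert_subset hyC hIC
      have h11 := (mrk_rkFn N).mono _ _ h10
      rw [(indep_iff_mrk N _).2 h9, Finset.card_insert_of_notMem hyn.2, h1] at h11
      omega
    · have hyX : y ∈ X := by
        rcases Finset.mem_union.1 hyd with h | h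
        · exact h
        · exact absurd h hyC
      have h9 : (N.contract (C : Set ℕ)).Indep ((insert y K : Finset ℕ) : Set ℕ) := by
        rw [hI'.contract_indep_iff, ← Finset.coe_union, Finset.disjoint_coe, Finset.insert_union]
        exact ⟨h8, Finset.disjoint_of_subset_right (Finset.insert_subset hyX hKX) hC.symm⟩
      have h10 : insert y K ⊆ X := Finset.insert_subset hyX hKX
      have h11 := (mrk_rkFn (N.contract (C : Set ℕ))).mono _ _ h10
      rw [(indep_iff_mrk _ _).2 h9, Finset.card_insert_of_notMem hyn.1, h2] at h11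
      omega
  omega

theorem mrk_minor (N : Matroid ℕ) {C D X : Finset ℕ} (hC : Disjoint X C) (hD : Disjoint X D) :
    mrk ((N.contract (C : Set ℕ)).delete (D : Set ℕ)) X = contr (mrk N) C X := by
  have h1 : mrk ((N.contract (C : Set ℕ)).delete (D : Set ℕ)) X = mrk (N.contract (C : Set ℕ)) X := by
    rw [mrk, mrk, Matroid.delete_eq_restrict, Matroid.restrict_eRk_eq', ← Matroid.eRk_inter_ground _ (X : Set ℕ)]
    congr 2
    ext e
    simp only [Set.mem_inter_iff, Set.mem_sdiff]
    constructor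
    · rintro ⟨h1, h2, h3⟩
      exact ⟨h1, h2⟩
    · rintro ⟨h1, h2⟩
      exact ⟨h1, h2, fun h3 => Finset.disjoint_left.1 hD (Finset.mem_coe.1 h1) (Finset.mem_coe.1 h3)⟩
  have h2 := mrk_contract N hC
  rw [h1, contr, ← h2]
  omega

variable {H : Type} [Group H]

theorem gainGraphic_iff_rep {N : Matroid ℕ} (hN : N.E.Finite) :
    GainGraphic H N ↔ ∃ G : GG H, Rep G (mrk N) hN.toFinset := by
  have hsub : ∀ I : Finset ℕ, I ⊆ hN.toFinset → (I : Set ℕ) ⊆ N.E := by
    intro I hI e he
    exact hN.mem_toFinset.1 (hI (Finset.mem_coe.1 he))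
  constructor
  · rintro ⟨G, -, hG⟩
    refine ⟨ofG G, rkFn_ext (rk_rkFn _) (mrk_rkFn N) fun I hI => ?_⟩
    rw [← ind_iff_rk, mrk_indep (hsub I hI), hG _ (hsub I hI)]
  · rintro ⟨G, hG⟩
    refine ⟨toG G, hN, fun I hI => ?_⟩
    obtain ⟨J, rfl⟩ := (hN.subset hI).exists_finset_coe
    have hJ : J ⊆ hN.toFinset := by
      intro e he
      exact hN.mem_toFinset.2 (hI (Finset.mem_coe.2 he))
    rw [ind_iff_rk, ofG_toG, hG J hJ, mrk_indep hI]

theorem minor_rep {N : Matroid ℕ} (hN : N.E.Finite)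
    (hmin : ∀ N' : Matroid ℕ, Matroid.IsMinor N' N → N' ≠ N → GainGraphic H N') :
    ∀ C D, C ⊆ hN.toFinset → D ⊆ hN.toFinset → Disjoint C D → (C ∪ D).Nonempty →
      ∃ G : GG H, Rep G (contr (mrk N) C) (hN.toFinset \ (C ∪ D)) := by
  intro C D hC hD _ hne
  obtain ⟨N', hN'⟩ : ∃ N' : Matroid ℕ, N' = (N.contract (C : Set ℕ)).delete (D : Set ℕ) := ⟨_, rfl⟩
  have hE : N'.E = (N.E \ (C : Set ℕ)) \ (D : Set ℕ) := by rw [hN']; rfl
  have hfin : N'.E.Finite := by
    rw [hE]
    exact hN.subset (Set.sdiff_subset.trans Set.sdiff_subset)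
  have hne' : N' ≠ N := by
    intro h
    obtain ⟨e, he⟩ := hne
    have h1 : e ∈ N.E := by
      rcases Finset.mem_union.1 he with h | h
      · exact hN.mem_toFinset.1 (hC h)
      · exact hN.mem_toFinset.1 (hD h)
    rw [← h, hE] at h1
    rcases Finset.mem_union.1 he with h | h
    · exact h1.1.2 (Finset.mem_coe.2 h)
    · exact h1.2 (Finset.mem_coe.2 h)
  obtain ⟨G, hG⟩ := (gainGraphic_iff_rep hfin).1 (hmin N' ⟨_, _, hN'⟩ hne')
  refine ⟨G, fun X hX => ?_⟩
  have hX1 : ∀ e ∈ X, e ∈ N.E ∧ e ∉ C ∧ e ∉ D := by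
    intro e he
    have h := Finset.mem_sdiff.1 (hX he)
    rw [Finset.notMem_union] at h
    exact ⟨hN.mem_toFinset.1 h.1, h.2⟩
  rw [hG X ?_, hN', mrk_minor N (Finset.disjoint_left.2 fun e he => (hX1 e he).2.1)
    (Finset.disjoint_left.2 fun e he => (hX1 e he).2.2)]
  intro e he
  rw [Set.Finite.mem_toFinset, hE]
  exact ⟨⟨(hX1 e he).1, fun h => (hX1 e he).2.1 (Finset.mem_coe.1 h)⟩, fun h => (hX1 e he).2.2 (Finset.mem_coe.1 h)⟩

end Pool.Agent.Helper28.BW
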