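import Pool.Agent.Helper28.BW.BwBasic
import Pool.Agent.Helper28.BW.Mrk
import Pool.Agent.Helper28.BW.Dec

/-!
# BW-56: branch-width

`ConnLe N k X`: `r(X) + r(E - X) ≤ r(E) + k`. `Decomp N k A`: rooted binary decomposition of `A` into single elements in
which all displayed sets satisfy `ConnLe N k`. `BwLe N k`: `N` has branch-width at most `k` (the maximum of the connectivity over the displayed sets). Bridge to `Dec`.
-/

set_option autoImplicit false

namespace Pool.Agent.Helper28.BW

theorem coe_mrk {N : Matroid ℕ} (X : Finset ℕ) : (mrk N X : ℕ∞) = N.eRk (X : Set ℕ) := by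
  unfold mrk
  refine ENat.natCast_toNat (ne_of_lt (lt_of_le_of_lt (N.eRk_le_encard _) ?_))
  exact (Finset.finite_toSet X).encard_lt_top

theorem connLe_iff {N : Matroid ℕ} (hN : N.E.Finite) {k : ℕ} {X : Finset ℕ}
    (hX : X ⊆ hN.toFinset) : ConnLe N k (X : Set ℕ) ↔ lam (mrk N) hN.toFinset X ≤ k := by
  have h1 := lam_eq (mrk_rkFn N) hX
  have h2 : N.eRk (N.E \ (X : Set ℕ)) = (mrk N (hN.toFinset \ X) : ℕ∞) := by
    rw [coe_mrk]; simp
  have h3 : N.eRank = (mrk N hN.toFinset : ℕ∞) := by
    rw [coe_mrk, Set.Finite.coe_toFinset, N.eRk_ground]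
  unfold ConnLe
  rw [h2, h3, ← coe_mrk]
  norm_cast
  omega

theorem Decomp.dec {N : Matroid ℕ} (hN : N.E.Finite) {k : ℕ} {A : Set ℕ} (h : Decomp N k A) :
    A ⊆ N.E → ∀ A' : Finset ℕ, (A' : Set ℕ) = A → Dec (lam (mrk N) hN.toFinset) k A' := by
  induction h with
  | leaf e he =>
    intro hA A' hA'
    have : A' = {e} := by
      apply Finset.coe_injective
      rw [hA']; simp
    subst this
    refine Dec.leaf e ((connLe_iff hN ?_).1 ?_)
    · intro x hx
      rw [Set.Finite.mem_toFinset]
      apply hA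
      simpa using hx
    · simpa using he
  | node A B hd h1 h2 hc ih1 ih2 =>
    intro hA A' hA'
    classical
    have hfA : A.Finite := hN.subset (Set.subset_union_left.trans hA)
    have hfB : B.Finite := hN.subset (Set.subset_union_right.trans hA)
    have e : A' = hfA.toFinset ∪ hfB.toFinset := by
      apply Finset.coe_injective
      rw [hA']; simp
    have g1 := ih1 (Set.subset_union_left.trans hA) hfA.toFinset (by simp)
    have g2 := ih2 (Set.subset_union_right.trans hA) hfB.toFinset (by simp)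
    rw [e]
    refine Dec.node _ _ ?_ g1 g2 ((connLe_iff hN ?_).1 ?_)
    · rw [← Finset.disjoint_coe]
      simpa using hd
    · intro x hx
      rw [Set.Finite.mem_toFinset]
      apply hA
      simpa using hx
    · simpa using hc

theorem BwLe.dec {N : Matroid ℕ} (hN : N.E.Finite) {k : ℕ} (h : BwLe N k) (hne : N.E ≠ ∅) :
    Dec (lam (mrk N) hN.toFinset) k hN.toFinset := by
  rcases h with h | h
  · exact absurd h hne
  · exact h.dec hN subset_rfl hN.toFinset (by simp)

/-- if deleting `e` gives a matroid of branch-width at most `k` then `N` has branch-width at most `k + 1` -/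
theorem Decomp.of_delete {N : Matroid ℕ} {k e : ℕ} (he : e ∈ N.E) {A : Set ℕ}
    (h : Decomp (N.delete {e}) k A) : A ⊆ N.E \ {e} → Decomp N (k + 1) A := by
  have key : ∀ X ⊆ N.E \ {e}, ConnLe (N.delete {e}) k X → ConnLe N (k + 1) X := by
    intro X hX hc
    unfold ConnLe at hc ⊢
    have a1 : (N.delete {e}).eRk X = N.eRk X := N.restrict_eRk_eq hX
    have a2 : (N.delete {e}).eRk ((N.delete {e}).E \ X) = N.eRk ((N.E \ {e}) \ X) := by
      rw [Matroid.delete_ground]
      exact N.restrict_eRk_eq Set.sdiff_subset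
    have a3 : (N.delete {e}).eRank ≤ N.eRank := by
      rw [Matroid.delete_eq_restrict, Matroid.eRank_restrict]
      exact N.eRk_le_eRank _
    have a4 : N.eRk (N.E \ X) ≤ N.eRk ((N.E \ {e}) \ X) + 1 := by
      have : N.E \ X ⊆ insert e ((N.E \ {e}) \ X) := by
        intro x hx
        by_cases hxe : x = e
        · exact Or.inl hxe
        · exact Or.inr ⟨⟨hx.1, hxe⟩, hx.2⟩
      exact (N.eRk_mono this).trans (N.eRk_insert_le_add_one _ _)
    rw [a1, a2] at hc
    calc N.eRk X + N.eRk (N.E \ X) ≤ N.eRk X + (N.eRk ((N.E \ {e}) \ X) + 1) := by gcongr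
      _ = (N.eRk X + N.eRk ((N.E \ {e}) \ X)) + 1 := by rw [add_assoc]
      _ ≤ ((N.delete {e}).eRank + k) + 1 := by gcongr
      _ ≤ (N.eRank + k) + 1 := by gcongr
      _ = N.eRank + ((k + 1 : ℕ) : ℕ∞) := by push_cast; rw [add_assoc]
  induction h with
  | leaf x hx => intro hA; exact Decomp.leaf x (key _ hA hx)
  | node A B hd _ _ hc ih1 ih2 =>
    intro hA
    exact Decomp.node A B hd (ih1 (Set.subset_union_left.trans hA))
      (ih2 (Set.subset_union_right.trans hA)) (key _ hA hc)

theorem bwLe_of_delete {N : Matroid ℕ} {k e : ℕ} (he : e ∈ N.E)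
    (h : BwLe (N.delete {e}) k) : BwLe N (k + 1) := by
  have hleaf : ConnLe N (k + 1) {e} := by
    unfold ConnLe
    have h1 : N.eRk {e} ≤ 1 := by
      have := N.eRk_le_encard {e}
      simpa using this
    have h2 : N.eRk (N.E \ {e}) ≤ N.eRank := N.eRk_le_eRank _
    calc N.eRk {e} + N.eRk (N.E \ {e}) ≤ 1 + N.eRank := by gcongr
      _ = N.eRank + 1 := add_comm _ _
      _ ≤ N.eRank + ((k + 1 : ℕ) : ℕ∞) := by gcongr; norm_cast; omega
  have hE : N.E = {e} ∪ (N.E \ {e}) := by
    rw [Set.union_sdiff_cancel (Set.singleton_subset_iff.2 he)]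
  rcases h with h | h
  · right
    rw [Matroid.delete_ground] at h
    rw [hE, h, Set.union_empty]
    exact Decomp.leaf e hleaf
  · right
    rw [Matroid.delete_ground] at h
    rw [hE]
    refine Decomp.node _ _ Set.disjoint_sdiff_right (Decomp.leaf e hleaf)
      (h.of_delete he subset_rfl) ?_
    rw [← hE]
    unfold ConnLe
    rw [Set.sdiff_self, N.eRk_empty, add_zero, N.eRk_ground]
    exact le_self_add

end Pool.Agent.Helper28.BW
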