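import Pool.Agent.Helper28.BW.Trees

/-!
# BW-41: choosing the separator

`SymSub E l`: `l` is a symmetric submodular function on the subsets of `E` with `l ∅ = 0`.
`Cfg`: `x = wrap L z` is an `Ok` tree with set in `E`; `z.set ⊆ Y ⊆ x.set`, `l Y = κ` is minimum among the sets between `z.set` and
`x.set`; and every subtree `t` of a sibling on the path which is split by `Y` satisfies `l (t.set ∩ Y) < l t.set` and
`l (t.set \ Y) < l t.set`.
`choose_Y`: such `Y`, `κ` exist. Let `κ` be the minimum of `l Y` over the finitely many `Y` between; among the `Y` with `l Y = κ` choose one with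
`pS Y L` minimum. Let `t` be a subtree of a sibling, split by `Y`. Suppose `l (t.set ∩ Y) ≥ l t.set`. By submodularity
`l (t.set ∪ Y) ≤ l t.set + l Y - l (t.set ∩ Y) ≤ κ`, and `Y' = t.set ∪ Y` is between `z.set` and `x.set`, so `l Y' = κ`. Every subtree `t'` of a sibling which is split by `Y'`
is split by `Y` (by laminarity of subtrees of `x` (`Sub.laminar`): if `t'.set` is disjoint from `t.set` nothing changes; if
`t'.set ⊆ t.set` then `t'` is not split by `Y'`; if `t.set ⊆ t'.set` then `t'.set ∩ Y ⊇ t.set ∩ Y ≠ ∅`), and `t` is split by `Y` and not by `Y'`. So `pS Y' L < pS Y L`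
(count by induction; `cS` is monotone in the splitting relation, strictly because of `t`), contradiction. Suppose `l (t.set \ Y) ≥ l t.set`. With
`Yc = E \ Y`: `l (t.set ∩ Yc) + l (t.set ∪ Yc) ≤ l t.set + l Yc = l t.set + κ`, and `E \ (t.set ∪ Yc) = Y \ t.set`, so `l (Y \ t.set) ≤ κ` by
symmetry; `z.set ⊆ Y \ t.set` as siblings are disjoint from `z` (`wrap_sib_disjoint`). `Y'' = Y \ t.set` splits fewer subtrees by the same argument. Contradiction.
-/

set_option autoImplicit false

namespace Pool.Agent.Helper28.BW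

open BT

/-- symmetric submodular functions -/
structure SymSub (E : Finset ℕ) (l : Finset ℕ → ℕ) : Prop where
  empty : l ∅ = 0
  symm : ∀ X ⊆ E, l (E \ X) = l X
  sub : ∀ X ⊆ E, ∀ Y ⊆ E, l (X ∪ Y) + l (X ∩ Y) ≤ l X + l Y

/-- the uncrossing configuration -/
structure Cfg (E : Finset ℕ) (l : Finset ℕ → ℕ) (L : List (Bool × BT)) (z : BT) (Y : Finset ℕ)
    (κ : ℕ) : Prop where
  ss : SymSub E l
  ok : (wrap L z).Ok
  sE : (wrap L z).set ⊆ E
  zY : z.set ⊆ Y
  Yx : Y ⊆ (wrap L z).set
  lY : l Y = κ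
  min : ∀ Y', z.set ⊆ Y' → Y' ⊆ (wrap L z).set → κ ≤ l Y'
  spl : ∀ c s, (c, s) ∈ L → ∀ t, Sub t s → Split Y t →
    l (t.set ∩ Y) < l t.set ∧ l (t.set \ Y) < l t.set

private lemma h86_cS_mono (Y Y' : Finset ℕ) (s : BT) (h : ∀ t, Sub t s → Split Y' t → Split Y t) :
    cS Y' s ≤ cS Y s := by
  induction s with
  | leaf s =>
    have h1 := h (leaf s) (Sub.refl _)
    unfold cS
    split_ifs with h2 h3
    · exact le_refl _
    · exact absurd (h1 h2) h3
    · exact Nat.zero_le _
    · exact le_refl _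
  | node a b iha ihb =>
    have h1 := h (node a b) (Sub.refl _)
    have ha := iha fun t ht => h t (Sub.left ht)
    have hb := ihb fun t ht => h t (Sub.right ht)
    unfold cS
    split_ifs with h2 h3
    · omega
    · exact absurd (h1 h2) h3
    · omega
    · omega

private lemma h86_cS_lt (Y Y' : Finset ℕ) (s : BT) (h : ∀ t, Sub t s → Split Y' t → Split Y t)
    (t : BT) (ht : Sub t s) (h1 : Split Y t) (h2 : ¬ Split Y' t) : cS Y' s < cS Y s := by
  induction ht with
  | refl =>
    cases t with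
    | leaf s =>
      unfold cS
      rw [if_neg h2, if_pos h1]
      exact Nat.zero_lt_one
    | node a b =>
      have ha := h86_cS_mono Y Y' a fun t ht => h t (Sub.left ht)
      have hb := h86_cS_mono Y Y' b fun t ht => h t (Sub.right ht)
      unfold cS
      rw [if_neg h2, if_pos h1]
      omega
  | @left a b ht ih =>
    have h0 := h (node a b) (Sub.refl _)
    have ha := ih (fun t ht => h t (Sub.left ht))
    have hb := h86_cS_mono Y Y' b fun t ht => h t (Sub.right ht)
    unfold cS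
    split_ifs with h2 h3
    · omega
    · exact absurd (h0 h2) h3
    · omega
    · omega
  | @right a b ht ih =>
    have h0 := h (node a b) (Sub.refl _)
    have ha := h86_cS_mono Y Y' a fun t ht => h t (Sub.left ht)
    have hb := ih (fun t ht => h t (Sub.right ht))
    unfold cS
    split_ifs with h2 h3
    · omega
    · exact absurd (h0 h2) h3
    · omega
    · omega

private lemma h86_pS_mono (Y Y' : Finset ℕ) (L : List (Bool × BT))
    (h : ∀ c s, (c, s) ∈ L → ∀ t, Sub t s → Split Y' t → Split Y t) : pS Y' L ≤ pS Y L := by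
  induction L with
  | nil => exact le_refl _
  | cons a L ih =>
    obtain ⟨c, s⟩ := a
    have h1 := h86_cS_mono Y Y' s (h c s List.mem_cons_self)
    have h2 := ih fun c' s' hs => h c' s' (List.mem_cons_of_mem _ hs)
    unfold pS
    omega

private lemma h86_pS_lt (Y Y' : Finset ℕ) (L : List (Bool × BT))
    (h : ∀ c s, (c, s) ∈ L → ∀ t, Sub t s → Split Y' t → Split Y t)
    (c : Bool) (s : BT) (hcs : (c, s) ∈ L) (t : BT) (ht : Sub t s) (h1 : Split Y t)
    (h2 : ¬ Split Y' t) : pS Y' L < pS Y L := by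
  induction L with
  | nil => simp at hcs
  | cons a L ih =>
    obtain ⟨c', s'⟩ := a
    rcases List.mem_cons.1 hcs with he | hm
    · have hs : s = s' := congrArg Prod.snd he
      subst hs
      have h3 := h86_cS_lt Y Y' s (h c' s List.mem_cons_self) t ht h1 h2
      have h4 := h86_pS_mono Y Y' L fun c' s' hs => h c' s' (List.mem_cons_of_mem _ hs)
      unfold pS
      omega
    · have h3 := h86_cS_mono Y Y' s' (h c' s' List.mem_cons_self)
      have h4 := ih (fun c' s' hs => h c' s' (List.mem_cons_of_mem _ hs)) hm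
      unfold pS
      omega

/-- uncrossing with the complement -/
private lemma h86_unc {E : Finset ℕ} {l : Finset ℕ → ℕ} (hs : SymSub E l) {W Y : Finset ℕ}
    (hW : W ⊆ E) (hY : Y ⊆ E) : l (Y \ W) + l (W \ Y) ≤ l W + l Y := by
  have h1 := hs.sub W hW (E \ Y) Finset.sdiff_subset
  have h2 : W ∩ (E \ Y) = W \ Y := by
    ext a
    simp only [Finset.mem_inter, Finset.mem_sdiff]
    constructor
    · rintro ⟨ha, _, hb⟩
      exact ⟨ha, hb⟩
    · rintro ⟨ha, hb⟩
      exact ⟨ha, hW ha, hb⟩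
  have h3 : E \ (Y \ W) = W ∪ (E \ Y) := by
    ext a
    simp only [Finset.mem_union, Finset.mem_sdiff]
    constructor
    · rintro ⟨ha, hb⟩
      by_cases haW : a ∈ W
      · exact Or.inl haW
      · exact Or.inr ⟨ha, fun haY => hb ⟨haY, haW⟩⟩
    · rintro (ha | ⟨ha, hb⟩)
      · exact ⟨hW ha, fun hc => hc.2 ha⟩
      · exact ⟨ha, fun hc => hb hc.1⟩
  have h4 := hs.symm (Y \ W) (Finset.sdiff_subset.trans hY)
  have h5 := hs.symm Y hY
  rw [h2, ← h3, h4, h5] at h1
  exact h1

theorem choose_Y {E : Finset ℕ} {l : Finset ℕ → ℕ} (hs : SymSub E l) {L : List (Bool × BT)}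
    {z : BT} (hok : (wrap L z).Ok) (hE : (wrap L z).set ⊆ E) : ∃ Y κ, Cfg E l L z Y κ := by
  classical
  set S : Finset (Finset ℕ) := (wrap L z).set.powerset.filter (fun Y => z.set ⊆ Y) with hS
  have hmem : ∀ Y, Y ∈ S ↔ Y ⊆ (wrap L z).set ∧ z.set ⊆ Y := by
    intro Y
    rw [hS, Finset.mem_filter, Finset.mem_powerset]
  have hne : S.Nonempty :=
    ⟨z.set, (hmem _).2 ⟨(sub_wrap L z).set_subset, Finset.Subset.refl _⟩⟩
  obtain ⟨Y0, hY0, hmin0⟩ := Finset.exists_min_image S l hne
  set S2 : Finset (Finset ℕ) := S.filter (fun Y => l Y = l Y0) with hS2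
  have hne2 : S2.Nonempty := ⟨Y0, Finset.mem_filter.2 ⟨hY0, rfl⟩⟩
  obtain ⟨Y, hY, hmin⟩ := Finset.exists_min_image S2 (fun Y => pS Y L) hne2
  rw [hS2, Finset.mem_filter, hmem] at hY
  obtain ⟨⟨hYx, hzY⟩, hlY⟩ := hY
  have hmn : ∀ Y', z.set ⊆ Y' → Y' ⊆ (wrap L z).set → l Y0 ≤ l Y' :=
    fun Y' h1 h2 => hmin0 Y' ((hmem _).2 ⟨h2, h1⟩)
  have hkey : ∀ Y', z.set ⊆ Y' → Y' ⊆ (wrap L z).set → l Y' ≤ l Y0 → pS Y L ≤ pS Y' L := by
    intro Y' h1 h2 h3
    refine hmin Y' (Finset.mem_filter.2 ⟨(hmem _).2 ⟨h2, h1⟩, le_antisymm h3 (hmn Y' h1 h2)⟩)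
  refine ⟨Y, l Y0, hs, hok, hE, hzY, hYx, hlY, hmn, ?_⟩
  intro c s hcs t ht hspl
  have hsx : Sub s (wrap L z) := sub_wrap_sib hcs
  have htx : Sub t (wrap L z) := ht.trans hsx
  have htsx : t.set ⊆ (wrap L z).set := htx.set_subset
  have htz : Disjoint t.set z.set :=
    Finset.disjoint_of_subset_left ht.set_subset (wrap_sib_disjoint hcs hok)
  have hlam : ∀ c' s', (c', s') ∈ L → ∀ t', Sub t' s' →
      t.set ⊆ t'.set ∨ t'.set ⊆ t.set ∨ Disjoint t.set t'.set := by
    intro c' s' hcs' t' ht'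
    exact htx.laminar (ht'.trans (sub_wrap_sib hcs')) hok
  constructor
  · by_contra hcon
    push Not at hcon
    have h1 := hs.sub t.set (htsx.trans hE) Y (hYx.trans hE)
    have h2 : l (t.set ∪ Y) ≤ l Y0 := by omega
    have h3 := hkey (t.set ∪ Y) (hzY.trans Finset.subset_union_right)
      (Finset.union_subset htsx hYx) h2
    have h4 : pS (t.set ∪ Y) L < pS Y L := by
      refine h86_pS_lt Y (t.set ∪ Y) L ?_ c s hcs t ht hspl ?_
      · intro c' s' hcs' t' ht' hsp
        obtain ⟨⟨a, ha⟩, ⟨b, hb⟩⟩ := hsp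
        rw [Finset.mem_inter, Finset.mem_union] at ha
        rw [Finset.mem_sdiff, Finset.mem_union, not_or] at hb
        refine ⟨?_, ⟨b, Finset.mem_sdiff.2 ⟨hb.1, hb.2.2⟩⟩⟩
        rcases hlam c' s' hcs' t' ht' with h5 | h5 | h5
        · obtain ⟨e, he⟩ := hspl.1
          rw [Finset.mem_inter] at he
          exact ⟨e, Finset.mem_inter.2 ⟨h5 he.1, he.2⟩⟩
        · exact absurd (h5 hb.1) hb.2.1
        · rcases ha.2 with h6 | h6
          · exact absurd ha.1 (Finset.disjoint_left.1 h5 h6)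
          · exact ⟨a, Finset.mem_inter.2 ⟨ha.1, h6⟩⟩
      · intro hsp
        obtain ⟨b, hb⟩ := hsp.2
        rw [Finset.mem_sdiff, Finset.mem_union, not_or] at hb
        exact hb.2.1 hb.1
    omega
  · by_contra hcon
    push Not at hcon
    have h1 := h86_unc hs (htsx.trans hE) (hYx.trans hE)
    have h2 : l (Y \ t.set) ≤ l Y0 := by omega
    have hz' : z.set ⊆ Y \ t.set := by
      intro e he
      exact Finset.mem_sdiff.2 ⟨hzY he, Finset.disjoint_right.1 htz he⟩
    have h3 := hkey (Y \ t.set) hz' (Finset.sdiff_subset.trans hYx) h2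
    have h4 : pS (Y \ t.set) L < pS Y L := by
      refine h86_pS_lt Y (Y \ t.set) L ?_ c s hcs t ht hspl ?_
      · intro c' s' hcs' t' ht' hsp
        obtain ⟨⟨a, ha⟩, ⟨b, hb⟩⟩ := hsp
        rw [Finset.mem_inter, Finset.mem_sdiff] at ha
        rw [Finset.mem_sdiff, Finset.mem_sdiff, not_and_or, not_not] at hb
        refine ⟨⟨a, Finset.mem_inter.2 ⟨ha.1, ha.2.1⟩⟩, ?_⟩
        rcases hlam c' s' hcs' t' ht' with h5 | h5 | h5
        · obtain ⟨e, he⟩ := hspl.2
          rw [Finset.mem_sdiff] at he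
          exact ⟨e, Finset.mem_sdiff.2 ⟨h5 he.1, he.2⟩⟩
        · exact absurd (h5 ha.1) ha.2.2
        · rcases hb.2 with h6 | h6
          · exact ⟨b, Finset.mem_sdiff.2 ⟨hb.1, h6⟩⟩
          · exact absurd hb.1 (Finset.disjoint_left.1 h5 h6)
      · intro hsp
        obtain ⟨b, hb⟩ := hsp.1
        rw [Finset.mem_inter, Finset.mem_sdiff] at hb
        exact hb.2.2 hb.1
    omega

/-- every set `W` of a subtree of `x`: intersections with `Y` are not wider; for sets disjoint
from `z.set` the difference is not wider, for sets containing `z.set` the union is not wider -/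
theorem Cfg.inter_le {E : Finset ℕ} {l : Finset ℕ → ℕ} {L : List (Bool × BT)} {z : BT}
    {Y : Finset ℕ} {κ : ℕ} (h : Cfg E l L z Y κ) {W : Finset ℕ} (hW : W ⊆ (wrap L z).set) :
    l (W ∩ Y) ≤ l W := by
  have h1 := h.ss.sub W (hW.trans h.sE) Y (h.Yx.trans h.sE)
  have h2 := h.min (W ∪ Y) (h.zY.trans Finset.subset_union_right) (Finset.union_subset hW h.Yx)
  have h3 := h.lY
  omega

theorem Cfg.diff_le {E : Finset ℕ} {l : Finset ℕ → ℕ} {L : List (Bool × BT)} {z : BT}
    {Y : Finset ℕ} {κ : ℕ} (h : Cfg E l L z Y κ) {W : Finset ℕ} (hW : W ⊆ (wrap L z).set)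
    (hz : Disjoint W z.set) : l (W \ Y) ≤ l W := by
  have h1 := h86_unc h.ss (hW.trans h.sE) (h.Yx.trans h.sE)
  have h2 := h.min (Y \ W) (fun e he => Finset.mem_sdiff.2
    ⟨h.zY he, Finset.disjoint_right.1 hz he⟩) (Finset.sdiff_subset.trans h.Yx)
  have h3 := h.lY
  omega

theorem Cfg.union_le {E : Finset ℕ} {l : Finset ℕ → ℕ} {L : List (Bool × BT)} {z : BT}
    {Y : Finset ℕ} {κ : ℕ} (h : Cfg E l L z Y κ) {W : Finset ℕ} (hW : W ⊆ (wrap L z).set)
    (hz : z.set ⊆ W) : l (W ∩ Y) + l (W ∪ Y) ≤ l W + κ ∧ κ ≤ l (W ∩ Y) ∧ κ ≤ l (W ∪ Y) := by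
  have h1 := h.ss.sub W (hW.trans h.sE) Y (h.Yx.trans h.sE)
  have h2 := h.min (W ∪ Y) (h.zY.trans Finset.subset_union_right) (Finset.union_subset hW h.Yx)
  have h4 := h.min (W ∩ Y) (Finset.subset_inter hz h.zY) (Finset.inter_subset_left.trans hW)
  have h3 := h.lY
  refine ⟨?_, h4, h2⟩
  omega

/-- the new tree `x' = owr Y (x.inter Y) L` -/
theorem Cfg.new {E : Finset ℕ} {l : Finset ℕ → ℕ} {L : List (Bool × BT)} {z : BT}
    {Y : Finset ℕ} {κ : ℕ} (h : Cfg E l L z Y κ) :
    (owr Y ((wrap L z).inter Y) L).set = (wrap L z).set ∧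
      (owr Y ((wrap L z).inter Y) L).Ok := by
  have hI : ((wrap L z).inter Y).set = Y := by
    rw [set_inter]
    exact Finset.inter_eq_right.2 h.Yx
  refine ⟨?_, ok_owr hI (h.ok.inter Y) h.zY h.ok⟩
  rw [set_owr hI h.zY L]
  exact Finset.union_eq_left.2 h.Yx

theorem Cfg.wid {E : Finset ℕ} {l : Finset ℕ → ℕ} {L : List (Bool × BT)} {z : BT}
    {Y : Finset ℕ} {κ w : ℕ} (h : Cfg E l L z Y κ) (hw : (wrap L z).Wid l w) :
    (owr Y ((wrap L z).inter Y) L).Wid l w := by
  have hI : ((wrap L z).inter Y).set = Y := by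
    rw [set_inter]
    exact Finset.inter_eq_right.2 h.Yx
  have hsib : ∀ s c, (c, s) ∈ L → ∀ t, Sub t (s.diff Y) → l t.set ≤ w := by
    intro s c hcs t ht
    obtain ⟨t', ht', rfl⟩ := sub_diff ht
    rw [set_diff]
    have h1 : Sub t' (wrap L z) := ht'.trans (sub_wrap_sib hcs)
    refine (h.diff_le h1.set_subset ?_).trans (hw t' h1)
    exact Finset.disjoint_of_subset_left ht'.set_subset (wrap_sib_disjoint hcs h.ok)
  have hgen : ∀ L' : List (Bool × BT), (∀ a ∈ L', a ∈ L) → Sub (wrap L' z) (wrap L z) →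
      ∀ t, Sub t (owr Y ((wrap L z).inter Y) L') → l t.set ≤ w := by
    intro L'
    induction L' with
    | nil =>
      intro _ _ t ht
      obtain ⟨t', ht', rfl⟩ := sub_inter ht
      rw [set_inter]
      exact (h.inter_le ht'.set_subset).trans (hw t' ht')
    | cons a L' ih =>
      intro hmem hsub t ht
      obtain ⟨c, s⟩ := a
      have hself : l (owr Y ((wrap L z).inter Y) ((c, s) :: L')).set ≤ w := by
        rw [set_owr hI h.zY]
        have h1 := h.union_le hsub.set_subset (sub_wrap ((c, s) :: L') z).set_subset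
        have h2 := hw _ hsub
        omega
      have hL' : ∀ a ∈ L', a ∈ L := fun a ha => hmem a (List.mem_cons_of_mem _ ha)
      have hs := hsib s c (hmem _ List.mem_cons_self)
      cases c with
      | true =>
        have ih' := ih hL' (Sub.trans (Sub.left (Sub.refl _)) hsub)
        change Sub t (node (owr Y ((wrap L z).inter Y) L') (s.diff Y)) at ht
        cases ht with
        | refl => exact hself
        | left h1 => exact ih' t h1
        | right h1 => exact hs t h1
      | false =>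
        have ih' := ih hL' (Sub.trans (Sub.right (Sub.refl _)) hsub)
        change Sub t (node (s.diff Y) (owr Y ((wrap L z).inter Y) L')) at ht
        cases ht with
        | refl => exact hself
        | left h1 => exact hs t h1
        | right h1 => exact ih' t h1
  exact hgen L (fun a ha => ha) (Sub.refl _)

end Pool.Agent.Helper28.BW
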