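import Pool.Agent.Helper28.BW.Pieces

/-!
# BW-46: labelled and unlabelled pieces

If a set `A` of pieces is pwo under `PLe` then the set of pieces of `A` with `m` marks of the boundary is pwo under `LLe`.
Proof. Let `(x n, p n)` be a sequence of marked pieces. `PLe` is reflexive and transitive, so by
`Set.PartiallyWellOrderedOn.exists_monotone_subseq` we may assume `PLe (x i) (x j)` for all `i ≤ j`. Define marks `q n` of `x n` by recursion: `q 0 = p 0`, and `q (n+1)` given by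
`PLe.mk_left` for `PLe (x n) (x (n+1))` and `q n`. So `LLe (x i) (q i) (x j) (q j)` for `i ≤ j` (`LLe.refl`, `LLe.trans`). By `mk_eq_act`
`q n = act (σ n) (c n) (p n)` with `(σ n, c n)` in the finite set `Equiv.Perm (Fin m) × (Fin m → H)`, so there are `i < j` with `(σ i, c i) = (σ j, c j)`. Apply `LLe.act` with the
inverse (`act_inv`): `LLe (x i) (p i) (x j) (p j)`.
-/

set_option autoImplicit false

namespace Pool.Agent.Helper28.BW

variable {H : Type} [Group H]

theorem labelled_pwo [Finite H] {A : Set (Pc H)} (hA : A.PartiallyWellOrderedOn PLe) (m : ℕ) :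
    {x : Pc H × (Fin m → ℕ × H) | x.1 ∈ A ∧
      Mk x.1.1 x.1.2.1 x.1.2.2 x.2}.PartiallyWellOrderedOn
      fun x y => LLe x.1.1 x.1.2.2 x.2 y.1.1 y.1.2.2 y.2 := by
  rw [Set.partiallyWellOrderedOn_iff_exists_lt]
  intro f hf
  have hpre : IsPreorder (Pc H) PLe :=
    { refl := PLe.refl, trans := fun _ _ _ => PLe.trans }
  obtain ⟨g, hg⟩ := hA.exists_monotone_subseq (f := fun n => (f n).1) (fun n => (hf n).1)
  have hstep : ∀ (n : ℕ) (q : {q : Fin m → ℕ × H //
      Mk (f (g n)).1.1 (f (g n)).1.2.1 (f (g n)).1.2.2 q}),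
      ∃ q' : {q : Fin m → ℕ × H //
        Mk (f (g (n + 1))).1.1 (f (g (n + 1))).1.2.1 (f (g (n + 1))).1.2.2 q},
      LLe (f (g n)).1.1 (f (g n)).1.2.2 q.1 (f (g (n + 1))).1.1 (f (g (n + 1))).1.2.2 q'.1 := by
    intro n q
    obtain ⟨q', hq1, hq2⟩ := (hg n (n + 1) (Nat.le_succ n)).mk_left q.2
    exact ⟨⟨q', hq1⟩, hq2⟩
  choose F hF using hstep
  obtain ⟨Q, hQ⟩ : ∃ Q : ∀ n : ℕ, {q : Fin m → ℕ × H //
      Mk (f (g n)).1.1 (f (g n)).1.2.1 (f (g n)).1.2.2 q}, ∀ n, Q (n + 1) = F n (Q n) :=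
    ⟨fun n => Nat.rec ⟨(f (g 0)).2, (hf (g 0)).2⟩ (fun n q => F n q) n, fun _ => rfl⟩
  have hmono : ∀ i k : ℕ, LLe (f (g i)).1.1 (f (g i)).1.2.2 (Q i).1 (f (g (i + k))).1.1
      (f (g (i + k))).1.2.2 (Q (i + k)).1 := by
    intro i k
    induction k with
    | zero => exact LLe.refl _ _ _
    | succ k ih =>
      refine ih.trans ?_
      have h1 := hF (i + k) (Q (i + k))
      rw [← hQ] at h1
      exact h1
  have hact : ∀ n : ℕ, ∃ σc : Equiv.Perm (Fin m) × (Fin m → H),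
      (Q n).1 = act σc.1 σc.2 (f (g n)).2 := by
    intro n
    obtain ⟨σ, c, h⟩ := mk_eq_act (hf (g n)).2 (Q n).2
    exact ⟨(σ, c), h⟩
  choose S hS using hact
  have hfin : Finite (Equiv.Perm (Fin m) × (Fin m → H)) := inferInstance
  have hlt : ∃ i j : ℕ, i < j ∧ S i = S j := by
    obtain ⟨i, j, hne, he⟩ := Finite.exists_ne_map_eq_of_infinite S
    rcases lt_or_gt_of_ne hne with h | h
    · exact ⟨i, j, h, he⟩
    · exact ⟨j, i, h, he.symm⟩
  obtain ⟨i, j, hij, he⟩ := hlt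
  refine ⟨g i, g j, g.strictMono hij, ?_⟩
  have h1 := hmono i (j - i)
  have h2 : i + (j - i) = j := by omega
  rw [h2, hS i, hS j, ← he] at h1
  have h3 := h1.act (S i).1.symm (fun a => ((S i).2 ((S i).1.symm a))⁻¹)
  rw [act_inv, act_inv] at h3
  exact h3

end Pool.Agent.Helper28.BW
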