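import Pool.Agent.Helper28.BW.CombOne
import Pool.Agent.Helper28.BW.LabelWqo

/-!
# BW-51: parents of well-quasi-ordered pieces

`two2_exists`: for disjoint `A`, `B` with `A ∪ B ⊆ E` and boundaries of size at most `w` there are `n ≤ 2 * w`, `q`, `Il`, `Ir`, `Ip` with `Two2`: enumerate the finite set `bd A ∪ bd B`, which contains `bd (A ∪ B)`, and
let `Il`, `Ir`, `Ip` be the index sets.
`comb_pwo`: let `A` be a pwo set of pieces with boundaries of size at most `w`. Let a sequence of pairs `(G n, E n, A n)`, `(G n, E n, B n)` in it be given, disjoint, with union in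
`E n`. Choose the data of `two2_exists`. The signature `(n, Il, Ir, Ip)` is in a finite type (`Σ n : Fin (2 * w + 1), ...`), so after passing to a subsequence it is constant (infinite pigeonhole, e.g.
`Finite.exists_infinite_fiber` and `Nat.nth`, or use that a finite type with equality is well-quasi-ordered and products of well-quasi-orders). The marked pieces `((G n, E n, A n), mkI q Il)` are in the pwo set of
`labelled_pwo`, and so are `((G n, E n, B n), mkI q Ir)`. By the theorem on monotone subsequences (`exists_monotone_subseq`, `LLe.refl`, `LLe.trans`) for the first and pwo of the second there are `i < j` with both relations. `comb_one` gives the relation for the unions,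
with marks `mk_mkI`.
-/

set_option autoImplicit false

namespace Pool.Agent.Helper28.BW

variable {H : Type} [Group H]

theorem two2_exists {G : GG H} {E A B : Finset ℕ} {w : ℕ} (hd : Disjoint A B) (hE : A ∪ B ⊆ E)
    (hA : (bd G E A).ncard ≤ w) (hB : (bd G E B).ncard ≤ w) :
    ∃ (n : Fin (2 * w + 1)) (q : Fin n.1 → ℕ) (Il Ir Ip : Finset (Fin n.1)),
      Two2 G E A B q Il Ir Ip := by
  classical
  have hfin : (bd G E A ∪ bd G E B).Finite := (bd_finite G E A).union (bd_finite G E B)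
  have hcard : hfin.toFinset.card ≤ 2 * w := by
    rw [← Set.ncard_eq_toFinset_card _ hfin]
    have := Set.ncard_union_le (bd G E A) (bd G E B)
    omega
  have hq : ∀ v, v ∈ bd G E A ∪ bd G E B →
      ∃ a : Fin hfin.toFinset.card, ((hfin.toFinset.equivFin.symm a : hfin.toFinset) : ℕ) = v := by
    intro v hv
    exact ⟨hfin.toFinset.equivFin ⟨v, hfin.mem_toFinset.2 hv⟩, by simp⟩
  have hsub : bd G E (A ∪ B) ⊆ bd G E A ∪ bd G E B := by
    rintro v ⟨hv1, hv2⟩
    rw [vs_union] at hv1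
    rcases hv1 with hv1 | hv1
    · left
      refine ⟨hv1, vs_mono G ?_ hv2⟩
      exact Finset.sdiff_subset_sdiff (le_refl _) Finset.subset_union_left
    · right
      refine ⟨hv1, vs_mono G ?_ hv2⟩
      exact Finset.sdiff_subset_sdiff (le_refl _) Finset.subset_union_right
  refine ⟨⟨hfin.toFinset.card, by omega⟩,
    fun a => ((hfin.toFinset.equivFin.symm a : hfin.toFinset) : ℕ),
    Finset.univ.filter fun a => ((hfin.toFinset.equivFin.symm a : hfin.toFinset) : ℕ) ∈ bd G E A,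
    Finset.univ.filter fun a => ((hfin.toFinset.equivFin.symm a : hfin.toFinset) : ℕ) ∈ bd G E B,
    Finset.univ.filter fun a =>
      ((hfin.toFinset.equivFin.symm a : hfin.toFinset) : ℕ) ∈ bd G E (A ∪ B), ?_⟩
  refine ⟨?_, hd, hE, ?_, ?_, ?_, ?_⟩
  · intro a b hab
    exact hfin.toFinset.equivFin.symm.injective (Subtype.ext hab)
  · intro a
    have h1 := (hfin.toFinset.equivFin.symm a).2
    rw [Set.Finite.mem_toFinset] at h1
    rcases h1 with h1 | h1
    · left; exact Finset.mem_filter.2 ⟨Finset.mem_univ _, h1⟩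
    · right; exact Finset.mem_filter.2 ⟨Finset.mem_univ _, h1⟩
  · intro v
    constructor
    · intro hv
      obtain ⟨a, rfl⟩ := hq v (Or.inl hv)
      exact ⟨a, Finset.mem_filter.2 ⟨Finset.mem_univ _, hv⟩, rfl⟩
    · rintro ⟨a, ha, rfl⟩
      exact (Finset.mem_filter.1 ha).2
  · intro v
    constructor
    · intro hv
      obtain ⟨a, rfl⟩ := hq v (Or.inr hv)
      exact ⟨a, Finset.mem_filter.2 ⟨Finset.mem_univ _, hv⟩, rfl⟩
    · rintro ⟨a, ha, rfl⟩
      exact (Finset.mem_filter.1 ha).2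
  · intro v
    constructor
    · intro hv
      obtain ⟨a, rfl⟩ := hq v (hsub hv)
      exact ⟨a, Finset.mem_filter.2 ⟨Finset.mem_univ _, hv⟩, rfl⟩
    · rintro ⟨a, ha, rfl⟩
      exact (Finset.mem_filter.1 ha).2

/-- a sequence in a finite type has a constant subsequence -/
private theorem exists_const {α : Type} [Finite α] (sig : ℕ → α) :
    ∃ (s : α) (φ : ℕ ↪o ℕ), ∀ k, sig (φ k) = s := by
  classical
  obtain ⟨s, hsinf⟩ := Finite.exists_infinite_fiber sig
  refine ⟨s, Nat.orderEmbeddingOfSet (sig ⁻¹' {s}), ?_⟩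
  intro k
  have h1 : Nat.orderEmbeddingOfSet (sig ⁻¹' {s}) k ∈ sig ⁻¹' {s} := by
    have h2 := Nat.orderEmbeddingOfSet_range (sig ⁻¹' {s})
    have h3 : Nat.orderEmbeddingOfSet (sig ⁻¹' {s}) k ∈
        Set.range (Nat.orderEmbeddingOfSet (sig ⁻¹' {s})) := ⟨k, rfl⟩
    exact h2.le h3
  exact h1

/-- the case of a constant signature -/
private theorem comb_const [Finite H] {A : Set (Pc H)} (hA : A.PartiallyWellOrderedOn PLe)
    {N : ℕ} (I1 I2 I3 : Finset (Fin N)) (G : ℕ → GG H) (E A1 B1 : ℕ → Finset ℕ)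
    (hA1 : ∀ n, (G n, E n, A1 n) ∈ A) (hB1 : ∀ n, (G n, E n, B1 n) ∈ A)
    (q : ℕ → Fin N → ℕ) (h2 : ∀ n, Two2 (G n) (E n) (A1 n) (B1 n) (q n) I1 I2 I3) :
    ∃ m n, m < n ∧ PLe (G m, E m, A1 m ∪ B1 m) (G n, E n, A1 n ∪ B1 n) := by
  have : ∀ m : ℕ, IsPreorder (Pc H × (Fin m → ℕ × H))
      (fun x y => LLe x.1.1 x.1.2.2 x.2 y.1.1 y.1.2.2 y.2) := fun m =>
    { refl := fun x => LLe.refl _ _ _
      trans := fun x y z h1 h2 => LLe.trans h1 h2 }
  obtain ⟨g, hg⟩ := (labelled_pwo hA I1.card).exists_monotone_subseq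
    (f := fun n => ((G n, E n, A1 n), mkI H (q n) I1)) (fun n =>
      ⟨hA1 n, mk_mkI (h2 n).inj (h2 n).hl⟩)
  obtain ⟨m, n, hmn, h3⟩ := (labelled_pwo hA I2.card).exists_lt
    (f := fun k => ((G (g k), E (g k), B1 (g k)), mkI H (q (g k)) I2)) (fun k =>
      ⟨hB1 (g k), mk_mkI (h2 (g k)).inj (h2 (g k)).hr⟩)
  have h1 := hg m n hmn.le
  exact ⟨g m, g n, g.strictMono hmn, I3.card, mkI H (q (g m)) I3, mkI H (q (g n)) I3,
    mk_mkI (h2 (g m)).inj (h2 (g m)).hp, mk_mkI (h2 (g n)).inj (h2 (g n)).hp,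
    comb_one (h2 (g m)) (h2 (g n)) h1 h3⟩

/-- the signature of a pair of disjoint sets -/
private abbrev Sg (w : ℕ) : Type := Σ n : Fin (2 * w + 1),
      Finset (Fin n.1) × Finset (Fin n.1) × Finset (Fin n.1)

private theorem sg_finite (w : ℕ) : Finite (Sg w) := inferInstance

private theorem exists_sg {G : GG H} {E A B : Finset ℕ} {w : ℕ} (hd : Disjoint A B)
    (hE : A ∪ B ⊆ E) (hA : (bd G E A).ncard ≤ w) (hB : (bd G E B).ncard ≤ w) :
    ∃ s : Sg w, ∃ q : Fin s.1.1 → ℕ, Two2 G E A B q s.2.1 s.2.2.1 s.2.2.2 := by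
  obtain ⟨n, q, Il, Ir, Ip, h⟩ := two2_exists hd hE hA hB
  exact ⟨⟨n, Il, Ir, Ip⟩, q, h⟩


theorem comb_pwo [Finite H] {A : Set (Pc H)} (hA : A.PartiallyWellOrderedOn PLe) {w : ℕ}
    (hw : ∀ x ∈ A, (bd x.1 x.2.1 x.2.2).ncard ≤ w) :
    {x : Pc H | ∃ (G : GG H) (E A1 B1 : Finset ℕ), (G, E, A1) ∈ A ∧ (G, E, B1) ∈ A ∧
      Disjoint A1 B1 ∧ A1 ∪ B1 ⊆ E ∧ x = (G, E, A1 ∪ B1)}.PartiallyWellOrderedOn PLe := by
  classical
  rw [Set.partiallyWellOrderedOn_iff_exists_lt]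
  intro f hf
  have hf' : ∀ n, ∃ (G : GG H) (E A1 B1 : Finset ℕ), (G, E, A1) ∈ A ∧ (G, E, B1) ∈ A ∧
      Disjoint A1 B1 ∧ A1 ∪ B1 ⊆ E ∧ f n = (G, E, A1 ∪ B1) := hf
  choose G E A1 B1 hA1 hB1 hd hs hx using hf'
  have hwA : ∀ n, (bd (G n) (E n) (A1 n)).ncard ≤ w := fun n => hw (G n, E n, A1 n) (hA1 n)
  have hwB : ∀ n, (bd (G n) (E n) (B1 n)).ncard ≤ w := fun n => hw (G n, E n, B1 n) (hB1 n)
  have ht : ∀ n, ∃ s : Sg w, ∃ q : Fin s.1.1 → ℕ,
      Two2 (G n) (E n) (A1 n) (B1 n) q s.2.1 s.2.2.1 s.2.2.2 := fun n =>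
    exists_sg (hd n) (hs n) (hwA n) (hwB n)
  choose sig hsig using ht
  have : Finite (Sg w) := sg_finite w
  obtain ⟨s, φ, hφ⟩ := exists_const sig
  have hex2 : ∀ k, ∃ q : Fin s.1.1 → ℕ, Two2 (G (φ k)) (E (φ k)) (A1 (φ k)) (B1 (φ k)) q
      s.2.1 s.2.2.1 s.2.2.2 := by
    intro k
    have h1 := hsig (φ k)
    rw [hφ k] at h1
    exact h1
  choose q' h2' using hex2
  obtain ⟨m, n, hmn, h⟩ := comb_const hA s.2.1 s.2.2.1 s.2.2.2 (fun k => G (φ k))
    (fun k => E (φ k)) (fun k => A1 (φ k)) (fun k => B1 (φ k)) (fun k => hA1 (φ k))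
    (fun k => hB1 (φ k)) q' h2'
  refine ⟨φ m, φ n, φ.strictMono hmn, ?_⟩
  rw [hx (φ m), hx (φ n)]
  exact h

end Pool.Agent.Helper28.BW
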