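import Pool.Agent.Helper28.BW.TwoSided

/-!
# BW-06: traces determine unions

`Trc T p a b h` means: `T` has a walk from the marked vertex `p a` to the marked vertex `p b` whose gain,
corrected by the gauges, is `h`. The marks `p : ι → ℕ × H` (vertex, gauge).

`join_trace`. If all common vertices of `T1` and `T2` are marked, then `Trc (T1 ∪ T2) p` is the relation
generated by `Trc T1 p` and `Trc T2 p`: let `Gen R1 R2` be the least relation containing
`(a, a, 1)`, and with `(a, b, h)` and `(b, c, h')` in `R1` or `R2` also `(a, c, h * h')`.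
`Gen ⊆ Trc (T1 ∪ T2)` is clear. Conversely, by induction on a walk of `T1 ∪ T2` from `p a` to a
vertex `x` we show: either there are a marked vertex `b` and gains with `Gen a b h1` and a walk of `T1` from
`p b` to `x` (total gain right), or the same with `T2`. Induction step with an edge of `T1` at `x`: if the last
segment is in `T1`, extend it. If the last segment is a `T2`-walk from `p b` to `x`: if it is trivial, `x = p b`,
replace it by the trivial `T1`-walk; otherwise `x ∈ vx T2` and `x ∈ vx T1`, so `x` is marked, `x = p c`, the `T2`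
segment gives `Trc T2 p b c _`, so `Gen a c _`, and we start a new `T1` segment. At the end `x = p b'` is marked
and the last segment gives one more generator. Hence `Trc (T1 ∪ T2) p = Gen (Trc T1 p) (Trc T2 p)`, and the same
for `T1', T2', p'`; the generators are equal.

`bal_of_trace`. `Unb T (p a).1 ↔ ∃ h ≠ 1, Trc T p a a h` (conjugate by the gauge) and
`cls T (p a).1 = cls T (p b).1 ↔ ∃ h, Trc T p a b h`. So the number of balanced components meeting the set of
marked vertices is the number of classes of an equivalence relation on a subset of `ι`, both read off from the trace.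

`join_rank`. Use `two_sided` with `S =` the set of marked vertices (of size `card ι` as the marks are injective).
-/

set_option autoImplicit false

namespace Pool.Agent.Helper28.BW

variable {H : Type} [Group H]

/-- the relation generated by two traces -/
private inductive Gen {ι : Type} (R1 R2 : ι → ι → H → Prop) : ι → ι → H → Prop
  | refl (a : ι) : Gen R1 R2 a a 1
  | step1 {a b c : ι} {h h' : H} : Gen R1 R2 a b h → R1 b c h' → Gen R1 R2 a c (h * h')
  | step2 {a b c : ι} {h h' : H} : Gen R1 R2 a b h → R2 b c h' → Gen R1 R2 a c (h * h')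

private lemma gen_sub {ι : Type} {T1 T2 : Set (Tri H)} {p : ι → ℕ × H} {a b : ι} {h : H}
    (hg : Gen (Trc T1 p) (Trc T2 p) a b h) : Trc (T1 ∪ T2) p a b h := by
  induction hg with
  | refl =>
    unfold Trc
    rw [mul_one, inv_mul_cancel]
    exact W.refl _
  | step1 _ h2 ih =>
    unfold Trc at *
    have h3 := ih.trans (h2.mono Set.subset_union_left)
    convert h3 using 1
    group
  | step2 _ h2 ih =>
    unfold Trc at *
    have h3 := ih.trans (h2.mono Set.subset_union_right)
    convert h3 using 1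
    group

/-- the state of the induction -/
private def St {ι : Type} (T1 T2 : Set (Tri H)) (p : ι → ℕ × H) (a : ι) (x : ℕ) (g : H) : Prop :=
  ∃ (b : ι) (h k : H), Gen (Trc T1 p) (Trc T2 p) a b h ∧
    (W T1 (p b).1 x k ∨ W T2 (p b).1 x k) ∧ g = (p a).2⁻¹ * h * (p b).2 * k

private lemma st_step1 {ι : Type} {T1 T2 : Set (Tri H)} {p : ι → ℕ × H}
    (hv : vx T1 ∩ vx T2 ⊆ Set.range fun a => (p a).1) {a : ι} {x y : ℕ} {g e : H}
    (hs : St T1 T2 p a x g) (hx : x ∈ vx T1) (he : W T1 x y e) : St T1 T2 p a y (g * e) := by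
  obtain ⟨b, h, k, hg, hw, rfl⟩ := hs
  rcases hw with hw | hw
  · exact ⟨b, h, k * e, hg, Or.inl (hw.trans he), by group⟩
  · rcases W_ends hw with ⟨h1, h2⟩ | ⟨_, h2⟩
    · refine ⟨b, h, e, hg, Or.inl ?_, ?_⟩
      · rw [h1]
        exact he
      · rw [h2]
        group
    · obtain ⟨c, hc⟩ := hv ⟨hx, h2⟩
      simp only at hc
      refine ⟨c, h * ((p b).2 * k * (p c).2⁻¹), e, Gen.step2 hg ?_, Or.inl ?_, ?_⟩
      · unfold Trc
        rw [hc]
        convert hw using 1
        group
      · rw [hc]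
        exact he
      · group

private lemma st_step2 {ι : Type} {T1 T2 : Set (Tri H)} {p : ι → ℕ × H}
    (hv : vx T1 ∩ vx T2 ⊆ Set.range fun a => (p a).1) {a : ι} {x y : ℕ} {g e : H}
    (hs : St T1 T2 p a x g) (hx : x ∈ vx T2) (he : W T2 x y e) : St T1 T2 p a y (g * e) := by
  obtain ⟨b, h, k, hg, hw, rfl⟩ := hs
  rcases hw with hw | hw
  · rcases W_ends hw with ⟨h1, h2⟩ | ⟨_, h2⟩
    · refine ⟨b, h, e, hg, Or.inr ?_, ?_⟩
      · rw [h1]
        exact he
      · rw [h2]
        group
    · obtain ⟨c, hc⟩ := hv ⟨h2, hx⟩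
      simp only at hc
      refine ⟨c, h * ((p b).2 * k * (p c).2⁻¹), e, Gen.step1 hg ?_, Or.inr ?_, ?_⟩
      · unfold Trc
        rw [hc]
        convert hw using 1
        group
      · rw [hc]
        exact he
      · group
  · exact ⟨b, h, k * e, hg, Or.inr (hw.trans he), by group⟩

private lemma st_all {ι : Type} {T1 T2 : Set (Tri H)} {p : ι → ℕ × H}
    (hv : vx T1 ∩ vx T2 ⊆ Set.range fun a => (p a).1) {a : ι} {u x : ℕ} {g : H}
    (hu : u = (p a).1) (hw : W (T1 ∪ T2) u x g) : St T1 T2 p a x g := by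
  subst hu
  induction hw with
  | refl =>
    exact ⟨a, 1, 1, Gen.refl a, Or.inl (W.refl _), by group⟩
  | fwd _ he ih =>
    rcases he with he | he
    · exact st_step1 hv ih (mem_vx_left he) (W.edge he)
    · exact st_step2 hv ih (mem_vx_left he) (W.edge he)
  | bwd _ he ih =>
    rcases he with he | he
    · exact st_step1 hv ih (mem_vx_right he) (W.edge he).symm
    · exact st_step2 hv ih (mem_vx_right he) (W.edge he).symm

private lemma trc_eq_gen {ι : Type} {T1 T2 : Set (Tri H)} {p : ι → ℕ × H}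
    (hv : vx T1 ∩ vx T2 ⊆ Set.range fun a => (p a).1) :
    Trc (T1 ∪ T2) p = Gen (Trc T1 p) (Trc T2 p) := by
  funext a c h
  refine propext ⟨fun hw => ?_, gen_sub⟩
  obtain ⟨b, h0, k, hg, hw', he⟩ := st_all hv rfl hw
  have hh : h = h0 * ((p b).2 * k * (p c).2⁻¹) := by
    have h1 : (p a).2 * ((p a).2⁻¹ * h * (p c).2) * (p c).2⁻¹ =
        (p a).2 * ((p a).2⁻¹ * h0 * (p b).2 * k) * (p c).2⁻¹ := by rw [he]
    have h2 : (p a).2 * ((p a).2⁻¹ * h * (p c).2) * (p c).2⁻¹ = h := by group
    have h3 : (p a).2 * ((p a).2⁻¹ * h0 * (p b).2 * k) * (p c).2⁻¹ =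
        h0 * ((p b).2 * k * (p c).2⁻¹) := by group
    rw [h2, h3] at h1
    exact h1
  have key : (p b).2⁻¹ * ((p b).2 * k * (p c).2⁻¹) * (p c).2 = k := by group
  rw [hh]
  rcases hw' with hw' | hw'
  · refine Gen.step1 hg ?_
    unfold Trc
    rw [key]
    exact hw'
  · refine Gen.step2 hg ?_
    unfold Trc
    rw [key]
    exact hw'

private lemma ncard_image_congr {α β γ : Type} (A : Set α) (f : α → β) (f' : α → γ)
    (h : ∀ a ∈ A, ∀ b ∈ A, f a = f b ↔ f' a = f' b) : (f '' A).ncard = (f' '' A).ncard := by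
  classical
  refine Set.ncard_congr (fun c hc => f' (Classical.choose hc)) ?_ ?_ ?_
  · intro c hc
    exact ⟨_, (Classical.choose_spec hc).1, rfl⟩
  · intro c d hc hd he
    have h1 := Classical.choose_spec hc
    have h2 := Classical.choose_spec hd
    rw [← h1.2, ← h2.2]
    exact (h _ h1.1 _ h2.1).mpr he
  · rintro c ⟨a, ha, rfl⟩
    refine ⟨f a, ⟨a, ha, rfl⟩, ?_⟩
    have h1 := Classical.choose_spec (⟨a, ha, rfl⟩ : ∃ x, x ∈ A ∧ f x = f a)
    exact (h _ h1.1 _ ha).mp h1.2

private lemma unb_iff {ι : Type} (T : Set (Tri H)) (p : ι → ℕ × H) (a : ι) :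
    Unb T (p a).1 ↔ ∃ h : H, h ≠ 1 ∧ Trc T p a a h := by
  constructor
  · rintro ⟨h, h1, h2⟩
    refine ⟨(p a).2 * h * (p a).2⁻¹, ?_, ?_⟩
    · intro h3
      apply h1
      have h4 : h = (p a).2⁻¹ * ((p a).2 * h * (p a).2⁻¹) * (p a).2 := by group
      rw [h4, h3]
      group
    · unfold Trc
      convert h2 using 1
      group
  · rintro ⟨h, h1, h2⟩
    refine ⟨(p a).2⁻¹ * h * (p a).2, ?_, h2⟩
    intro h3
    apply h1
    have h4 : h = (p a).2 * ((p a).2⁻¹ * h * (p a).2) * (p a).2⁻¹ := by group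
    rw [h4, h3]
    group

private lemma con_iff {ι : Type} (T : Set (Tri H)) (p : ι → ℕ × H) (a b : ι) :
    Con T (p a).1 (p b).1 ↔ ∃ h : H, Trc T p a b h := by
  constructor
  · rintro ⟨h, h2⟩
    refine ⟨(p a).2 * h * (p b).2⁻¹, ?_⟩
    unfold Trc
    convert h2 using 1
    group
  · rintro ⟨h, h2⟩
    exact ⟨_, h2⟩

private lemma balC_range {ι : Type} (T : Set (Tri H)) (p : ι → ℕ × H) :
    balC T (Set.range fun a => (p a).1) =
      (fun a => cls T (p a).1) '' {a | ¬ ∃ h : H, h ≠ 1 ∧ Trc T p a a h} := by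
  ext c
  constructor
  · rintro ⟨u, ⟨a, rfl⟩, h1, h2⟩
    refine ⟨a, ?_, h2.symm⟩
    intro h3
    exact h1 ((unb_iff T p a).mpr h3)
  · rintro ⟨a, ha, rfl⟩
    refine ⟨(p a).1, ⟨a, rfl⟩, ?_, rfl⟩
    intro h3
    exact ha ((unb_iff T p a).mp h3)

theorem join_trace {ι : Type} {T1 T2 T1' T2' : Set (Tri H)} {p p' : ι → ℕ × H}
    (hv : vx T1 ∩ vx T2 ⊆ Set.range fun a => (p a).1)
    (hv' : vx T1' ∩ vx T2' ⊆ Set.range fun a => (p' a).1)
    (h1 : Trc T1 p = Trc T1' p') (h2 : Trc T2 p = Trc T2' p') :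
    Trc (T1 ∪ T2) p = Trc (T1' ∪ T2') p' := by
  rw [trc_eq_gen hv, trc_eq_gen hv', h1, h2]

theorem bal_of_trace {ι : Type} [Finite ι] {T T' : Set (Tri H)} {p p' : ι → ℕ × H}
    (h : Trc T p = Trc T' p') :
    bal T (Set.range fun a => (p a).1) = bal T' (Set.range fun a => (p' a).1) := by
  unfold bal
  rw [balC_range, balC_range, h]
  refine ncard_image_congr _ _ _ fun a _ b _ => ?_
  rw [cls_eq_iff, cls_eq_iff, con_iff, con_iff, h]

theorem join_rank {ι : Type} [Finite ι] {T1 T2 T1' T2' : Set (Tri H)} (f1 : T1.Finite)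
    (f2 : T2.Finite) (f1' : T1'.Finite) (f2' : T2'.Finite) {p p' : ι → ℕ × H}
    (hp : Function.Injective fun a => (p a).1) (hp' : Function.Injective fun a => (p' a).1)
    (hv : vx T1 ∩ vx T2 ⊆ Set.range fun a => (p a).1)
    (hv' : vx T1' ∩ vx T2' ⊆ Set.range fun a => (p' a).1)
    (h1 : Trc T1 p = Trc T1' p') (h2 : Trc T2 p = Trc T2' p') :
    rho (T1 ∪ T2) + rho T1' + rho T2' = rho (T1' ∪ T2') + rho T1 + rho T2 := by
  have e1 := two_sided f1 f2 (Set.finite_range fun a => (p a).1) hv
  have e2 := two_sided f1' f2' (Set.finite_range fun a => (p' a).1) hv'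
  have e3 := bal_of_trace h1
  have e4 := bal_of_trace h2
  have e5 := bal_of_trace (join_trace hv hv' h1 h2)
  have e6 : (Set.range fun a => (p a).1).ncard = (Set.range fun a => (p' a).1).ncard := by
    rw [← Set.image_univ, ← Set.image_univ, Set.ncard_image_of_injective _ hp,
      Set.ncard_image_of_injective _ hp']
  rw [e3, e4, e5, e6] at e1
  omega

/-- independence of a union only depends on the traces: two pairs of edge sets in two gain graphs,
all pieces independent, equal traces, equal sizes -/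
theorem join_indep {ι : Type} [Finite ι] {G G' : GG H} {U Z U' Z' : Finset ℕ}
    {p p' : ι → ℕ × H}
    (hp : Function.Injective fun a => (p a).1) (hp' : Function.Injective fun a => (p' a).1)
    (hv : vs G U ∩ vs G Z ⊆ Set.range fun a => (p a).1)
    (hv' : vs G' U' ∩ vs G' Z' ⊆ Set.range fun a => (p' a).1)
    (h1 : Trc (img G U) p = Trc (img G' U') p') (h2 : Trc (img G Z) p = Trc (img G' Z') p')
    (hU : rk G U = U.card) (hZ : rk G Z = Z.card) (hU' : rk G' U' = U'.card)
    (hZ' : rk G' Z' = Z'.card) (hd : Disjoint U Z) (hd' : Disjoint U' Z') :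
    rk G (U ∪ Z) = (U ∪ Z).card ↔ rk G' (U' ∪ Z') = (U' ∪ Z').card := by
  have e1 := join_rank (img_finite G U) (img_finite G Z) (img_finite G' U') (img_finite G' Z')
    hp hp' hv hv' h1 h2
  rw [← img_union, ← img_union] at e1
  have e2 : rk G (U ∪ Z) + rk G' U' + rk G' Z' = rk G' (U' ∪ Z') + rk G U + rk G Z := e1
  rw [hU, hZ, hU', hZ'] at e2
  rw [Finset.card_union_of_disjoint hd, Finset.card_union_of_disjoint hd']
  omega

end Pool.Agent.Helper28.BW
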