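import Pool.Agent.Helper28.BW.Pieces
import Pool.Agent.Helper28.BW.Join

/-!
# BW-50: combining two embeddings

`Two2 G E A B q Il Ir Ip`: `A`, `B` are disjoint subsets of `E`, `q` enumerates the union of their boundaries injectively, `Il`, `Ir`, `Ip` are the sets of indices of the boundaries of `A`, `B`, `A ∪ B`.
`mkI q I`: the marks with indices in `I` (increasing enumeration of `I`), gauge `1`.
`trc_ext`. Let `T`, `T'` have equal traces on `mkI q I`, `mkI q' I`, and let the vertices `q a`, `q' a` with `a ∉ I` not be in `vx T`, `vx T'`. Then they have equal traces on all of `q`, `q'` (gauge `1`): for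
`a, b ∈ I` by hypothesis; if `a ∉ I` or `b ∉ I` a walk from `q a` to `q b` is trivial (`W_ends`), i.e. `a = b` and the gain is `1`, on both sides.
`comb_one`. Let `(ψ1, C1)` and `(ψ2, C2)` be the two embeddings. `ψ e = ψ1 e` for `e ∈ A` and `ψ2 e` otherwise, `C = C1 ∪ C2`. `ψ` is injective on `A ∪ B` as `A'`, `B'` are disjoint. For
`U ⊆ A ∪ B` let `U1 = U ∩ A`, `U2 = U ∩ B`, `V1 = U1.image ψ1 ∪ C1 ⊆ A'`, `V2 = U2.image ψ2 ∪ C2 ⊆ B'`; `U.image ψ ∪ C = V1 ∪ V2`. A vertex `q a` with `a ∉ Il` is in the boundary of `B` (`all`) and not in the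
boundary of `A`, so it is not in `vs G A` (`vs G B ⊆ vs G (E \ A)`); the same in `G'` (same index sets). So `trc_ext` gives equal traces of `U1` and `V1` on all of `q`, `q'`; the same for
`U2`, `V2`. Common vertices of `A` and `B` are in the boundary of `A`, so marked. `join_trace` gives equal traces of `U` and `V1 ∪ V2` on `q`, `q'`, and we restrict to `Ip`
(`Trc T (p ∘ ε) a b = Trc T p (ε a) (ε b)`). Independence: if `U1` or `U2` is dependent then so is `V1` or `V2` and both unions are dependent (`RkFn.indep_mono`); otherwise `join_indep`.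
`mk_mkI`: `mkI q Ip` are marks of the boundary of `A ∪ B`; similarly for `A`, `B`.
-/

set_option autoImplicit false

namespace Pool.Agent.Helper28.BW

variable {H : Type} [Group H]

/-- the marks with indices in `I`, gauge `1` -/
def mkI (H : Type) [Group H] {n : ℕ} (q : Fin n → ℕ) (I : Finset (Fin n)) :
    Fin I.card → ℕ × H := fun a => (q (I.orderEmbOfFin rfl a), 1)

/-- two disjoint sets with the union of their boundaries enumerated -/
structure Two2 (G : GG H) (E A B : Finset ℕ) {n : ℕ} (q : Fin n → ℕ)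
    (Il Ir Ip : Finset (Fin n)) : Prop where
  inj : Function.Injective q
  dis : Disjoint A B
  sub : A ∪ B ⊆ E
  all : ∀ a, a ∈ Il ∨ a ∈ Ir
  hl : ∀ v, v ∈ bd G E A ↔ ∃ a ∈ Il, q a = v
  hr : ∀ v, v ∈ bd G E B ↔ ∃ a ∈ Ir, q a = v
  hp : ∀ v, v ∈ bd G E (A ∪ B) ↔ ∃ a ∈ Ip, q a = v

theorem mk_mkI {G : GG H} {E A : Finset ℕ} {n : ℕ} {q : Fin n → ℕ} {I : Finset (Fin n)}
    (hq : Function.Injective q) (h : ∀ v, v ∈ bd G E A ↔ ∃ a ∈ I, q a = v) :
    Mk G E A (mkI H q I) := by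
  constructor
  · intro a b hab
    exact (I.orderEmbOfFin rfl).injective (hq hab)
  · ext v
    rw [h v]
    constructor
    · rintro ⟨a, ha⟩
      exact ⟨_, Finset.orderEmbOfFin_mem I rfl a, ha⟩
    · rintro ⟨a, ha, hav⟩
      have h2 : a ∈ Set.range (I.orderEmbOfFin rfl) := by
        rw [Finset.range_orderEmbOfFin]
        exact ha
      obtain ⟨x, hx⟩ := h2
      refine ⟨x, ?_⟩
      simp only [mkI]
      rw [hx, hav]

private lemma triv_walk {T : Set (Tri H)} {n : ℕ} {q : Fin n → ℕ} (hq : Function.Injective q)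
    {a b : Fin n} (hab : q a ∉ vx T ∨ q b ∉ vx T) (k : H) :
    W T (q a) (q b) k ↔ a = b ∧ k = 1 := by
  constructor
  · intro hw
    rcases W_ends hw with ⟨h1, h2⟩ | ⟨h1, h2⟩
    · exact ⟨hq h1, h2⟩
    · rcases hab with h3 | h3
      · exact absurd h1 h3
      · exact absurd h2 h3
  · rintro ⟨rfl, rfl⟩
    exact W.refl _

theorem trc_ext {T T' : Set (Tri H)} {n : ℕ} {q q' : Fin n → ℕ} {I : Finset (Fin n)}
    (hq : Function.Injective q) (hq' : Function.Injective q')
    (h : Trc T (mkI H q I) = Trc T' (mkI H q' I)) (hT : ∀ a, a ∉ I → q a ∉ vx T)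
    (hT' : ∀ a, a ∉ I → q' a ∉ vx T') :
    Trc T (fun a => (q a, (1 : H))) = Trc T' (fun a => (q' a, (1 : H))) := by
  funext a b k
  by_cases ha : a ∈ I
  · by_cases hb : b ∈ I
    · have ha2 : a ∈ Set.range (I.orderEmbOfFin rfl) := by
        rw [Finset.range_orderEmbOfFin]
        exact ha
      have hb2 : b ∈ Set.range (I.orderEmbOfFin rfl) := by
        rw [Finset.range_orderEmbOfFin]
        exact hb
      obtain ⟨x, rfl⟩ := ha2
      obtain ⟨y, rfl⟩ := hb2
      exact congrFun (congrFun (congrFun h x) y) k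
    · simp only [Trc]
      rw [triv_walk hq (Or.inr (hT b hb)), triv_walk hq' (Or.inr (hT' b hb))]
  · simp only [Trc]
    rw [triv_walk hq (Or.inl (hT a ha)), triv_walk hq' (Or.inl (hT' a ha))]

private lemma vs_sub {G : GG H} {X Y : Finset ℕ} (h : X ⊆ Y) : vx (img G X) ⊆ vs G Y :=
  vx_mono (img_mono G h)

private lemma Two2.ext1 {G : GG H} {E A B : Finset ℕ} {n : ℕ} {q : Fin n → ℕ}
    {Il Ir Ip : Finset (Fin n)} (h : Two2 G E A B q Il Ir Ip) {U : Finset ℕ} (hU : U ⊆ A) :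
    ∀ a, a ∉ Il → q a ∉ vx (img G U) := by
  intro a ha hv
  have h1 : a ∈ Ir := (h.all a).resolve_left ha
  have h2 : q a ∈ bd G E B := (h.hr _).2 ⟨a, h1, rfl⟩
  have h3 : q a ∈ vs G A := vs_sub hU hv
  have h4 : B ⊆ E \ A := by
    intro x hx
    exact Finset.mem_sdiff.2 ⟨h.sub (Finset.mem_union_right _ hx),
      fun hxA => (Finset.disjoint_left.1 h.dis hxA) hx⟩
  have h5 : q a ∈ bd G E A := ⟨h3, vs_sub h4 h2.1⟩
  obtain ⟨a', ha', he⟩ := (h.hl _).1 h5
  exact ha (h.inj he ▸ ha')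

private lemma Two2.swap {G : GG H} {E A B : Finset ℕ} {n : ℕ} {q : Fin n → ℕ}
    {Il Ir Ip : Finset (Fin n)} (h : Two2 G E A B q Il Ir Ip) : Two2 G E B A q Ir Il Ip where
  inj := h.inj
  dis := h.dis.symm
  sub := by
    rw [Finset.union_comm]
    exact h.sub
  all a := (h.all a).symm
  hl := h.hr
  hr := h.hl
  hp := by
    rw [Finset.union_comm]
    exact h.hp

private lemma Two2.common {G : GG H} {E A B : Finset ℕ} {n : ℕ} {q : Fin n → ℕ}
    {Il Ir Ip : Finset (Fin n)} (h : Two2 G E A B q Il Ir Ip) {U Z : Finset ℕ} (hU : U ⊆ A)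
    (hZ : Z ⊆ B) :
    vx (img G U) ∩ vx (img G Z) ⊆ Set.range fun a => ((q a, (1 : H)) : ℕ × H).1 := by
  rintro v ⟨h1, h2⟩
  have h4 : B ⊆ E \ A := by
    intro x hx
    exact Finset.mem_sdiff.2 ⟨h.sub (Finset.mem_union_right _ hx),
      fun hxA => (Finset.disjoint_left.1 h.dis hxA) hx⟩
  have h5 : v ∈ bd G E A := ⟨vs_sub hU h1, vs_sub (hZ.trans h4) h2⟩
  obtain ⟨a, _, ha⟩ := (h.hl _).1 h5
  exact ⟨a, ha⟩

theorem comb_one {G G' : GG H} {E A B E' A' B' : Finset ℕ} {n : ℕ} {q q' : Fin n → ℕ}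
    {Il Ir Ip : Finset (Fin n)} (h : Two2 G E A B q Il Ir Ip) (h' : Two2 G' E' A' B' q' Il Ir Ip)
    (h1 : LLe G A (mkI H q Il) G' A' (mkI H q' Il))
    (h2 : LLe G B (mkI H q Ir) G' B' (mkI H q' Ir)) :
    LLe G (A ∪ B) (mkI H q Ip) G' (A' ∪ B') (mkI H q' Ip) := by
  classical
  obtain ⟨ψ1, C1, inj1, im1, hC1, hU1⟩ := h1
  obtain ⟨ψ2, C2, inj2, im2, hC2, hU2⟩ := h2
  have hdis : ∀ x, x ∈ A → x ∈ B → False := fun x ha hb => Finset.disjoint_left.1 h.dis ha hb
  have hdis' : ∀ x, x ∈ A' → x ∈ B' → False := fun x ha hb => Finset.disjoint_left.1 h'.dis ha hb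
  obtain ⟨ψ, hψ⟩ : ∃ ψ : ℕ → ℕ, ψ = fun e => if e ∈ A then ψ1 e else ψ2 e := ⟨_, rfl⟩
  have e1 : ∀ x, x ∈ A → ψ x = ψ1 x := fun x hx => by rw [hψ]; simp [hx]
  have e2 : ∀ x, x ∈ B → ψ x = ψ2 x := fun x hx => by
    have : x ∉ A := fun hxA => hdis x hxA hx
    rw [hψ]; simp [this]
  have m1 : ∀ x, x ∈ A → ψ x ∈ A' := fun x hx => by
    rw [e1 x hx]; exact im1 (Finset.mem_image_of_mem _ hx)
  have m2 : ∀ x, x ∈ B → ψ x ∈ B' := fun x hx => by
    rw [e2 x hx]; exact im2 (Finset.mem_image_of_mem _ hx)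
  refine ⟨ψ, C1 ∪ C2, ?_, ?_, ?_, ?_⟩
  · intro x hx y hy hxy
    have hx' := Finset.mem_union.1 (Finset.mem_coe.1 hx)
    have hy' := Finset.mem_union.1 (Finset.mem_coe.1 hy)
    rcases hx' with hx' | hx' <;> rcases hy' with hy' | hy'
    · rw [e1 x hx', e1 y hy'] at hxy
      exact inj1 hx' hy' hxy
    · exact (hdis' _ (m1 x hx') (hxy ▸ m2 y hy')).elim
    · exact (hdis' _ (m1 y hy') (hxy ▸ m2 x hx')).elim
    · rw [e2 x hx', e2 y hy'] at hxy
      exact inj2 hx' hy' hxy
  · intro y hy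
    obtain ⟨x, hx, rfl⟩ := Finset.mem_image.1 hy
    rcases Finset.mem_union.1 hx with hx | hx
    · exact Finset.mem_union_left _ (m1 x hx)
    · exact Finset.mem_union_right _ (m2 x hx)
  · intro c hc
    rcases Finset.mem_union.1 hc with hc | hc
    · have hc' := Finset.mem_sdiff.1 (hC1 hc)
      refine Finset.mem_sdiff.2 ⟨Finset.mem_union_left _ hc'.1, fun hi => ?_⟩
      obtain ⟨x, hx, rfl⟩ := Finset.mem_image.1 hi
      rcases Finset.mem_union.1 hx with hx | hx
      · exact hc'.2 (by rw [e1 x hx]; exact Finset.mem_image_of_mem _ hx)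
      · exact hdis' _ hc'.1 (m2 x hx)
    · have hc' := Finset.mem_sdiff.1 (hC2 hc)
      refine Finset.mem_sdiff.2 ⟨Finset.mem_union_right _ hc'.1, fun hi => ?_⟩
      obtain ⟨x, hx, rfl⟩ := Finset.mem_image.1 hi
      rcases Finset.mem_union.1 hx with hx | hx
      · exact hdis' _ (m1 x hx) hc'.1
      · exact hc'.2 (by rw [e2 x hx]; exact Finset.mem_image_of_mem _ hx)
  · intro U hU
    obtain ⟨U1, hU1d⟩ : ∃ V : Finset ℕ, V = U ∩ A := ⟨_, rfl⟩
    obtain ⟨U2, hU2d⟩ : ∃ V : Finset ℕ, V = U ∩ B := ⟨_, rfl⟩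
    obtain ⟨V1, hV1d⟩ : ∃ V : Finset ℕ, V = U1.image ψ1 ∪ C1 := ⟨_, rfl⟩
    obtain ⟨V2, hV2d⟩ : ∃ V : Finset ℕ, V = U2.image ψ2 ∪ C2 := ⟨_, rfl⟩
    have s1 : U1 ⊆ A := by rw [hU1d]; exact Finset.inter_subset_right
    have s2 : U2 ⊆ B := by rw [hU2d]; exact Finset.inter_subset_right
    have t1 : V1 ⊆ A' := by
      rw [hV1d]
      exact Finset.union_subset ((Finset.image_subset_image s1).trans im1)
        (hC1.trans Finset.sdiff_subset)
    have t2 : V2 ⊆ B' := by
      rw [hV2d]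
      exact Finset.union_subset ((Finset.image_subset_image s2).trans im2)
        (hC2.trans Finset.sdiff_subset)
    have hUU : U = U1 ∪ U2 := by
      rw [hU1d, hU2d, ← Finset.inter_union_distrib_left]
      exact (Finset.inter_eq_left.2 hU).symm
    have im_eq : U.image ψ = U1.image ψ1 ∪ U2.image ψ2 := by
      rw [hUU, Finset.image_union]
      congr 1
      · exact Finset.image_congr fun x hx => e1 x (s1 hx)
      · exact Finset.image_congr fun x hx => e2 x (s2 hx)
    have hVV : U.image ψ ∪ (C1 ∪ C2) = V1 ∪ V2 := by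
      rw [im_eq, hV1d, hV2d, Finset.union_union_union_comm]
    obtain ⟨a1, b1⟩ := hU1 U1 s1
    obtain ⟨a2, b2⟩ := hU2 U2 s2
    rw [← hV1d] at a1 b1
    rw [← hV2d] at a2 b2
    have c1 := trc_ext h.inj h'.inj a1.symm (h.ext1 s1) (h'.ext1 t1)
    have c2 := trc_ext h.inj h'.inj a2.symm (h.swap.ext1 s2) (h'.swap.ext1 t2)
    have cv := h.common s1 s2
    have cv' := h'.common t1 t2
    have hd : Disjoint U1 U2 := Finset.disjoint_left.2 fun x hx hy => hdis x (s1 hx) (s2 hy)
    have hd' : Disjoint V1 V2 := Finset.disjoint_left.2 fun x hx hy => hdis' x (t1 hx) (t2 hy)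
    rw [hVV, hUU]
    constructor
    · have d := join_trace cv cv' c1 c2
      rw [← img_union, ← img_union] at d
      funext a b k
      exact (congrFun (congrFun (congrFun d (Ip.orderEmbOfFin rfl a))
        (Ip.orderEmbOfFin rfl b)) k).symm
    · by_cases i1 : rk G U1 = U1.card
      · by_cases i2 : rk G U2 = U2.card
        · exact (join_indep h.inj h'.inj cv cv' c1 c2 i1 i2 (b1.2 i1) (b2.2 i2) hd hd').symm
        · constructor
          · intro hi
            exact absurd (b2.1 ((rk_rkFn G').indep_mono Finset.subset_union_right hi)) i2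
          · intro hi
            exact absurd ((rk_rkFn G).indep_mono Finset.subset_union_right hi) i2
      · constructor
        · intro hi
          exact absurd (b1.1 ((rk_rkFn G').indep_mono Finset.subset_union_left hi)) i1
        · intro hi
          exact absurd ((rk_rkFn G).indep_mono Finset.subset_union_left hi) i1

end Pool.Agent.Helper28.BW
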