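import Pool.Agent.Helper28.BW.M1

/-!
# BW-16: the boundary of a good set has at most `6 * lam` vertices

`cnt`. Let `S` be a finite set of vertices, `T` a set of triples such that every balanced component of a vertex of `S`
contains at least two vertices of `S`. Let `O` be the set of `u ∈ S` which are unbalanced or whose component contains at
least three vertices of `S`. Then `6 * bal T S + |O| ≤ 3 * |S|`. Proof. `S \ O` is a disjoint union of
`b1` sets of size exactly two (the balanced components with exactly two vertices of `S`), so `|S| - |O| = 2 * b1`. The other balanced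
components, `b2` of them, contribute at least three vertices each to `O`, so `3 * b2 ≤ |O|`. `bal T S = b1 + b2`, so
`6 * bal T S = 3 * (|S| - |O|) + 6 * b2 ≤ 3 * |S| - 3 * |O| + 2 * |O|`.

`good_bd_le`. Let `S = bd G E A`, `a = bal (img G A) S`, `b = bal (img G (E \ A)) S`, `c = bal (img G E) S`. By `lam_bd`:
`lam + a + b = |S| + c`. Let `OA`, `OB` be the sets `O` for `A` and for `B = E \ A`. A vertex `u ∈ S` outside
`OA ∪ OB` has a balanced `A`-component with exactly two vertices `u, z` of `S` (`m2l` and not three) and a balanced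
`B`-component with exactly two vertices `u, x`; by `m1` `x = z`, by `m2` `u` is balanced in `E`; and the
`E`-component of `u` contains only the vertices `u`, `x` of `S` (for `x` the components are the same two components:
a walk of `E` from `u` alternates between the two components, which meet other edges only in `S`). So these vertices
come in pairs, at most one pair for each balanced `E`-component: `|S \ (OA ∪ OB)| ≤ 2 * c`. Hence
`|S| ≤ |OA| + |OB| + 2 * c ≤ 6 * |S| - 6 * a - 6 * b + 2 * c = 6 * lam - 6 * c + 2 * c ≤ 6 * lam`.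
-/

set_option autoImplicit false

namespace Pool.Agent.Helper28.BW

variable {H : Type} [Group H]

private theorem cnt_fiber {T : Set (Tri H)} {S : Set ℕ} {u v : ℕ} (h : cls T v = cls T u) :
    cls T v ∩ S = cls T u ∩ S := by rw [h]

theorem cnt {T : Set (Tri H)} {S : Set ℕ} (hS : S.Finite)
    (h2 : ∀ u ∈ S, ¬ Unb T u → ∃ w ∈ S, w ≠ u ∧ Con T u w) :
    6 * bal T S + {u | u ∈ S ∧ (Unb T u ∨ 3 ≤ (cls T u ∩ S).ncard)}.ncard ≤ 3 * S.ncard := by
  classical
  obtain ⟨s, hs⟩ : ∃ s : Finset ℕ, (s : Set ℕ) = S := ⟨hS.toFinset, hS.coe_toFinset⟩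
  have hmem : ∀ u, u ∈ s ↔ u ∈ S := fun u => by rw [← hs, Finset.mem_coe]
  obtain ⟨sb, hsb⟩ : ∃ sb : Finset ℕ, sb = s.filter (fun u => ¬ Unb T u) := ⟨_, rfl⟩
  obtain ⟨ob, hob⟩ : ∃ ob : Finset ℕ, ob = sb.filter (fun u => 3 ≤ (cls T u ∩ S).ncard) :=
    ⟨_, rfl⟩
  have hbal : bal T S = (sb.image (cls T)).card := by
    rw [bal, balC_eq_image, ← Set.ncard_coe_finset, Finset.coe_image, hsb, Finset.coe_filter]
    congr 2
    ext u
    rw [Set.mem_ofPred_eq, Set.mem_ofPred_eq, hmem]
  have hfib : ∀ u ∈ sb, ((sb.filter (fun v => cls T v = cls T u) : Finset ℕ) : Set ℕ) =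
      cls T u ∩ S := by
    intro u hu
    rw [hsb, Finset.mem_filter, hmem] at hu
    ext v
    rw [Finset.coe_filter, Set.mem_ofPred_eq, hsb, Finset.mem_filter, hmem]
    constructor
    · rintro ⟨⟨h3, -⟩, h4⟩
      exact ⟨(cls_eq_iff.1 h4).symm, h3⟩
    · rintro ⟨h3, h4⟩
      have h5 : Con T u v := h3
      exact ⟨⟨h4, fun h6 => hu.2 (h6.of_con h5.symm)⟩, cls_eq_iff.2 h5.symm⟩
  have hterm : ∀ c ∈ sb.image (cls T), 6 + (ob.filter (fun v => cls T v = c)).card ≤
      3 * (sb.filter (fun v => cls T v = c)).card := by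
    intro c hc
    obtain ⟨u, hu, rfl⟩ := Finset.mem_image.1 hc
    have hcard : (sb.filter (fun v => cls T v = cls T u)).card = (cls T u ∩ S).ncard := by
      rw [← Set.ncard_coe_finset, hfib u hu]
    have hsub : (ob.filter (fun v => cls T v = cls T u)).card ≤
        (sb.filter (fun v => cls T v = cls T u)).card := by
      apply Finset.card_le_card
      apply Finset.filter_subset_filter
      rw [hob]
      exact Finset.filter_subset _ _
    have htwo : 2 ≤ (sb.filter (fun v => cls T v = cls T u)).card := by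
      have hu' := hu
      rw [hsb, Finset.mem_filter, hmem] at hu'
      obtain ⟨w, hw, hwu, hcon⟩ := h2 u hu'.1 hu'.2
      have h3 : Finset.card ({u, w} : Finset ℕ) = 2 := Finset.card_pair hwu.symm
      rw [← h3]
      apply Finset.card_le_card
      intro x hx
      have h4 : x ∈ cls T u ∩ S := by
        rcases Finset.mem_insert.1 hx with rfl | hx
        · exact ⟨mem_cls_self T x, hu'.1⟩
        · rw [Finset.mem_singleton] at hx
          rw [hx]
          exact ⟨hcon, hw⟩
      rw [← hfib u hu, Finset.mem_coe] at h4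
      exact h4
    by_cases h3 : 3 ≤ (cls T u ∩ S).ncard
    · omega
    · have h4 : ob.filter (fun v => cls T v = cls T u) = ∅ := by
        rw [Finset.filter_eq_empty_iff]
        intro x hx hxu
        rw [hob, Finset.mem_filter, cnt_fiber hxu] at hx
        exact h3 hx.2
      rw [h4, Finset.card_empty]
      omega
  have hsum : ∑ c ∈ sb.image (cls T), (6 + (ob.filter (fun v => cls T v = c)).card) ≤
      ∑ c ∈ sb.image (cls T), 3 * (sb.filter (fun v => cls T v = c)).card :=
    Finset.sum_le_sum hterm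
  rw [Finset.sum_add_distrib, ← Finset.mul_sum, Finset.sum_const, smul_eq_mul,
    ← Finset.card_eq_sum_card_image, ← Finset.card_eq_sum_card_fiberwise (s := ob)
      (t := sb.image (cls T)) (f := cls T)] at hsum
  · have hO : {u | u ∈ S ∧ (Unb T u ∨ 3 ≤ (cls T u ∩ S).ncard)}.ncard ≤
        (s.filter (fun u => Unb T u)).card + ob.card := by
      have h3 : {u | u ∈ S ∧ (Unb T u ∨ 3 ≤ (cls T u ∩ S).ncard)} ⊆
          ((s.filter (fun u => Unb T u) ∪ ob : Finset ℕ) : Set ℕ) := by
        rintro u ⟨h3, h4⟩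
        rw [Finset.mem_coe, Finset.mem_union, Finset.mem_filter, hmem, hob, Finset.mem_filter,
          hsb, Finset.mem_filter, hmem]
        by_cases h5 : Unb T u
        · exact Or.inl ⟨h3, h5⟩
        · exact Or.inr ⟨⟨h3, h5⟩, h4.resolve_left h5⟩
      refine (Set.ncard_le_ncard h3 (Finset.finite_toSet _)).trans ?_
      rw [Set.ncard_coe_finset]
      exact Finset.card_union_le _ _
    have hSc : S.ncard = (s.filter (fun u => Unb T u)).card + sb.card := by
      rw [← hs, Set.ncard_coe_finset, hsb]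
      exact (Finset.card_filter_add_card_filter_not _).symm
    rw [hbal]
    omega
  · intro x hx
    rw [Finset.mem_coe, hob, Finset.mem_filter] at hx
    rw [Finset.mem_coe]
    exact Finset.mem_image_of_mem _ hx.1

/-- the exactly two vertices of a small component -/
private theorem exists_two {T : Set (Tri H)} {S : Set ℕ} (hS : S.Finite) {u : ℕ} (hu : u ∈ S)
    (hb : ¬ Unb T u) (hw : ∃ w ∈ S, w ≠ u ∧ Con T u w) (h3 : ¬ 3 ≤ (cls T u ∩ S).ncard) :
    ∃ z, Two T S u z := by
  classical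
  obtain ⟨w, hw1, hw2, hw3⟩ := hw
  refine ⟨w, hu, hw1, hw2.symm, hb, hw3, fun x hx hux => ?_⟩
  by_contra hcon
  push Not at hcon
  apply h3
  have h4 : (({u, w, x} : Finset ℕ) : Set ℕ) ⊆ cls T u ∩ S := by
    intro y hy
    rw [Finset.mem_coe, Finset.mem_insert, Finset.mem_insert, Finset.mem_singleton] at hy
    rcases hy with rfl | rfl | rfl
    · exact ⟨mem_cls_self T y, hu⟩
    · exact ⟨hw3, hw1⟩
    · exact ⟨hux, hx⟩
  have h5 : ({u, w, x} : Finset ℕ).card = 3 :=
    Finset.card_eq_three.2 ⟨u, w, x, hw2.symm, hcon.1.symm, hcon.2.symm, rfl⟩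
  rw [← h5, ← Set.ncard_coe_finset]
  exact Set.ncard_le_ncard h4 (hS.subset Set.inter_subset_right)

/-- the component in `E` of a vertex whose components in `A` and `E \ A` are both small -/
private theorem two_both {G : GG H} {E A : Finset ℕ} {u z v : ℕ}
    (h1 : Two (img G A) (bd G E A) u z) (h2 : Two (img G (E \ A)) (bd G E A) u z)
    (hv : v ∈ bd G E A) (hc : Con (img G E) u v) : v = u ∨ v = z := by
  obtain ⟨g, hg⟩ := hc
  have hclosed : ∀ t ∈ img G E, (t.1 ∈ cls (img G A) u ∪ cls (img G (E \ A)) u ∨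
      t.2.1 ∈ cls (img G A) u ∪ cls (img G (E \ A)) u) →
      t.1 ∈ cls (img G A) u ∪ cls (img G (E \ A)) u ∧
      t.2.1 ∈ cls (img G A) u ∪ cls (img G (E \ A)) u ∧ t ∈ img G E := by
    intro t ht hend
    obtain ⟨e, he, rfl⟩ := ht
    -- for the edges of one side an end in the union is in the component of the same side
    have key : ∀ (X Y : Finset ℕ), Two (img G X) (bd G E A) u z →
        Two (img G Y) (bd G E A) u z → (∀ p, p ∈ vs G X → p ∈ vs G Y → p ∈ bd G E A) →
        e ∈ X → ∀ p, (p = (G e).1 ∨ p = (G e).2.1) →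
        (p ∈ cls (img G X) u ∨ p ∈ cls (img G Y) u) →
        (G e).1 ∈ cls (img G X) u ∧ (G e).2.1 ∈ cls (img G X) u := by
      intro X Y hX hY hXY heX p hp hpc
      have heimg : G e ∈ img G X := ⟨e, heX, rfl⟩
      have hpX : p ∈ vs G X := ⟨G e, heimg, hp⟩
      have hpc' : Con (img G X) u p := by
        rcases hpc with hpc | hpc
        · exact hpc
        · rcases Con_ends hpc with h | h
          · rw [← h]
            exact Con.refl _ _
          · rcases hY.2.2.2.2.2 p (hXY p hpX h.2) hpc with h | h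
            · rw [h]
              exact Con.refl _ _
            · rw [h]
              exact hX.2.2.2.2.1
      have hedge : Con (img G X) (G e).1 (G e).2.1 := ⟨_, W.edge heimg⟩
      rcases hp with rfl | rfl
      · exact ⟨hpc', hpc'.trans hedge⟩
      · exact ⟨hpc'.trans hedge.symm, hpc'⟩
    have hin : G e ∈ img G E := ⟨e, he, rfl⟩
    by_cases heA : e ∈ A
    · have h3 := key A (E \ A) h1 h2 (fun p hp hp' => ⟨hp, hp'⟩) heA
      rcases hend with hend | hend
      · have h4 := h3 _ (Or.inl rfl) hend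
        exact ⟨Or.inl h4.1, Or.inl h4.2, hin⟩
      · have h4 := h3 _ (Or.inr rfl) hend
        exact ⟨Or.inl h4.1, Or.inl h4.2, hin⟩
    · have h3 := key (E \ A) A h2 h1 (fun p hp hp' => ⟨hp', hp⟩)
        (Finset.mem_sdiff.2 ⟨he, heA⟩)
      rcases hend with hend | hend
      · have h4 := h3 _ (Or.inl rfl) hend.symm
        exact ⟨Or.inr h4.1, Or.inr h4.2, hin⟩
      · have h4 := h3 _ (Or.inr rfl) hend.symm
        exact ⟨Or.inr h4.1, Or.inr h4.2, hin⟩
  have h3 := (W_closed (C := cls (img G A) u ∪ cls (img G (E \ A)) u) (T' := img G E)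
    (Or.inl (mem_cls_self _ u)) hclosed hg).1
  rcases h3 with h3 | h3
  · exact h1.2.2.2.2.2 v hv h3
  · exact h2.2.2.2.2.2 v hv h3


theorem good_bd_le {G : GG H} {r : Finset ℕ → ℕ} (hr : RkFn r) {E A : Finset ℕ}
    (hG : Rep G r E) (hA : A ⊆ E) (hg : Good G E A) : (bd G E A).ncard ≤ 6 * lam r E A := by
  classical
  have hS := bd_finite G E A
  have hlam := lam_bd hr hG hA
  have hcA := cnt (T := img G A) hS hg.m2l
  have hcB := cnt (T := img G (E \ A)) hS hg.m2r
  obtain ⟨s, hs⟩ : ∃ s : Finset ℕ, (s : Set ℕ) = bd G E A := ⟨hS.toFinset, hS.coe_toFinset⟩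
  have hmem : ∀ u, u ∈ s ↔ u ∈ bd G E A := fun u => by rw [← hs, Finset.mem_coe]
  obtain ⟨R, hR⟩ : ∃ R : Finset ℕ, R = s.filter (fun u =>
      ¬ (Unb (img G A) u ∨ 3 ≤ (cls (img G A) u ∩ bd G E A).ncard) ∧
      ¬ (Unb (img G (E \ A)) u ∨ 3 ≤ (cls (img G (E \ A)) u ∩ bd G E A).ncard)) := ⟨_, rfl⟩
  have hRtwo : ∀ u ∈ R, u ∈ bd G E A ∧ ¬ Unb (img G E) u ∧
      ∃ z, Two (img G A) (bd G E A) u z ∧ Two (img G (E \ A)) (bd G E A) u z := by
    intro u hu
    rw [hR, Finset.mem_filter, hmem] at hu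
    obtain ⟨hu1, hu2, hu3⟩ := hu
    push Not at hu2 hu3
    obtain ⟨z, hz⟩ := exists_two hS hu1 hu2.1 (hg.m2l u hu1 hu2.1) (by omega)
    obtain ⟨x, hx⟩ := exists_two hS hu1 hu3.1 (hg.m2r u hu1 hu3.1) (by omega)
    have hxz := hg.m1 x u z hz hx
    subst hxz
    exact ⟨hu1, hg.m2 x u hz hx, x, hz, hx⟩
  have hR2 : R.card ≤ 2 * bal (img G E) (bd G E A) := by
    have h1 : R.card ≤ 2 * (R.image (cls (img G E))).card := by
      apply Finset.card_le_mul_card_image
      intro c hc
      obtain ⟨u, hu, rfl⟩ := Finset.mem_image.1 hc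
      obtain ⟨hu1, hu2, z, hz1, hz2⟩ := hRtwo u hu
      refine le_trans (Finset.card_le_card (t := {u, z}) ?_) Finset.card_le_two
      intro v hv
      rw [Finset.mem_filter] at hv
      rw [Finset.mem_insert, Finset.mem_singleton]
      exact two_both hz1 hz2 (hRtwo v hv.1).1 (cls_eq_iff.1 hv.2).symm
    have h2 : (R.image (cls (img G E))).card ≤ bal (img G E) (bd G E A) := by
      rw [bal, ← Set.ncard_coe_finset]
      apply Set.ncard_le_ncard _ (balC_finite _ hS)
      intro c hc
      rw [Finset.mem_coe] at hc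
      obtain ⟨u, hu, rfl⟩ := Finset.mem_image.1 hc
      obtain ⟨hu1, hu2, -⟩ := hRtwo u hu
      exact ⟨u, hu1, hu2, rfl⟩
    omega
  have hcover : (bd G E A).ncard ≤
      {u | u ∈ bd G E A ∧ (Unb (img G A) u ∨ 3 ≤ (cls (img G A) u ∩ bd G E A).ncard)}.ncard +
      {u | u ∈ bd G E A ∧ (Unb (img G (E \ A)) u ∨
        3 ≤ (cls (img G (E \ A)) u ∩ bd G E A).ncard)}.ncard + R.card := by
    have h1 : bd G E A ⊆
        ({u | u ∈ bd G E A ∧ (Unb (img G A) u ∨ 3 ≤ (cls (img G A) u ∩ bd G E A).ncard)} ∪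
        {u | u ∈ bd G E A ∧ (Unb (img G (E \ A)) u ∨
          3 ≤ (cls (img G (E \ A)) u ∩ bd G E A).ncard)}) ∪ (R : Set ℕ) := by
      intro u hu
      by_cases h2 : Unb (img G A) u ∨ 3 ≤ (cls (img G A) u ∩ bd G E A).ncard
      · exact Or.inl (Or.inl ⟨hu, h2⟩)
      · by_cases h3 : Unb (img G (E \ A)) u ∨ 3 ≤ (cls (img G (E \ A)) u ∩ bd G E A).ncard
        · exact Or.inl (Or.inr ⟨hu, h3⟩)
        · refine Or.inr ?_
          rw [Finset.mem_coe, hR, Finset.mem_filter, hmem]
          exact ⟨hu, h2, h3⟩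
    have hf1 := hS.subset (fun u (hu : u ∈ {u | u ∈ bd G E A ∧
      (Unb (img G A) u ∨ 3 ≤ (cls (img G A) u ∩ bd G E A).ncard)}) => hu.1)
    have hf2 := hS.subset (fun u (hu : u ∈ {u | u ∈ bd G E A ∧
      (Unb (img G (E \ A)) u ∨ 3 ≤ (cls (img G (E \ A)) u ∩ bd G E A).ncard)}) => hu.1)
    refine (Set.ncard_le_ncard h1 ((hf1.union hf2).union R.finite_toSet)).trans ?_
    refine (Set.ncard_union_le _ _).trans ?_
    rw [Set.ncard_coe_finset]
    exact Nat.add_le_add_right (Set.ncard_union_le _ _) _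
  omega

theorem opt_bd_le {G : GG H} {r : Finset ℕ → ℕ} (hr : RkFn r) {E : Finset ℕ}
    {F : List (Finset ℕ)} (h : Opt G r E F) {A : Finset ℕ} (hA : A ∈ F) :
    (bd G E A).ncard ≤ 6 * lam r E A :=
  good_bd_le hr h.1 (h.2.1.1 A hA) (good_of_opt h hA)

end Pool.Agent.Helper28.BW
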