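import Pool.Agent.Helper28.BW.ChooseY

/-!
# BW-42: counting wide subtrees after uncrossing

Configuration `Cfg E l L z Y κ`, `x = wrap L z`, `x' = owr Y (x.inter Y) L`, `m > κ`. Every subtree `t` of a sibling has two copies `t.set ∩ Y` (inner)
and `t.set \ Y` (outer), every path tree `W` (above `z`) has the copies `W ∩ Y` (inner) and `W ∪ Y` (outer), subtrees of `z` have only the inner copy,
equal to themselves (`inter_eq_self`), and the inner copy of `x` is `Y` of width `κ < m`. `DegAt l Y m L z`: some split subtree of a sibling has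
width exactly `m`, or some path tree above `z` has width exactly `m` and both copies have width `< m`.
Facts. (i) unsplit `t`: one copy is `t` and the other is empty (width `0`). (ii) split `t` of width `μ`: both copies have width `< μ` (`Cfg.spl`).
(iii) path tree of width `μ > κ` with a copy of width `μ`: the other copy has width `≤ κ` (`Cfg.union_le`); always the copies have width `≤ μ`, and if
`μ = m` at most one copy has width `≥ m`.
`countN`. Suppose nothing is degraded at widths `> m`. Then every wide (`≥ m`) subtree of width `> m` has exactly one copy of width `≥ m`, every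
subtree of width exactly `m` has at most one, none if it is degraded, and narrow subtrees have none. So `cN l m x' ≤ cN l m x`, strictly if
`DegAt l Y m L z`. Formally: by induction on the list `L` (the path from `z` upwards) prove, for the part of the path below,
`cN l m ((wrap L z).inter Y) + O ≤ cN l m (wrap L z)` (and `<` if degraded), where `O` counts the outer copies (`O = 0` for `L = []`; for `(c, s) :: L` it is
`O + cN l m (s.diff Y) +` (1 if the outer copy of the new path tree is wide)); for siblings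
`cN l m (s.inter Y) + cN l m (s.diff Y) ≤ cN l m s` by induction on `s`. And `cN l m (owr Y I L) = cN l m I + O` when `I.set = Y` (`set_owr`).
(In the induction the tree `z`, the set `Y`, and the inequalities of `Cfg` for the whole `x` stay fixed; only the path prefix grows; state the
induction for suffixes of `L`.)
`countE`. Suppose nothing is degraded at widths `≥ m`. Then every wide subtree of `x` has exactly one wide copy and narrow ones have none. Adjacent wide copies
(both inner or both outer) come from adjacent wide subtrees; the only other adjacency in `x'` is between the root `Y` of the inner tree (width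
`κ < m`, narrow) and its parent. So `cE l m x' ≤ cE l m x`. If `m = κ + 1` and all path trees (including `x` and `z`) have width `≥ m`: the wide
copy of `z` is inner and the wide copy of `x` is outer (its inner copy is `Y`), so somewhere on the path the parent's wide copy is outer
and the child's is inner, and this adjacent pair of `x` is not adjacent in `x'`: strict inequality. Formally: induction along the path with the
additional summand (1 if the wide copy of the top tree is outer).
-/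

set_option autoImplicit false

namespace Pool.Agent.Helper28.BW

open BT

/-- something of width exactly `m` is degraded -/
def DegAt (l : Finset ℕ → ℕ) (Y : Finset ℕ) (m : ℕ) : List (Bool × BT) → BT → Prop
  | [], _ => False
  | (c, s) :: L, z =>
      (∃ t, Sub t s ∧ Split Y t ∧ l t.set = m) ∨
      (l (wrap ((c, s) :: L) z).set = m ∧ l ((wrap ((c, s) :: L) z).set ∩ Y) < m ∧
        l ((wrap ((c, s) :: L) z).set ∪ Y) < m) ∨ DegAt l Y m L z

/-- conditions on the set of a path tree -/
private def pc (l : Finset ℕ → ℕ) (Y : Finset ℕ) (m : ℕ) (A : Finset ℕ) : Prop :=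
  l (A ∩ Y) ≤ l A ∧ (m ≤ l (A ∪ Y) → m ≤ l A) ∧ ¬ (m ≤ l (A ∩ Y) ∧ m ≤ l (A ∪ Y))

/-- conditions on a sibling -/
private def sc (l : Finset ℕ → ℕ) (Y : Finset ℕ) (m : ℕ) (s : BT) : Prop :=
  ∀ t, Sub t s → l (t.set ∩ Y) ≤ l t.set ∧ l (t.set \ Y) ≤ l t.set ∧
    ¬ (m ≤ l (t.set ∩ Y) ∧ m ≤ l (t.set \ Y)) ∧
    (Split Y t → l t.set = m → l (t.set ∩ Y) < m ∧ l (t.set \ Y) < m)

private def PF (l : Finset ℕ → ℕ) (Y : Finset ℕ) (m : ℕ) (z : BT) : List (Bool × BT) → Prop
  | [] => pc l Y m z.set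
  | (c, s) :: M => pc l Y m (wrap ((c, s) :: M) z).set ∧ sc l Y m s ∧ PF l Y m z M

private theorem PF.top {l : Finset ℕ → ℕ} {Y : Finset ℕ} {m : ℕ} {z : BT}
    {M : List (Bool × BT)} (h : PF l Y m z M) : pc l Y m (wrap M z).set := by
  cases M with
  | nil => exact h
  | cons p M => exact h.1

private theorem set_wrap_cons (c : Bool) (s : BT) (M : List (Bool × BT)) (z : BT) :
    (wrap ((c, s) :: M) z).set = (wrap M z).set ∪ s.set := by
  cases c
  · exact Finset.union_comm _ _
  · rfl

private theorem sub_append (P M : List (Bool × BT)) (z : BT) :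
    Sub (wrap M z) (wrap (P ++ M) z) := by
  induction P with
  | nil => exact Sub.refl _
  | cons p P ih =>
    obtain ⟨c, s⟩ := p
    cases c
    · exact Sub.right ih
    · exact Sub.left ih

private theorem deg_append {l : Finset ℕ → ℕ} {Y : Finset ℕ} {m : ℕ} (P M : List (Bool × BT))
    (z : BT) (h : DegAt l Y m M z) : DegAt l Y m (P ++ M) z := by
  induction P with
  | nil => exact h
  | cons p P ih =>
    obtain ⟨c, s⟩ := p
    exact Or.inr (Or.inr ih)

private theorem PF_of_cfg {E : Finset ℕ} {l : Finset ℕ → ℕ} {L : List (Bool × BT)} {z : BT}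
    {Y : Finset ℕ} {κ m : ℕ} (h : Cfg E l L z Y κ) (hm : κ < m)
    (hd : ∀ m', m < m' → ¬ DegAt l Y m' L z) :
    ∀ M : List (Bool × BT), M <:+ L → PF l Y m z M := by
  intro M
  induction M with
  | nil =>
    intro _
    have h1 : z.set ∩ Y = z.set := Finset.inter_eq_left.2 h.zY
    have h2 : z.set ∪ Y = Y := Finset.union_eq_right.2 h.zY
    refine ⟨?_, ?_, ?_⟩
    · rw [h1]
    · rw [h2, h.lY]
      intro h3
      omega
    · rw [h2, h.lY]
      rintro ⟨-, h3⟩
      omega
  | cons p M ih =>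
    obtain ⟨c, s⟩ := p
    intro hM
    obtain ⟨P, hP⟩ := hM
    have hML : M <:+ L := ⟨P ++ [(c, s)], by rw [List.append_assoc]; exact hP⟩
    have hmem : (c, s) ∈ L := by
      rw [← hP]
      simp
    refine ⟨?_, ?_, ih hML⟩
    · have hsub : Sub (wrap ((c, s) :: M) z) (wrap L z) := by
        rw [← hP]
        exact sub_append P ((c, s) :: M) z
      have hWx := hsub.set_subset
      have hzW := (sub_wrap ((c, s) :: M) z).set_subset
      obtain ⟨h1, h2, h3⟩ := h.union_le hWx hzW
      refine ⟨by omega, by omega, ?_⟩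
      rintro ⟨h4, h5⟩
      have h6 : m < l (wrap ((c, s) :: M) z).set := by omega
      have h7 : ¬ DegAt l Y (l (wrap ((c, s) :: M) z).set) ((c, s) :: M) z := by
        intro h8
        refine hd _ h6 ?_
        rw [← hP]
        exact deg_append P ((c, s) :: M) z h8
      refine h7 (Or.inr (Or.inl ⟨rfl, ?_, ?_⟩))
      · omega
      · omega
    · intro t ht
      have hsub : Sub t (wrap L z) := ht.trans (sub_wrap_sib hmem)
      have htx := hsub.set_subset
      have hdisj : Disjoint t.set z.set :=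
        Finset.disjoint_of_subset_left ht.set_subset (wrap_sib_disjoint hmem h.ok)
      have h1 := h.inter_le htx
      have h2 := h.diff_le htx hdisj
      refine ⟨h1, h2, ?_, ?_⟩
      · rintro ⟨h3, h4⟩
        by_cases hsp : Split Y t
        · obtain ⟨h5, h6⟩ := h.spl c s hmem t ht hsp
          have h7 : m < l t.set := by omega
          refine hd _ h7 ?_
          rw [← hP]
          exact deg_append P ((c, s) :: M) z (Or.inl ⟨t, ht, hsp, rfl⟩)
        · unfold Split at hsp
          rw [not_and_or, Finset.not_nonempty_iff_eq_empty, Finset.not_nonempty_iff_eq_empty] at hsp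
          rcases hsp with h5 | h5
          · rw [h5, h.ss.empty] at h3
            omega
          · rw [h5, h.ss.empty] at h4
            omega
      · intro hsp hw
        obtain ⟨h5, h6⟩ := h.spl c s hmem t ht hsp
        omega

private theorem union_inter_eq (a b : BT) (Y : Finset ℕ) :
    (a.inter Y).set ∪ (b.inter Y).set = (a.set ∪ b.set) ∩ Y := by
  rw [set_inter, set_inter, Finset.union_inter_distrib_right]

private theorem union_diff_eq (a b : BT) (Y : Finset ℕ) :
    (a.diff Y).set ∪ (b.diff Y).set = (a.set ∪ b.set) \ Y := by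
  rw [set_diff, set_diff, Finset.union_sdiff_distrib]

private theorem cN_node_comm (l : Finset ℕ → ℕ) (m : ℕ) (a b : BT) :
    cN l m (node a b) = cN l m (node b a) := by
  change cN l m a + cN l m b + (if m ≤ l (a.set ∪ b.set) then 1 else 0)
    = cN l m b + cN l m a + (if m ≤ l (b.set ∪ a.set) then 1 else 0)
  rw [Finset.union_comm a.set, add_comm (cN l m a)]

private theorem cE_node_comm (l : Finset ℕ → ℕ) (m : ℕ) (a b : BT) :
    cE l m (node a b) = cE l m (node b a) := by
  change cE l m a + cE l m b + (if m ≤ l (a.set ∪ b.set) ∧ m ≤ l a.set then 1 else 0)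
      + (if m ≤ l (a.set ∪ b.set) ∧ m ≤ l b.set then 1 else 0)
    = cE l m b + cE l m a + (if m ≤ l (b.set ∪ a.set) ∧ m ≤ l b.set then 1 else 0)
      + (if m ≤ l (b.set ∪ a.set) ∧ m ≤ l a.set then 1 else 0)
  rw [Finset.union_comm a.set]
  omega

private theorem wrap_cons_eq (c : Bool) (s : BT) (M : List (Bool × BT)) (z : BT) :
    wrap ((c, s) :: M) z = node (wrap M z) s ∨ wrap ((c, s) :: M) z = node s (wrap M z) := by
  cases c
  · exact Or.inr rfl
  · exact Or.inl rfl

private theorem cN_wrap_cons (l : Finset ℕ → ℕ) (m : ℕ) (c : Bool) (s : BT)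
    (M : List (Bool × BT)) (z : BT) :
    cN l m (wrap ((c, s) :: M) z) = cN l m (wrap M z) + cN l m s +
      (if m ≤ l ((wrap M z).set ∪ s.set) then 1 else 0) := by
  cases c
  · exact cN_node_comm l m s (wrap M z)
  · rfl

private theorem cN_wrap_inter_cons (l : Finset ℕ → ℕ) (Y : Finset ℕ) (m : ℕ) (c : Bool) (s : BT)
    (M : List (Bool × BT)) (z : BT) :
    cN l m ((wrap ((c, s) :: M) z).inter Y) = cN l m ((wrap M z).inter Y) + cN l m (s.inter Y) +
      (if m ≤ l (((wrap M z).set ∪ s.set) ∩ Y) then 1 else 0) := by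
  rw [← union_inter_eq]
  cases c
  · exact cN_node_comm l m (s.inter Y) ((wrap M z).inter Y)
  · rfl

private theorem owr_union {Y : Finset ℕ} {I z : BT} (hI : I.set = Y) (hz : z.set ⊆ Y)
    (M : List (Bool × BT)) (s : BT) :
    (owr Y I M).set ∪ (s.diff Y).set = ((wrap M z).set ∪ s.set) ∪ Y := by
  rw [set_owr hI hz, set_diff]
  ext a
  simp only [Finset.mem_union, Finset.mem_sdiff]
  tauto

private theorem cN_owr_cons (l : Finset ℕ → ℕ) {Y : Finset ℕ} (m : ℕ) {I z : BT}
    (hI : I.set = Y) (hz : z.set ⊆ Y) (c : Bool) (s : BT) (M : List (Bool × BT)) :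
    cN l m (owr Y I ((c, s) :: M)) = cN l m (owr Y I M) + cN l m (s.diff Y) +
      (if m ≤ l (((wrap M z).set ∪ s.set) ∪ Y) then 1 else 0) := by
  rw [← owr_union hI hz]
  cases c
  · exact cN_node_comm l m (s.diff Y) (owr Y I M)
  · rfl

private theorem cE_wrap_cons (l : Finset ℕ → ℕ) (m : ℕ) (c : Bool) (s : BT)
    (M : List (Bool × BT)) (z : BT) :
    cE l m (wrap ((c, s) :: M) z) = cE l m (wrap M z) + cE l m s +
      (if m ≤ l ((wrap M z).set ∪ s.set) ∧ m ≤ l (wrap M z).set then 1 else 0) +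
      (if m ≤ l ((wrap M z).set ∪ s.set) ∧ m ≤ l s.set then 1 else 0) := by
  cases c
  · exact cE_node_comm l m s (wrap M z)
  · rfl

private theorem cE_wrap_inter_cons (l : Finset ℕ → ℕ) (Y : Finset ℕ) (m : ℕ) (c : Bool) (s : BT)
    (M : List (Bool × BT)) (z : BT) :
    cE l m ((wrap ((c, s) :: M) z).inter Y) = cE l m ((wrap M z).inter Y) + cE l m (s.inter Y) +
      (if m ≤ l (((wrap M z).set ∪ s.set) ∩ Y) ∧ m ≤ l ((wrap M z).set ∩ Y) then 1 else 0) +
      (if m ≤ l (((wrap M z).set ∪ s.set) ∩ Y) ∧ m ≤ l (s.set ∩ Y) then 1 else 0) := by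
  rw [← union_inter_eq, ← set_inter Y (wrap M z), ← set_inter Y s]
  cases c
  · exact cE_node_comm l m (s.inter Y) ((wrap M z).inter Y)
  · rfl

private theorem cE_owr_cons (l : Finset ℕ → ℕ) {Y : Finset ℕ} (m : ℕ) {I z : BT}
    (hI : I.set = Y) (hz : z.set ⊆ Y) (c : Bool) (s : BT) (M : List (Bool × BT)) :
    cE l m (owr Y I ((c, s) :: M)) = cE l m (owr Y I M) + cE l m (s.diff Y) +
      (if m ≤ l (((wrap M z).set ∪ s.set) ∪ Y) ∧ m ≤ l ((wrap M z).set ∪ Y) then 1 else 0) +
      (if m ≤ l (((wrap M z).set ∪ s.set) ∪ Y) ∧ m ≤ l (s.set \ Y) then 1 else 0) := by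
  rw [← owr_union hI hz, ← set_owr hI hz, ← set_diff Y s]
  cases c
  · exact cE_node_comm l m (s.diff Y) (owr Y I M)
  · rfl

private theorem sibN {l : Finset ℕ → ℕ} {Y : Finset ℕ} {m : ℕ} (s : BT) (hs : sc l Y m s) :
    cN l m (s.inter Y) + cN l m (s.diff Y) ≤ cN l m s ∧
      ((∃ t, Sub t s ∧ Split Y t ∧ l t.set = m) →
        cN l m (s.inter Y) + cN l m (s.diff Y) < cN l m s) := by
  induction s with
  | leaf a =>
    obtain ⟨h1, h2, h3, h4⟩ := hs _ (Sub.refl _)
    change l (a ∩ Y) ≤ l a at h1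
    change l (a \ Y) ≤ l a at h2
    change ¬ (m ≤ l (a ∩ Y) ∧ m ≤ l (a \ Y)) at h3
    change (if m ≤ l (a ∩ Y) then 1 else 0) + (if m ≤ l (a \ Y) then 1 else 0)
        ≤ (if m ≤ l a then 1 else 0) ∧ (_ →
      (if m ≤ l (a ∩ Y) then 1 else 0) + (if m ≤ l (a \ Y) then 1 else 0)
        < (if m ≤ l a then 1 else 0))
    refine ⟨by split_ifs <;> omega, ?_⟩
    rintro ⟨t, ht, hsp, hw⟩
    cases ht
    obtain ⟨h5, h6⟩ := h4 hsp hw
    change l (a ∩ Y) < m at h5
    change l (a \ Y) < m at h6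
    change l a = m at hw
    rw [if_neg (by omega), if_neg (by omega), if_pos (by omega)]
    omega
  | node a b iha ihb =>
    obtain ⟨h1, h2, h3, h4⟩ := hs _ (Sub.refl _)
    obtain ⟨ha, ha'⟩ := iha (fun t ht => hs t (Sub.left ht))
    obtain ⟨hb, hb'⟩ := ihb (fun t ht => hs t (Sub.right ht))
    change l ((a.set ∪ b.set) ∩ Y) ≤ l (a.set ∪ b.set) at h1
    change l ((a.set ∪ b.set) \ Y) ≤ l (a.set ∪ b.set) at h2
    change ¬ (m ≤ l ((a.set ∪ b.set) ∩ Y) ∧ m ≤ l ((a.set ∪ b.set) \ Y)) at h3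
    have e1 : cN l m ((node a b).inter Y) = cN l m (a.inter Y) + cN l m (b.inter Y) +
        (if m ≤ l ((a.set ∪ b.set) ∩ Y) then 1 else 0) := by
      rw [← union_inter_eq]
      rfl
    have e2 : cN l m ((node a b).diff Y) = cN l m (a.diff Y) + cN l m (b.diff Y) +
        (if m ≤ l ((a.set ∪ b.set) \ Y) then 1 else 0) := by
      rw [← union_diff_eq]
      rfl
    have e3 : cN l m (node a b) = cN l m a + cN l m b +
        (if m ≤ l (a.set ∪ b.set) then 1 else 0) := rfl
    have h5 : (if m ≤ l ((a.set ∪ b.set) ∩ Y) then 1 else 0) +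
        (if m ≤ l ((a.set ∪ b.set) \ Y) then 1 else 0) ≤
        (if m ≤ l (a.set ∪ b.set) then 1 else 0) := by
      split_ifs <;> omega
    rw [e1, e2, e3]
    refine ⟨by omega, ?_⟩
    rintro ⟨t, ht, hsp, hw⟩
    cases ht with
    | refl =>
      obtain ⟨h6, h7⟩ := h4 hsp hw
      change l ((a.set ∪ b.set) ∩ Y) < m at h6
      change l ((a.set ∪ b.set) \ Y) < m at h7
      change l (a.set ∪ b.set) = m at hw
      rw [if_neg (by omega : ¬ m ≤ l ((a.set ∪ b.set) ∩ Y)),
        if_neg (by omega : ¬ m ≤ l ((a.set ∪ b.set) \ Y)),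
        if_pos (by omega : m ≤ l (a.set ∪ b.set))]
      omega
    | left ht =>
      have := ha' ⟨t, ht, hsp, hw⟩
      omega
    | right ht =>
      have := hb' ⟨t, ht, hsp, hw⟩
      omega

private theorem sibE {l : Finset ℕ → ℕ} {Y : Finset ℕ} {m : ℕ} (s : BT) (hs : sc l Y m s) :
    cE l m (s.inter Y) + cE l m (s.diff Y) ≤ cE l m s := by
  induction s with
  | leaf a => exact le_rfl
  | node a b iha ihb =>
    obtain ⟨h1, h2, h3, -⟩ := hs _ (Sub.refl _)
    have ha := iha (fun t ht => hs t (Sub.left ht))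
    have hb := ihb (fun t ht => hs t (Sub.right ht))
    obtain ⟨ha1, ha2, -, -⟩ := hs a (Sub.left (Sub.refl _))
    obtain ⟨hb1, hb2, -, -⟩ := hs b (Sub.right (Sub.refl _))
    change l ((a.set ∪ b.set) ∩ Y) ≤ l (a.set ∪ b.set) at h1
    change l ((a.set ∪ b.set) \ Y) ≤ l (a.set ∪ b.set) at h2
    change ¬ (m ≤ l ((a.set ∪ b.set) ∩ Y) ∧ m ≤ l ((a.set ∪ b.set) \ Y)) at h3
    have e1 : cE l m ((node a b).inter Y) = cE l m (a.inter Y) + cE l m (b.inter Y) +
        (if m ≤ l ((a.set ∪ b.set) ∩ Y) ∧ m ≤ l (a.set ∩ Y) then 1 else 0) +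
        (if m ≤ l ((a.set ∪ b.set) ∩ Y) ∧ m ≤ l (b.set ∩ Y) then 1 else 0) := by
      rw [← union_inter_eq, ← set_inter Y a, ← set_inter Y b]
      rfl
    have e2 : cE l m ((node a b).diff Y) = cE l m (a.diff Y) + cE l m (b.diff Y) +
        (if m ≤ l ((a.set ∪ b.set) \ Y) ∧ m ≤ l (a.set \ Y) then 1 else 0) +
        (if m ≤ l ((a.set ∪ b.set) \ Y) ∧ m ≤ l (b.set \ Y) then 1 else 0) := by
      rw [← union_diff_eq, ← set_diff Y a, ← set_diff Y b]
      rfl
    have e3 : cE l m (node a b) = cE l m a + cE l m b +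
        (if m ≤ l (a.set ∪ b.set) ∧ m ≤ l a.set then 1 else 0) +
        (if m ≤ l (a.set ∪ b.set) ∧ m ≤ l b.set then 1 else 0) := rfl
    have h5 : (if m ≤ l ((a.set ∪ b.set) ∩ Y) ∧ m ≤ l (a.set ∩ Y) then 1 else 0) +
        (if m ≤ l ((a.set ∪ b.set) \ Y) ∧ m ≤ l (a.set \ Y) then 1 else 0) ≤
        (if m ≤ l (a.set ∪ b.set) ∧ m ≤ l a.set then 1 else 0) := by
      split_ifs <;> omega
    have h6 : (if m ≤ l ((a.set ∪ b.set) ∩ Y) ∧ m ≤ l (b.set ∩ Y) then 1 else 0) +
        (if m ≤ l ((a.set ∪ b.set) \ Y) ∧ m ≤ l (b.set \ Y) then 1 else 0) ≤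
        (if m ≤ l (a.set ∪ b.set) ∧ m ≤ l b.set then 1 else 0) := by
      split_ifs <;> omega
    rw [e1, e2, e3]
    omega

private theorem mainN {l : Finset ℕ → ℕ} {Y : Finset ℕ} {m : ℕ} {I z : BT} (hI : I.set = Y)
    (hz : z.set ⊆ Y) (M : List (Bool × BT)) (hM : PF l Y m z M) :
    cN l m ((wrap M z).inter Y) + cN l m (owr Y I M) ≤ cN l m (wrap M z) + cN l m I ∧
      (DegAt l Y m M z →
        cN l m ((wrap M z).inter Y) + cN l m (owr Y I M) < cN l m (wrap M z) + cN l m I) := by
  induction M with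
  | nil =>
    refine ⟨?_, fun h => h.elim⟩
    change cN l m (z.inter Y) + cN l m I ≤ cN l m z + cN l m I
    rw [inter_eq_self hz]
  | cons p M ih =>
    obtain ⟨c, s⟩ := p
    obtain ⟨hp, hs, hM'⟩ := hM
    obtain ⟨ih1, ih2⟩ := ih hM'
    obtain ⟨hs1, hs2⟩ := sibN s hs
    rw [set_wrap_cons] at hp
    obtain ⟨p1, p2, p3⟩ := hp
    rw [cN_wrap_inter_cons, cN_owr_cons l m hI hz, cN_wrap_cons]
    have h5 : (if m ≤ l (((wrap M z).set ∪ s.set) ∩ Y) then 1 else 0) +
        (if m ≤ l (((wrap M z).set ∪ s.set) ∪ Y) then 1 else 0) ≤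
        (if m ≤ l ((wrap M z).set ∪ s.set) then 1 else 0) := by
      split_ifs <;> omega
    refine ⟨by omega, ?_⟩
    rintro (h | h | h)
    · have := hs2 h
      omega
    · rw [set_wrap_cons] at h
      obtain ⟨h6, h7, h8⟩ := h
      rw [if_neg (by omega : ¬ m ≤ l (((wrap M z).set ∪ s.set) ∩ Y)),
        if_neg (by omega : ¬ m ≤ l (((wrap M z).set ∪ s.set) ∪ Y)),
        if_pos (by omega : m ≤ l ((wrap M z).set ∪ s.set))]
      omega
    · have := ih2 h
      omega

private theorem mainE {l : Finset ℕ → ℕ} {Y : Finset ℕ} {m : ℕ} {I z : BT} (hI : I.set = Y)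
    (hz : z.set ⊆ Y) (hY : l Y < m) (M : List (Bool × BT)) (hM : PF l Y m z M) :
    cE l m ((wrap M z).inter Y) + cE l m (owr Y I M) ≤ cE l m (wrap M z) + cE l m I ∧
      (PW l m M z → cE l m ((wrap M z).inter Y) + cE l m (owr Y I M) +
        (if m ≤ l ((wrap M z).set ∪ Y) then 1 else 0) ≤ cE l m (wrap M z) + cE l m I) := by
  induction M with
  | nil =>
    have h1 : cE l m ((wrap [] z).inter Y) + cE l m (owr Y I []) = cE l m (wrap [] z) + cE l m I := by
      change cE l m (z.inter Y) + cE l m I = cE l m z + cE l m I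
      rw [inter_eq_self hz]
    refine ⟨h1.le, fun _ => ?_⟩
    have h2 : (wrap [] z).set ∪ Y = Y := Finset.union_eq_right.2 hz
    rw [h1, h2, if_neg (by omega), add_zero]
  | cons p M ih =>
    obtain ⟨c, s⟩ := p
    obtain ⟨hp, hs, hM'⟩ := hM
    obtain ⟨ih1, ih2⟩ := ih hM'
    have hs1 := sibE s hs
    obtain ⟨s1, s2, -, -⟩ := hs s (Sub.refl _)
    obtain ⟨q1, q2, q3⟩ := hM'.top
    rw [set_wrap_cons] at hp
    obtain ⟨p1, p2, p3⟩ := hp
    rw [cE_wrap_inter_cons, cE_owr_cons l m hI hz, cE_wrap_cons, set_wrap_cons]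
    have h5 : (if m ≤ l (((wrap M z).set ∪ s.set) ∩ Y) ∧ m ≤ l ((wrap M z).set ∩ Y) then 1 else 0) +
        (if m ≤ l (((wrap M z).set ∪ s.set) ∪ Y) ∧ m ≤ l ((wrap M z).set ∪ Y) then 1 else 0) ≤
        (if m ≤ l ((wrap M z).set ∪ s.set) ∧ m ≤ l (wrap M z).set then 1 else 0) := by
      split_ifs <;> omega
    have h6 : (if m ≤ l (((wrap M z).set ∪ s.set) ∩ Y) ∧ m ≤ l (s.set ∩ Y) then 1 else 0) +
        (if m ≤ l (((wrap M z).set ∪ s.set) ∪ Y) ∧ m ≤ l (s.set \ Y) then 1 else 0) ≤
        (if m ≤ l ((wrap M z).set ∪ s.set) ∧ m ≤ l s.set then 1 else 0) := by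
      split_ifs <;> omega
    refine ⟨by omega, ?_⟩
    intro hPW
    obtain ⟨w1, w2⟩ := hPW
    rw [set_wrap_cons] at w1
    have w3 : m ≤ l (wrap M z).set := by
      cases M with
      | nil => exact w2
      | cons p M => exact w2.1
    have ih3 := ih2 w2
    have h7 : (if m ≤ l (((wrap M z).set ∪ s.set) ∩ Y) ∧ m ≤ l ((wrap M z).set ∩ Y) then 1 else 0) +
        (if m ≤ l (((wrap M z).set ∪ s.set) ∪ Y) ∧ m ≤ l ((wrap M z).set ∪ Y) then 1 else 0) +
        (if m ≤ l (((wrap M z).set ∪ s.set) ∪ Y) then 1 else 0) ≤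
        (if m ≤ l ((wrap M z).set ∪ s.set) ∧ m ≤ l (wrap M z).set then 1 else 0) +
        (if m ≤ l ((wrap M z).set ∪ Y) then 1 else 0) := by
      split_ifs <;> omega
    omega

theorem countN {E : Finset ℕ} {l : Finset ℕ → ℕ} {L : List (Bool × BT)} {z : BT}
    {Y : Finset ℕ} {κ m : ℕ} (h : Cfg E l L z Y κ) (hm : κ < m)
    (hd : ∀ m', m < m' → ¬ DegAt l Y m' L z) :
    cN l m (owr Y ((wrap L z).inter Y) L) ≤ cN l m (wrap L z) ∧
      (DegAt l Y m L z → cN l m (owr Y ((wrap L z).inter Y) L) < cN l m (wrap L z)) := by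
  have hI : ((wrap L z).inter Y).set = Y := by
    rw [set_inter]
    exact Finset.inter_eq_right.2 h.Yx
  obtain ⟨h1, h2⟩ := mainN hI h.zY L (PF_of_cfg h hm hd L (List.suffix_refl L))
  refine ⟨by omega, fun h3 => ?_⟩
  have := h2 h3
  omega

theorem countE {E : Finset ℕ} {l : Finset ℕ → ℕ} {L : List (Bool × BT)} {z : BT}
    {Y : Finset ℕ} {κ m : ℕ} (h : Cfg E l L z Y κ) (hm : κ < m)
    (hd : ∀ m', m ≤ m' → ¬ DegAt l Y m' L z) :
    cE l m (owr Y ((wrap L z).inter Y) L) ≤ cE l m (wrap L z) ∧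
      (m = κ + 1 → PW l m L z →
        cE l m (owr Y ((wrap L z).inter Y) L) < cE l m (wrap L z)) := by
  have hI : ((wrap L z).inter Y).set = Y := by
    rw [set_inter]
    exact Finset.inter_eq_right.2 h.Yx
  obtain ⟨h1, h2⟩ := mainE hI h.zY (by rw [h.lY]; exact hm) L
    (PF_of_cfg h hm (fun m' hm' => hd m' hm'.le) L (List.suffix_refl L))
  refine ⟨by omega, fun _ h3 => ?_⟩
  have h4 := h2 h3
  have h5 : (wrap L z).set ∪ Y = (wrap L z).set := Finset.union_eq_left.2 h.Yx
  have h6 : m ≤ l (wrap L z).set := by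
    cases L with
    | nil => exact h3
    | cons p M => exact h3.1
  rw [h5, if_pos h6] at h4
  omega

end Pool.Agent.Helper28.BW
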