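import Mathlib

/-!
# BW: excluded minors of bounded branch-width of classes of gain-graphic matroids. Definitions

An edge of a gain graph is a triple (tail, head, gain) in `Tri H`. A gain graph is a function
`G : ℕ → Tri H` (edge names are natural numbers). `W T u v h` says that the edge set `T` (a set of
triples) contains a walk from `u` to `v` of gain `h`.
-/

set_option autoImplicit false

namespace Pool.Agent.Helper28.BW

/-- an edge of a gain graph: tail, head, gain -/
abbrev Tri (H : Type) := ℕ × ℕ × H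

section base

variable {H : Type} [Group H]

/-- there is a walk from `u` to `v` of gain `h` using edges in `T` -/
inductive W (T : Set (Tri H)) : ℕ → ℕ → H → Prop
  | refl (u : ℕ) : W T u u 1
  | fwd {u v w : ℕ} {h g : H} : W T u v h → (v, w, g) ∈ T → W T u w (h * g)
  | bwd {u v w : ℕ} {h g : H} : W T u v h → (w, v, g) ∈ T → W T u w (h * g⁻¹)

/-- `u` and `v` are joined by a walk in `T` -/
def Con (T : Set (Tri H)) (u v : ℕ) : Prop := ∃ h : H, W T u v h

/-- the component of `u` is unbalanced -/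
def Unb (T : Set (Tri H)) (u : ℕ) : Prop := ∃ h : H, h ≠ 1 ∧ W T u u h

/-- the component (vertex set) of `u` -/
def cls (T : Set (Tri H)) (u : ℕ) : Set ℕ := {v | Con T u v}

/-- the vertices incident with an edge of `T` -/
def vx (T : Set (Tri H)) : Set ℕ := {u | ∃ t ∈ T, u = t.1 ∨ u = t.2.1}

/-- the balanced components of `T` meeting `S` -/
def balC (T : Set (Tri H)) (S : Set ℕ) : Set (Set ℕ) := {c | ∃ u ∈ S, ¬ Unb T u ∧ c = cls T u}

/-- the number of balanced components of `T` meeting `S` -/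
noncomputable def bal (T : Set (Tri H)) (S : Set ℕ) : ℕ := (balC T S).ncard

/-- the rank of a set of edges -/
noncomputable def rho (T : Set (Tri H)) : ℕ := (vx T).ncard - bal T (vx T)

/-- the closure of `T` in the set of all triples -/
def cl (T : Set (Tri H)) : Set (Tri H) := {t | W T t.1 t.2.1 t.2.2 ∨ (Unb T t.1 ∧ Unb T t.2.1)}

/-- trace of `T` on the marked vertices `p a` (vertex and gauge) -/
def Trc (T : Set (Tri H)) {ι : Type} (p : ι → ℕ × H) : ι → ι → H → Prop :=
  fun a b h => W T (p a).1 (p b).1 ((p a).2⁻¹ * h * (p b).2)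

/-- the component of `u` is balanced and contains exactly the two vertices `u`, `w` of `S` -/
def Two (T : Set (Tri H)) (S : Set ℕ) (u w : ℕ) : Prop :=
  u ∈ S ∧ w ∈ S ∧ u ≠ w ∧ ¬ Unb T u ∧ Con T u w ∧ ∀ x ∈ S, Con T u x → x = u ∨ x = w

/-- gain graph with edge names in `ℕ` -/
abbrev GG (H : Type) := ℕ → Tri H

/-- the triples of the edges in `X` -/
def img (G : GG H) (X : Finset ℕ) : Set (Tri H) := G '' (X : Set ℕ)

/-- the rank of the edge set `X` -/
noncomputable def rk (G : GG H) (X : Finset ℕ) : ℕ := rho (img G X)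

/-- the vertices incident with an edge in `X` -/
def vs (G : GG H) (X : Finset ℕ) : Set ℕ := vx (img G X)

/-- the boundary of `X` in `E` -/
def bd (G : GG H) (E X : Finset ℕ) : Set ℕ := vs G X ∩ vs G (E \ X)

end base

/-- matroid rank functions on the finite subsets of `ℕ` -/
structure RkFn (r : Finset ℕ → ℕ) : Prop where
  empty : r ∅ = 0
  mono : ∀ X Y : Finset ℕ, X ⊆ Y → r X ≤ r Y
  ins : ∀ (X : Finset ℕ) (e : ℕ), r (insert e X) ≤ r X + 1
  sub : ∀ X Y : Finset ℕ, r (X ∪ Y) + r (X ∩ Y) ≤ r X + r Y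

/-- the connectivity function -/
def lam (r : Finset ℕ → ℕ) (E X : Finset ℕ) : ℕ := r X + r (E \ X) - r E

/-- `C` links `A` to `B` with connectivity `k` (contract `C`) -/
def Lk (r : Finset ℕ → ℕ) (A C B : Finset ℕ) (k : ℕ) : Prop :=
  r (A ∪ C) = r A + C.card ∧ r (B ∪ C) = r B + C.card ∧
    r (A ∪ C ∪ B) + k = r A + C.card + r B

/-- contraction of `C` -/
def contr (r : Finset ℕ → ℕ) (C : Finset ℕ) : Finset ℕ → ℕ := fun X => r (X ∪ C) - r C

/-- linked chain: connectivity `k` everywhere and at least `k` in between -/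
structure LChain (r : Finset ℕ → ℕ) (E : Finset ℕ) (A : ℕ → Finset ℕ) (n k : ℕ) : Prop where
  sub : ∀ i, i < n → A i ⊆ E
  mono : ∀ i j, i ≤ j → j < n → A i ⊆ A j
  eq : ∀ i, i < n → lam r E (A i) = k
  low : ∀ i j, i ≤ j → j < n → ∀ Y, A i ⊆ Y → Y ⊆ A j → k ≤ lam r E Y

/-- families of subsets of `E`, pairwise nested or disjoint -/
def NC (E : Finset ℕ) (F : List (Finset ℕ)) : Prop :=
  (∀ A ∈ F, A ⊆ E) ∧ ∀ A ∈ F, ∀ B ∈ F, A ⊆ B ∨ B ⊆ A ∨ Disjoint A B

section reps

variable {H : Type} [Group H]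

/-- `G` represents the matroid `(E, r)` -/
def Rep (G : GG H) (r : Finset ℕ → ℕ) (E : Finset ℕ) : Prop := ∀ X ⊆ E, rk G X = r X

/-- total boundary size along the family `F` -/
noncomputable def Phi (G : GG H) (E : Finset ℕ) (F : List (Finset ℕ)) : ℕ :=
  (F.map fun A => (bd G E A).ncard).sum

/-- representations of least total boundary size -/
def Opt (G : GG H) (r : Finset ℕ → ℕ) (E : Finset ℕ) (F : List (Finset ℕ)) : Prop :=
  Rep G r E ∧ NC E F ∧ ∀ G' : GG H, Rep G' r E → Phi G E F ≤ Phi G' E F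

open Classical in
/-- move the ends at `v` of the edges in `A` to `v'` -/
noncomputable def spl (G : GG H) (A : Finset ℕ) (v v' : ℕ) : GG H := fun e =>
  if e ∈ A then (if (G e).1 = v then v' else (G e).1,
    if (G e).2.1 = v then v' else (G e).2.1, (G e).2.2) else G e

/-- switching by `φ` -/
def swi (G : GG H) (φ : ℕ → H) : GG H := fun e =>
  ((G e).1, (G e).2.1, φ (G e).1 * (G e).2.2 * (φ (G e).2.1)⁻¹)

/-- `a ↦ b`, `c ↦ d`, everything else fixed -/
def mv (a b c d : ℕ) (u : ℕ) : ℕ := if u = a then b else if u = c then d else u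

open Classical in
/-- the series swap: `K` (from `x` to `y`) is moved to run from `y` to `z`,
`L` (from `y` to `z`) is moved to run from `x` to `y` -/
noncomputable def swp (G : GG H) (K L : Finset ℕ) (x y z : ℕ) : GG H := fun e =>
  if e ∈ K then (mv x y y z (G e).1, mv x y y z (G e).2.1, (G e).2.2)
  else if e ∈ L then (mv y x z y (G e).1, mv y x z y (G e).2.1, (G e).2.2)
  else G e

/-- the situation of the series swap at `y` -/
structure SwC (G : GG H) (E A K L : Finset ℕ) (x y z : ℕ) : Prop where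
  hA : A ⊆ E
  two1 : Two (img G A) (bd G E A) y z
  two2 : Two (img G (E \ A)) (bd G E A) y x
  ne : x ≠ z
  hL : ∀ e, e ∈ L ↔ e ∈ A ∧ (G e).1 ∈ cls (img G A) y
  hK : ∀ e, e ∈ K ↔ e ∈ E \ A ∧ (G e).1 ∈ cls (img G (E \ A)) y
  one : ∀ e ∈ K ∪ L, (G e).2.2 = 1

/-- the local consequences of optimality at the set `A` -/
structure Good (G : GG H) (E A : Finset ℕ) : Prop where
  m1 : ∀ x y z : ℕ, Two (img G A) (bd G E A) y z → Two (img G (E \ A)) (bd G E A) y x → x = z
  m2 : ∀ x y : ℕ, Two (img G A) (bd G E A) y x → Two (img G (E \ A)) (bd G E A) y x →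
    ¬ Unb (img G E) y
  m2l : ∀ v ∈ bd G E A, ¬ Unb (img G A) v → ∃ w ∈ bd G E A, w ≠ v ∧ Con (img G A) v w
  m2r : ∀ v ∈ bd G E A, ¬ Unb (img G (E \ A)) v →
    ∃ w ∈ bd G E A, w ≠ v ∧ Con (img G (E \ A)) v w

/-- the class of `u` in `A` meets the vertex set of `A0` -/
def Mt (G : GG H) (A0 A : Finset ℕ) (u : ℕ) : Prop := ∃ a ∈ vs G A0, Con (img G A) u a

/-- classes of `A` meeting `V(A0)` and the set `S` are not merged and do not become unbalanced
in the larger set `A1` -/
def NoMerge (G : GG H) (S : Set ℕ) (A0 A A1 : Finset ℕ) : Prop :=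
  (∀ u ∈ S, ∀ u' ∈ S, Mt G A0 A u → Mt G A0 A u' → Con (img G A1) u u' → Con (img G A) u u') ∧
  ∀ u ∈ S, Mt G A0 A u → Unb (img G A1) u → Unb (img G A) u

/-- the classes of `A` meeting the boundary of `A` and `V(A0)` -/
def pcl (G : GG H) (E A0 A : Finset ℕ) : Set (Set ℕ) :=
  {c | ∃ u ∈ bd G E A, Mt G A0 A u ∧ c = cls (img G A) u}

/-- the balanced classes of `A` meeting the boundary of `A` and `V(A0)` -/
def pcb (G : GG H) (E A0 A : Finset ℕ) : Set (Set ℕ) :=
  {c | ∃ u ∈ bd G E A, Mt G A0 A u ∧ ¬ Unb (img G A) u ∧ c = cls (img G A) u}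

/-- the interval function for one side -/
noncomputable def fA (G : GG H) (E A0 A : Finset ℕ) : ℕ :=
  (pcl G E A0 A).ncard + (pcb G E A0 A).ncard

/-- the interval function for the pair `A ⊆ A'` -/
noncomputable def ff (G : GG H) (E A A' : Finset ℕ) : ℕ :=
  fA G E A A' + fA G E (E \ A') (E \ A)

/-- classes do not change between `A` and `A'` -/
structure Stable (G : GG H) (E A A' : Finset ℕ) : Prop where
  s1 : ∀ a ∈ bd G E A, ∀ a' ∈ bd G E A, Con (img G A') a a' → Con (img G A) a a'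
  s2 : ∀ a ∈ bd G E A, Unb (img G A') a → Unb (img G A) a
  s3 : ∀ b ∈ bd G E A', ∀ b' ∈ bd G E A', Con (img G (E \ A)) b b' → Con (img G (E \ A')) b b'
  s4 : ∀ b ∈ bd G E A', Unb (img G (E \ A)) b → Unb (img G (E \ A')) b

end reps

end Pool.Agent.Helper28.BW
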