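import Mathlib

/-!
# BW-25: bounded monotone interval functions are constant on long subsequences

`interval`. For all `P`, `n` there is `N` such that for every `f : ℕ → ℕ → ℕ` with `f i j ≤ P` for `i < j < N` and
`f i' j' ≤ f i j` whenever `i' ≤ i < j ≤ j' < N` there is a strictly increasing sequence `s` with `s a < N` for `a < n` and a
constant `c ≤ P` with `f (s a) (s b) = c` for all `a < b < n`.
Proof. Induction on `P`. `P = 0`: `N = n`, `s = id`. Step: let `N'` be the number for `(P, n)`; `N = (n + 1) * (N' + 1)`. If there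
is `i` with `i + n < N` and `f i (i + n) = P + 1` then `s a = i + a`: for `a < b < n` monotonicity gives
`f (s a) (s b) ≥ f i (i + n) = P + 1`. Otherwise `f i (i + n) ≤ P` for all `i` with `i + n < N`; consider
`f' a b = f (n' * a) (n' * b)` with `n' = n + 1` for `a < b < N'`: `n' * b ≥ n' * a + n`, so `f' a b ≤ f (n' * a) (n' * a + n) ≤ P`, and `f'` is
monotone in the same sense. Apply induction. (`f` restricted to indices `< N`: all indices used are `≤ n' * (N' - 1)`.)

`half`. A `0/1`-valued function on `{0, ..., 2 * n}` which is monotone (once `1` stays `1`) is constant on `n`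
consecutive indices.
-/

set_option autoImplicit false

namespace Pool.Agent.Helper28.BW

theorem interval (P n : ℕ) : ∃ N, ∀ f : ℕ → ℕ → ℕ, (∀ i j, i < j → j < N → f i j ≤ P) →
    (∀ i' i j j', i' ≤ i → i < j → j ≤ j' → j' < N → f i' j' ≤ f i j) →
    ∃ s : ℕ → ℕ, StrictMono s ∧ (∀ a, a < n → s a < N) ∧
      ∃ c, c ≤ P ∧ ∀ a b, a < b → b < n → f (s a) (s b) = c := by
  rcases Nat.eq_zero_or_pos n with hn | hn
  · subst hn
    exact ⟨0, fun f _ _ => ⟨id, strictMono_id, fun a ha => absurd ha (Nat.not_lt_zero a), 0,
      Nat.zero_le _, fun a b _ hb => absurd hb (Nat.not_lt_zero b)⟩⟩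
  induction P with
  | zero =>
    refine ⟨n, fun f hf _ => ⟨id, strictMono_id, fun a ha => ha, 0, le_rfl, fun a b hab hb => ?_⟩⟩
    exact Nat.le_zero.1 (hf a b hab hb)
  | succ P ih =>
    obtain ⟨N', hN'⟩ := ih
    refine ⟨(n + 1) * (N' + 1), fun f hf hm => ?_⟩
    by_cases h : ∃ i, i + n < (n + 1) * (N' + 1) ∧ f i (i + n) = P + 1
    · obtain ⟨i, hi, hv⟩ := h
      refine ⟨fun a => i + a, fun a b hab => Nat.add_lt_add_left hab i, fun a ha => by
        show i + a < _
        omega, P + 1, le_rfl, fun a b hab hb => ?_⟩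
      have h1 := hm i (i + a) (i + b) (i + n) (Nat.le_add_right _ _) (by omega) (by omega) hi
      have h2 := hf (i + a) (i + b) (by omega) (by omega)
      rw [hv] at h1
      exact le_antisymm h2 h1
    · push Not at h
      have hlt : ∀ b, b < N' → (n + 1) * b + (n + 1) ≤ (n + 1) * N' := by
        intro b hb
        calc (n + 1) * b + (n + 1) = (n + 1) * (b + 1) := by ring
          _ ≤ (n + 1) * N' := Nat.mul_le_mul_left _ hb
      have hN : (n + 1) * (N' + 1) = (n + 1) * N' + (n + 1) := by ring
      have hstep : ∀ a b, a < b → (n + 1) * a + (n + 1) ≤ (n + 1) * b := by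
        intro a b hab
        calc (n + 1) * a + (n + 1) = (n + 1) * (a + 1) := by ring
          _ ≤ (n + 1) * b := Nat.mul_le_mul_left _ hab
      obtain ⟨s, hs, hsN, c, hc, hsc⟩ := hN' (fun a b => f ((n + 1) * a) ((n + 1) * b))
        (by
          intro a b hab hb
          show f ((n + 1) * a) ((n + 1) * b) ≤ P
          have h1 := hstep a b hab
          have h2 := hlt b hb
          have h3 := hm ((n + 1) * a) ((n + 1) * a) ((n + 1) * a + n) ((n + 1) * b) le_rfl
            (by omega) (by omega) (by omega)
          have h4 := h ((n + 1) * a) (by omega)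
          have h5 := hf ((n + 1) * a) ((n + 1) * a + n) (by omega) (by omega)
          omega)
        (by
          intro i' i j j' h1 h2 h3 h4
          show f ((n + 1) * i') ((n + 1) * j') ≤ f ((n + 1) * i) ((n + 1) * j)
          have h5 := hlt j' h4
          have h6 := hstep i j h2
          exact hm _ _ _ _ (Nat.mul_le_mul_left _ h1) (by omega) (Nat.mul_le_mul_left _ h3)
            (by omega))
      refine ⟨fun a => (n + 1) * s a, fun a b hab => ?_, fun a ha => ?_, c, by omega, hsc⟩
      · have h1 := hstep _ _ (hs hab)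
        show (n + 1) * s a < (n + 1) * s b
        omega
      · have h1 := hlt _ (hsN a ha)
        show (n + 1) * s a < _
        omega

theorem half (n : ℕ) (p : ℕ → Prop) (hp : ∀ i j, i ≤ j → j < 2 * n → p i → p j) :
    ∃ s, s + n ≤ 2 * n ∧ ((∀ a, a < n → p (s + a)) ∨ ∀ a, a < n → ¬ p (s + a)) := by
  by_cases h : p n
  · exact ⟨n, by omega, Or.inl fun a ha => hp n (n + a) (by omega) (by omega) h⟩
  · refine ⟨0, by omega, Or.inr fun a ha h1 => h ?_⟩
    rw [zero_add] at h1
    exact hp a n (by omega) (by omega) h1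

end Pool.Agent.Helper28.BW
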