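import Pool.Agent.Helper28.BW.RkFn
import Pool.Agent.Helper28.BW.Interval

/-!
# BW-26: from a long chain of small connectivity to a long linked chain

Let `X 0 ⊂ X 1 ⊂ ... ⊂ X (N-1) ⊆ E`, `lam r E (X i) ≤ k`. For `i < j` let `κ i j` be the least value of `lam r E Y` over
`X i ⊆ Y ⊆ X j` (finitely many `Y`, or `Nat.find`; it is `≤ k`). It is monotone in the interval (more sets `Y`, smaller
minimum). Let `N` be the number of BW-25 for `P = k` and `2 * n + 2`. We get `s` with `κ (s a) (s b) = c` for all `a < b`.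
Let `Y a` attain the minimum between `X (s a)` and `X (s (a+1))`. Put `A a = Y (2 * a)`. Then
`A a ⊆ X (s (2a+1)) ⊂ X (s (2a+2)) ⊆ A (a+1)`, so `A` is strictly increasing; `lam r E (A a) = c`; and if
`A a ⊆ Z ⊆ A b`, `a ≤ b`, then `X (s (2a)) ⊆ Z ⊆ X (s (2b+1))`, so `lam r E Z ≥ κ = c`. All `A a ⊆ X (s (2a+1)) ⊆ X (N-1)`.
-/

set_option autoImplicit false

namespace Pool.Agent.Helper28.BW

theorem extract (k n : ℕ) : ∃ N, ∀ (r : Finset ℕ → ℕ) (E : Finset ℕ) (X : ℕ → Finset ℕ),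
    (∀ i, i < N → X i ⊆ E) → (∀ i j, i < j → j < N → X i ⊂ X j) →
    (∀ i, i < N → lam r E (X i) ≤ k) →
    ∃ (A : ℕ → Finset ℕ) (c : ℕ), c ≤ k ∧ LChain r E A n c ∧
      (∀ i j, i < j → j < n → A i ⊂ A j) ∧ ∀ i, i < n → A i ⊆ X (N - 1) := by
  obtain ⟨N, hN⟩ := interval k (2 * n + 2)
  refine ⟨N, fun r E X hXE hXs hXl => ?_⟩
  have hXm : ∀ i j, i ≤ j → j < N → X i ⊆ X j := by
    intro i j hij hj
    rcases Nat.eq_or_lt_of_le hij with h | h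
    · rw [h]
    · exact (hXs i j h hj).subset
  obtain ⟨κ, hκ⟩ : ∃ κ : ℕ → ℕ → ℕ, ∀ i j, κ i j = sInf (lam r E '' {Y | X i ⊆ Y ∧ Y ⊆ X j}) :=
    ⟨_, fun _ _ => rfl⟩
  have hκle : ∀ i j Y, X i ⊆ Y → Y ⊆ X j → κ i j ≤ lam r E Y := by
    intro i j Y h1 h2
    rw [hκ]
    exact Nat.sInf_le ⟨Y, ⟨h1, h2⟩, rfl⟩
  have hκex : ∀ i j, i < j → j < N → ∃ Y, X i ⊆ Y ∧ Y ⊆ X j ∧ lam r E Y = κ i j := by
    intro i j hij hj
    have h1 : (lam r E '' {Y | X i ⊆ Y ∧ Y ⊆ X j}).Nonempty :=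
      ⟨_, X i, ⟨Finset.Subset.refl _, hXm i j hij.le hj⟩, rfl⟩
    obtain ⟨Y, ⟨h2, h3⟩, h4⟩ := Nat.sInf_mem h1
    exact ⟨Y, h2, h3, by rw [h4, hκ]⟩
  obtain ⟨s, hs, hsN, c, hc, hsc⟩ := hN κ
    (fun i j hij hj => (hκle i j (X i) (Finset.Subset.refl _) (hXm i j hij.le hj)).trans
      (hXl i (by omega)))
    (fun i' i j j' h1 h2 h3 h4 => by
      obtain ⟨Y, h5, h6, h7⟩ := hκex i j h2 (by omega)
      rw [← h7]
      exact hκle i' j' Y ((hXm i' i h1 (by omega)).trans h5) (h6.trans (hXm j j' h3 h4)))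
  have hA : ∀ a, ∃ Y, a < n → X (s (2 * a)) ⊆ Y ∧ Y ⊆ X (s (2 * a + 1)) ∧ lam r E Y = c := by
    intro a
    by_cases ha : a < n
    · obtain ⟨Y, h1, h2, h3⟩ := hκex (s (2 * a)) (s (2 * a + 1)) (hs (by omega)) (hsN _ (by omega))
      refine ⟨Y, fun _ => ⟨h1, h2, ?_⟩⟩
      rw [h3]
      exact hsc _ _ (by omega) (by omega)
    · exact ⟨∅, fun h => absurd h ha⟩
  choose A hA using hA
  have hstep : ∀ i j, i < j → j < n → A i ⊂ A j := by
    intro i j hij hj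
    obtain ⟨-, h1, -⟩ := hA i (by omega)
    obtain ⟨h2, -, -⟩ := hA j hj
    have h3 : X (s (2 * i + 1)) ⊂ X (s (2 * i + 2)) :=
      hXs _ _ (hs (by omega)) (hsN _ (by omega))
    have h4 : X (s (2 * i + 2)) ⊆ X (s (2 * j)) :=
      hXm _ _ (hs.monotone (by omega)) (hsN _ (by omega))
    exact lt_of_lt_of_le (lt_of_le_of_lt h1 h3) (h4.trans h2)
  refine ⟨A, c, hc, ⟨?_, ?_, ?_, ?_⟩, hstep, ?_⟩
  · intro i hi
    exact (hA i hi).2.1.trans (hXE _ (hsN _ (by omega)))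
  · intro i j hij hj
    rcases Nat.eq_or_lt_of_le hij with h | h
    · rw [h]
    · exact (hstep i j h hj).subset
  · intro i hi
    exact (hA i hi).2.2
  · intro i j hij hj Y h1 h2
    have h3 := hκle (s (2 * i)) (s (2 * j + 1)) Y ((hA i (by omega)).1.trans h1)
      (h2.trans (hA j hj).2.1)
    rwa [hsc _ _ (by omega) (by omega)] at h3
  · intro i hi
    have h1 := hsN (2 * i + 1) (by omega)
    exact (hA i hi).2.1.trans (hXm _ _ (by omega) (by omega))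

end Pool.Agent.Helper28.BW
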