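import Pool.Agent.Helper28.BW.Walk

/-!
# BW-19: the interval functions

`fA G E A0 A` = number of `A`-components which meet `bd G E A` and `vs G A0`, plus the number of balanced ones.
(1) bound: both sets of components are indexed by vertices of `bd G E A`: `fA ≤ 2 * |bd G E A|`.
(2) monotone in `A0`: `Mt G A0' A u → Mt G A0 A u` for `A0' ⊆ A0`.
(3) antitone in `A`: let `A0 ⊆ A ⊆ A1 ⊆ E`. Every component `c'` of `A1` counted for `(A0, A1)` contains a component of
`A` counted for `(A0, A)`: let `c' = cls (img G A1) u'`, `u' ∈ bd G E A1`, and `a ∈ vs G A0`, `a ∈ c'`. Claim: the `A`-component of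
`a` contains a vertex of `bd G E A`. Otherwise all its vertices (which are in `vs G A`, as `a ∈ vs G A`) are not in
`vs G (E \ A)`, so all edges of `E` at these vertices are in `A` and the component is closed under edges of `E` (`W_closed`);
then `c'` is contained in it (walks of `A1` from `a` are walks of `E`), but `u' ∈ c'` is in `vs G (E \ A1) ⊆ vs G (E \ A)`,
contradiction. If `u` is such a vertex, `cls (img G A) u = cls (img G A) a ⊆ c'`, and it is counted
(`a` witnesses `Mt`). If `c'` is balanced so is the contained component. Choose for every `c'` such a component; different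
`c'` are disjoint so the choice is injective. So `pcl`, `pcb` for `(A0, A1)` inject into those for `(A0, A)`.
(4) if `fA G E A0 A1 = fA G E A0 A` then both injections are bijections: hence every component of `A` counted for
`(A0, A)` is the chosen one of exactly one `c'`, so every `c'` contains exactly one of them; so two vertices
`u, u' ∈ bd G E A` satisfying `Mt G A0 A` and joined in `A1` lie in components contained in the same `c'` (the
`A1`-component of `u` is a `c'`: the bijection shows that `cls (img G A) u` is contained in some counted `c'`), so in the same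
component of `A`. And if `cls (img G A) u` is balanced then by the second bijection it is contained in a balanced `c'`. This is
`NoMerge G (bd G E A) A0 A A1`.
-/

set_option autoImplicit false

namespace Pool.Agent.Helper28.BW

variable {H : Type} [Group H]

private theorem pcl_sub (G : GG H) (E A0 A : Finset ℕ) :
    pcl G E A0 A ⊆ (fun u => cls (img G A) u) '' (bd G E A) := by
  rintro c ⟨u, hu, _, rfl⟩
  exact ⟨u, hu, rfl⟩

private theorem pcb_sub_pcl (G : GG H) (E A0 A : Finset ℕ) : pcb G E A0 A ⊆ pcl G E A0 A := by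
  rintro c ⟨u, hu, hm, _, rfl⟩
  exact ⟨u, hu, hm, rfl⟩

private theorem pcl_finite (G : GG H) (E A0 A : Finset ℕ) : (pcl G E A0 A).Finite :=
  ((bd_finite G E A).image _).subset (pcl_sub G E A0 A)

private theorem pcb_finite (G : GG H) (E A0 A : Finset ℕ) : (pcb G E A0 A).Finite :=
  (pcl_finite G E A0 A).subset (pcb_sub_pcl G E A0 A)

theorem fA_le (G : GG H) (E A0 A : Finset ℕ) : fA G E A0 A ≤ 2 * (bd G E A).ncard := by
  have h1 : (pcl G E A0 A).ncard ≤ (bd G E A).ncard :=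
    (Set.ncard_le_ncard (pcl_sub G E A0 A) ((bd_finite G E A).image _)).trans
      (Set.ncard_image_le (bd_finite G E A))
  have h2 : (pcb G E A0 A).ncard ≤ (pcl G E A0 A).ncard :=
    Set.ncard_le_ncard (pcb_sub_pcl G E A0 A) (pcl_finite G E A0 A)
  unfold fA
  omega

theorem fA_mono_left (G : GG H) {E A0' A0 A : Finset ℕ} (h : A0' ⊆ A0) :
    fA G E A0' A ≤ fA G E A0 A := by
  have hm : ∀ u, Mt G A0' A u → Mt G A0 A u := by
    rintro u ⟨a, ha, hc⟩
    exact ⟨a, vs_mono G h ha, hc⟩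
  unfold fA
  refine Nat.add_le_add (Set.ncard_le_ncard ?_ (pcl_finite G E A0 A))
    (Set.ncard_le_ncard ?_ (pcb_finite G E A0 A))
  · rintro c ⟨u, hu, h1, rfl⟩
    exact ⟨u, hu, hm u h1, rfl⟩
  · rintro c ⟨u, hu, h1, h2, rfl⟩
    exact ⟨u, hu, hm u h1, h2, rfl⟩

/-- a vertex of the boundary of `A` in the `A`-component of `a` -/
private theorem exists_bd (G : GG H) {E A0 A A1 : Finset ℕ} (h0 : A0 ⊆ A) (hE : A1 ⊆ E)
    (h1 : A ⊆ A1) {u' a : ℕ} (hu' : u' ∈ bd G E A1) (ha : a ∈ vs G A0)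
    (hc : Con (img G A1) u' a) : ∃ u ∈ bd G E A, Con (img G A) a u := by
  by_contra hcon
  push Not at hcon
  have haA : a ∈ vs G A := vs_mono G h0 ha
  have hC1 : ∀ v, Con (img G A) a v → v ∈ vs G A := by
    intro v hv
    rcases Con_ends hv with h | h
    · exact h ▸ haA
    · exact h.2
  have hC2 : ∀ v, Con (img G A) a v → v ∉ vs G (E \ A) := fun v hv hn =>
    hcon v ⟨hC1 v hv, hn⟩ hv
  obtain ⟨g, hg⟩ := hc.symm
  have h2 := W_closed (T' := img G A) (C := {v | Con (img G A) a v}) (Con.refl _ a) (by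
    intro t ht hor
    obtain ⟨e, he, rfl⟩ := ht
    have he1 : e ∈ A1 := he
    by_cases heA : e ∈ A
    · have hmem : G e ∈ img G A := ⟨e, heA, rfl⟩
      have hedge : Con (img G A) (G e).1 (G e).2.1 := ⟨_, W.edge hmem⟩
      rcases hor with h | h
      · exact ⟨h, Con.trans h hedge, hmem⟩
      · exact ⟨Con.trans h hedge.symm, h, hmem⟩
    · exfalso
      have hmem : G e ∈ img G (E \ A) := ⟨e, by
        have : e ∈ E \ A := Finset.mem_sdiff.2 ⟨hE he1, heA⟩
        exact this, rfl⟩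
      rcases hor with h | h
      · exact hC2 _ h (mem_vx_left hmem)
      · exact hC2 _ h (mem_vx_right hmem)) hg
  have h3 : Con (img G A) a u' := h2.1
  exact hcon u' ⟨hC1 u' h3, vs_mono G (Finset.sdiff_subset_sdiff le_rfl h1) hu'.2⟩ h3

private theorem exists_rep (G : GG H) {E A0 A A1 : Finset ℕ} (h0 : A0 ⊆ A) (h1 : A ⊆ A1)
    (hE : A1 ⊆ E) {c : Set ℕ} (hc : c ∈ pcl G E A0 A1) :
    ∃ u ∈ bd G E A, Mt G A0 A u ∧ c = cls (img G A1) u := by
  obtain ⟨u', hu', ⟨a, ha, hca⟩, rfl⟩ := hc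
  obtain ⟨u, hu, hau⟩ := exists_bd G h0 hE h1 hu' ha hca
  exact ⟨u, hu, ⟨a, ha, hau.symm⟩, cls_eq_iff.2 (hca.trans (hau.mono (img_mono G h1)))⟩

open Classical in
/-- the chosen component of `A` in a component of `A1` -/
private noncomputable def phi (G : GG H) (E A0 A A1 : Finset ℕ) (c : Set ℕ) : Set ℕ :=
  if h : ∃ u ∈ bd G E A, Mt G A0 A u ∧ c = cls (img G A1) u then cls (img G A) h.choose else ∅

private theorem phi_spec (G : GG H) {E A0 A A1 : Finset ℕ} (h0 : A0 ⊆ A) (h1 : A ⊆ A1)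
    (hE : A1 ⊆ E) {c : Set ℕ} (hc : c ∈ pcl G E A0 A1) :
    ∃ u ∈ bd G E A, Mt G A0 A u ∧ c = cls (img G A1) u ∧
      phi G E A0 A A1 c = cls (img G A) u := by
  have h := exists_rep G h0 h1 hE hc
  refine ⟨h.choose, h.choose_spec.1, h.choose_spec.2.1, h.choose_spec.2.2, ?_⟩
  unfold phi
  rw [dif_pos h]

/-- a component of `A1` whose chosen component is that of `u` is the one of `u` -/
private theorem phi_back (G : GG H) {E A0 A A1 : Finset ℕ} (h0 : A0 ⊆ A) (h1 : A ⊆ A1)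
    (hE : A1 ⊆ E) {c : Set ℕ} (hc : c ∈ pcl G E A0 A1) {u : ℕ}
    (h : phi G E A0 A A1 c = cls (img G A) u) : c = cls (img G A1) u := by
  obtain ⟨w, _, _, hcw, hw⟩ := phi_spec G h0 h1 hE hc
  rw [hcw, cls_eq_iff]
  exact (cls_eq_iff.1 (hw.symm.trans h)).mono (img_mono G h1)

private theorem phi_inj (G : GG H) {E A0 A A1 : Finset ℕ} (h0 : A0 ⊆ A) (h1 : A ⊆ A1)
    (hE : A1 ⊆ E) : Set.InjOn (phi G E A0 A A1) (pcl G E A0 A1) := by
  intro c hc c' hc' h
  obtain ⟨w, _, _, hcw, hw⟩ := phi_spec G h0 h1 hE hc'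
  rw [phi_back G h0 h1 hE hc (h.trans hw), hcw]

private theorem phi_pcl (G : GG H) {E A0 A A1 : Finset ℕ} (h0 : A0 ⊆ A) (h1 : A ⊆ A1)
    (hE : A1 ⊆ E) : ∀ c ∈ pcl G E A0 A1, phi G E A0 A A1 c ∈ pcl G E A0 A := by
  intro c hc
  obtain ⟨w, hw, hm, _, h⟩ := phi_spec G h0 h1 hE hc
  rw [h]
  exact ⟨w, hw, hm, rfl⟩

private theorem phi_pcb (G : GG H) {E A0 A A1 : Finset ℕ} (h0 : A0 ⊆ A) (h1 : A ⊆ A1)
    (hE : A1 ⊆ E) : ∀ c ∈ pcb G E A0 A1, phi G E A0 A A1 c ∈ pcb G E A0 A := by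
  intro c hc
  obtain ⟨w, hw, hm, hcw, h⟩ := phi_spec G h0 h1 hE (pcb_sub_pcl _ _ _ _ hc)
  obtain ⟨u', _, _, hb, hcu⟩ := hc
  rw [h]
  refine ⟨w, hw, hm, fun hun => hb ?_, rfl⟩
  exact (hun.mono (img_mono G h1)).of_con (cls_eq_iff.1 (hcw.symm.trans hcu))

private theorem card_pcl (G : GG H) {E A0 A A1 : Finset ℕ} (h0 : A0 ⊆ A) (h1 : A ⊆ A1)
    (hE : A1 ⊆ E) : (pcl G E A0 A1).ncard ≤ (pcl G E A0 A).ncard :=
  Set.ncard_le_ncard_of_injOn _ (phi_pcl G h0 h1 hE) (phi_inj G h0 h1 hE) (pcl_finite G E A0 A)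

private theorem card_pcb (G : GG H) {E A0 A A1 : Finset ℕ} (h0 : A0 ⊆ A) (h1 : A ⊆ A1)
    (hE : A1 ⊆ E) : (pcb G E A0 A1).ncard ≤ (pcb G E A0 A).ncard :=
  Set.ncard_le_ncard_of_injOn _ (phi_pcb G h0 h1 hE)
    ((phi_inj G h0 h1 hE).mono (pcb_sub_pcl _ _ _ _)) (pcb_finite G E A0 A)

theorem fA_anti_right (G : GG H) {E A0 A A1 : Finset ℕ} (h0 : A0 ⊆ A) (h1 : A ⊆ A1)
    (hE : A1 ⊆ E) : fA G E A0 A1 ≤ fA G E A0 A :=
  Nat.add_le_add (card_pcl G h0 h1 hE) (card_pcb G h0 h1 hE)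

theorem noMerge_of_eq (G : GG H) {E A0 A A1 : Finset ℕ} (h0 : A0 ⊆ A) (h1 : A ⊆ A1)
    (hE : A1 ⊆ E) (heq : fA G E A0 A1 = fA G E A0 A) : NoMerge G (bd G E A) A0 A A1 := by
  have hl := card_pcl G h0 h1 hE
  have hb := card_pcb G h0 h1 hE
  unfold fA at heq
  have hl' : (pcl G E A0 A).ncard ≤ (pcl G E A0 A1).ncard := by omega
  have hb' : (pcb G E A0 A).ncard ≤ (pcb G E A0 A1).ncard := by omega
  have him1 : phi G E A0 A A1 '' pcl G E A0 A1 = pcl G E A0 A := by
    refine Set.eq_of_subset_of_ncard_le ?_ ?_ (pcl_finite G E A0 A)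
    · rintro _ ⟨c, hc, rfl⟩
      exact phi_pcl G h0 h1 hE c hc
    · rw [Set.ncard_image_of_injOn (phi_inj G h0 h1 hE)]
      exact hl'
  have him2 : phi G E A0 A A1 '' pcb G E A0 A1 = pcb G E A0 A := by
    refine Set.eq_of_subset_of_ncard_le ?_ ?_ (pcb_finite G E A0 A)
    · rintro _ ⟨c, hc, rfl⟩
      exact phi_pcb G h0 h1 hE c hc
    · rw [Set.ncard_image_of_injOn ((phi_inj G h0 h1 hE).mono (pcb_sub_pcl _ _ _ _))]
      exact hb'
  constructor
  · intro u hu u' hu' hm hm' hcon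
    have e1 : cls (img G A) u ∈ phi G E A0 A A1 '' pcl G E A0 A1 := by
      rw [him1]
      exact ⟨u, hu, hm, rfl⟩
    have e2 : cls (img G A) u' ∈ phi G E A0 A A1 '' pcl G E A0 A1 := by
      rw [him1]
      exact ⟨u', hu', hm', rfl⟩
    obtain ⟨c, hc, hcu⟩ := e1
    obtain ⟨c', hc', hcu'⟩ := e2
    have e3 := phi_back G h0 h1 hE hc hcu
    have e4 := phi_back G h0 h1 hE hc' hcu'
    have e5 : c = c' := by rw [e3, e4, cls_eq_iff]; exact hcon
    rw [e5, hcu'] at hcu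
    exact cls_eq_iff.1 hcu.symm
  · intro u hu hm hun
    by_contra hbal
    have e1 : cls (img G A) u ∈ phi G E A0 A A1 '' pcb G E A0 A1 := by
      rw [him2]
      exact ⟨u, hu, hm, hbal, rfl⟩
    obtain ⟨c, hc, hcu⟩ := e1
    have e3 := phi_back G h0 h1 hE (pcb_sub_pcl _ _ _ _ hc) hcu
    obtain ⟨w, _, _, hwb, hcw⟩ := hc
    exact hwb (hun.of_con (cls_eq_iff.1 (e3.symm.trans hcw)))

/-- the interval function `ff` decreases when the interval grows -/
theorem ff_anti (G : GG H) {E A' A B B' : Finset ℕ} (h0 : A' ⊆ A) (h1 : A ⊆ B) (h2 : B ⊆ B')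
    (hE : B' ⊆ E) : ff G E A' B' ≤ ff G E A B := by
  unfold ff
  refine Nat.add_le_add ?_ ?_
  · exact (fA_anti_right G (h0.trans h1) h2 hE).trans (fA_mono_left G h0)
  · refine (fA_anti_right G (A := E \ A) ?_ ?_ Finset.sdiff_subset).trans (fA_mono_left G ?_)
    · exact Finset.sdiff_subset_sdiff le_rfl (h1.trans h2)
    · exact Finset.sdiff_subset_sdiff le_rfl h0
    · exact Finset.sdiff_subset_sdiff le_rfl h2

theorem ff_le (G : GG H) {E A A' : Finset ℕ} (h : A ⊆ E) :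
    ff G E A A' ≤ 2 * (bd G E A').ncard + 2 * (bd G E A).ncard := by
  unfold ff
  have h1 := fA_le G E A A'
  have h2 := fA_le G E (E \ A') (E \ A)
  rw [bd_compl G h] at h2
  omega

/-- if `ff` is the same for the pairs `(A0, A)`, `(A0, A1)`, `(A, A1)`, nothing merges on either side -/
theorem noMerge_of_ff (G : GG H) {E A0 A A1 : Finset ℕ} (h0 : A0 ⊆ A) (h1 : A ⊆ A1)
    (hE : A1 ⊆ E) (e1 : ff G E A0 A1 = ff G E A0 A) (e2 : ff G E A0 A1 = ff G E A A1) :
    NoMerge G (bd G E A) A0 A A1 ∧ NoMerge G (bd G E A) (E \ A1) (E \ A) (E \ A0) := by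
  have s1 : E \ A1 ⊆ E \ A := Finset.sdiff_subset_sdiff le_rfl h1
  have s0 : E \ A ⊆ E \ A0 := Finset.sdiff_subset_sdiff le_rfl h0
  have a1 := fA_anti_right G h0 h1 hE
  have a2 : fA G E (E \ A1) (E \ A0) ≤ fA G E (E \ A) (E \ A0) := fA_mono_left G s1
  have a3 : fA G E A0 A1 ≤ fA G E A A1 := fA_mono_left G h0
  have a4 : fA G E (E \ A1) (E \ A0) ≤ fA G E (E \ A1) (E \ A) :=
    fA_anti_right G s1 s0 Finset.sdiff_subset
  unfold ff at e1 e2
  refine ⟨noMerge_of_eq G h0 h1 hE (by omega), ?_⟩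
  have h := noMerge_of_eq G s1 s0 Finset.sdiff_subset (by omega)
  rwa [bd_compl G (h1.trans hE)] at h

end Pool.Agent.Helper28.BW
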