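import Pool.Agent.Helper28.BW.MainII
import Pool.Agent.Helper28.BW.Mrk
import Pool.Agent.Helper28.BW.Dec

/-!
# BW-39: matroid form of part II

`chainII`: `mainII` applied to `mrk N` and `minor_rep`, `gainGraphic_iff_rep`. A chain of `N0 = N` subsets of the ground set with connectivity at most `k` cannot exist
in a matroid which is not gain-graphic but all of whose proper minors are.
`sizeII`: if such a matroid has a branch decomposition of width at most `k` then it has fewer than `2 ^ N0` elements (`dec_chain` with `m = N0`, use the sets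
`X 0, ..., X (N0 - 1)`; all are subsets of `X N0 = E`).
-/

set_option autoImplicit false

namespace Pool.Agent.Helper28.BW

open Pool.Agent.Helper25.GG

theorem chainII (H : Type) [Group H] [Finite H] (k : ℕ) : ∃ n : ℕ, ∀ N : Matroid ℕ,
    ∀ hN : N.E.Finite, ¬ GainGraphic H N →
    (∀ N' : Matroid ℕ, Matroid.IsMinor N' N → N' ≠ N → GainGraphic H N') →
    ¬ ∃ X : ℕ → Finset ℕ, (∀ i, i < n → (X i : Set ℕ) ⊆ N.E) ∧
      (∀ i j, i < j → j < n → X i ⊂ X j) ∧ ∀ i, i < n → lam (mrk N) hN.toFinset (X i) ≤ k := by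
  obtain ⟨n, hn⟩ := mainII H k
  refine ⟨n, fun N hN hnot hmin => ?_⟩
  rintro ⟨X, h1, h2, h3⟩
  apply hnot
  rw [gainGraphic_iff_rep hN]
  refine hn (mrk N) hN.toFinset X (mrk_rkFn N) (minor_rep hN hmin) ?_ h2 h3
  intro i hi e he
  rw [Set.Finite.mem_toFinset]
  exact h1 i hi he

theorem sizeII (H : Type) [Group H] [Finite H] (k : ℕ) : ∃ n : ℕ, ∀ N : Matroid ℕ,
    ∀ hN : N.E.Finite, ¬ GainGraphic H N →
    (∀ N' : Matroid ℕ, Matroid.IsMinor N' N → N' ≠ N → GainGraphic H N') →
    Dec (lam (mrk N) hN.toFinset) k hN.toFinset → N.E.ncard < n := by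
  obtain ⟨n, hn⟩ := chainII H k
  refine ⟨2 ^ n, fun N hN hnot hmin hdec => ?_⟩
  by_contra hlt
  push Not at hlt
  rw [Set.ncard_eq_toFinset_card _ hN] at hlt
  obtain ⟨X, h1, h2, h3⟩ := dec_chain hdec n hlt
  refine hn N hN hnot hmin ⟨X, ?_, ?_, ?_⟩
  · intro i hi e he
    have h4 : X i ⊆ hN.toFinset := by
      rw [← h1]
      exact (h2 i n hi le_rfl).subset
    have h5 := h4 (Finset.mem_coe.1 he)
    rwa [Set.Finite.mem_toFinset] at h5
  · intro i j hij hj
    exact h2 i j hij hj.le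
  · intro i hi
    exact h3 i hi.le

end Pool.Agent.Helper28.BW
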