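import Pool.Agent.Helper28.BW.Pieces

/-!
# BW-52: leaves

The pieces with at most one edge are pwo. Proof. `|bd G E X| ≤ 2` as `bd ⊆ vs G X` and `|X| ≤ 1`. Given a sequence `(G n, E n, X n)` choose marks `p n` with `exists_mk` and consider the signature
`(|X n|, m n, Trc (img (G n) (X n)) (p n), rk (G n) (X n))` in the finite type `Fin 2 × (Σ m : Fin 3, (Fin m → Fin m → H → Prop)) × Fin 2`. There are `i < j` with the same
signature. `ψ` maps the element of `X i` to the element of `X j`, `C = ∅`. For `U = ∅`: `Trc ∅ p a b h ↔ a = b ∧ h = 1` for injective marks with gauge `1`, the same on both sides; `rk ∅ = 0`.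
For `U = X i`: by the signature.
-/

set_option autoImplicit false

namespace Pool.Agent.Helper28.BW

variable {H : Type} [Group H]

private theorem lf_bd (G : GG H) (E X : Finset ℕ) (hX : X.card ≤ 1) :
    (bd G E X).ncard ≤ 2 := by
  have h1 : bd G E X ⊆ vs G X := Set.inter_subset_left
  rcases Nat.le_one_iff_eq_zero_or_eq_one.1 hX with h | h
  · rw [Finset.card_eq_zero] at h
    have h2 : bd G E X = ∅ := by
      rw [← Set.subset_empty_iff]
      refine h1.trans ?_
      rw [h, vs, img_empty, vx_empty]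
    rw [h2, Set.ncard_empty]
    omega
  · obtain ⟨e, rfl⟩ := Finset.card_eq_one.1 h
    have h2 : vs G {e} ⊆ {(G e).1, (G e).2.1} := by
      rintro u ⟨t, ⟨x, hx, rfl⟩, hu⟩
      have hx' : x = e := by simpa using hx
      subst hx'
      rcases hu with hu | hu
      · left; exact hu
      · right; exact hu
    refine (Set.ncard_le_ncard (h1.trans h2) (Set.toFinite _)).trans ?_
    refine (Set.ncard_insert_le _ _).trans ?_
    rw [Set.ncard_singleton]

private theorem lf_empty (G G' : GG H) {m : ℕ} {p q : Fin m → ℕ × H}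
    (hp : Function.Injective fun a => (p a).1) (hq : Function.Injective fun a => (q a).1)
    (hp1 : ∀ a, (p a).2 = 1) (hq1 : ∀ a, (q a).2 = 1) :
    Trc (img G' ∅) q = Trc (img G ∅) p := by
  funext a b h
  unfold Trc
  rw [img_empty, img_empty, W.empty_iff, W.empty_iff, hp1, hp1, hq1, hq1]
  have e1 : (q a).1 = (q b).1 ↔ a = b := ⟨fun h => hq h, fun h => by rw [h]⟩
  have e2 : (p a).1 = (p b).1 ↔ a = b := ⟨fun h => hp h, fun h => by rw [h]⟩
  rw [e1, e2]

private theorem lf_ple (x y : Pc H) (mx my : ℕ) (p : Fin mx → ℕ × H) (q : Fin my → ℕ × H)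
    (hp : Mk x.1 x.2.1 x.2.2 p) (hq : Mk y.1 y.2.1 y.2.2 q) (hp1 : ∀ a, (p a).2 = 1)
    (hq1 : ∀ a, (q a).2 = 1) (hx : x.2.2.card ≤ 1) (hy : y.2.2.card ≤ 1)
    (h : (⟨mx, Trc (img x.1 x.2.2) p, x.2.2.card = 0, rk x.1 x.2.2 = x.2.2.card⟩ :
        Σ m : ℕ, ((Fin m → Fin m → H → Prop) × Prop × Prop)) =
      ⟨my, Trc (img y.1 y.2.2) q, y.2.2.card = 0, rk y.1 y.2.2 = y.2.2.card⟩) : PLe x y := by
  have hm : mx = my := congrArg Sigma.fst h
  subst hm
  have h1 := eq_of_heq (Sigma.mk.inj h).2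
  have h2 : Trc (img x.1 x.2.2) p = Trc (img y.1 y.2.2) q := congrArg Prod.fst h1
  have h3 : (x.2.2.card = 0) = (y.2.2.card = 0) := congrArg (fun z => z.2.1) h1
  have h4 : (rk x.1 x.2.2 = x.2.2.card) = (rk y.1 y.2.2 = y.2.2.card) :=
    congrArg (fun z => z.2.2) h1
  refine ⟨mx, p, q, hp, hq, ?_⟩
  have hψ : ∃ ψ : ℕ → ℕ, Set.InjOn ψ (x.2.2 : Set ℕ) ∧ x.2.2.image ψ = y.2.2 := by
    rcases Nat.le_one_iff_eq_zero_or_eq_one.1 hx with h5 | h5
    · have h6 : y.2.2.card = 0 := h3 ▸ h5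
      rw [Finset.card_eq_zero] at h5 h6
      refine ⟨id, Function.injective_id.injOn, ?_⟩
      rw [h5, h6, Finset.image_empty]
    · have h6 : y.2.2.card = 1 := by
        rcases Nat.le_one_iff_eq_zero_or_eq_one.1 hy with h6 | h6
        · have h7 : x.2.2.card = 0 := h3.symm ▸ h6
          omega
        · exact h6
      obtain ⟨e, he⟩ := Finset.card_eq_one.1 h5
      obtain ⟨e', he'⟩ := Finset.card_eq_one.1 h6
      refine ⟨fun _ => e', ?_, ?_⟩
      · rw [he, Finset.coe_singleton]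
        exact Set.injOn_singleton _ _
      · rw [he, he', Finset.image_singleton]
  obtain ⟨ψ, hψ1, hψ2⟩ := hψ
  refine ⟨ψ, ∅, hψ1, hψ2.subset, Finset.empty_subset _, fun U hU => ?_⟩
  rw [Finset.union_empty]
  have hc : U = ∅ ∨ U = x.2.2 := by
    rcases U.eq_empty_or_nonempty with h5 | h5
    · exact Or.inl h5
    · right
      apply Finset.eq_of_subset_of_card_le hU
      have := Finset.card_pos.2 h5
      omega
  rcases hc with rfl | rfl
  · rw [Finset.image_empty]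
    refine ⟨lf_empty x.1 y.1 hp.1 hq.1 hp1 hq1, ?_⟩
    rw [(rk_rkFn x.1).empty, (rk_rkFn y.1).empty]
  · rw [hψ2]
    exact ⟨h2.symm, h4 ▸ Iff.rfl⟩

theorem leaf_pwo (H : Type) [Group H] [Finite H] :
    {x : Pc H | x.2.2.card ≤ 1}.PartiallyWellOrderedOn PLe := by
  rw [Set.partiallyWellOrderedOn_iff_exists_lt]
  intro f hf
  have hmk := fun n => exists_mk (f n).1 (f n).2.1 (f n).2.2
  choose p hp1 hp2 using hmk
  have hb := fun n => lf_bd (f n).1 (f n).2.1 (f n).2.2 (hf n)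
  let sig : ℕ → (Σ m : Fin 3, ((Fin (m : ℕ) → Fin (m : ℕ) → H → Prop) × Prop × Prop)) := fun n =>
    ⟨⟨(bd (f n).1 (f n).2.1 (f n).2.2).ncard, by have := hb n; omega⟩,
      Trc (img (f n).1 (f n).2.2) (p n), (f n).2.2.card = 0,
      rk (f n).1 (f n).2.2 = (f n).2.2.card⟩
  obtain ⟨i, j, hij, hs⟩ := Finite.exists_ne_map_eq_of_infinite sig
  have key : ∀ i j : ℕ, sig i = sig j → PLe (f i) (f j) := by
    intro i j hs
    have h1 := congrArg (fun z : (Σ m : Fin 3,
      ((Fin (m : ℕ) → Fin (m : ℕ) → H → Prop) × Prop × Prop)) =>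
      (⟨(z.1 : ℕ), z.2⟩ : Σ m : ℕ, ((Fin m → Fin m → H → Prop) × Prop × Prop))) hs
    exact lf_ple (f i) (f j) _ _ (p i) (p j) (hp1 i) (hp1 j) (hp2 i) (hp2 j) (hf i) (hf j) h1
  rcases lt_or_gt_of_ne hij with h | h
  · exact ⟨i, j, h, key i j hs⟩
  · exact ⟨j, i, h, key j i hs.symm⟩

end Pool.Agent.Helper28.BW
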