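import Pool.Agent.Helper28.BW.RkFn

/-!
# BW-45: pieces and their minor order

`Mk G E X p`: the marks `p` (vertex, gauge) enumerate the boundary of `X` injectively. `LLe G X p G' X' p'`: the edge set `X` of `G` embeds into the edge set
`X'` of `G'`: `ψ` renames the edges of `X`, the set `C` is contracted, the rest of `X'` is deleted; traces on the marks and independence are preserved. `PLe`: the same
for some marks of the boundaries. `act σ c p`: reindex the marks by `σ` and multiply the gauges by `c` on the left.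
Proofs. `LLe.refl`: `ψ = id`, `C = ∅`. `LLe.trans`: from `(ψ, C)` and `(ψ', C')` take `ψ' ∘ ψ` and `C.image ψ' ∪ C'`; for `U ⊆ X` the set
`U.image (ψ' ∘ ψ) ∪ (C.image ψ' ∪ C') = (U.image ψ ∪ C).image ψ' ∪ C'` and `U.image ψ ∪ C ⊆ X'`; disjointness of `C.image ψ'` and `X.image (ψ' ∘ ψ)` by injectivity
of `ψ'` on `X'`. `LLe.act`: `Trc T (act σ c p) a b h ↔ Trc T p (σ a) (σ b) ((c a)⁻¹ * h * c b)`. `exists_mk`: enumerate the finite set, gauge `1`. `mk_eq_act`: for every `a` there is a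
unique `σ a` with `(q a).1 = (p (σ a)).1` (same range, injective); `c a = (q a).2 * ((p (σ a)).2)⁻¹`. `act_inv`: direct. `PLe.mk_left`: from `LLe` with marks `p0`, `q0` and `p = act σ c p0`
take `q = act σ c q0` (the numbers of marks agree by `Mk.card`). `PLe.trans`: use `mk_left` with the second marks of the first relation.
-/

set_option autoImplicit false

namespace Pool.Agent.Helper28.BW

variable {H : Type} [Group H]

/-- embedding of marked edge sets -/
def LLe {ι : Type} (G : GG H) (X : Finset ℕ) (p : ι → ℕ × H) (G' : GG H) (X' : Finset ℕ)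
    (p' : ι → ℕ × H) : Prop :=
  ∃ (ψ : ℕ → ℕ) (C : Finset ℕ), Set.InjOn ψ (X : Set ℕ) ∧ X.image ψ ⊆ X' ∧
    C ⊆ X' \ X.image ψ ∧
    ∀ U ⊆ X, Trc (img G' (U.image ψ ∪ C)) p' = Trc (img G U) p ∧
      (rk G' (U.image ψ ∪ C) = (U.image ψ ∪ C).card ↔ rk G U = U.card)

/-- reindexing of the marks and change of gauges -/
def act {ι : Type} (σ : ι → ι) (c : ι → H) (p : ι → ℕ × H) : ι → ℕ × H :=
  fun a => ((p (σ a)).1, c a * (p (σ a)).2)

/-- `p` marks the boundary of `X` -/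
def Mk {ι : Type} (G : GG H) (E X : Finset ℕ) (p : ι → ℕ × H) : Prop :=
  (Function.Injective fun a => (p a).1) ∧ Set.range (fun a => (p a).1) = bd G E X

/-- pieces: gain graph, ground set, subset of the ground set -/
abbrev Pc (H : Type) := GG H × Finset ℕ × Finset ℕ

/-- `x` is a minor of `y`, boundaries corresponding -/
def PLe (x y : Pc H) : Prop :=
  ∃ (m : ℕ) (p q : Fin m → ℕ × H), Mk x.1 x.2.1 x.2.2 p ∧ Mk y.1 y.2.1 y.2.2 q ∧
    LLe x.1 x.2.2 p y.1 y.2.2 q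

theorem LLe.refl {ι : Type} (G : GG H) (X : Finset ℕ) (p : ι → ℕ × H) : LLe G X p G X p := by
  refine ⟨id, ∅, Set.injOn_id _, by simp, by simp, fun U hU => ?_⟩
  rw [Finset.image_id, Finset.union_empty]
  exact ⟨rfl, Iff.rfl⟩

theorem LLe.trans {ι : Type} {G G' G'' : GG H} {X X' X'' : Finset ℕ} {p p' p'' : ι → ℕ × H}
    (h1 : LLe G X p G' X' p') (h2 : LLe G' X' p' G'' X'' p'') : LLe G X p G'' X'' p'' := by
  obtain ⟨ψ, C, hi, hs, hC, h⟩ := h1
  obtain ⟨ψ', C', hi', hs', hC', h'⟩ := h2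
  have hmap : ∀ x ∈ X, ψ x ∈ X' := fun x hx => hs (Finset.mem_image_of_mem ψ hx)
  have hCX : ∀ d ∈ C, d ∈ X' := fun d hd => (Finset.mem_sdiff.1 (hC hd)).1
  refine ⟨ψ' ∘ ψ, C.image ψ' ∪ C', ?_, ?_, ?_, ?_⟩
  · intro x hx y hy hxy
    exact hi hx hy (hi' (hmap x hx) (hmap y hy) hxy)
  · intro y hy
    obtain ⟨x, hx, rfl⟩ := Finset.mem_image.1 hy
    exact hs' (Finset.mem_image_of_mem ψ' (hmap x hx))
  · intro y hy
    rw [Finset.mem_sdiff]
    rcases Finset.mem_union.1 hy with hy | hy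
    · obtain ⟨d, hd, rfl⟩ := Finset.mem_image.1 hy
      refine ⟨hs' (Finset.mem_image_of_mem ψ' (hCX d hd)), fun h1 => ?_⟩
      obtain ⟨x, hx, hxd⟩ := Finset.mem_image.1 h1
      have h2 : ψ x = d := hi' (hmap x hx) (hCX d hd) hxd
      exact (Finset.mem_sdiff.1 (hC hd)).2 (h2 ▸ Finset.mem_image_of_mem ψ hx)
    · have h1 := Finset.mem_sdiff.1 (hC' hy)
      refine ⟨h1.1, fun h2 => h1.2 ?_⟩
      obtain ⟨x, hx, hxd⟩ := Finset.mem_image.1 h2
      rw [← hxd]
      exact Finset.mem_image_of_mem ψ' (hmap x hx)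
  · intro U hU
    have e : U.image (ψ' ∘ ψ) ∪ (C.image ψ' ∪ C') = (U.image ψ ∪ C).image ψ' ∪ C' := by
      rw [Finset.image_union, Finset.image_image, Finset.union_assoc]
    have hU' : U.image ψ ∪ C ⊆ X' :=
      Finset.union_subset ((Finset.image_subset_image hU).trans hs) hCX
    rw [e]
    obtain ⟨a1, a2⟩ := h U hU
    obtain ⟨b1, b2⟩ := h' _ hU'
    exact ⟨b1.trans a1, b2.trans a2⟩

private theorem trc_act {ι : Type} (T : Set (Tri H)) (σ : ι → ι) (c : ι → H) (p : ι → ℕ × H) :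
    Trc T (BW.act σ c p) = fun a b h => Trc T p (σ a) (σ b) ((c a)⁻¹ * h * c b) := by
  funext a b h
  simp only [Trc, BW.act, mul_inv_rev, mul_assoc]

theorem LLe.act {ι : Type} {G G' : GG H} {X X' : Finset ℕ} {p p' : ι → ℕ × H}
    (h : LLe G X p G' X' p') (σ : ι → ι) (c : ι → H) :
    LLe G X (BW.act σ c p) G' X' (BW.act σ c p') := by
  obtain ⟨ψ, C, hi, hs, hC, h⟩ := h
  refine ⟨ψ, C, hi, hs, hC, fun U hU => ⟨?_, (h U hU).2⟩⟩
  rw [trc_act, trc_act, (h U hU).1]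

theorem exists_mk (G : GG H) (E X : Finset ℕ) :
    ∃ p : Fin (bd G E X).ncard → ℕ × H, Mk G E X p ∧ ∀ a, (p a).2 = 1 := by
  have hf : (bd G E X).Finite := (vx_finite (img_finite G X)).subset Set.inter_subset_left
  have : Finite (bd G E X) := hf
  let e : bd G E X ≃ Fin (bd G E X).ncard := Finite.equivFinOfCardEq rfl
  refine ⟨fun a => ((e.symm a).1, 1), ⟨?_, ?_⟩, fun a => rfl⟩
  · intro a b hab
    exact e.symm.injective (Subtype.ext hab)
  · ext u
    constructor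
    · rintro ⟨a, rfl⟩
      exact (e.symm a).2
    · intro hu
      exact ⟨e ⟨u, hu⟩, by simp⟩

theorem Mk.card {G : GG H} {E X : Finset ℕ} {m : ℕ} {p : Fin m → ℕ × H} (h : Mk G E X p) :
    m = (bd G E X).ncard := by
  rw [← h.2, ← Set.image_univ, Set.ncard_image_of_injective _ h.1, Set.ncard_univ, Nat.card_eq_fintype_card,
    Fintype.card_fin]

theorem Mk.act {ι : Type} {G : GG H} {E X : Finset ℕ} {p : ι → ℕ × H} (h : Mk G E X p)
    (σ : Equiv.Perm ι) (c : ι → H) : Mk G E X (BW.act σ c p) := by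
  refine ⟨fun a b hab => σ.injective (h.1 hab), ?_⟩
  rw [← h.2]
  exact σ.surjective.range_comp (fun a => (p a).1)

theorem mk_eq_act {ι : Type} {G : GG H} {E X : Finset ℕ} {p q : ι → ℕ × H} (hp : Mk G E X p)
    (hq : Mk G E X q) : ∃ (σ : Equiv.Perm ι) (c : ι → H), q = act σ c p := by
  have h1 : ∀ a, ∃ a', (p a').1 = (q a).1 := by
    intro a
    have h2 : (q a).1 ∈ Set.range fun a => (p a).1 := by
      rw [hp.2, ← hq.2]
      exact ⟨a, rfl⟩
    exact h2
  choose σ hσ using h1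
  have hb : Function.Bijective σ := by
    constructor
    · intro a b hab
      apply hq.1
      show (q a).1 = (q b).1
      rw [← hσ a, ← hσ b, hab]
    · intro b
      have h2 : (p b).1 ∈ Set.range fun a => (q a).1 := by
        rw [hq.2, ← hp.2]
        exact ⟨b, rfl⟩
      obtain ⟨a, ha⟩ := h2
      exact ⟨a, hp.1 ((hσ a).trans ha)⟩
  refine ⟨Equiv.ofBijective σ hb, fun a => (q a).2 * ((p (σ a)).2)⁻¹, ?_⟩
  funext a
  apply Prod.ext
  · exact (hσ a).symm
  · show (q a).2 = (q a).2 * ((p (σ a)).2)⁻¹ * (p (σ a)).2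
    rw [inv_mul_cancel_right]

theorem act_inv {ι : Type} (σ : Equiv.Perm ι) (c : ι → H) (p : ι → ℕ × H) :
    act σ.symm (fun a => (c (σ.symm a))⁻¹) (act σ c p) = p := by
  funext a
  simp only [act, Equiv.apply_symm_apply, inv_mul_cancel_left]

theorem PLe.refl (x : Pc H) : PLe x x := by
  obtain ⟨p, hp, _⟩ := exists_mk x.1 x.2.1 x.2.2
  exact ⟨_, p, p, hp, hp, LLe.refl _ _ _⟩

theorem PLe.mk_left {x y : Pc H} (h : PLe x y) {m : ℕ} {p : Fin m → ℕ × H}
    (hp : Mk x.1 x.2.1 x.2.2 p) :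
    ∃ q : Fin m → ℕ × H, Mk y.1 y.2.1 y.2.2 q ∧ LLe x.1 x.2.2 p y.1 y.2.2 q := by
  obtain ⟨m0, p0, q0, hp0, hq0, hL⟩ := h
  have hm : m = m0 := hp.card.trans hp0.card.symm
  subst hm
  obtain ⟨σ, c, rfl⟩ := mk_eq_act hp0 hp
  exact ⟨act σ c q0, hq0.act σ c, hL.act σ c⟩

theorem PLe.trans {x y z : Pc H} (h1 : PLe x y) (h2 : PLe y z) : PLe x z := by
  obtain ⟨m, p, q, hp, hq, hL⟩ := h1
  obtain ⟨q', hq', hL'⟩ := h2.mk_left hq
  exact ⟨m, p, q', hp, hq', hL.trans hL'⟩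

end Pool.Agent.Helper28.BW
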