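import Pool.Agent.Helper28.BW.Join

/-!
# BW-23: transport of traces along a thin linking

Abstract situation: `A, C, B'` finite sets of edges, `SA ⊆ vs G A`, `SB ⊆ vs G B'` sets of vertices, such that
(l) a walk of `C` between two vertices of `vs G A` is trivial (same vertex, gain `1`); (r) the same for `vs G B'`;
(rl) every vertex of `SA` is joined in `C` to a vertex of `SB`; (rr) every vertex of `SB` is joined in `C` to a vertex of `SA`.
Given injective marks `p : ι → ℕ × H` with set of vertices exactly `SA`, there are injective marks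
`p' : ι → ℕ × H` with set of vertices exactly `SB` such that for all `U ⊆ A`: `Trc (img G (U ∪ C)) p' = Trc (img G U) p`.
Proof. For `a` let `p a = (s, η)`, `s ∈ SA`. Choose `s' ∈ SB` and `γ` with `W (img G C) s s' γ` (rl), and put
`p' a = (s', η * γ)`... (gauge: see below). Injective: if `p' a`, `p' b` have the same vertex `s'` then the vertices of `p a` and
`p b` are joined in `C`, so equal by (l). Onto: for `t ∈ SB` there is `s ∈ SA` joined to `t` (rr), `s` is the vertex of `p a`,
and the vertex of `p' a` is joined to `t` in `C`, so equal to `t` by (r).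
Trace. Let `W (img G C) (s_a) (s'_a) (γ_a)`. Claim: `W (img G (U ∪ C)) s'_a s'_b h ↔ W (img G U) s_a s_b (γ_a * h * γ_b⁻¹)`.
(⇐) compose. (⇒) compose to get a walk of `U ∪ C` from `s_a` to `s_b` of gain `h1 = γ_a * h * γ_b⁻¹`; show by induction on
the walk: if `W (img G (U ∪ C)) s x h1` with `s ∈ vs G A` then there are `u ∈ vs G A`, `h2`, `h3` with `W (img G U) s u h2`,
`W (img G C) u x h3`, `h1 = h2 * h3` (an edge of `C` extends the last part; for an edge of `U` at `x`, `x ∈ vs G A` so the
`C`-part is trivial by (l) and the edge extends the `U`-part). For `x = s_b ∈ vs G A` the `C`-part is trivial.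
Gauge: `Trc (img G (U ∪ C)) p' a b h` means `W (img G (U ∪ C)) s'_a s'_b (η'_a⁻¹ * h * η'_b)`, which is
`W (img G U) s_a s_b (γ_a * η'_a⁻¹ * h * η'_b * γ_b⁻¹)`; with `η'_a = η_a * γ_a` this is `η_a⁻¹ * h * η_b` as required.
The last lemma: if moreover the edges of `C` are independent (`rk G C = |C|`) and `rk G (A ∪ C) = rk G A + |C|` then
independence of `U ∪ C` is equivalent to independence of `U` (submodularity, marginals decrease).
-/

set_option autoImplicit false

namespace Pool.Agent.Helper28.BW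

variable {H : Type} [Group H]

private lemma transport_aux {G : GG H} {A C U : Finset ℕ} (hU : U ⊆ A)
    (hl : ∀ a ∈ vs G A, ∀ a' ∈ vs G A, ∀ g : H, W (img G C) a a' g → a = a' ∧ g = 1)
    {s x : ℕ} {h1 : H} (hw : W (img G (U ∪ C)) s x h1) (hs : s ∈ vs G A) :
    ∃ u ∈ vs G A, ∃ h2 h3 : H, W (img G U) s u h2 ∧ W (img G C) u x h3 ∧ h1 = h2 * h3 := by
  induction hw with
  | refl => exact ⟨_, hs, 1, 1, W.refl _, W.refl _, (mul_one _).symm⟩
  | fwd _ he ih =>
    obtain ⟨u, hu, h2, h3, w2, w3, rfl⟩ := ih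
    rw [img_union] at he
    rcases he with he | he
    · have hv := img_mono G hU he
      obtain ⟨rfl, rfl⟩ := hl _ hu _ (mem_vx_left hv) _ w3
      exact ⟨_, mem_vx_right hv, h2 * _, 1, W.fwd w2 he, W.refl _, by group⟩
    · exact ⟨u, hu, h2, h3 * _, w2, W.fwd w3 he, by group⟩
  | bwd _ he ih =>
    obtain ⟨u, hu, h2, h3, w2, w3, rfl⟩ := ih
    rw [img_union] at he
    rcases he with he | he
    · have hv := img_mono G hU he
      obtain ⟨rfl, rfl⟩ := hl _ hu _ (mem_vx_right hv) _ w3
      exact ⟨_, mem_vx_left hv, h2 * _, 1, W.bwd w2 he, W.refl _, by group⟩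
    · exact ⟨u, hu, h2, h3 * _, w2, W.bwd w3 he, by group⟩

private lemma transport_iff {G : GG H} {A C U : Finset ℕ} (hU : U ⊆ A)
    (hl : ∀ a ∈ vs G A, ∀ a' ∈ vs G A, ∀ g : H, W (img G C) a a' g → a = a' ∧ g = 1)
    {s t : ℕ} {h : H} (hs : s ∈ vs G A) (ht : t ∈ vs G A) :
    W (img G (U ∪ C)) s t h ↔ W (img G U) s t h := by
  constructor
  · intro hw
    obtain ⟨u, hu, h2, h3, w2, w3, rfl⟩ := transport_aux hU hl hw hs
    obtain ⟨rfl, rfl⟩ := hl _ hu _ ht _ w3
    rwa [mul_one]
  · intro hw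
    exact hw.mono (img_mono G Finset.subset_union_left)

theorem transport {G : GG H} {A C B' : Finset ℕ} {SA SB : Set ℕ} (hSA : SA ⊆ vs G A)
    (hSB : SB ⊆ vs G B')
    (hl : ∀ a ∈ vs G A, ∀ a' ∈ vs G A, ∀ g : H, W (img G C) a a' g → a = a' ∧ g = 1)
    (hr : ∀ b ∈ vs G B', ∀ b' ∈ vs G B', ∀ g : H, W (img G C) b b' g → b = b' ∧ g = 1)
    (hrl : ∀ a ∈ SA, ∃ b ∈ SB, Con (img G C) a b)
    (hrr : ∀ b ∈ SB, ∃ a ∈ SA, Con (img G C) b a)
    {ι : Type} {p : ι → ℕ × H} (hp : Function.Injective fun a => (p a).1)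
    (hpr : Set.range (fun a => (p a).1) = SA) :
    ∃ p' : ι → ℕ × H, Function.Injective (fun a => (p' a).1) ∧
      Set.range (fun a => (p' a).1) = SB ∧
      ∀ U ⊆ A, Trc (img G (U ∪ C)) p' = Trc (img G U) p := by
  have hpA : ∀ i, (p i).1 ∈ SA := fun i => by
    rw [← hpr]
    exact ⟨i, rfl⟩
  have h0 : ∀ i, ∃ (b : ℕ) (g : H), b ∈ SB ∧ W (img G C) (p i).1 b g := by
    intro i
    obtain ⟨b, hb, g, hg⟩ := hrl _ (hpA i)
    exact ⟨b, g, hb, hg⟩
  choose σ γ hσ hγ using h0
  refine ⟨fun i => (σ i, (p i).2 * γ i), ?_, ?_, ?_⟩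
  · intro a b hab
    simp only at hab
    have h1 := hγ a
    rw [hab] at h1
    exact hp (hl _ (hSA (hpA a)) _ (hSA (hpA b)) _ (h1.trans (hγ b).symm)).1
  · ext t
    constructor
    · rintro ⟨i, rfl⟩
      exact hσ i
    · intro ht
      obtain ⟨a, ha, g, hg⟩ := hrr t ht
      rw [← hpr] at ha
      obtain ⟨i, rfl⟩ := ha
      refine ⟨i, ?_⟩
      exact (hr _ (hSB ht) _ (hSB (hσ i)) _ (hg.trans (hγ i))).1.symm
  · intro U hU
    funext a b h
    apply propext
    unfold Trc
    simp only
    rw [← transport_iff hU hl (hSA (hpA a)) (hSA (hpA b))]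
    have hC : img G C ⊆ img G (U ∪ C) := img_mono G Finset.subset_union_right
    have wa := (hγ a).mono hC
    have wb := (hγ b).mono hC
    constructor
    · intro hw
      have h1 := (wa.trans hw).trans wb.symm
      convert h1 using 1
      group
    · intro hw
      have h1 := (wa.symm.trans hw).trans wb
      convert h1 using 1
      group

private lemma rk_union_le {r : Finset ℕ → ℕ} (hr : RkFn r) (U C : Finset ℕ) :
    r (U ∪ C) ≤ r U + C.card := by
  classical
  induction C using Finset.induction_on with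
  | empty => simp
  | insert e C he ih =>
    rw [Finset.union_insert, Finset.card_insert_of_notMem he]
    have := hr.ins (U ∪ C) e
    omega

theorem indep_union_iff {r : Finset ℕ → ℕ} (hr : RkFn r) {A C U : Finset ℕ} (hU : U ⊆ A)
    (hd : Disjoint A C) (h : r (A ∪ C) = r A + C.card) :
    r (U ∪ C) = (U ∪ C).card ↔ r U = U.card := by
  have h1 := rk_union_le hr U C
  have h2 := hr.sub (U ∪ C) A
  have h3 : U ∪ C ∪ A = A ∪ C := by
    rw [Finset.union_right_comm, Finset.union_eq_right.mpr hU]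
  have h4 : (U ∪ C) ∩ A = U := by
    rw [Finset.union_inter_distrib_right, Finset.inter_eq_left.mpr hU,
      Finset.disjoint_iff_inter_eq_empty.mp hd.symm, Finset.union_empty]
  rw [h3, h4, h] at h2
  have h5 : (U ∪ C).card = U.card + C.card :=
    Finset.card_union_of_disjoint (Finset.disjoint_of_subset_left hU hd)
  omega

end Pool.Agent.Helper28.BW
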