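import Pool.Agent.Helper28.BW.Thread
import Pool.Agent.Helper28.BW.Pieces
import Pool.Agent.Helper28.BW.Transport

/-!
# BW-49: linked pieces are comparable

Let `Z ⊆ X ⊆ E`, `|bd Z| = |bd X| = m`, and `m ≤ |bd Y|` for all `Y` between. `menger_edges` and `thread` give `C`. `exists_mk` gives marks `p` of `bd Z`; `transport` with
`A = Z`, `B' = E \ X`, `SA = bd Z`, `SB = bd X` gives marks `p'` of `bd X` with equal traces. `ψ = id`. Independence of `U ∪ C`, `U ⊆ Z`: `indep_union_iff` for `rk G` (`rk_rkFn`) needs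
`rk G (Z ∪ C) = rk G Z + |C|`. Let `S = vs G Z ∩ vs G C`. `two_sided_rk` for `Z`, `C`, `S`: `rk Z + rk C + bal Z S + bal C S = rk (Z ∪ C) + |S| + bal (Z ∪ C) S`. `bal C S = |S|`: the vertices of `S` are
balanced in `C` and pairwise not joined, by the triviality on `vs G Z`. `bal (Z ∪ C) S = bal Z S`: apply `transport` with `A = B' = Z`, `SA = SB = S`, marks of
`S` with gauge `1`, and `bal_of_trace` for `U = Z` (the ranges of both marks are `S`).
-/

set_option autoImplicit false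

namespace Pool.Agent.Helper28.BW

variable {H : Type} [Group H]

theorem rk_thread {G : GG H} {Z C : Finset ℕ} (hC : rk G C = C.card)
    (hl : ∀ a ∈ vs G Z, ∀ a' ∈ vs G Z, ∀ g : H, W (img G C) a a' g → a = a' ∧ g = 1) :
    rk G (Z ∪ C) = rk G Z + C.card := by
  obtain ⟨S, hS⟩ : ∃ S, S = vs G Z ∩ vs G C := ⟨_, rfl⟩
  have hSf : S.Finite := by
    rw [hS]
    exact (vs_finite G Z).subset Set.inter_subset_left
  have hSZ : S ⊆ vs G Z := by
    rw [hS]
    exact Set.inter_subset_left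
  have h1 := two_sided_rk G Z C hSf (by rw [hS])
  have h2 : bal (img G C) S = S.ncard := by
    rw [bal, balC_eq_image]
    have e1 : {u ∈ S | ¬ Unb (img G C) u} = S := by
      refine Set.Subset.antisymm (Set.sep_subset _ _) fun u hu => ⟨hu, ?_⟩
      rintro ⟨g, hg, hw⟩
      exact hg (hl u (hSZ hu) u (hSZ hu) g hw).2
    rw [e1]
    refine Set.ncard_image_of_injOn fun u hu v hv huv => ?_
    obtain ⟨g, hg⟩ := cls_eq_iff.mp huv
    exact (hl u (hSZ hu) v (hSZ hv) g hg).1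
  have h3 : bal (img G (Z ∪ C)) S = bal (img G Z) S := by
    have hfin : Finite S := hSf.to_subtype
    have e1 : Set.range (fun a : S => (a : ℕ)) = S := Subtype.range_coe
    obtain ⟨p', -, hp2, hp3⟩ := transport (G := G) (A := Z) (C := C) (B' := Z) (SA := S) (SB := S)
      hSZ hSZ hl hl (fun a ha => ⟨a, ha, Con.refl _ _⟩) (fun b hb => ⟨b, hb, Con.refl _ _⟩)
      (p := fun a : S => ((a : ℕ), (1 : H))) Subtype.val_injective e1
    have e2 := bal_of_trace (hp3 Z (Finset.Subset.refl Z))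
    rw [hp2] at e2
    rw [e2]
    congr 1
  rw [h2, h3, hC] at h1
  omega

theorem link_ple {G : GG H} {E Z X : Finset ℕ} (hZ : Z ⊆ X) (hX : X ⊆ E)
    (hm : (bd G E Z).ncard = (bd G E X).ncard)
    (h : ∀ Y, Z ⊆ Y → Y ⊆ X → (bd G E X).ncard ≤ (bd G E Y).ncard) :
    PLe (G, E, Z) (G, E, X) := by
  obtain ⟨p, ⟨hp1, hp2⟩, -⟩ := exists_mk G E Z
  obtain ⟨l, x, e, hP⟩ := menger_edges hZ hX h
  obtain ⟨C, hC, hCr, hl, hr, hrl, hrr⟩ := thread hZ hX hP hm rfl
  obtain ⟨q, hq1, hq2, hq3⟩ := transport (SA := bd G E Z) (SB := bd G E X)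
    Set.inter_subset_left Set.inter_subset_right hl hr hrl hrr hp1 hp2
  refine ⟨_, p, q, ⟨hp1, hp2⟩, ⟨hq1, hq2⟩, id, C, fun a _ b _ hab => hab, ?_, ?_, ?_⟩
  · rw [Finset.image_id]
    exact hZ
  · rw [Finset.image_id]
    exact hC
  · intro U hU
    rw [Finset.image_id]
    refine ⟨hq3 U hU, ?_⟩
    refine indep_union_iff (rk_rkFn G) hU ?_ (rk_thread hCr hl)
    rw [Finset.disjoint_left]
    intro a ha haC
    exact (Finset.mem_sdiff.mp (hC haC)).2 ha

end Pool.Agent.Helper28.BW
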