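import Mathlib

/-!
# BW-44: the lemma on trees

Abstract objects of a type `α` with children `ch x = some (a, b)` or `none`, a size which decreases for children, a level `lev x ≤ w`, and a
reflexive transitive relation `le`. `Pth k x z`: `z` is reached from `x` by passing to children, all objects on the way (including `x` and `z`) have level
`≥ k`. Hypotheses: `U` closed under children; (link) if `x, z ∈ U` have level `k` and `Pth k x z` then `le z x`; (leaf) the objects of `U` without
children are pwo (`Set.PartiallyWellOrderedOn`); (comb) if `L ⊆ U` is pwo then so is the set of objects of `U` both of whose children are in `L`.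
Conclusion: `U` is pwo.
Proof. For `L ⊆ U` let `Gd k L` be the least set containing `L` and containing `x ∈ U` if `k ≤ lev x` and both children are in it. Claim(k): for every pwo
`L ⊆ U` the set `R k L` of the `x ∈ U` whose children are both in `Gd k L` is pwo. `k = w + 1`: `Gd (w+1) L = L` (levels are `≤ w`); (comb). From `k + 1` to `k`: let
`V` be the set of `x ∈ U` with `x ∈ Gd k L`, `lev x = k`. First `V` is pwo: otherwise let `f` be a minimal bad sequence in `V` with respect to the
size (`Set.PartiallyWellOrderedOn.exists_minBadSeq...`). Let `S` be the set of `s ∈ V` with `Pth k (f n) s` and smaller size than `f n`, for some `n`. (link):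
`le s (f n)`. `S` is pwo: given a bad sequence `s j` in `S` with indices `n j`, let `n0` be the least `n j`, at `j = j0`; the sequence
`f 0, ..., f (n0 - 1), s j0, s (j0+1), ...` is in `V` and bad (if `f i` is `≤ s j` then `≤ f (n j)` with `i < n0 ≤ n j`, contradiction), contradicting minimality
of `f n0`. So `L ∪ S` is pwo. Each `f n` is in `L` or in `R (k+1) (L ∪ S)`: if `f n ∉ L` its children are in `Gd k L`, and every `y ∈ Gd k L` with
`Pth k (f n) y`-predecessors is in `Gd (k+1) (L ∪ S)`: if `y ∈ L` clear; otherwise `lev y ≥ k`; if `lev y = k` then `y ∈ S`; if `lev y ≥ k + 1` use its children. By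
Claim(k+1) and pwo of unions the sequence `f` is not bad. Contradiction. So `V` is pwo, and `Gd k L ⊆ Gd (k+1) (L ∪ V)`, so `R k L ⊆ R (k+1) (L ∪ V)` is pwo.
Finally with `L` the set of objects of `U` without children, `Gd 0 L = U` (induction on the size), so `U ⊆ L ∪ R 0 L`.
-/

set_option autoImplicit false

namespace Pool.Agent.Helper28.BW

/-- path of objects of level at least `k` -/
inductive Pth {α : Type} (ch : α → Option (α × α)) (lev : α → ℕ) (k : ℕ) : α → α → Prop
  | refl (x : α) : k ≤ lev x → Pth ch lev k x x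
  | left (x a b z : α) : k ≤ lev x → ch x = some (a, b) → Pth ch lev k a z → Pth ch lev k x z
  | right (x a b z : α) : k ≤ lev x → ch x = some (a, b) → Pth ch lev k b z → Pth ch lev k x z

theorem Pth.le_lev {α : Type} {ch : α → Option (α × α)} {lev : α → ℕ} {k : ℕ} {x z : α}
    (h : Pth ch lev k x z) : k ≤ lev z := by
  induction h with
  | refl x h => exact h
  | left x a b z _ _ _ ih => exact ih
  | right x a b z _ _ _ ih => exact ih

theorem Pth.trans {α : Type} {ch : α → Option (α × α)} {lev : α → ℕ} {k : ℕ} {x y z : α}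
    (h : Pth ch lev k x y) (h' : Pth ch lev k y z) : Pth ch lev k x z := by
  induction h with
  | refl x h => exact h'
  | left x a b z h1 h2 _ ih => exact Pth.left _ a b _ h1 h2 (ih h')
  | right x a b z h1 h2 _ ih => exact Pth.right _ a b _ h1 h2 (ih h')

/-- the least set containing `L` and the objects of `U` of level `≥ k` both of whose children
are in it -/
inductive Gd {α : Type} (ch : α → Option (α × α)) (lev : α → ℕ) (U : Set α) (k : ℕ)
    (L : Set α) : α → Prop
  | base (x : α) : x ∈ L → Gd ch lev U k L x
  | step (x a b : α) : x ∈ U → k ≤ lev x → ch x = some (a, b) → Gd ch lev U k L a →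
      Gd ch lev U k L b → Gd ch lev U k L x

theorem claim {α : Type} (le : α → α → Prop)
    (htrans : ∀ x y z, le x y → le y z → le x z) (ch : α → Option (α × α)) (sz : α → ℕ)
    (hsz : ∀ x a b, ch x = some (a, b) → sz a < sz x ∧ sz b < sz x) (lev : α → ℕ) (w : ℕ)
    (U : Set α)
    (hlev : ∀ x ∈ U, lev x ≤ w)
    (hlink : ∀ x ∈ U, ∀ z ∈ U, lev x = lev z → Pth ch lev (lev x) x z → le z x)
    (hcomb : ∀ L ⊆ U, L.PartiallyWellOrderedOn le →
      {x | x ∈ U ∧ ∃ a b, ch x = some (a, b) ∧ a ∈ L ∧ b ∈ L}.PartiallyWellOrderedOn le)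
    (d k : ℕ) (hk : k + d = w + 1) (L : Set α) (hL : L ⊆ U)
    (hLp : L.PartiallyWellOrderedOn le) :
    {x | x ∈ U ∧ ∃ a b, ch x = some (a, b) ∧ Gd ch lev U k L a ∧
      Gd ch lev U k L b}.PartiallyWellOrderedOn le := by
  induction d generalizing k L with
  | zero =>
    have h1 : ∀ y, Gd ch lev U k L y → y ∈ L := by
      intro y hy
      cases hy with
      | base _ h => exact h
      | step _ a b h1 h2 _ _ _ => exact absurd (hlev y h1) (by omega)
    refine (hcomb L hL hLp).mono ?_
    rintro x ⟨hx, a, b, hab, ha, hb⟩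
    exact ⟨hx, a, b, hab, h1 a ha, h1 b hb⟩
  | succ d ih =>
    have hV : {x | x ∈ U ∧ Gd ch lev U k L x ∧ lev x = k}.PartiallyWellOrderedOn le := by
      rw [Set.PartiallyWellOrderedOn.iff_not_exists_isMinBadSeq sz]
      rintro ⟨f, hf, hmin⟩
      set V : Set α := {x | x ∈ U ∧ Gd ch lev U k L x ∧ lev x = k} with hVdef
      set S : Set α := {s | s ∈ V ∧ ∃ n, Pth ch lev k (f n) s ∧ sz s < sz (f n)} with hSdef
      have hSle : ∀ s ∈ V, ∀ n, Pth ch lev k (f n) s → le s (f n) := by
        intro s hs n hn
        have h1 := hf.1 n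
        refine hlink (f n) h1.1 s hs.1 (by rw [h1.2.2, hs.2.2]) ?_
        rw [h1.2.2]
        exact hn
      have hSp : S.PartiallyWellOrderedOn le := by
        rw [Set.PartiallyWellOrderedOn.iff_forall_not_isBadSeq]
        rintro s ⟨hs1, hs2⟩
        choose hsV n hn using hs1
        obtain ⟨j0, hj0⟩ : ∃ j0, ∀ j, n j0 ≤ n j := by
          obtain ⟨m, ⟨j0, hj0⟩, hm⟩ := WellFounded.has_min (r := fun a b : ℕ => a < b)
            Nat.lt_wfRel.wf (Set.range n) ⟨n 0, 0, rfl⟩
          exact ⟨j0, fun j => by rw [hj0]; exact not_lt.1 (hm _ ⟨j, rfl⟩)⟩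
        refine hmin (n j0) (fun i => if i < n j0 then f i else s (j0 + (i - n j0))) ?_ ?_ ?_
        · intro m hm
          simp [hm]
        · simp only [lt_irrefl, if_false, Nat.sub_self, Nat.add_zero]
          exact (hn j0).2
        · refine ⟨fun i => ?_, fun i j hij => ?_⟩
          · by_cases hi : i < n j0
            · simp only [hi, if_true]
              exact hf.1 i
            · simp only [hi, if_false]
              exact hsV _
          · by_cases hj : j < n j0
            · have hi : i < n j0 := hij.trans hj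
              simp only [hi, hj, if_true]
              exact hf.2 i j hij
            · by_cases hi : i < n j0
              · simp only [hi, hj, if_true, if_false]
                intro hle
                refine hf.2 i (n (j0 + (j - n j0))) (lt_of_lt_of_le hi (hj0 _)) ?_
                exact htrans _ _ _ hle (hSle _ (hsV _) _ (hn _).1)
              · simp only [hi, hj, if_false]
                exact hs2 _ _ (by omega)
      have hSU : L ∪ S ⊆ U := by
        rintro x (hx | hx)
        · exact hL hx
        · exact hx.1.1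
      have hLS : (L ∪ S).PartiallyWellOrderedOn le := hLp.union hSp
      have hR := ih (k + 1) (by omega) (L ∪ S) hSU hLS
      have hall := hLp.union hR
      have key : ∀ y, Gd ch lev U k L y → ∀ n, (k ≤ lev y → Pth ch lev k (f n) y) →
          sz y < sz (f n) → Gd ch lev U (k + 1) (L ∪ S) y := by
        intro y hy
        induction hy with
        | base x hx => intro n _ _; exact Gd.base x (Or.inl hx)
        | step x a b hxU hlx hab ha hb iha ihb =>
          intro n hp hs
          by_cases hx : lev x = k
          · exact Gd.base x (Or.inr ⟨⟨hxU, Gd.step x a b hxU hlx hab ha hb, hx⟩, n, hp hlx, hs⟩)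
          · have h1 := hsz x a b hab
            refine Gd.step x a b hxU (by omega) hab ?_ ?_
            · refine iha n (fun hla => ?_) (h1.1.trans hs)
              exact (hp hlx).trans (Pth.left x a b a hlx hab (Pth.refl a hla))
            · refine ihb n (fun hlb => ?_) (h1.2.trans hs)
              exact (hp hlx).trans (Pth.right x a b b hlx hab (Pth.refl b hlb))
      have hfm : ∀ n, f n ∈ L ∪ {x | x ∈ U ∧ ∃ a b, ch x = some (a, b) ∧
          Gd ch lev U (k + 1) (L ∪ S) a ∧ Gd ch lev U (k + 1) (L ∪ S) b} := by
        intro n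
        have h1 := hf.1 n
        have h2 := h1.2.1
        cases h2 with
        | base _ h => exact Or.inl h
        | step _ a b hxU hlx hab ha hb =>
          have h3 := hsz _ a b hab
          refine Or.inr ⟨hxU, a, b, hab, ?_, ?_⟩
          · exact key a ha n (fun hla => Pth.left _ a b a hlx hab (Pth.refl a hla)) h3.1
          · exact key b hb n (fun hlb => Pth.right _ a b b hlx hab (Pth.refl b hlb)) h3.2
      obtain ⟨m, n, hmn, hle⟩ := hall.exists_lt hfm
      exact hf.2 m n hmn hle
    have hVU : L ∪ {x | x ∈ U ∧ Gd ch lev U k L x ∧ lev x = k} ⊆ U := by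
      rintro x (hx | hx)
      · exact hL hx
      · exact hx.1
    have hR := ih (k + 1) (by omega) _ hVU (hLp.union hV)
    refine hR.mono ?_
    have key : ∀ y, Gd ch lev U k L y → Gd ch lev U (k + 1)
        (L ∪ {x | x ∈ U ∧ Gd ch lev U k L x ∧ lev x = k}) y := by
      intro y hy
      induction hy with
      | base x hx => exact Gd.base x (Or.inl hx)
      | step x a b hxU hlx hab ha hb iha ihb =>
        by_cases hx : lev x = k
        · exact Gd.base x (Or.inr ⟨hxU, Gd.step x a b hxU hlx hab ha hb, hx⟩)
        · exact Gd.step x a b hxU (by omega) hab iha ihb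
    rintro x ⟨hx, a, b, hab, ha, hb⟩
    exact ⟨hx, a, b, hab, key a ha, key b hb⟩

theorem tree_lemma {α : Type} (le : α → α → Prop) (hrefl : ∀ x, le x x)
    (htrans : ∀ x y z, le x y → le y z → le x z) (ch : α → Option (α × α)) (sz : α → ℕ)
    (hsz : ∀ x a b, ch x = some (a, b) → sz a < sz x ∧ sz b < sz x) (lev : α → ℕ) (w : ℕ)
    (U : Set α) (hU : ∀ x ∈ U, ∀ a b, ch x = some (a, b) → a ∈ U ∧ b ∈ U)
    (hlev : ∀ x ∈ U, lev x ≤ w)
    (hlink : ∀ x ∈ U, ∀ z ∈ U, lev x = lev z → Pth ch lev (lev x) x z → le z x)
    (hleaf : {x | x ∈ U ∧ ch x = none}.PartiallyWellOrderedOn le)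
    (hcomb : ∀ L ⊆ U, L.PartiallyWellOrderedOn le →
      {x | x ∈ U ∧ ∃ a b, ch x = some (a, b) ∧ a ∈ L ∧ b ∈ L}.PartiallyWellOrderedOn le) :
    U.PartiallyWellOrderedOn le := by
  have h1 := claim le htrans ch sz hsz lev w U hlev hlink hcomb (w + 1) 0 (by omega)
    {x | x ∈ U ∧ ch x = none} (fun x hx => hx.1) hleaf
  have h2 : ∀ n, ∀ x ∈ U, sz x < n → Gd ch lev U 0 {x | x ∈ U ∧ ch x = none} x := by
    intro n
    induction n with
    | zero => intro x _ h; omega
    | succ n ih =>
      intro x hx hn
      rcases hc : ch x with _ | ⟨a, b⟩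
      · exact Gd.base x ⟨hx, hc⟩
      · have h3 := hsz x a b hc
        have h4 := hU x hx a b hc
        exact Gd.step x a b hx (Nat.zero_le _) hc (ih a h4.1 (by omega)) (ih b h4.2 (by omega))
  refine (hleaf.union h1).mono ?_
  intro x hx
  rcases hc : ch x with _ | ⟨a, b⟩
  · exact Or.inl ⟨hx, hc⟩
  · have h4 := hU x hx a b hc
    exact Or.inr ⟨hx, a, b, hc, h2 _ a h4.1 (Nat.lt_succ_self _), h2 _ b h4.2 (Nat.lt_succ_self _)⟩

end Pool.Agent.Helper28.BW
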