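import Pool.Agent.Helper28.BW.NiceRep
import Pool.Agent.Helper28.BW.LinkPiece
import Pool.Agent.Helper28.BW.Comb
import Pool.Agent.Helper28.BW.Leaf
import Pool.Agent.Helper28.BW.TreeLemma

/-!
# BW-55: well-quasi-ordering

`wqo_trees`: the set of all `(G, E, t)` where `t` is a subtree of a linked tree `T` with `T.set = E` of width at most `w` is pwo under `PLe` of `(G, E, t.set)`. Apply `tree_lemma`: objects `GG H × Finset ℕ × BT`, `ch (G, E, node a b) = some ((G, E, a), (G, E, b))`,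
`ch (G, E, leaf s) = none`, size = number of nodes of the tree (define by recursion, or use `sizeOf`), level `(bd G E t.set).ncard`, `U` the set described above.
Children of objects of `U` are in `U` (`Sub.trans`), levels are at most `w` (`Wid`). Link: if `Pth ch lev (lev x) x z` then `z = (G, E, t')` with the same `G`, `E` and `Dn l (lev x) t t'` (induction), so by linkedness every `Y` between has
`lev x ≤ |bd Y|`, and `link_ple` applies (`t'.set ⊆ t.set`, `t.set ⊆ T.set = E` by `Sub.set_subset`; `Dn` gives `Sub t' t`). Leaves: `leaf_pwo` (a pwo statement for the images of the objects in `Pc H`), leaf sets have at most one element by `Ok`. Comb: if `L ⊆ U` is pwo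
then the set `{(G, E, t.set) : (G, E, t) ∈ L}` is a pwo set of pieces, `comb_pwo` applies.
`wqo_rk`: the sequence form. `nice_rep` for every `n`; `wqo_trees` for `w = 6 * k` and the objects `(G n, E n, T n)`; the relation `LLe` gives `ψ` and `C`; `rk G = r` on subsets of the ground sets.
-/

set_option autoImplicit false

namespace Pool.Agent.Helper28.BW

/-- the objects -/
private abbrev Ob (H : Type) := GG H × Finset ℕ × BT

/-- the piece of an object -/
private def pce {H : Type} (x : Ob H) : Pc H := (x.1, x.2.1, x.2.2.set)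

private def kids {H : Type} (x : Ob H) : Option (Ob H × Ob H) :=
  match x with
  | (_, _, BT.leaf _) => none
  | (G, E, BT.node a b) => some ((G, E, a), (G, E, b))

private def tsz : BT → ℕ
  | BT.leaf _ => 0
  | BT.node a b => tsz a + tsz b + 1

private noncomputable def lv {H : Type} [Group H] (x : Ob H) : ℕ := (bd x.1 x.2.1 x.2.2.set).ncard

private theorem kids_some {H : Type} {x a b : Ob H} (h : kids x = some (a, b)) :
    ∃ (G : GG H) (E : Finset ℕ) (s t : BT), x = (G, E, BT.node s t) ∧ a = (G, E, s) ∧ b = (G, E, t) := by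
  obtain ⟨G, E, t⟩ := x
  cases t with
  | leaf s =>
    exact absurd h (by simp [kids])
  | node s t =>
    have h1 : some ((G, E, s), (G, E, t)) = some (a, b) := h
    rw [Option.some.injEq, Prod.mk.injEq] at h1
    exact ⟨G, E, s, t, rfl, h1.1.symm, h1.2.symm⟩

private theorem pth_dn {H : Type} [Group H] {k : ℕ} {x z : Ob H} (h : Pth kids lv k x z) :
    z.1 = x.1 ∧ z.2.1 = x.2.1 ∧ Dn (fun X => (bd x.1 x.2.1 X).ncard) k x.2.2 z.2.2 ∧
      BT.Sub z.2.2 x.2.2 := by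
  induction h with
  | refl x hx => exact ⟨rfl, rfl, Dn.refl _ hx, BT.Sub.refl _⟩
  | left x a b z hx hc _ ih =>
    obtain ⟨G, E, s, t, rfl, rfl, rfl⟩ := kids_some hc
    obtain ⟨h1, h2, h3, h4⟩ := ih
    exact ⟨h1, h2, Dn.left _ _ _ hx h3, BT.Sub.left h4⟩
  | right x a b z hx hc _ ih =>
    obtain ⟨G, E, s, t, rfl, rfl, rfl⟩ := kids_some hc
    obtain ⟨h1, h2, h3, h4⟩ := ih
    exact ⟨h1, h2, Dn.right _ _ _ hx h3, BT.Sub.right h4⟩

theorem wqo_trees (H : Type) [Group H] [Finite H] (w : ℕ) :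
    {x : GG H × Finset ℕ × BT | ∃ T : BT, T.Ok ∧ T.set = x.2.1 ∧
      T.Wid (fun X => (bd x.1 x.2.1 X).ncard) w ∧
      Linked (fun X => (bd x.1 x.2.1 X).ncard) T ∧ BT.Sub x.2.2 T}.PartiallyWellOrderedOn
      fun x y => PLe (x.1, x.2.1, x.2.2.set) (y.1, y.2.1, y.2.2.set) := by
  obtain ⟨U, hUd⟩ : ∃ U : Set (Ob H), U = {x : GG H × Finset ℕ × BT | ∃ T : BT, T.Ok ∧ T.set = x.2.1 ∧
      T.Wid (fun X => (bd x.1 x.2.1 X).ncard) w ∧
      Linked (fun X => (bd x.1 x.2.1 X).ncard) T ∧ BT.Sub x.2.2 T} := ⟨_, rfl⟩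
  have hUi : ∀ x, x ∈ U ↔ ∃ T : BT, T.Ok ∧ T.set = x.2.1 ∧
      T.Wid (fun X => (bd x.1 x.2.1 X).ncard) w ∧
      Linked (fun X => (bd x.1 x.2.1 X).ncard) T ∧ BT.Sub x.2.2 T := by
    intro x
    rw [hUd]
    exact Iff.rfl
  rw [← hUd]
  have hlevU : ∀ x ∈ U, lv x ≤ w := by
    intro x hx
    obtain ⟨T, -, -, hW, -, hs⟩ := (hUi x).1 hx
    exact hW _ hs
  refine tree_lemma (fun x y : Ob H => PLe (pce x) (pce y)) (fun x => PLe.refl _)
    (fun x y z h1 h2 => PLe.trans h1 h2) kids (fun x => tsz x.2.2) ?_ lv w U ?_ hlevU ?_ ?_ ?_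
  · intro x a b h
    obtain ⟨G, E, s, t, rfl, rfl, rfl⟩ := kids_some h
    show tsz s < tsz s + tsz t + 1 ∧ tsz t < tsz s + tsz t + 1
    omega
  · intro x hx a b h
    obtain ⟨G, E, s, t, rfl, rfl, rfl⟩ := kids_some h
    obtain ⟨T, h1, h2, h3, h4, h5⟩ := (hUi _).1 hx
    exact ⟨(hUi _).2 ⟨T, h1, h2, h3, h4, BT.Sub.trans (BT.Sub.left (BT.Sub.refl _)) h5⟩,
      (hUi _).2 ⟨T, h1, h2, h3, h4, BT.Sub.trans (BT.Sub.right (BT.Sub.refl _)) h5⟩⟩
  · intro x hx z hz hxz hp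
    obtain ⟨h1, h2, h3, h4⟩ := pth_dn hp
    obtain ⟨G, E, s⟩ := x
    obtain ⟨G', E', t⟩ := z
    have h1' : G' = G := h1
    have h2' : E' = E := h2
    subst h1'
    subst h2'
    obtain ⟨T, t1, t2, t3, t4, t5⟩ := (hUi _).1 hx
    have hsE : s.set ⊆ E' := by
      have := t5.set_subset
      rwa [t2] at this
    exact link_ple h4.set_subset hsE hxz.symm (t4 s t _ t5 rfl hxz.symm h3)
  · rw [Set.partiallyWellOrderedOn_iff_exists_lt]
    intro f hf
    have hleaf := leaf_pwo H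
    rw [Set.partiallyWellOrderedOn_iff_exists_lt] at hleaf
    refine hleaf (fun n => pce (f n)) fun n => ?_
    obtain ⟨hfU, hfn⟩ := hf n
    obtain ⟨T, t1, t2, t3, t4, t5⟩ := (hUi _).1 hfU
    have hok := t5.ok t1
    obtain ⟨x, hx⟩ : ∃ x, x = f n := ⟨_, rfl⟩
    rw [← hx] at hok hfn ⊢
    obtain ⟨G, E, t⟩ := x
    cases t with
    | leaf s => exact hok
    | node a b =>
      have h6 : some ((G, E, a), (G, E, b)) = (none : Option (Ob H × Ob H)) := hfn
      exact absurd h6 (by simp)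
  · intro L hLU hL
    have hA : (pce '' L).PartiallyWellOrderedOn PLe :=
      hL.image_of_monotone_on fun a _ b _ hab => hab
    have hcomb := comb_pwo hA (w := w) (by
      rintro _ ⟨x, hx, rfl⟩
      exact hlevU x (hLU hx))
    rw [Set.partiallyWellOrderedOn_iff_exists_lt] at hcomb ⊢
    intro f hf
    refine hcomb (fun n => pce (f n)) fun n => ?_
    obtain ⟨hfU, a, b, hab, ha, hb⟩ := hf n
    obtain ⟨G, E, s, t, hfe, rfl, rfl⟩ := kids_some hab
    obtain ⟨T, t1, t2, t3, t4, t5⟩ := (hUi _).1 hfU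
    rw [hfe] at t2 t5
    have hok : (BT.node s t).Ok := t5.ok t1
    have hsub : (BT.node s t).set ⊆ E := by
      have := t5.set_subset
      rwa [t2] at this
    refine ⟨G, E, s.set, t.set, ⟨_, ha, rfl⟩, ⟨_, hb, rfl⟩, hok.2.2, hsub, ?_⟩
    show pce (f n) = _
    rw [hfe]
    rfl

theorem wqo_rk (H : Type) [Group H] [Finite H] (k : ℕ) (r : ℕ → Finset ℕ → ℕ)
    (E : ℕ → Finset ℕ) (hr : ∀ n, RkFn (r n)) (hG : ∀ n, ∃ G : GG H, Rep G (r n) (E n))
    (hd : ∀ n, Dec (lam (r n) (E n)) k (E n)) :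
    ∃ i j, i < j ∧ ∃ (ψ : ℕ → ℕ) (C : Finset ℕ), Set.InjOn ψ (E i : Set ℕ) ∧
      (E i).image ψ ⊆ E j ∧ C ⊆ E j \ (E i).image ψ ∧
      ∀ U ⊆ E i, (r j (U.image ψ ∪ C) = (U.image ψ ∪ C).card ↔ r i U = U.card) := by
  choose G t h1 h2 h3 h4 h5 using fun n => nice_rep (hr n) (hG n) (hd n)
  have hw := wqo_trees H (6 * k)
  rw [Set.partiallyWellOrderedOn_iff_exists_lt] at hw
  obtain ⟨i, j, hij, hle⟩ := hw (fun n => (G n, E n, t n)) fun n =>
    ⟨t n, h2 n, h3 n, h4 n, h5 n, BT.Sub.refl _⟩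
  refine ⟨i, j, hij, ?_⟩
  have hle' : PLe (G i, E i, (t i).set) (G j, E j, (t j).set) := hle
  rw [h3 i, h3 j] at hle'
  obtain ⟨m, p, q, -, -, ψ, C, c1, c2, c3, c4⟩ := hle'
  refine ⟨ψ, C, c1, c2, c3, fun U hU => ?_⟩
  have h6 := (c4 U hU).2
  have hU' : U.image ψ ∪ C ⊆ E j :=
    Finset.union_subset ((Finset.image_subset_image hU).trans c2) (c3.trans Finset.sdiff_subset)
  have h7 : rk (G j) (U.image ψ ∪ C) = r j (U.image ψ ∪ C) := h1 j _ hU'
  have h8 : rk (G i) U = r i U := h1 i _ hU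
  rw [← h7, ← h8]
  exact h6

end Pool.Agent.Helper28.BW
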