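import Pool.Agent.Helper28.BW.BwDefs
import Pool.Agent.Helper28.BW.FinalII
import Pool.Agent.Helper28.BW.WqoI
import Pool.Agent.Helper25.GG.Final

/-!
# BW-57: final assembly
-/

set_option autoImplicit false

namespace Pool.Agent.Helper28.BW

open Pool.Agent.Helper25.GG

theorem wqo_matroid (H : Type) [Group H] [Finite H] (k : ℕ) (M : ℕ → Matroid ℕ)
    (hg : ∀ n, GainGraphic H (M n)) (hfin : ∀ n, (M n).E.Finite)
    (hd : ∀ n, Dec (lam (mrk (M n)) (hfin n).toFinset) k (hfin n).toFinset) :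
    ∃ i j, i < j ∧ ∃ N' : Matroid ℕ, Matroid.IsMinor N' (M j) ∧ Iso (M i) N' := by
  classical
  obtain ⟨i, j, hij, ψ, C, hinj, him, hC, hU⟩ := wqo_rk H k (fun n => mrk (M n))
    (fun n => (hfin n).toFinset) (fun n => mrk_rkFn (M n))
    (fun n => (gainGraphic_iff_rep (hfin n)).1 (hg n)) hd
  refine ⟨i, j, hij, ?_⟩
  set E := (hfin i).toFinset with hE
  set N := M j with hN
  have hEc : (E : Set ℕ) = (M i).E := (hfin i).coe_toFinset
  have hE'c : ((hfin j).toFinset : Set ℕ) = N.E := (hfin j).coe_toFinset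
  have himE : ((E.image ψ : Finset ℕ) : Set ℕ) ⊆ N.E := by
    rw [← hE'c]; exact_mod_cast him
  have hCE : (C : Set ℕ) ⊆ N.E := by
    rw [← hE'c]; exact_mod_cast hC.trans Finset.sdiff_subset
  have hdis : ∀ U ⊆ E, Disjoint ((U.image ψ : Finset ℕ) : Set ℕ) (C : Set ℕ) := by
    intro U hU'
    rw [Finset.disjoint_coe, Finset.disjoint_right]
    intro x hx hx'
    exact (Finset.mem_sdiff.1 (hC hx)).2 (Finset.image_subset_image hU' hx')
  have hCind : N.Indep (C : Set ℕ) := by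
    rw [← mrk_indep hCE]
    have h0 := hU ∅ (Finset.empty_subset _)
    simp only [Finset.image_empty, Finset.empty_union] at h0
    rw [h0]
    exact (mrk_rkFn (M i)).empty
  have hR : (ψ '' (M i).E) ⊆ (N.contract (C : Set ℕ)).E := by
    rintro _ ⟨x, hx, rfl⟩
    rw [Matroid.contract_ground]
    have hxE : x ∈ E := by
      have : x ∈ (E : Set ℕ) := by rw [hEc]; exact hx
      exact_mod_cast this
    have h1 : ψ x ∈ E.image ψ := Finset.mem_image_of_mem ψ hxE
    refine ⟨himE (by exact_mod_cast h1), fun h2 => ?_⟩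
    exact Set.disjoint_left.1 (hdis E subset_rfl) (by exact_mod_cast h1) h2
  refine ⟨(N.contract (C : Set ℕ)).restrict (ψ '' (M i).E), ?_, ?_⟩
  · exact (restrict_isMinor' hR).trans (contract_isMinor' N _)
  · refine ⟨ψ, ?_, ?_⟩
    · rw [Matroid.restrict_ground_eq, ← hEc]
      exact hinj.bijOn_image
    · intro I hI
      have hIfin : I.Finite := (hfin i).subset hI
      have hUE : hIfin.toFinset ⊆ E := by
        intro x hx
        rw [Set.Finite.mem_toFinset] at hx
        have : x ∈ (E : Set ℕ) := by rw [hEc]; exact hI hx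
        exact_mod_cast this
      have h1 := hU hIfin.toFinset hUE
      have hcoe : ((hIfin.toFinset.image ψ : Finset ℕ) : Set ℕ) = ψ '' I := by
        rw [Finset.coe_image, Set.Finite.coe_toFinset]
      have h2 : (mrk N (hIfin.toFinset.image ψ ∪ C) = (hIfin.toFinset.image ψ ∪ C).card) ↔
          N.Indep (ψ '' I ∪ C) := by
        rw [mrk_indep]
        · rw [Finset.coe_union, hcoe]
        · rw [Finset.coe_union]
          refine Set.union_subset (subset_trans ?_ himE) hCE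
          exact_mod_cast Finset.image_subset_image hUE
      have h3 : (mrk (M i) hIfin.toFinset = hIfin.toFinset.card) ↔ (M i).Indep I := by
        rw [mrk_indep]
        · rw [Set.Finite.coe_toFinset]
        · rw [Set.Finite.coe_toFinset]; exact hI
      rw [h2, h3] at h1
      rw [Matroid.restrict_indep_iff, hCind.contract_indep_iff, ← h1]
      have hd' := hdis hIfin.toFinset hUE
      rw [hcoe] at hd'
      constructor
      · exact fun h => ⟨⟨hd', h⟩, Set.image_mono hI⟩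
      · exact fun h => h.1.2

theorem finalBW (H : Type) [Group H] [Finite H] (𝓜 : Set (Matroid ℕ))
    (hg : ∀ M ∈ 𝓜, GainGraphic H M)
    (hi : ∀ M ∈ 𝓜, ∀ N : Matroid ℕ, Iso M N → N ∈ 𝓜) (k : ℕ) :
    ∃ S : Finset (Matroid ℕ), ∀ N : Matroid ℕ, N.E.Finite → N ∉ 𝓜 →
      (∀ N' : Matroid ℕ, Matroid.IsMinor N' N → N' ≠ N → N' ∈ 𝓜) → BwLe N k →
      ∃ M ∈ S, Iso N M := by
  classical
  by_contra hno
  push Not at hno
  let P : Matroid ℕ → Prop := fun N => N.E.Finite ∧ N ∉ 𝓜 ∧
    (∀ N' : Matroid ℕ, Matroid.IsMinor N' N → N' ≠ N → N' ∈ 𝓜) ∧ BwLe N k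
  obtain ⟨f, hfP, hfr⟩ := exists_seq_of_forall_finset_exists P (fun M N => ¬ Iso N M)
    (fun s _ => by
      obtain ⟨N, h1, h2, h3, h4, h5⟩ := hno s
      exact ⟨N, ⟨h1, h2, h3, h4⟩, h5⟩)
  -- at most one member of the sequence has an empty ground set
  have hshift : ∃ n0, ∀ n, n0 ≤ n → (f n).E ≠ ∅ := by
    by_cases h : ∃ m, (f m).E = ∅
    · obtain ⟨m, hm⟩ := h
      refine ⟨m + 1, fun n hn hE => ?_⟩
      apply hfr m n (by omega)
      refine ⟨id, ?_, fun I hI => ?_⟩
      · rw [hm, hE]; exact Set.bijOn_empty _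
      · rw [hE, Set.subset_empty_iff] at hI
        subst hI
        simp
    · push Not at h
      exact ⟨0, fun n _ => (h n).ne_empty⟩
  obtain ⟨n0, hn0⟩ := hshift
  obtain ⟨n₀, hn₀⟩ := sizeII H k
  have hmin : ∀ n, ∀ N' : Matroid ℕ, Matroid.IsMinor N' (f n) → N' ≠ f n → GainGraphic H N' :=
    fun n N' h1 h2 => hg _ ((hfP n).2.2.1 N' h1 h2)
  have hdec : ∀ n, n0 ≤ n → Dec (lam (mrk (f n)) (hfP n).1.toFinset) k (hfP n).1.toFinset :=
    fun n hn => (hfP n).2.2.2.dec (hfP n).1 (hn0 n hn)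
  have hsmall : ∀ n, n0 ≤ n → ¬ GainGraphic H (f n) → (f n).E.ncard < n₀ := by
    intro n hn hng
    exact hn₀ (f n) (hfP n).1 hng (hmin n) (hdec n hn)
  by_cases hinf : {n | n0 ≤ n ∧ GainGraphic H (f n)}.Infinite
  · set g := Nat.nth (fun n => n0 ≤ n ∧ GainGraphic H (f n)) with hgdef
    have hgmono : StrictMono g := Nat.nth_strictMono hinf
    have hgmem : ∀ n, n0 ≤ g n ∧ GainGraphic H (f (g n)) := fun n =>
      Nat.nth_mem_of_infinite hinf n
    obtain ⟨m, n, hmn, N', hminor, hiso⟩ := wqo_matroid H k (fun n => f (g n))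
      (fun n => (hgmem n).2) (fun n => (hfP (g n)).1) (fun n => hdec (g n) (hgmem n).1)
    have hlt := hgmono hmn
    by_cases hEq : N' = f (g n)
    · rw [hEq] at hiso
      exact hfr _ _ hlt hiso.symm
    · have h1 : N' ∈ 𝓜 := (hfP (g n)).2.2.1 _ hminor hEq
      exact (hfP (g m)).2.1 (hi _ h1 _ hiso.symm)
  · have hinf' : {n | n0 ≤ n ∧ ¬ GainGraphic H (f n)}.Infinite := by
      have h1 : {n | n0 ≤ n}.Infinite := Set.infinite_of_not_bddAbove (by
        rintro ⟨b, hb⟩
        have h3 : max n0 (b + 1) ∈ {n | n0 ≤ n} := by simp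
        have h4 := hb h3
        omega)
      have h2 := h1.sdiff (Set.not_infinite.mp hinf)
      refine h2.mono ?_
      intro n hn
      exact ⟨hn.1, fun h => hn.2 ⟨hn.1, h⟩⟩
    obtain ⟨m, hm, n, hn, hmn, hiso⟩ := exists_iso_of_small f (fun n => (hfP n).1) hinf' n₀
      (fun n hn => hsmall n hn.1 hn.2)
    rcases lt_or_gt_of_ne hmn with h | h
    · exact hfr _ _ h hiso.symm
    · exact hfr _ _ h hiso

/-- If all members of the class have branch-width at most `k`, then all excluded minors have branch-width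
at most `k + 1`. -/
theorem bwLe_excl {𝓜 : Set (Matroid ℕ)} {k : ℕ} (hb : ∀ M ∈ 𝓜, BwLe M k) {N : Matroid ℕ}
    (hmin : ∀ N' : Matroid ℕ, Matroid.IsMinor N' N → N' ≠ N → N' ∈ 𝓜) : BwLe N (k + 1) := by
  by_cases h : N.E = ∅
  · exact Or.inl h
  · obtain ⟨e, he⟩ := Set.nonempty_iff_ne_empty.2 h
    refine bwLe_of_delete he (hb _ (hmin _ (delete_isMinor' N {e}) ?_))
    intro heq
    have h1 : e ∈ (N.delete {e}).E := (congrArg Matroid.E heq).symm ▸ he
    exact h1.2 rfl

/-- part II for chains of sets -/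
theorem chain_sets (H : Type) [Group H] [Finite H] (k : ℕ) : ∃ n : ℕ, ∀ N : Matroid ℕ,
    N.E.Finite → ¬ GainGraphic H N →
    (∀ N' : Matroid ℕ, Matroid.IsMinor N' N → N' ≠ N → GainGraphic H N') →
    ¬ ∃ X : ℕ → Set ℕ, (∀ i, i < n → X i ⊆ N.E) ∧ (∀ i j, i < j → j < n → X i ⊂ X j) ∧
      ∀ i, i < n → ConnLe N k (X i) := by
  classical
  obtain ⟨n, hn⟩ := chainII H k
  refine ⟨n, fun N hN h1 h2 => ?_⟩
  rintro ⟨X, hX1, hX2, hX3⟩
  refine hn N hN h1 h2 ?_
  have hf : ∀ i, i < n → (X i).Finite := fun i hi => hN.subset (hX1 i hi)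
  refine ⟨fun i => if h : (X i).Finite then h.toFinset else ∅, ?_, ?_, ?_⟩
  · intro i hi
    simp only [hf i hi, dif_pos, Set.Finite.coe_toFinset]
    exact hX1 i hi
  · intro i j hij hj
    simp only [hf i (hij.trans hj), hf j hj, dif_pos]
    rw [Set.Finite.toFinset_ssubset_toFinset]
    exact hX2 i j hij hj
  · intro i hi
    simp only [hf i hi, dif_pos]
    rw [← connLe_iff hN]
    · rw [Set.Finite.coe_toFinset]; exact hX3 i hi
    · intro x hx
      rw [Set.Finite.mem_toFinset] at hx ⊢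
      exact hX1 i hi hx

end Pool.Agent.Helper28.BW
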