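import Pool.Agent.Helper28.BW.RkFn
import Pool.Agent.Helper25.GG.Defs

/-!
# BW-36: the independence of the frozen statement is independence for `rk`

`G.Ind X` (Helper25): every nonempty `Y ⊆ X` has `|Y| ≤ |V(Y)|`, and `|Y| + 1 ≤ |V(Y)|` if `Y` has a potential. Let `K e = (tl e, hd e, γ e)`.
(⇐) If `rk K X = |X|` then for every nonempty `Y ⊆ X`: `rk K Y = |Y|` (`RkFn.indep_mono`), and `rk K Y = |vs K Y| - bal ≤ |V(Y)|`. If `Y` has a
potential `φ` (`γ e = (φ (tl e))⁻¹ * φ (hd e)`) then walks from `u` to `v` in `Y` have gain `(φ u)⁻¹ * φ v`, so every vertex is balanced and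
`bal ≥ 1` as `Y` is nonempty.
(⇒) Let `G.Ind X`. For every component `c` (a class `cls (img K X) u`, `u ∈ vs K X`) let `X_c` be the set of edges of `X` with tail in `c`. It is nonempty, its vertices
are exactly the vertices in `c`, so `|X_c| ≤ |c|`; if `c` is balanced, `X_c` has the potential `φ v =` gain from a base vertex to `v`, so `|X_c| + 1 ≤ |c|`. `X` is
the disjoint union of the `X_c` and `vs K X` is the disjoint union of the `c`. Summing: `|X| + bal ≤ |vs K X|`, i.e. `|X| ≤ rk K X`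
(`rho_add_bal`), and `rk K X ≤ |X|` always (`RkFn.le_card`).
-/

set_option autoImplicit false

namespace Pool.Agent.Helper28.BW

open Pool.Agent.Helper25.GG

variable {H : Type} [Group H]

/-- the triples of a `GGraph` -/
def ofG (G : GGraph ℕ H) : GG H := fun e => (G.tl e, G.hd e, G.γ e)

/-- the `GGraph` of triples -/
def toG (K : GG H) : GGraph ℕ H := ⟨fun e => (K e).1, fun e => (K e).2.1, fun e => (K e).2.2⟩

private theorem vx_img_ofG (G : GGraph ℕ H) (X : Finset ℕ) :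
    vx (img (ofG G) X) = G.vs (X : Set ℕ) := by
  ext u
  constructor
  · rintro ⟨t, ⟨e, he, rfl⟩, h | h⟩
    · exact Or.inl ⟨e, he, h.symm⟩
    · exact Or.inr ⟨e, he, h.symm⟩
  · rintro (⟨e, he, h⟩ | ⟨e, he, h⟩)
    · exact ⟨ofG G e, ⟨e, he, rfl⟩, Or.inl h.symm⟩
    · exact ⟨ofG G e, ⟨e, he, rfl⟩, Or.inr h.symm⟩

private theorem walk_pot (G : GGraph ℕ H) (X : Finset ℕ) (φ : ℕ → H)
    (hφ : ∀ e ∈ (X : Set ℕ), G.γ e = (φ (G.tl e))⁻¹ * φ (G.hd e)) {u v : ℕ} {h : H}
    (hw : W (img (ofG G) X) u v h) : h = (φ u)⁻¹ * φ v := by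
  induction hw with
  | refl => rw [inv_mul_cancel]
  | @fwd v w h g _ ht ih =>
    obtain ⟨e, he, hte⟩ := ht
    have h1 := hφ e he
    simp only [ofG, Prod.mk.injEq] at hte
    obtain ⟨h2, h3, h4⟩ := hte
    rw [h2, h3, h4] at h1
    rw [ih, h1]
    group
  | @bwd v w h g _ ht ih =>
    obtain ⟨e, he, hte⟩ := ht
    have h1 := hφ e he
    simp only [ofG, Prod.mk.injEq] at hte
    obtain ⟨h2, h3, h4⟩ := hte
    rw [h2, h3, h4] at h1
    rw [ih, h1]
    group

private theorem fz_of_rk (G : GGraph ℕ H) (X : Finset ℕ) (h : rk (ofG G) X = X.card) :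
    G.Ind (X : Set ℕ) := by
  intro Y hY hYne
  obtain ⟨Y', rfl⟩ : ∃ Y' : Finset ℕ, (Y' : Set ℕ) = Y :=
    ⟨(X.finite_toSet.subset hY).toFinset, (X.finite_toSet.subset hY).coe_toFinset⟩
  have hsub : Y' ⊆ X := Finset.coe_subset.1 hY
  have h1 := (rk_rkFn (ofG G)).indep_mono hsub h
  have hv : (vx (img (ofG G) Y')).Finite := vx_finite (img_finite _ _)
  have h2 := rho_add_bal hv (Set.Subset.refl _)
  have h3 : rho (img (ofG G) Y') = Y'.card := h1
  rw [h3] at h2
  rw [Set.ncard_coe_finset, ← vx_img_ofG]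
  refine ⟨by omega, fun hb => ?_⟩
  obtain ⟨φ, hφ⟩ := hb
  obtain ⟨e, he⟩ := hYne
  have h4 : cls (img (ofG G) Y') (G.tl e) ∈ balC (img (ofG G) Y') (vx (img (ofG G) Y')) := by
    refine ⟨G.tl e, ⟨ofG G e, ⟨e, he, rfl⟩, Or.inl rfl⟩, ?_, rfl⟩
    rintro ⟨g, hg, hw⟩
    apply hg
    rw [walk_pot G Y' φ hφ hw, inv_mul_cancel]
  have h5 : 0 < bal (img (ofG G) Y') (vx (img (ofG G) Y')) := by
    unfold bal
    rw [Set.ncard_pos (balC_finite _ hv)]
    exact ⟨_, h4⟩
  omega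

private theorem fz_to_rk (G : GGraph ℕ H) (X : Finset ℕ) (h : G.Ind (X : Set ℕ)) :
    rk (ofG G) X = X.card := by
  classical
  apply le_antisymm ((rk_rkFn (ofG G)).le_card X)
  set T := img (ofG G) X with hT
  have hv : (vx T).Finite := vx_finite (img_finite _ _)
  have h2 := rho_add_bal hv (Set.Subset.refl (vx T))
  suffices hmain : X.card + bal T (vx T) ≤ (vx T).ncard by
    change X.card ≤ rho T
    omega
  set S : Finset ℕ := hv.toFinset with hS
  have hSmem : ∀ u, u ∈ S ↔ u ∈ vx T := fun u => by rw [hS, Set.Finite.mem_toFinset]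
  have hScard : (vx T).ncard = S.card := Set.ncard_eq_toFinset_card _ hv
  have hedge : ∀ e ∈ X, (G.tl e, G.hd e, G.γ e) ∈ T := fun e he => ⟨e, he, rfl⟩
  have hcon : ∀ e ∈ X, cls T (G.hd e) = cls T (G.tl e) := fun e he =>
    cls_eq_iff.2 (Con.symm ⟨_, W.edge (hedge e he)⟩)
  have htl : ∀ e ∈ X, G.tl e ∈ S := fun e he => (hSmem _).2 (mem_vx_left (hedge e he))
  have hhd : ∀ e ∈ X, G.hd e ∈ S := fun e he => (hSmem _).2 (mem_vx_right (hedge e he))
  set C : Finset (Set ℕ) := S.image (cls T) with hC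
  have h3 : S.card = ∑ c ∈ C, (S.filter fun u => cls T u = c).card :=
    Finset.card_eq_sum_card_fiberwise fun u hu => Finset.mem_image_of_mem _ hu
  have h4 : X.card = ∑ c ∈ C, (X.filter fun e => cls T (G.tl e) = c).card :=
    Finset.card_eq_sum_card_fiberwise fun e he => Finset.mem_image_of_mem _ (htl e he)
  have h5 : bal T (vx T) = ∑ c ∈ C, (if ∃ u ∈ vx T, ¬ Unb T u ∧ c = cls T u then 1 else 0) := by
    rw [← Finset.card_filter, bal, ← Set.ncard_coe_finset]
    congr 1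
    ext c
    rw [Finset.coe_filter]
    constructor
    · rintro ⟨u, hu, hb, rfl⟩
      exact ⟨Finset.mem_image_of_mem _ ((hSmem u).2 hu), u, hu, hb, rfl⟩
    · rintro ⟨-, hc⟩
      exact hc
  rw [hScard, h3, h4, h5, ← Finset.sum_add_distrib]
  refine Finset.sum_le_sum fun c hc => ?_
  set Xc := X.filter fun e => cls T (G.tl e) = c with hXc
  have hsub : (Xc : Set ℕ) ⊆ (X : Set ℕ) := Finset.coe_subset.2 (Finset.filter_subset _ _)
  have hne : (Xc : Set ℕ).Nonempty := by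
    rw [hC, Finset.mem_image] at hc
    obtain ⟨u, hu, rfl⟩ := hc
    obtain ⟨t, ⟨e, he, rfl⟩, h6 | h6⟩ := (hSmem u).1 hu
    · refine ⟨e, ?_⟩
      rw [Finset.mem_coe, hXc, Finset.mem_filter]
      refine ⟨he, ?_⟩
      rw [h6]
      rfl
    · refine ⟨e, ?_⟩
      rw [Finset.mem_coe, hXc, Finset.mem_filter]
      refine ⟨he, ?_⟩
      rw [← hcon e he, h6]
      rfl
  have hle : (G.vs (Xc : Set ℕ)).ncard ≤ (S.filter fun u => cls T u = c).card := by
    rw [← Set.ncard_coe_finset]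
    refine Set.ncard_le_ncard ?_ (Finset.finite_toSet _)
    rintro v (⟨e, he, rfl⟩ | ⟨e, he, rfl⟩)
    · rw [Finset.mem_coe, hXc, Finset.mem_filter] at he
      rw [Finset.mem_coe, Finset.mem_filter]
      exact ⟨htl e he.1, he.2⟩
    · rw [Finset.mem_coe, hXc, Finset.mem_filter] at he
      rw [Finset.mem_coe, Finset.mem_filter]
      exact ⟨hhd e he.1, by rw [hcon e he.1]; exact he.2⟩
  obtain ⟨h6, h7⟩ := h (Xc : Set ℕ) hsub hne
  rw [Set.ncard_coe_finset] at h6 h7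
  by_cases hb : ∃ u ∈ vx T, ¬ Unb T u ∧ c = cls T u
  · rw [if_pos hb]
    obtain ⟨u, hu, hbu, hcu⟩ := hb
    refine (h7 ?_).trans hle
    refine ⟨fun v => if hw : ∃ g, W T u v g then hw.choose else 1, ?_⟩
    intro e he
    rw [Finset.mem_coe, hXc, Finset.mem_filter] at he
    obtain ⟨he1, he2⟩ := he
    have h8 : ∃ g, W T u (G.tl e) g := by
      have : Con T u (G.tl e) := cls_eq_iff.1 (hcu.symm.trans he2.symm)
      exact this
    have h9 : W T u (G.hd e) (h8.choose * G.γ e) := W.fwd h8.choose_spec (hedge e he1)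
    have h10 : ∃ g, W T u (G.hd e) g := ⟨_, h9⟩
    simp only [dif_pos h8, dif_pos h10]
    have h11 := W_unique hbu h9 h10.choose_spec
    rw [← h11]
    group
  · rw [if_neg hb]
    omega

theorem ind_iff_rk (G : GGraph ℕ H) (X : Finset ℕ) :
    G.Ind (X : Set ℕ) ↔ rk (ofG G) X = X.card :=
  ⟨fz_to_rk G X, fz_of_rk G X⟩

theorem ofG_toG (K : GG H) : ofG (toG K) = K := rfl

end Pool.Agent.Helper28.BW
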