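import Pool.Agent.Helper28.BW.RkFn

/-!
# BW-07: identifying two vertices, renaming, switching

`ident`. Let `v ≠ v'` and let `π` be the map sending `v'` to `v` and fixing everything else. For a finite set
`T'` of triples let `T = {(π a, π b, g) : (a, b, g) ∈ T'}`. Then `rho (insert (v, v', 1) T') = rho T + 1`.
Proof. `W (insert (v, v', 1) T') a b h ↔ W T (π a) (π b) h` (both directions by induction on the walk; the
edge `(v, v', 1)` has gain `1` and becomes trivial). Let `S` be a finite set with `v ∈ S`, `v' ∉ S`,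
`vx T ⊆ S`. Then `vx (insert (v, v', 1) T') ⊆ insert v' S`, and `a ↦ π a` induces a bijection between the balanced
components of `insert (v, v', 1) T'` meeting `insert v' S` and the balanced components of `T` meeting `S`.
So `rho (insert _ T') = |S| + 1 - bal T S = rho T + 1` by `rho_add_bal`.

`rho_rename`. An injective renaming of the vertices of `T` does not change the rank (the components and
their balancedness correspond, `W_map_iff`).

`rk_switch`, `vs_switch`. Switching: `W (img (swi G φ) X) u v (φ u * h * (φ v)⁻¹) ↔ W (img G X) u v h`.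
So components and balancedness are the same, and the rank is the same; `swi (swi G φ) φ⁻¹ = G`.
-/

set_option autoImplicit false

namespace Pool.Agent.Helper28.BW

variable {H : Type} [Group H]

private theorem mv_self (v v' : ℕ) : mv v' v v' v v' = v := by
  unfold mv
  rw [if_pos rfl]

private theorem mv_ne {v v' u : ℕ} (h : u ≠ v') : mv v' v v' v u = u := by
  unfold mv
  rw [if_neg h, if_neg h]

private theorem mv_not {v v' : ℕ} (hne : v ≠ v') (u : ℕ) : mv v' v v' v u ≠ v' := by
  by_cases h : u = v'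
  · rw [h, mv_self]
    exact hne
  · rw [mv_ne h]
    exact h

private theorem W_ident {T' : Set (Tri H)} {v v' : ℕ} (a b : ℕ) (h : H) :
    W (insert (v, v', (1 : H)) T') a b h ↔
      W ((fun t : Tri H => (mv v' v v' v t.1, mv v' v v' v t.2.1, t.2.2)) '' T')
        (mv v' v v' v a) (mv v' v v' v b) h := by
  by_cases hne : v = v'
  · subst hne
    have hid : ∀ u, mv v v v v u = u := by
      intro u
      by_cases hu : u = v
      · rw [hu, mv_self]
      · exact mv_ne hu
    have himg : (fun t : Tri H => (mv v v v v t.1, mv v v v v t.2.1, t.2.2)) '' T' = T' := by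
      have : (fun t : Tri H => (mv v v v v t.1, mv v v v v t.2.1, t.2.2)) = id := by
        funext t
        rw [hid, hid]
        rfl
      rw [this, Set.image_id]
    rw [himg, hid, hid]
    constructor
    · intro hw
      refine W.of_edges ?_ hw
      rintro s (rfl | hs)
      · exact W.refl _
      · exact W.edge hs
    · intro hw
      exact hw.mono (Set.subset_insert _ _)
  constructor
  · intro hw
    induction hw with
    | refl => exact W.refl _
    | @fwd u1 w1 h1 g1 _ ht ih =>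
      rcases ht with ht | ht
      · simp only [Prod.mk.injEq] at ht
        obtain ⟨rfl, rfl, rfl⟩ := ht
        rw [mv_self, mul_one]
        rw [mv_ne hne] at ih
        exact ih
      · exact W.fwd ih ⟨_, ht, rfl⟩
    | @bwd u1 w1 h1 g1 _ ht ih =>
      rcases ht with ht | ht
      · simp only [Prod.mk.injEq] at ht
        obtain ⟨rfl, rfl, rfl⟩ := ht
        rw [mv_ne hne, inv_one, mul_one]
        rw [mv_self] at ih
        exact ih
      · exact W.bwd ih ⟨_, ht, rfl⟩
  · intro hw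
    have hpi : ∀ u, W (insert (v, v', (1 : H)) T') u (mv v' v v' v u) 1 := by
      intro u
      by_cases hu : u = v'
      · subst hu
        rw [mv_self]
        have := W.edge_inv (T := insert (v, u, (1 : H)) T') (Set.mem_insert _ _)
        rwa [inv_one] at this
      · rw [mv_ne hu]
        exact W.refl _
    have hw2 : W (insert (v, v', (1 : H)) T') (mv v' v v' v a) (mv v' v v' v b) h := by
      refine W.of_edges ?_ hw
      rintro _ ⟨t, ht, rfl⟩
      have h1 := (hpi t.1).symm
      rw [inv_one] at h1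
      have h2 : W (insert (v, v', (1 : H)) T') t.1 t.2.1 t.2.2 :=
        W.edge (Set.mem_insert_of_mem _ ht)
      have h3 := (h1.trans h2).trans (hpi t.2.1)
      rw [one_mul, mul_one] at h3
      exact h3
    have h1 := (hpi b).symm
    rw [inv_one] at h1
    have h3 := ((hpi a).trans hw2).trans h1
    rw [one_mul, mul_one] at h3
    exact h3

theorem ident {T' : Set (Tri H)} (hT : T'.Finite) {v v' : ℕ} (hne : v ≠ v') :
    rho (insert (v, v', (1 : H)) T') =
      rho ((fun t : Tri H => (mv v' v v' v t.1, mv v' v v' v t.2.1, t.2.2)) '' T') + 1 := by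
  set T := (fun t : Tri H => (mv v' v v' v t.1, mv v' v v' v t.2.1, t.2.2)) '' T' with hTdef
  have hTf : T.Finite := hT.image _
  have hcon : ∀ a b, Con (insert (v, v', (1 : H)) T') a b ↔
      Con T (mv v' v v' v a) (mv v' v v' v b) := by
    intro a b
    exact exists_congr fun h => W_ident a b h
  have hunb : ∀ a, Unb (insert (v, v', (1 : H)) T') a ↔ Unb T (mv v' v v' v a) := by
    intro a
    exact exists_congr fun h => and_congr_right fun _ => W_ident a a h
  have hvx' : v' ∉ vx T := by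
    rintro ⟨_, ⟨t, _, rfl⟩, h | h⟩
    · exact mv_not hne _ h.symm
    · exact mv_not hne _ h.symm
  set S : Set ℕ := insert v (vx T) with hS
  have hSf : S.Finite := (vx_finite hTf).insert v
  have hv'S : v' ∉ S := by
    rintro (h | h)
    · exact hne h.symm
    · exact hvx' h
  have hTS : vx T ⊆ S := Set.subset_insert _ _
  have hT'S : vx (insert (v, v', (1 : H)) T') ⊆ insert v' S := by
    rw [vx_insert]
    rintro u (h | h | h)
    · exact Or.inr (Or.inl h)
    · exact Or.inl h
    · by_cases huv : u = v'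
      · exact Or.inl huv
      · refine Or.inr (Or.inr ?_)
        obtain ⟨t, ht, h | h⟩ := h
        · refine ⟨_, ⟨t, ht, rfl⟩, Or.inl ?_⟩
          show u = mv v' v v' v t.1
          rw [← h, mv_ne huv]
        · refine ⟨_, ⟨t, ht, rfl⟩, Or.inr ?_⟩
          show u = mv v' v v' v t.2.1
          rw [← h, mv_ne huv]
  have hcls : ∀ a, cls (insert (v, v', (1 : H)) T') a =
      (mv v' v v' v) ⁻¹' (cls T (mv v' v v' v a)) := by
    intro a
    ext b
    exact hcon a b
  have himg : balC (insert (v, v', (1 : H)) T') (insert v' S) =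
      (fun c : Set ℕ => (mv v' v v' v) ⁻¹' c) '' balC T S := by
    ext c
    constructor
    · rintro ⟨a, ha, hb, rfl⟩
      refine ⟨cls T (mv v' v v' v a), ⟨mv v' v v' v a, ?_, ?_, rfl⟩, (hcls a).symm⟩
      · rcases ha with ha | ha
        · rw [ha, mv_self]
          exact Set.mem_insert _ _
        · have hav : a ≠ v' := by
            rintro rfl
            exact hv'S ha
          rw [mv_ne hav]
          exact ha
      · exact fun h => hb ((hunb a).2 h)
    · rintro ⟨_, ⟨x, hx, hb, rfl⟩, rfl⟩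
      have hx' : mv v' v v' v x = x := mv_ne (fun h => hv'S (h ▸ hx))
      refine ⟨x, Or.inr hx, ?_, ?_⟩
      · rw [hunb, hx']
        exact hb
      · rw [hcls, hx']
  have hinj : Set.InjOn (fun c : Set ℕ => (mv v' v v' v) ⁻¹' c) (balC T S) := by
    rintro _ ⟨x, hx, _, rfl⟩ _ ⟨y, hy, _, rfl⟩ h
    have hx' : mv v' v v' v x = x := mv_ne (fun h => hv'S (h ▸ hx))
    have h1 : x ∈ (mv v' v v' v) ⁻¹' (cls T x) := by
      show mv v' v v' v x ∈ cls T x
      rw [hx']
      exact mem_cls_self T x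
    have h0 : (mv v' v v' v) ⁻¹' (cls T x) = (mv v' v v' v) ⁻¹' (cls T y) := h
    have h2 : x ∈ (mv v' v v' v) ⁻¹' (cls T y) := by
      rw [← h0]
      exact h1
    have h3 : mv v' v v' v x ∈ cls T y := h2
    rw [hx'] at h3
    exact (cls_eq_iff.2 h3).symm
  have hbal : bal (insert (v, v', (1 : H)) T') (insert v' S) = bal T S := by
    rw [bal, bal, himg, hinj.ncard_image]
  have h1 := rho_add_bal (hSf.insert v') hT'S
  have h2 := rho_add_bal hSf hTS
  rw [Set.ncard_insert_of_notMem hv'S hSf, hbal] at h1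
  omega

theorem rho_rename {T : Set (Tri H)} {σ : ℕ → ℕ} (hσ : Set.InjOn σ (vx T)) :
    rho ((fun t : Tri H => (σ t.1, σ t.2.1, t.2.2)) '' T) = rho T := by
  set T1 := (fun t : Tri H => (σ t.1, σ t.2.1, t.2.2)) '' T with hT1
  have hvx : vx T1 = σ '' vx T := by
    ext u
    constructor
    · rintro ⟨_, ⟨t, ht, rfl⟩, h | h⟩
      · exact ⟨t.1, mem_vx_left ht, h.symm⟩
      · exact ⟨t.2.1, mem_vx_right ht, h.symm⟩
    · rintro ⟨w, ⟨t, ht, h | h⟩, rfl⟩
      · exact ⟨_, ⟨t, ht, rfl⟩, Or.inl (by rw [h])⟩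
      · exact ⟨_, ⟨t, ht, rfl⟩, Or.inr (by rw [h])⟩
  have hW : ∀ u ∈ vx T, ∀ w ∈ vx T, ∀ g : H, W T1 (σ u) (σ w) g ↔ W T u w g :=
    fun u hu w hw g => W_map_iff (le_refl _) hσ hu hw
  have hunb : ∀ u ∈ vx T, (Unb T1 (σ u) ↔ Unb T u) := fun u hu =>
    exists_congr fun h => and_congr_right fun _ => hW u hu u hu h
  have hsub : ∀ u ∈ vx T, ∀ w, Con T u w → w ∈ vx T := by
    intro u hu w h
    rcases Con_ends h with h | h
    · rw [← h]; exact hu
    · exact h.2
  have hcls : ∀ u ∈ vx T, cls T1 (σ u) = σ '' cls T u := by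
    intro u hu
    ext w
    constructor
    · intro h
      have hw : w ∈ vx T1 := by
        rcases Con_ends h with h | h
        · rw [← h, hvx]
          exact ⟨u, hu, rfl⟩
        · exact h.2
      rw [hvx] at hw
      obtain ⟨x, hx, rfl⟩ := hw
      obtain ⟨g, hg⟩ := h
      exact ⟨x, ⟨g, (hW u hu x hx g).1 hg⟩, rfl⟩
    · rintro ⟨x, ⟨g, hg⟩, rfl⟩
      exact ⟨g, W_map hg⟩
  have himg : balC T1 (vx T1) = (fun c : Set ℕ => σ '' c) '' balC T (vx T) := by
    ext c
    constructor
    · rintro ⟨a, ha, hb, rfl⟩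
      rw [hvx] at ha
      obtain ⟨u, hu, rfl⟩ := ha
      exact ⟨cls T u, ⟨u, hu, fun h => hb ((hunb u hu).2 h), rfl⟩, (hcls u hu).symm⟩
    · rintro ⟨_, ⟨u, hu, hb, rfl⟩, rfl⟩
      exact ⟨σ u, by rw [hvx]; exact ⟨u, hu, rfl⟩, fun h => hb ((hunb u hu).1 h),
        (hcls u hu).symm⟩
  have hinj : Set.InjOn (fun c : Set ℕ => σ '' c) (balC T (vx T)) := by
    rintro _ ⟨x, hx, _, rfl⟩ _ ⟨y, hy, _, rfl⟩ h
    have h1 : σ x ∈ σ '' cls T y := by
      have h2 : σ x ∈ σ '' cls T x := ⟨x, mem_cls_self T x, rfl⟩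
      rw [show σ '' cls T x = σ '' cls T y from h] at h2
      exact h2
    obtain ⟨z, hz, hzx⟩ := h1
    have hzv : z ∈ vx T := hsub y hy z hz
    have : z = x := hσ hzv hx hzx
    subst this
    exact (cls_eq_iff.2 hz).symm
  rw [rho, rho, bal, bal, himg, hinj.ncard_image, hvx, hσ.ncard_image]

theorem W_switch (G : GG H) (φ : ℕ → H) (X : Finset ℕ) (u v : ℕ) (h : H) :
    W (img (swi G φ) X) u v (φ u * h * (φ v)⁻¹) ↔ W (img G X) u v h := by
  have key : ∀ (k : H), W (img (swi G φ) X) u v k → W (img G X) u v ((φ u)⁻¹ * k * φ v) := by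
    intro k hw
    induction hw with
    | refl =>
      rw [mul_one, inv_mul_cancel]
      exact W.refl _
    | @fwd v1 w1 h1 g1 _ ht ih =>
      obtain ⟨e, he, hte⟩ := ht
      simp only [swi, Prod.mk.injEq] at hte
      obtain ⟨rfl, rfl, rfl⟩ := hte
      have h2 : (φ u)⁻¹ * (h1 * (φ (G e).1 * (G e).2.2 * (φ (G e).2.1)⁻¹)) * φ (G e).2.1 =
          ((φ u)⁻¹ * h1 * φ (G e).1) * (G e).2.2 := by group
      rw [h2]
      exact W.fwd ih ⟨e, he, rfl⟩
    | @bwd v1 w1 h1 g1 _ ht ih =>
      obtain ⟨e, he, hte⟩ := ht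
      simp only [swi, Prod.mk.injEq] at hte
      obtain ⟨rfl, rfl, rfl⟩ := hte
      have h2 : (φ u)⁻¹ * (h1 * (φ (G e).1 * (G e).2.2 * (φ (G e).2.1)⁻¹)⁻¹) * φ (G e).1 =
          ((φ u)⁻¹ * h1 * φ (G e).2.1) * (G e).2.2⁻¹ := by group
      rw [h2]
      exact W.bwd ih ⟨e, he, rfl⟩
  constructor
  · intro hw
    have h1 := key _ hw
    have h2 : (φ u)⁻¹ * (φ u * h * (φ v)⁻¹) * φ v = h := by group
    rwa [h2] at h1
  · intro hw
    clear key
    induction hw with
    | refl =>
      rw [mul_one, mul_inv_cancel]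
      exact W.refl _
    | @fwd v1 w1 h1 g1 _ ht ih =>
      have h2 : φ u * (h1 * g1) * (φ w1)⁻¹ =
          (φ u * h1 * (φ v1)⁻¹) * (φ v1 * g1 * (φ w1)⁻¹) := by group
      rw [h2]
      obtain ⟨e, he, hte⟩ := ht
      refine W.fwd ih ⟨e, he, ?_⟩
      simp only [swi, hte]
    | @bwd v1 w1 h1 g1 _ ht ih =>
      have h2 : φ u * (h1 * g1⁻¹) * (φ w1)⁻¹ =
          (φ u * h1 * (φ v1)⁻¹) * (φ w1 * g1 * (φ v1)⁻¹)⁻¹ := by group
      rw [h2]
      obtain ⟨e, he, hte⟩ := ht
      refine W.bwd ih ⟨e, he, ?_⟩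
      simp only [swi, hte]

theorem Con_switch (G : GG H) (φ : ℕ → H) (X : Finset ℕ) (u v : ℕ) :
    Con (img (swi G φ) X) u v ↔ Con (img G X) u v := by
  constructor
  · rintro ⟨k, hk⟩
    refine ⟨(φ u)⁻¹ * k * φ v, (W_switch G φ X u v _).1 ?_⟩
    have h2 : φ u * ((φ u)⁻¹ * k * φ v) * (φ v)⁻¹ = k := by group
    rw [h2]
    exact hk
  · rintro ⟨h, hh⟩
    exact ⟨_, (W_switch G φ X u v h).2 hh⟩

theorem Unb_switch (G : GG H) (φ : ℕ → H) (X : Finset ℕ) (u : ℕ) :
    Unb (img (swi G φ) X) u ↔ Unb (img G X) u := by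
  constructor
  · rintro ⟨k, hne, hk⟩
    refine ⟨(φ u)⁻¹ * k * φ u, ?_, (W_switch G φ X u u _).1 ?_⟩
    · intro h
      apply hne
      have h2 : k = φ u * ((φ u)⁻¹ * k * φ u) * (φ u)⁻¹ := by group
      rw [h2, h]
      group
    · have h2 : φ u * ((φ u)⁻¹ * k * φ u) * (φ u)⁻¹ = k := by group
      rw [h2]
      exact hk
  · rintro ⟨h, hne, hh⟩
    refine ⟨_, ?_, (W_switch G φ X u u h).2 hh⟩
    intro h1
    apply hne
    have h2 : h = (φ u)⁻¹ * (φ u * h * (φ u)⁻¹) * φ u := by group
    rw [h2, h1]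
    group

theorem vs_switch (G : GG H) (φ : ℕ → H) (X : Finset ℕ) : vs (swi G φ) X = vs G X := by
  ext u
  constructor
  · rintro ⟨_, ⟨e, he, rfl⟩, h⟩
    exact ⟨_, ⟨e, he, rfl⟩, h⟩
  · rintro ⟨_, ⟨e, he, rfl⟩, h⟩
    exact ⟨_, ⟨e, he, rfl⟩, h⟩

theorem rk_switch (G : GG H) (φ : ℕ → H) (X : Finset ℕ) : rk (swi G φ) X = rk G X := by
  have hvx : vx (img (swi G φ) X) = vx (img G X) := vs_switch G φ X
  have hcls : ∀ u, cls (img (swi G φ) X) u = cls (img G X) u := by
    intro u
    ext v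
    exact Con_switch G φ X u v
  have hbal : ∀ S, balC (img (swi G φ) X) S = balC (img G X) S := by
    intro S
    ext c
    constructor
    · rintro ⟨u, hu, hb, rfl⟩
      exact ⟨u, hu, fun h => hb ((Unb_switch G φ X u).2 h), hcls u⟩
    · rintro ⟨u, hu, hb, rfl⟩
      exact ⟨u, hu, fun h => hb ((Unb_switch G φ X u).1 h), (hcls u).symm⟩
  rw [rk, rk, rho, rho, bal, bal, hbal, hvx]

theorem opt_switch {G : GG H} {r : Finset ℕ → ℕ} {E : Finset ℕ} {F : List (Finset ℕ)}
    (h : Opt G r E F) (φ : ℕ → H) : Opt (swi G φ) r E F := by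
  obtain ⟨h1, h2, h3⟩ := h
  refine ⟨fun X hX => ?_, h2, fun G' hG' => ?_⟩
  · rw [rk_switch]
    exact h1 X hX
  · have hPhi : Phi (swi G φ) E F = Phi G E F := by
      unfold Phi
      congr 1
      refine List.map_congr_left fun A _ => ?_
      rw [bd, bd, vs_switch, vs_switch]
    rw [hPhi]
    exact h3 G' hG'

end Pool.Agent.Helper28.BW
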