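import Pool.Agent.Helper28.BW.Join
import Pool.Agent.Helper28.BW.Ident

/-!
# BW-30: gluing along marked vertices

`G` is a gain graph on `A0 ∪ B` with `vs G A0 ∩ vs G B ⊆ range m` (`m` injective marks); `G'` is a gain graph on `A` with
injective marks `m'`. There is a gain graph `G1` which is (up to renaming vertices) `G'` on `A` and is `G` on `B`, glued along
`m' a = m a`. Construction: choose `σ : ℕ → ℕ` with `σ (m' a) = m a`, injective on `vs G' A ∪ range m'`, and with values outside the finite set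
`vs G B ∪ range m` on `vs G' A \ range m'` (e.g. add a large number). `G1 e = (σ tail, σ head, gain)` of `G' e` for `e ∈ A` and `G1 e = G e`
otherwise. Ranks of subsets of `A`: `rho_rename`. Ranks of subsets of `B`: same triples. Common vertices of `A` and
`B` in `G1` are marked. For `U ⊆ A`: `Trc (img G1 U) (m, 1) = Trc (img G' U) (m', 1)` by `W_map_iff`. So if `U0 ⊆ A0`, `U ⊆ A` are independent
and have the same trace, then for `Z ⊆ B`: if `Z` is dependent, both `U ∪ Z` in `G1` and `U0 ∪ Z` in `G` are dependent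
(`RkFn.indep_mono`); if `Z` is independent use `join_indep`.
-/

set_option autoImplicit false

namespace Pool.Agent.Helper28.BW

variable {H : Type} [Group H]

theorem glue {G G' : GG H} {A0 A B : Finset ℕ} (hd0 : Disjoint A0 B) (hd : Disjoint A B)
    {ι : Type} [Finite ι] {m m' : ι → ℕ} (hm : Function.Injective m)
    (hm' : Function.Injective m') (hbd : vs G A0 ∩ vs G B ⊆ Set.range m) :
    ∃ G1 : GG H, (∀ U ⊆ A, rk G1 U = rk G' U) ∧ (∀ Z ⊆ B, rk G1 Z = rk G Z) ∧
      ∀ U0 ⊆ A0, ∀ U ⊆ A, rk G U0 = U0.card → rk G' U = U.card →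
        Trc (img G U0) (fun a => (m a, (1 : H))) = Trc (img G' U) (fun a => (m' a, (1 : H))) →
        ∀ Z ⊆ B, (rk G1 (U ∪ Z) = (U ∪ Z).card ↔ rk G (U0 ∪ Z) = (U0 ∪ Z).card) := by
  classical
  have hfin : (vs G B ∪ Set.range m).Finite := (vs_finite G B).union (Set.finite_range m)
  obtain ⟨N, hN⟩ : ∃ N : ℕ, ∀ x ∈ vs G B ∪ Set.range m, x < N := by
    obtain ⟨N, hN⟩ := hfin.bddAbove
    exact ⟨N + 1, fun x hx => Nat.lt_succ_of_le (hN hx)⟩
  obtain ⟨σ, hσ1, hσ2⟩ : ∃ σ : ℕ → ℕ, (∀ a, σ (m' a) = m a) ∧ ∀ x, x ∉ Set.range m' → σ x = x + N := by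
    refine ⟨fun x => if h : ∃ a, m' a = x then m h.choose else x + N, fun a => ?_, fun x hx => ?_⟩
    · have h : ∃ b, m' b = m' a := ⟨a, rfl⟩
      show (if h : ∃ b, m' b = m' a then m h.choose else m' a + N) = m a
      rw [dif_pos h]
      exact congrArg m (hm' h.choose_spec)
    · exact dif_neg hx
  have hσi : Function.Injective σ := by
    intro x y hxy
    by_cases hx : x ∈ Set.range m'
    · obtain ⟨a, rfl⟩ := hx
      by_cases hy : y ∈ Set.range m'
      · obtain ⟨b, rfl⟩ := hy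
        rw [hσ1, hσ1] at hxy
        rw [hm hxy]
      · rw [hσ1, hσ2 y hy] at hxy
        have := hN (m a) (Or.inr ⟨a, rfl⟩)
        omega
    · by_cases hy : y ∈ Set.range m'
      · obtain ⟨b, rfl⟩ := hy
        rw [hσ1, hσ2 x hx] at hxy
        have := hN (m b) (Or.inr ⟨b, rfl⟩)
        omega
      · rw [hσ2 x hx, hσ2 y hy] at hxy
        omega
  obtain ⟨G1, hG1A, hG1n⟩ : ∃ G1 : GG H, (∀ e ∈ A, G1 e = (σ (G' e).1, σ (G' e).2.1, (G' e).2.2)) ∧
      ∀ e, e ∉ A → G1 e = G e :=
    ⟨fun e => if e ∈ A then (σ (G' e).1, σ (G' e).2.1, (G' e).2.2) else G e,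
      fun e he => if_pos he, fun e he => if_neg he⟩
  have hA : ∀ U ⊆ A, img G1 U = (fun t : Tri H => (σ t.1, σ t.2.1, t.2.2)) '' img G' U := by
    intro U hU
    unfold img
    rw [Set.image_image]
    exact Set.image_congr fun e he => hG1A e (hU he)
  have hB : ∀ Z ⊆ B, img G1 Z = img G Z := by
    intro Z hZ
    unfold img
    exact Set.image_congr fun e he => hG1n e fun heA => Finset.disjoint_left.1 hd heA (hZ he)
  have hrA : ∀ U ⊆ A, rk G1 U = rk G' U := by
    intro U hU
    unfold rk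
    rw [hA U hU]
    exact rho_rename hσi.injOn
  have hrB : ∀ Z ⊆ B, rk G1 Z = rk G Z := by
    intro Z hZ
    unfold rk
    rw [hB Z hZ]
  refine ⟨G1, hrA, hrB, ?_⟩
  intro U0 hU0 U hU hrU0 hrU htr Z hZ
  by_cases hZi : rk G Z = Z.card
  · refine join_indep (ι := ι) (p := fun a => (m a, (1 : H))) (p' := fun a => (m a, (1 : H))) hm hm
      ?_ ?_ ?_ ?_ ?_ ?_ hrU0 hZi ?_ ?_
    · rintro x ⟨hx1, hx2⟩
      have hxB : x ∈ vs G B := by
        have h1 : x ∈ vs G Z := by
          unfold vs at hx2 ⊢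
          rwa [hB Z hZ] at hx2
        exact vs_mono G hZ h1
      have hxN := hN x (Or.inl hxB)
      obtain ⟨y, hy⟩ : ∃ y, x = σ y := by
        unfold vs at hx1
        rw [hA U hU] at hx1
        obtain ⟨_, ⟨t, -, rfl⟩, h1 | h1⟩ := hx1
        · exact ⟨_, h1⟩
        · exact ⟨_, h1⟩
      by_cases hyr : y ∈ Set.range m'
      · obtain ⟨a, rfl⟩ := hyr
        rw [hσ1] at hy
        exact ⟨a, hy.symm⟩
      · rw [hσ2 y hyr] at hy
        omega
    · rintro x ⟨hx1, hx2⟩
      exact hbd ⟨vs_mono G hU0 hx1, vs_mono G hZ hx2⟩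
    · rw [htr]
      funext a b h
      refine propext ?_
      unfold Trc
      show W (img G1 U) (m a) (m b) ((1 : H)⁻¹ * h * 1) ↔ W (img G' U) (m' a) (m' b) ((1 : H)⁻¹ * h * 1)
      rw [hA U hU, ← hσ1 a, ← hσ1 b]
      exact W_map_iff (Set.subset_univ _) hσi.injOn (Set.mem_univ _) (Set.mem_univ _)
    · rw [hB Z hZ]
    · rw [hrA U hU, hrU]
    · rw [hrB Z hZ, hZi]
    · exact Finset.disjoint_of_subset_left hU (Finset.disjoint_of_subset_right hZ hd)
    · exact Finset.disjoint_of_subset_left hU0 (Finset.disjoint_of_subset_right hZ hd0)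
  · constructor
    · intro h
      have h1 := (rk_rkFn G1).indep_mono (X := Z) Finset.subset_union_right h
      rw [hrB Z hZ] at h1
      exact absurd h1 hZi
    · intro h
      have h1 := (rk_rkFn G).indep_mono (X := Z) Finset.subset_union_right h
      exact absurd h1 hZi

end Pool.Agent.Helper28.BW
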