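import Pool.Agent.Helper28.BW.PumpA
import Pool.Agent.Helper28.BW.Join
import Pool.Agent.Helper28.BW.Transport

/-!
# BW-32: the labels

Data `Prep`: `f ∈ E`; `G` represents `r` on `E \ f`, `G'` represents `contr r {f}` on `E \ f`; a chain `A i ⊆ E \ f` with linking sets
`C i` which are skew to `A i` for `r` and for `contr r {f}`; marks `p i` of the boundary of `A i` in `G` and `q i` of the boundary in `G'`
with the transport property.
Label of `U ⊆ A i`: `lab i U = (r U = |U|, contr r {f} U = |U|, Trc (img G U) (p i), Trc (img G' U) (q i))`.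
`lab_trans`: `lab (i+1) (U ∪ C i) = lab i U` by the transport properties and `indep_union_iff` for `r` and for `contr r {f}`.
`lab_sound`: let `lab i U = lab i U'`, `Z ⊆ E \ A i`. If `f ∉ Z`: `r (U ∪ Z) = rk G (U ∪ Z)`, and the same for `U'`. If `Z` is
dependent both sides are false, and the same if `U` (equivalently `U'`) is dependent. Otherwise `join_indep` (`G = G'` there, `U`, `Z`
and `U'`, `Z`, marks `p i` on both sides; common vertices of `A i` and `(E \ f) \ A i` are in the boundary). If `f ∈ Z`, `Z = Z0 ∪ f`: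
`r (U ∪ Z) = |U ∪ Z|` iff `r {f} = 1` and `contr r {f} (U ∪ Z0) = |U ∪ Z0|`; apply the same argument to `G'` and `q i`.
`lab_card`: the number of labels is at most `4 * 2 ^ (m * m * |H|) * 2 ^ (m' * m' * |H|)`.
-/

set_option autoImplicit false

namespace Pool.Agent.Helper28.BW

/-- prepared chain -/
structure Prep {H : Type} [Group H] (r : Finset ℕ → ℕ) (E : Finset ℕ) (f : ℕ) (G G' : GG H)
    (A C : ℕ → Finset ℕ) (n m m' : ℕ) (p : ℕ → Fin m → ℕ × H) (q : ℕ → Fin m' → ℕ × H) :
    Prop where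
  ch : CHyp r E A C n
  hf : f ∈ E
  fA : ∀ i, i < n → f ∉ A i
  rG : Rep G r (E.erase f)
  rG' : Rep G' (contr r {f}) (E.erase f)
  sk' : ∀ i, i + 1 < n → contr r {f} (A i ∪ C i) = contr r {f} (A i) + (C i).card
  pinj : ∀ i, i < n → Function.Injective fun a => (p i a).1
  prange : ∀ i, i < n → Set.range (fun a => (p i a).1) = bd G (E.erase f) (A i)
  ptr : ∀ i, i + 1 < n → ∀ U ⊆ A i, Trc (img G (U ∪ C i)) (p (i + 1)) = Trc (img G U) (p i)
  qinj : ∀ i, i < n → Function.Injective fun a => (q i a).1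
  qrange : ∀ i, i < n → Set.range (fun a => (q i a).1) = bd G' (E.erase f) (A i)
  qtr : ∀ i, i + 1 < n → ∀ U ⊆ A i, Trc (img G' (U ∪ C i)) (q (i + 1)) = Trc (img G' U) (q i)

/-- the type of labels -/
abbrev Lab (H : Type) (m m' : ℕ) : Type :=
  Prop × Prop × (Fin m → Fin m → H → Prop) × (Fin m' → Fin m' → H → Prop)

/-- the label of `U` at `i` -/
def lab {H : Type} [Group H] (r : Finset ℕ → ℕ) (f : ℕ) (G G' : GG H) {m m' : ℕ}
    (p : ℕ → Fin m → ℕ × H) (q : ℕ → Fin m' → ℕ × H) (i : ℕ) (U : Finset ℕ) : Lab H m m' :=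
  (r U = U.card, contr r {f} U = U.card, Trc (img G U) (p i), Trc (img G' U) (q i))

/-- contraction gives a rank function -/
private theorem labels_contr {r : Finset ℕ → ℕ} (hr : RkFn r) (C : Finset ℕ) :
    RkFn (contr r C) := by
  have hge : ∀ X, r C ≤ r (X ∪ C) := fun X => hr.mono _ _ Finset.subset_union_right
  refine ⟨?_, ?_, ?_, ?_⟩
  · show r (∅ ∪ C) - r C = 0
    rw [Finset.empty_union, Nat.sub_self]
  · intro X Y h
    show r (X ∪ C) - r C ≤ r (Y ∪ C) - r C
    exact Nat.sub_le_sub_right (hr.mono _ _ (Finset.union_subset_union h (Finset.Subset.refl _))) _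
  · intro X e
    show r (insert e X ∪ C) - r C ≤ r (X ∪ C) - r C + 1
    have h1 := hr.ins (X ∪ C) e
    rw [← Finset.insert_union] at h1
    have h2 := hge X
    omega
  · intro X Y
    show (r (X ∪ Y ∪ C) - r C) + (r (X ∩ Y ∪ C) - r C) ≤
      (r (X ∪ C) - r C) + (r (Y ∪ C) - r C)
    have h1 := hr.sub (X ∪ C) (Y ∪ C)
    rw [← Finset.union_union_distrib_right, ← Finset.inter_union_distrib_right] at h1
    have h2 := hge X
    have h3 := hge Y
    have h4 := hge (X ∪ Y)
    have h5 := hge (X ∩ Y)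
    omega

/-- the sound part for one gain graph -/
private theorem labels_aux {H : Type} [Group H] {r : Finset ℕ → ℕ} (hr : RkFn r)
    {E A : Finset ℕ} (hA : A ⊆ E) {G : GG H} (hG : Rep G r E) {m : ℕ} {p : Fin m → ℕ × H}
    (hinj : Function.Injective fun a => (p a).1)
    (hran : Set.range (fun a => (p a).1) = bd G E A) {U U' Z : Finset ℕ} (hU : U ⊆ A)
    (hU' : U' ⊆ A) (hZ : Z ⊆ E \ A) (h1 : r U = U.card ↔ r U' = U'.card)
    (h2 : Trc (img G U) p = Trc (img G U') p) :
    r (U ∪ Z) = (U ∪ Z).card ↔ r (U' ∪ Z) = (U' ∪ Z).card := by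
  have hZE : Z ⊆ E := hZ.trans Finset.sdiff_subset
  by_cases hrU : r U = U.card
  swap
  · have hrU' : ¬ r U' = U'.card := fun h => hrU (h1.2 h)
    exact ⟨fun h => absurd (hr.indep_mono Finset.subset_union_left h) hrU,
      fun h => absurd (hr.indep_mono Finset.subset_union_left h) hrU'⟩
  by_cases hrZ : r Z = Z.card
  swap
  · exact ⟨fun h => absurd (hr.indep_mono Finset.subset_union_right h) hrZ,
      fun h => absurd (hr.indep_mono Finset.subset_union_right h) hrZ⟩
  have hrU' := h1.1 hrU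
  have hd : ∀ {X : Finset ℕ}, X ⊆ A → Disjoint X Z := by
    intro X hX
    rw [Finset.disjoint_left]
    intro x hx hxZ
    exact (Finset.mem_sdiff.1 (hZ hxZ)).2 (hX hx)
  have hv : ∀ {X : Finset ℕ}, X ⊆ A → vs G X ∩ vs G Z ⊆ Set.range fun a => (p a).1 := by
    intro X hX x hx
    rw [hran]
    exact ⟨vs_mono G hX hx.1, vs_mono G hZ hx.2⟩
  have h3 := join_indep (G := G) (G' := G) hinj hinj (hv hU) (hv hU') h2 rfl
    (by rw [hG U (hU.trans hA), hrU]) (by rw [hG Z hZE, hrZ])
    (by rw [hG U' (hU'.trans hA), hrU']) (by rw [hG Z hZE, hrZ]) (hd hU) (hd hU')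
  rwa [hG _ (Finset.union_subset (hU.trans hA) hZE),
    hG _ (Finset.union_subset (hU'.trans hA) hZE)] at h3

theorem lab_trans {H : Type} [Group H] {r : Finset ℕ → ℕ} {E : Finset ℕ} {f : ℕ} {G G' : GG H}
    {A C : ℕ → Finset ℕ} {n m m' : ℕ} {p : ℕ → Fin m → ℕ × H} {q : ℕ → Fin m' → ℕ × H}
    (h : Prep r E f G G' A C n m m' p q) :
    ∀ i, i + 1 < n → ∀ U ⊆ A i, lab r f G G' p q (i + 1) (U ∪ C i) = lab r f G G' p q i U := by
  intro i hi U hU
  have hd : Disjoint (A i) (C i) := by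
    rw [Finset.disjoint_left]
    intro x hx hxC
    exact (Finset.mem_sdiff.1 (h.ch.hC i hi hxC)).2 hx
  unfold lab
  rw [h.ptr i hi U hU, h.qtr i hi U hU,
    propext (indep_union_iff h.ch.hr hU hd (h.ch.sk i hi)),
    propext (indep_union_iff (labels_contr h.ch.hr {f}) hU hd (h.sk' i hi))]

theorem lab_sound {H : Type} [Group H] {r : Finset ℕ → ℕ} {E : Finset ℕ} {f : ℕ} {G G' : GG H}
    {A C : ℕ → Finset ℕ} {n m m' : ℕ} {p : ℕ → Fin m → ℕ × H} {q : ℕ → Fin m' → ℕ × H}
    (h : Prep r E f G G' A C n m m' p q) :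
    ∀ i, i < n → ∀ U ⊆ A i, ∀ U' ⊆ A i, lab r f G G' p q i U = lab r f G G' p q i U' →
      ∀ Z ⊆ E \ A i, (r (U ∪ Z) = (U ∪ Z).card ↔ r (U' ∪ Z) = (U' ∪ Z).card) := by
  intro i hi U hU U' hU' hlab Z hZ
  unfold lab at hlab
  obtain ⟨l1, l2, l3, l4⟩ := (by simpa only [Prod.mk.injEq] using hlab :
    (r U = U.card) = (r U' = U'.card) ∧ (contr r {f} U = U.card) = (contr r {f} U' = U'.card) ∧
      Trc (img G U) (p i) = Trc (img G U') (p i) ∧
      Trc (img G' U) (q i) = Trc (img G' U') (q i))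
  have hr := h.ch.hr
  have hAE : A i ⊆ E.erase f := by
    intro x hx
    rw [Finset.mem_erase]
    exact ⟨fun h1 => h.fA i hi (h1 ▸ hx), h.ch.sub i hi hx⟩
  by_cases hfZ : f ∈ Z
  · have hZ0 : Z.erase f ⊆ E.erase f \ A i := by
      intro x hx
      rw [Finset.mem_erase] at hx
      have h1 := Finset.mem_sdiff.1 (hZ hx.2)
      rw [Finset.mem_sdiff, Finset.mem_erase]
      exact ⟨⟨hx.1, h1.1⟩, h1.2⟩
    have h1 := labels_aux (labels_contr hr {f}) hAE h.rG' (h.qinj i hi) (h.qrange i hi) hU hU'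
      hZ0 (by rw [l2]) l4
    have key : ∀ X : Finset ℕ, X ⊆ A i → (r (X ∪ Z) = (X ∪ Z).card ↔
        r {f} = 1 ∧ contr r {f} (X ∪ Z.erase f) = (X ∪ Z.erase f).card) := by
      intro X hX
      have hfX : f ∉ X ∪ Z.erase f := by
        rw [Finset.mem_union, Finset.mem_erase]
        rintro (h2 | h2)
        · exact h.fA i hi (hX h2)
        · exact h2.1 rfl
      have e1 : X ∪ Z = insert f (X ∪ Z.erase f) := by
        rw [← Finset.union_insert, Finset.insert_erase hfZ]
      have e2 : (X ∪ Z.erase f) ∪ {f} = X ∪ Z := by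
        rw [e1, Finset.union_comm, ← Finset.insert_eq]
      have e3 : (X ∪ Z).card = (X ∪ Z.erase f).card + 1 := by
        rw [e1, Finset.card_insert_of_notMem hfX]
      have e4 : contr r {f} (X ∪ Z.erase f) = r (X ∪ Z) - r {f} := by
        unfold contr
        rw [e2]
      have e5 : r {f} ≤ r (X ∪ Z) := hr.mono _ _ (by
        rw [Finset.singleton_subset_iff, Finset.mem_union]
        exact Or.inr hfZ)
      have e6 : r {f} ≤ 1 := by
        have := hr.le_card {f}
        rwa [Finset.card_singleton] at this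
      have e7 := hr.le_card (X ∪ Z.erase f)
      have e8 := hr.sub (X ∪ Z.erase f) {f}
      rw [e2] at e8
      rw [e4, e3]
      omega
    rw [key U hU, key U' hU', h1]
  · have hZ0 : Z ⊆ E.erase f \ A i := by
      intro x hx
      have h1 := Finset.mem_sdiff.1 (hZ hx)
      rw [Finset.mem_sdiff, Finset.mem_erase]
      exact ⟨⟨fun h2 => hfZ (h2 ▸ hx), h1.1⟩, h1.2⟩
    exact labels_aux hr hAE h.rG (h.pinj i hi) (h.prange i hi) hU hU' hZ0 (by rw [l1]) l3

theorem lab_finite (H : Type) [Finite H] (m m' : ℕ) : Finite (Lab H m m') := by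
  infer_instance

theorem lab_card (H : Type) [Finite H] {m m' w : ℕ} (hm : m ≤ w) (hm' : m' ≤ w) :
    Nat.card (Lab H m m') ≤ 4 * 2 ^ (w * w * Nat.card H) * 2 ^ (w * w * Nat.card H) := by
  have hP : Nat.card Prop = 2 := by
    rw [Nat.card_eq_fintype_card, Fintype.card_prop]
  have hF : ∀ k, k ≤ w → Nat.card (Fin k → Fin k → H → Prop) ≤ 2 ^ (w * w * Nat.card H) := by
    intro k hk
    rw [Nat.card_fun, Nat.card_fun, Nat.card_fun, hP, Nat.card_fin, ← pow_mul, ← pow_mul]
    refine Nat.pow_le_pow_right (by norm_num) ?_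
    calc Nat.card H * (k * k) = k * k * Nat.card H := by ring
      _ ≤ w * w * Nat.card H := Nat.mul_le_mul_right _ (Nat.mul_le_mul hk hk)
  have h1 := hF m hm
  have h2 := hF m' hm'
  rw [Nat.card_prod, Nat.card_prod, Nat.card_prod, hP]
  calc 2 * (2 * (Nat.card (Fin m → Fin m → H → Prop) * Nat.card (Fin m' → Fin m' → H → Prop)))
      = 4 * (Nat.card (Fin m → Fin m → H → Prop) * Nat.card (Fin m' → Fin m' → H → Prop)) := by
        ring
    _ ≤ 4 * (2 ^ (w * w * Nat.card H) * 2 ^ (w * w * Nat.card H)) :=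
        Nat.mul_le_mul_left _ (Nat.mul_le_mul h1 h2)
    _ = 4 * 2 ^ (w * w * Nat.card H) * 2 ^ (w * w * Nat.card H) := by ring

end Pool.Agent.Helper28.BW
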