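import Pool.Agent.Helper28.BW.RkFn

/-!
# BW-05: the two-sided formula

Let `T1`, `T2` be finite, `S` finite and `vx T1 ∩ vx T2 ⊆ S`. Then
`rho T1 + rho T2 - rho (T1 ∪ T2) = |S| - bal T1 S - bal T2 S + bal (T1 ∪ T2) S`.
Proof. Let `V = S ∪ vx T1 ∪ vx T2`, finite; by `rho_add_bal`, `rho T = |V| - bal T V` for `T = T1, T2, T1 ∪ T2`.
So it suffices: `bal (T1 ∪ T2) V - bal T1 V - bal T2 V = bal (T1 ∪ T2) S - bal T1 S - bal T2 S - |V \ S|`.
`V \ S` is the disjoint union of `V1 = vx T1 \ S` and `V2 = vx T2 \ S`. `bal T V = bal T S +` (number of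
balanced components of `T` that meet `V` but not `S`).
* balanced `T1`-components meeting `V` and not `S`: the singletons of the elements of `V2` (they are not in
  `vx T1`), `|V2|` of them, and the balanced `T1`-components contained in `V1`, say `a1` of them;
* balanced `T2`-components meeting `V` and not `S`: `|V1|` and the ones contained in `V2`, say `a2`;
* balanced components of `T1 ∪ T2` meeting `V` and not `S`: a component of `T1 ∪ T2` not meeting `S` is a
  `T1`-component contained in `V1` or a `T2`-component contained in `V2` (a walk starting in `V1` avoiding `S`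
  can only use edges of `T1`; use `W_closed` with the component), so there are `a1 + a2` of them.
Hence the claim.
-/

set_option autoImplicit false
set_option linter.unusedSectionVars false

namespace Pool.Agent.Helper28.BW

variable {H : Type} [Group H]

theorem bal_insert_vertex (T : Set (Tri H)) {S : Set ℕ} (hS : S.Finite) (s : ℕ) :
    (bal T (insert s S) = bal T S + 1 ∧ (¬ Unb T s ∧ ∀ u ∈ S, ¬ Con T s u)) ∨
      (bal T (insert s S) = bal T S ∧ ¬ (¬ Unb T s ∧ ∀ u ∈ S, ¬ Con T s u)) := by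
  by_cases h : ¬ Unb T s ∧ ∀ u ∈ S, ¬ Con T s u
  · left
    refine ⟨?_, h⟩
    have e1 : balC T (insert s S) = insert (cls T s) (balC T S) := by
      ext c
      constructor
      · rintro ⟨u, rfl | hu, hb, rfl⟩
        · exact Or.inl rfl
        · exact Or.inr ⟨u, hu, hb, rfl⟩
      · rintro (rfl | ⟨u, hu, hb, rfl⟩)
        · exact ⟨s, Or.inl rfl, h.1, rfl⟩
        · exact ⟨u, Or.inr hu, hb, rfl⟩
    have h2 : cls T s ∉ balC T S := by
      rintro ⟨u, hu, _, he⟩
      exact h.2 u hu (cls_eq_iff.1 he)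
    rw [bal, e1, Set.ncard_insert_of_notMem h2 (balC_finite T hS)]
    rfl
  · right
    refine ⟨?_, h⟩
    have e1 : balC T (insert s S) = balC T S := by
      ext c
      constructor
      · rintro ⟨u, rfl | hu, hb, rfl⟩
        · push Not at h
          obtain ⟨w, hw, hc⟩ := h hb
          exact ⟨w, hw, fun h' => hb (h'.of_con hc.symm), cls_eq_iff.2 hc⟩
        · exact ⟨u, hu, hb, rfl⟩
      · rintro ⟨u, hu, hb, rfl⟩
        exact ⟨u, Or.inr hu, hb, rfl⟩
    rw [bal, e1]
    rfl

theorem union_walk {T1 T2 : Set (Tri H)} {S : Set ℕ} (hv : vx T1 ∩ vx T2 ⊆ S) {s : ℕ}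
    (hs : s ∉ vx T2) (hc : ∀ u ∈ S, ¬ Con T1 s u) {v : ℕ} {g : H} (hw : W (T1 ∪ T2) s v g) :
    W T1 s v g := by
  have key : ∀ c, Con T1 s c → c ∉ vx T2 := by
    intro c hcs h2
    rcases Con_ends hcs with h | h
    · exact hs (h ▸ h2)
    · exact hc c (hv ⟨h.2, h2⟩) hcs
  refine (W_closed (C := cls T1 s) (mem_cls_self T1 s) ?_ hw).2
  rintro t (ht | ht) h
  · rcases h with h | h
    · exact ⟨h, Con.trans h ⟨_, W.edge ht⟩, ht⟩
    · exact ⟨Con.trans h (Con.symm ⟨_, W.edge ht⟩), h, ht⟩
  · exfalso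
    rcases h with h | h
    · exact key _ h (mem_vx_left ht)
    · exact key _ h (mem_vx_right ht)

theorem union_cond {T1 T2 : Set (Tri H)} {S : Set ℕ} (hv : vx T1 ∩ vx T2 ⊆ S) {s : ℕ}
    (hs : s ∉ vx T2) : (¬ Unb T1 s ∧ ∀ u ∈ S, ¬ Con T1 s u) ↔
      (¬ Unb (T1 ∪ T2) s ∧ ∀ u ∈ S, ¬ Con (T1 ∪ T2) s u) := by
  constructor
  · rintro ⟨hb, hc⟩
    refine ⟨?_, ?_⟩
    · rintro ⟨g, hg, hw⟩
      exact hb ⟨g, hg, union_walk hv hs hc hw⟩
    · rintro u hu ⟨g, hw⟩
      exact hc u hu ⟨g, union_walk hv hs hc hw⟩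
  · rintro ⟨hb, hc⟩
    exact ⟨fun h => hb (h.mono Set.subset_union_left),
      fun u hu h => hc u hu (h.mono Set.subset_union_left)⟩

theorem two_sided_aux {T1 T2 : Set (Tri H)} {S : Set ℕ} (hS : S.Finite)
    (hv : vx T1 ∩ vx T2 ⊆ S) (s : ℕ) (hs : s ∉ S) :
    bal T1 (insert s S) + bal T2 (insert s S) + bal (T1 ∪ T2) S =
      bal T1 S + bal T2 S + 1 + bal (T1 ∪ T2) (insert s S) := by
  wlog h : s ∉ vx T2 generalizing T1 T2
  · have h1 : s ∉ vx T1 := fun h1 => by
      push Not at h
      exact hs (hv ⟨h1, h⟩)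
    have := this (T1 := T2) (T2 := T1) (by rwa [Set.inter_comm]) h1
    rw [Set.union_comm T2 T1] at this
    omega
  have h0 : bal T2 (insert s S) = bal T2 S + 1 := by
    rcases bal_insert_vertex T2 hS s with h2 | h2
    · exact h2.1
    · exfalso
      apply h2.2
      refine ⟨fun h3 => h h3.mem_vx, fun u hu h3 => ?_⟩
      rcases Con_ends h3 with h4 | h4
      · exact hs (h4 ▸ hu)
      · exact h h4.1
  have h1 := union_cond hv h
  rcases bal_insert_vertex T1 hS s with h2 | h2 <;>
    rcases bal_insert_vertex (T1 ∪ T2) hS s with h3 | h3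
  · omega
  · exact absurd (h1.1 h2.2) h3.2
  · exact absurd (h1.2 h3.2) h2.2
  · omega

theorem two_sided {T1 T2 : Set (Tri H)} (h1 : T1.Finite) (h2 : T2.Finite) {S : Set ℕ}
    (hS : S.Finite) (hv : vx T1 ∩ vx T2 ⊆ S) :
    rho T1 + rho T2 + bal T1 S + bal T2 S = rho (T1 ∪ T2) + S.ncard + bal (T1 ∪ T2) S := by
  have key : ∀ W : Set ℕ, W.Finite →
      (rho T1 + rho T2 + bal T1 (S ∪ W) + bal T2 (S ∪ W) =
        rho (T1 ∪ T2) + (S ∪ W).ncard + bal (T1 ∪ T2) (S ∪ W)) →
      (rho T1 + rho T2 + bal T1 S + bal T2 S = rho (T1 ∪ T2) + S.ncard + bal (T1 ∪ T2) S) := by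
    intro W hW
    induction W, hW using Set.Finite.induction_on with
    | empty => rw [Set.union_empty]; exact id
    | @insert a W _ hW ih =>
      intro h
      apply ih
      rw [Set.union_insert] at h
      by_cases ha : a ∈ S ∪ W
      · rwa [Set.insert_eq_of_mem ha] at h
      · have h3 := two_sided_aux (hS.union hW) (hv.trans Set.subset_union_left) a ha
        have h4 := Set.ncard_insert_of_notMem ha (hS.union hW)
        omega
  refine key (vx T1 ∪ vx T2) ((vx_finite h1).union (vx_finite h2)) ?_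
  have hV : (S ∪ (vx T1 ∪ vx T2)).Finite := hS.union ((vx_finite h1).union (vx_finite h2))
  have e1 := rho_add_bal (T := T1) hV
    (Set.subset_union_left.trans Set.subset_union_right)
  have e2 := rho_add_bal (T := T2) hV
    (Set.subset_union_right.trans Set.subset_union_right)
  have e3 := rho_add_bal (T := T1 ∪ T2) hV (by
    rw [vx_union]
    exact Set.subset_union_right)
  omega

/-- version for edge sets of a gain graph -/
theorem two_sided_rk (G : GG H) (X Y : Finset ℕ) {S : Set ℕ} (hS : S.Finite)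
    (hv : vs G X ∩ vs G Y ⊆ S) :
    rk G X + rk G Y + bal (img G X) S + bal (img G Y) S =
      rk G (X ∪ Y) + S.ncard + bal (img G (X ∪ Y)) S := by
  have := two_sided (img_finite G X) (img_finite G Y) hS hv
  rw [← img_union] at this
  exact this

/-- the connectivity of `A` in terms of its boundary -/
theorem lam_bd {r : Finset ℕ → ℕ} (hr : RkFn r) {G : GG H} {E A : Finset ℕ} (hG : Rep G r E)
    (hA : A ⊆ E) :
    lam r E A + bal (img G A) (bd G E A) + bal (img G (E \ A)) (bd G E A) =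
      (bd G E A).ncard + bal (img G E) (bd G E A) := by
  have h1 := two_sided_rk G A (E \ A) (bd_finite G E A) (Set.Subset.refl _)
  rw [Finset.union_sdiff_of_subset hA] at h1
  have h2 := lam_eq hr hA
  have h3 := hG A hA
  have h4 := hG (E \ A) Finset.sdiff_subset
  have h5 := hG E (Finset.Subset.refl _)
  omega

end Pool.Agent.Helper28.BW
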