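import Pool.Agent.Helper28.BW.OptSplit
import Pool.Agent.Helper28.BW.TwoSided

/-!
# BW-21: a matroid linking in a stable pair is thin

Data `LinkH`: `G` optimal, `A ⊆ A'` in `F`, `C ⊆ A' \ A` with `Lk r A C (E \ A') k`, `lam = k` at `A` and `A'`, pair stable.
`link_left`. If `a, a' ∈ vs G A` and `W (img G C) a a' h` then `a = a'` and `h = 1`. Proof. Suppose not, put `e = (a, a', h)`.
Then `e ∈ cl (img G C)`. The walk is not trivial so `a, a' ∈ vs G C ⊆ vs G (E \ A)`, so `a, a' ∈ bd G E A`. They are joined in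
`A'` (`C ⊆ A'`), so by (s1) joined in `A`, by some `W (img G A) a a' g`. If `a` is unbalanced in `A`, so is
`a'`, and `e ∈ cl (img G A)`. If `a` is balanced in `A`, then by (s2) balanced in `A'`, so `g = h` (`W_unique` in `A'`) and again
`e ∈ cl (img G A)`. By submodularity of `rho` for `insert e (img G A)` and `insert e (img G C)`:
`rho (insert e (img G (A ∪ C))) + rho {e} ≤ rho (insert e (img G A)) + rho (insert e (img G C)) = rk G A + rk G C ≤ rk G A + |C|
= rk G (A ∪ C)`, so `rho {e} = 0` and `e` is trivial (`eq_one_of_rho_singleton`). Contradiction.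
`link_right`: the same for `B' = E \ A'` in place of `A`, with (s3), (s4) and `rk (B' ∪ C) = rk B' + |C|`; here the vertices are
in `vs G C ⊆ vs G A'`, so in `bd G E A'`, and are joined in `E \ A ⊇ C`.
-/

set_option autoImplicit false

namespace Pool.Agent.Helper28.BW

variable {H : Type} [Group H]

/-- linking data for the pair `A ⊆ A'` -/
structure LinkH (G : GG H) (r : Finset ℕ → ℕ) (E : Finset ℕ) (F : List (Finset ℕ))
    (A A' C : Finset ℕ) (k : ℕ) : Prop where
  hr : RkFn r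
  opt : Opt G r E F
  mA : A ∈ F
  mA' : A' ∈ F
  sub : A ⊆ A'
  hC : C ⊆ A' \ A
  lk : Lk r A C (E \ A') k
  kA : lam r E A = k
  kA' : lam r E A' = k
  st : Stable G E A A'

private theorem lr_key {G : GG H} {r : Finset ℕ → ℕ} {E A C : Finset ℕ} (hG : Rep G r E)
    (hA : A ⊆ E) (hC : C ⊆ E) (hr : r (A ∪ C) = r A + C.card) {a a' : ℕ} {g : H}
    (h1 : ((a, a', g) : Tri H) ∈ cl (img G A)) (h2 : W (img G C) a a' g) : a = a' ∧ g = 1 := by
  have h3 : ((a, a', g) : Tri H) ∈ cl (img G C) := Or.inl h2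
  have fA := img_finite G A
  have fC := img_finite G C
  have e1 := rho_insert_of_mem fA h1
  have e2 := rho_insert_of_mem fC h3
  have e3 := rho_submod (fA.insert ((a, a', g) : Tri H)) (fC.insert ((a, a', g) : Tri H))
  have e4 : rho ({((a, a', g) : Tri H)} : Set (Tri H)) ≤
      rho (insert ((a, a', g) : Tri H) (img G A) ∩ insert ((a, a', g) : Tri H) (img G C)) := by
    refine rho_mono ((fA.insert _).subset Set.inter_subset_left) ?_
    rw [Set.singleton_subset_iff]
    exact ⟨Set.mem_insert _ _, Set.mem_insert _ _⟩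
  have e5 : rho (img G (A ∪ C)) ≤
      rho (insert ((a, a', g) : Tri H) (img G A) ∪ insert ((a, a', g) : Tri H) (img G C)) := by
    refine rho_mono ((fA.insert _).union (fC.insert _)) ?_
    rw [img_union]
    exact Set.union_subset_union (Set.subset_insert _ _) (Set.subset_insert _ _)
  have e6 : rk G (A ∪ C) = r (A ∪ C) := hG _ (Finset.union_subset hA hC)
  have e7 : rk G A = r A := hG _ hA
  have e8 : rk G C ≤ C.card := (rk_rkFn G).le_card C
  have d1 : rk G (A ∪ C) = rho (img G (A ∪ C)) := rfl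
  have d2 : rk G A = rho (img G A) := rfl
  have d3 : rk G C = rho (img G C) := rfl
  exact eq_one_of_rho_singleton (by omega)

theorem link_left {G : GG H} {r : Finset ℕ → ℕ} {E : Finset ℕ} {F : List (Finset ℕ)}
    {A A' C : Finset ℕ} {k : ℕ} (h : LinkH G r E F A A' C k) {a a' : ℕ} {g : H}
    (ha : a ∈ vs G A) (ha' : a' ∈ vs G A) (hw : W (img G C) a a' g) : a = a' ∧ g = 1 := by
  rcases W_ends hw with h0 | ⟨h1, h2⟩
  · exact h0
  have hA'E : A' ⊆ E := h.opt.2.1.1 A' h.mA'
  have hAE : A ⊆ E := h.opt.2.1.1 A h.mA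
  have hCA' : C ⊆ A' := h.hC.trans Finset.sdiff_subset
  have hCE : C ⊆ E \ A := h.hC.trans (Finset.sdiff_subset_sdiff hA'E (Finset.Subset.refl _))
  have b1 : a ∈ bd G E A := ⟨ha, vs_mono G hCE h1⟩
  have b2 : a' ∈ bd G E A := ⟨ha', vs_mono G hCE h2⟩
  have hw' : W (img G A') a a' g := hw.mono (img_mono G hCA')
  have hc : Con (img G A) a a' := h.st.s1 a b1 a' b2 ⟨g, hw'⟩
  refine lr_key h.opt.1 hAE (hCA'.trans hA'E) h.lk.1 ?_ hw
  by_cases hu : Unb (img G A) a
  · exact Or.inr ⟨hu, hu.of_con hc⟩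
  · obtain ⟨g', hg'⟩ := hc
    have hb : ¬ Unb (img G A') a := fun h3 => hu (h.st.s2 a b1 h3)
    have h4 := W_unique hb (hg'.mono (img_mono G h.sub)) hw'
    left
    rw [h4] at hg'
    exact hg'

theorem link_right {G : GG H} {r : Finset ℕ → ℕ} {E : Finset ℕ} {F : List (Finset ℕ)}
    {A A' C : Finset ℕ} {k : ℕ} (h : LinkH G r E F A A' C k) {b b' : ℕ} {g : H}
    (hb : b ∈ vs G (E \ A')) (hb' : b' ∈ vs G (E \ A')) (hw : W (img G C) b b' g) :
    b = b' ∧ g = 1 := by
  rcases W_ends hw with h0 | ⟨h1, h2⟩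
  · exact h0
  have hA'E : A' ⊆ E := h.opt.2.1.1 A' h.mA'
  have hCA' : C ⊆ A' := h.hC.trans Finset.sdiff_subset
  have hCE : C ⊆ E \ A := h.hC.trans (Finset.sdiff_subset_sdiff hA'E (Finset.Subset.refl _))
  have b1 : b ∈ bd G E A' := ⟨vs_mono G hCA' h1, hb⟩
  have b2 : b' ∈ bd G E A' := ⟨vs_mono G hCA' h2, hb'⟩
  have hw' : W (img G (E \ A)) b b' g := hw.mono (img_mono G hCE)
  have hc : Con (img G (E \ A')) b b' := h.st.s3 b b1 b' b2 ⟨g, hw'⟩
  refine lr_key h.opt.1 Finset.sdiff_subset (hCA'.trans hA'E) h.lk.2.1 ?_ hw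
  by_cases hu : Unb (img G (E \ A')) b
  · exact Or.inr ⟨hu, hu.of_con hc⟩
  · obtain ⟨g', hg'⟩ := hc
    have hbal : ¬ Unb (img G (E \ A)) b := fun h3 => hu (h.st.s4 b b1 h3)
    have h4 := W_unique hbal
      (hg'.mono (img_mono G (Finset.sdiff_subset_sdiff (Finset.Subset.refl E) h.sub))) hw'
    left
    rw [h4] at hg'
    exact hg'

end Pool.Agent.Helper28.BW
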