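import Pool.Agent.Helper28.BW.Reach
import Pool.Agent.Helper28.BW.Transport

/-!
# BW-24: transport of traces for linking data

Apply `transport` with `SA = bd G E A`, `B' = E \ A'`, `SB = bd G E A'`. (l), (r) are `link_left`, `link_right`. (rl): for `v ∈ bd G E A`
`reach_left` gives `w ∈ vs G (E \ A')` joined to `v` in `C`; if `v ≠ w` the walk is not trivial and `w ∈ vs G C ⊆ vs G A'`; if
`v = w` then `w ∈ vs G A ⊆ vs G A'`; so `w ∈ bd G E A'`. (rr): for `v ∈ bd G E A'`, `reach_right` gives `w ∈ vs G A` joined to `v`;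
if `v ≠ w` then `w ∈ vs G C ⊆ vs G (E \ A)`; if `v = w` then `w ∈ vs G (E \ A') ⊆ vs G (E \ A)`; so `w ∈ bd G E A`.
-/

set_option autoImplicit false

namespace Pool.Agent.Helper28.BW

variable {H : Type} [Group H]

theorem link_transport {G : GG H} {r : Finset ℕ → ℕ} {E : Finset ℕ} {F : List (Finset ℕ)}
    {A A' C : Finset ℕ} {k : ℕ} (h : LinkH G r E F A A' C k)
    {ι : Type} {p : ι → ℕ × H} (hp : Function.Injective fun a => (p a).1)
    (hpr : Set.range (fun a => (p a).1) = bd G E A) :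
    ∃ p' : ι → ℕ × H, Function.Injective (fun a => (p' a).1) ∧
      Set.range (fun a => (p' a).1) = bd G E A' ∧
      ∀ U ⊆ A, Trc (img G (U ∪ C)) p' = Trc (img G U) p := by
  have hA'E : A' ⊆ E := h.opt.2.1.1 A' h.mA'
  have hCA' : C ⊆ A' := fun e he => (Finset.mem_sdiff.mp (h.hC he)).1
  have hCEA : C ⊆ E \ A := fun e he => by
    have h1 := Finset.mem_sdiff.mp (h.hC he)
    exact Finset.mem_sdiff.mpr ⟨hA'E h1.1, h1.2⟩
  have hEE : E \ A' ⊆ E \ A := Finset.sdiff_subset_sdiff (Finset.Subset.refl E) h.sub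
  refine transport (A := A) (C := C) (B' := E \ A') (SA := bd G E A) (SB := bd G E A')
    (fun v hv => hv.1) (fun v hv => hv.2)
    (fun a ha a' ha' g hg => link_left h ha ha' hg)
    (fun b hb b' hb' g hg => link_right h hb hb' hg) ?_ ?_ hp hpr
  · intro v hv
    obtain ⟨w, hw, hvw⟩ := reach_left h hv
    refine ⟨w, ⟨?_, hw⟩, hvw⟩
    rcases Con_ends hvw with h1 | ⟨_, h1⟩
    · rw [← h1]
      exact vs_mono G h.sub hv.1
    · exact vs_mono G hCA' h1
  · intro v hv
    obtain ⟨w, hw, hvw⟩ := reach_right h hv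
    refine ⟨w, ⟨hw, ?_⟩, hvw⟩
    rcases Con_ends hvw with h1 | ⟨_, h1⟩
    · rw [← h1]
      exact vs_mono G hEE hv.2
    · exact vs_mono G hCEA h1

end Pool.Agent.Helper28.BW
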