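import Pool.Agent.Helper28.BW.CountNE

/-!
# BW-43: linked decompositions

`Linked l t`: whenever `z` is a subtree of a subtree `x` of `t`, both of width `m`, and all trees on the path from `x` to `z` have width `≥ m`
(`Dn l m x z`), then `m ≤ l Y` for all `Y` between `z.set` and `x.set`.
Potential of a tree: `pot l w t : Fin w → ℕ ×ₗ ℕ`, at the index `i` the pair `(cN l m t, cE l m t)` with `m = w - i`, ordered lexicographically (well-founded,
`Pi.Lex`).
`exists_linked`: if `E` has an `Ok` tree of width `≤ w` then it has a linked one. Choose `T` with minimal potential. Suppose `x`, `z`, `m`, `Y0` violate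
linkedness, `l Y0 < m`. Write `x = wrap L z` with all widths on the path `≥ m` (from `Dn`). `choose_Y` gives `Y`, `κ ≤ l Y0 < m` (`Cfg.min`). `x' = owr Y (x.inter Y) L` has the same
set, is `Ok` and has width `≤ w`. Claim: `pot x' < pot x`. If `DegAt` holds at some width `> κ` let `m1` be the largest one (widths are `≤ w`): for
`m' > m1` `countN` and `countE` give `≤` in both counts, and at `m1` `countN` is strict: in the lexicographic order the first index where the
potentials differ has a smaller value. Otherwise `≤` in both counts for all `m' > κ` and strict in `cE` at `κ + 1` (`PW l (κ + 1) L z` since the path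
widths are `≥ m ≥ κ + 1`). (`κ + 1 ≤ m ≤ w`.) Replacing the subtree `x` of `T` by `x'` changes the potential of `T` in the same way: by induction on
the position, `cN` and `cE` of a node are sums, and the summands for the pair (parent, `x`) depend only on `x.set`. So `T` was not minimal.
-/

set_option autoImplicit false

namespace Pool.Agent.Helper28.BW

open BT

/-- path of trees of width at least `m` -/
inductive Dn (l : Finset ℕ → ℕ) (m : ℕ) : BT → BT → Prop
  | refl (x : BT) : m ≤ l x.set → Dn l m x x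
  | left (a b z : BT) : m ≤ l (node a b).set → Dn l m a z → Dn l m (node a b) z
  | right (a b z : BT) : m ≤ l (node a b).set → Dn l m b z → Dn l m (node a b) z

/-- linked trees -/
def Linked (l : Finset ℕ → ℕ) (t : BT) : Prop :=
  ∀ x z m, Sub x t → l x.set = m → l z.set = m → Dn l m x z →
    ∀ Y, z.set ⊆ Y → Y ⊆ x.set → m ≤ l Y

theorem Dn.wrap {l : Finset ℕ → ℕ} {m : ℕ} {x z : BT} (h : Dn l m x z) :
    ∃ L, x = BT.wrap L z ∧ PW l m L z := by
  induction h with
  | refl x hx => exact ⟨[], rfl, hx⟩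
  | left a b z h1 _ ih =>
    obtain ⟨L, hL, hP⟩ := ih
    refine ⟨(true, b) :: L, ?_, ?_, hP⟩
    · show node a b = node (BT.wrap L z) b
      rw [← hL]
    · show m ≤ l (node (BT.wrap L z) b).set
      rw [← hL]
      exact h1
  | right a b z h1 _ ih =>
    obtain ⟨L, hL, hP⟩ := ih
    refine ⟨(false, a) :: L, ?_, ?_, hP⟩
    · show node a b = node a (BT.wrap L z)
      rw [← hL]
    · show m ≤ l (node a (BT.wrap L z)).set
      rw [← hL]
      exact h1

/-- the potential -/
def pot (l : Finset ℕ → ℕ) (w : ℕ) (t : BT) : Lex (Fin w → ℕ ×ₗ ℕ) :=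
  toLex fun i => toLex (cN l (w - i) t, cE l (w - i) t)

/-- criterion for the lexicographic order -/
private theorem lt_lex_aux {w : ℕ} {f g : Fin w → ℕ ×ₗ ℕ} (i0 : Fin w) (h0 : f i0 < g i0)
    (h : ∀ j < i0, f j ≤ g j) : toLex f < toLex g := by
  have hex : ∃ n : ℕ, ∃ hn : n < w, f ⟨n, hn⟩ ≠ g ⟨n, hn⟩ := ⟨i0, i0.2, h0.ne⟩
  classical
  obtain ⟨hn, hne⟩ := Nat.find_spec hex
  have hle : Nat.find hex ≤ i0 := Nat.find_min' hex ⟨i0.2, h0.ne⟩
  refine ⟨⟨Nat.find hex, hn⟩, ?_, ?_⟩
  · intro j hj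
    by_contra hcon
    exact Nat.find_min hex hj ⟨j.2, hcon⟩
  · show f ⟨Nat.find hex, hn⟩ < g ⟨Nat.find hex, hn⟩
    rcases Nat.eq_or_lt_of_le hle with h1 | h1
    · have h2 : (⟨Nat.find hex, hn⟩ : Fin w) = i0 := Fin.ext h1
      rw [h2]
      exact h0
    · exact lt_of_le_of_ne (h _ h1) hne

private theorem deg_width {l : Finset ℕ → ℕ} {Y : Finset ℕ} {m : ℕ} (L : List (Bool × BT))
    (z : BT) (h : DegAt l Y m L z) : ∃ t, Sub t (BT.wrap L z) ∧ l t.set = m := by
  induction L with
  | nil => exact h.elim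
  | cons p L ih =>
    obtain ⟨c, s⟩ := p
    rcases h with ⟨t, ht, -, hw⟩ | ⟨hw, -, -⟩ | h
    · exact ⟨t, ht.trans (sub_wrap_sib List.mem_cons_self), hw⟩
    · exact ⟨_, Sub.refl _, hw⟩
    · obtain ⟨t, ht, hw⟩ := ih h
      refine ⟨t, ?_, hw⟩
      cases c
      · exact Sub.right ht
      · exact Sub.left ht

private theorem pw_top {l : Finset ℕ → ℕ} {m : ℕ} {L : List (Bool × BT)} {z : BT}
    (h : PW l m L z) : m ≤ l (BT.wrap L z).set := by
  cases L with
  | nil => exact h
  | cons p L => exact h.1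

private theorem pw_mono {l : Finset ℕ → ℕ} {m m' : ℕ} (hm : m' ≤ m) {L : List (Bool × BT)}
    {z : BT} (h : PW l m L z) : PW l m' L z := by
  induction L with
  | nil => exact le_trans hm h
  | cons p L ih => exact ⟨le_trans hm h.1, ih h.2⟩

/-- uncrossing decreases the potential -/
theorem pot_new {E : Finset ℕ} {l : Finset ℕ → ℕ} {L : List (Bool × BT)} {z : BT}
    {Y : Finset ℕ} {κ w : ℕ} (h : Cfg E l L z Y κ) (hP : PW l (κ + 1) L z)
    (hw : (BT.wrap L z).Wid l w) :
    pot l w (owr Y ((BT.wrap L z).inter Y) L) < pot l w (BT.wrap L z) := by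
  classical
  have hκw : κ + 1 ≤ w := le_trans (pw_top hP) (hw _ (Sub.refl _))
  have hle : ∀ m, κ < m → (∀ m', m ≤ m' → ¬ DegAt l Y m' L z) →
      (toLex (cN l m (owr Y ((BT.wrap L z).inter Y) L), cE l m (owr Y ((BT.wrap L z).inter Y) L)) :
        ℕ ×ₗ ℕ) ≤ toLex (cN l m (BT.wrap L z), cE l m (BT.wrap L z)) := by
    intro m hm hd
    exact Prod.Lex.toLex_mono ⟨(countN h hm fun m' hm' => hd m' hm'.le).1, (countE h hm hd).1⟩
  by_cases hdeg : ∃ m, κ < m ∧ DegAt l Y m L z
  · -- the largest width at which something is degraded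
    have hbd : ∀ m, κ < m ∧ DegAt l Y m L z → m ≤ w := by
      rintro m ⟨-, hm⟩
      obtain ⟨t, ht, rfl⟩ := deg_width L z hm
      exact hw t ht
    obtain ⟨m1, hm1⟩ : ∃ m1, m1 = Nat.findGreatest (fun m => κ < m ∧ DegAt l Y m L z) w := ⟨_, rfl⟩
    obtain ⟨m0, hm0⟩ := hdeg
    have hspec : κ < m1 ∧ DegAt l Y m1 L z := by
      rw [hm1]
      exact Nat.findGreatest_spec (P := fun m => κ < m ∧ DegAt l Y m L z) (hbd m0 hm0) hm0
    have hmax : ∀ m', m1 < m' → ¬ DegAt l Y m' L z := by
      intro m' hm' hd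
      have h1 : κ < m' ∧ DegAt l Y m' L z := ⟨by omega, hd⟩
      have h2 := Nat.le_findGreatest (P := fun m => κ < m ∧ DegAt l Y m L z) (hbd m' h1) h1
      rw [← hm1] at h2
      omega
    have hm1w : m1 ≤ w := hbd m1 hspec
    have hi : w - m1 < w := by omega
    refine lt_lex_aux ⟨w - m1, hi⟩ ?_ ?_
    · have e : w - (w - m1) = m1 := by omega
      show (toLex (cN l (w - (w - m1)) _, cE l (w - (w - m1)) _) : ℕ ×ₗ ℕ) < toLex (_, _)
      rw [e, Prod.Lex.toLex_lt_toLex]
      exact Or.inl ((countN h hspec.1 hmax).2 hspec.2)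
    · intro j hj
      have hj' : (j : ℕ) < w - m1 := hj
      exact hle (w - j) (by omega) fun m' hm' => hmax m' (by omega)
  · push Not at hdeg
    have hi : w - (κ + 1) < w := by omega
    refine lt_lex_aux ⟨w - (κ + 1), hi⟩ ?_ ?_
    · have e : w - (w - (κ + 1)) = κ + 1 := by omega
      show (toLex (cN l (w - (w - (κ + 1))) _, cE l (w - (w - (κ + 1))) _) : ℕ ×ₗ ℕ) <
        toLex (_, _)
      rw [e, Prod.Lex.toLex_lt_toLex']
      refine ⟨(countN h (Nat.lt_succ_self κ) fun m' hm' => hdeg m' (by omega)).1, fun _ => ?_⟩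
      exact (countE h (Nat.lt_succ_self κ) fun m' hm' => hdeg m' (by omega)).2 rfl hP
    · intro j hj
      have hj' : (j : ℕ) < w - (κ + 1) := hj
      exact hle (w - j) (by omega) fun m' hm' => hdeg m' (by omega)

private theorem pot_shift {l : Finset ℕ → ℕ} {w : ℕ} {a a' t t' : BT} (C D : ℕ → ℕ)
    (h1 : ∀ m, cN l m t = cN l m a + C m) (h2 : ∀ m, cN l m t' = cN l m a' + C m)
    (h3 : ∀ m, cE l m t = cE l m a + D m) (h4 : ∀ m, cE l m t' = cE l m a' + D m)
    (h : pot l w a' < pot l w a) : pot l w t' < pot l w t := by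
  obtain ⟨i, hi1, hi2⟩ := h
  refine ⟨i, ?_, ?_⟩
  · intro j hj
    have h5 := hi1 j hj
    change (toLex (cN l (w - j) a', cE l (w - j) a') : ℕ ×ₗ ℕ) =
      toLex (cN l (w - j) a, cE l (w - j) a) at h5
    show (toLex (cN l (w - j) t', cE l (w - j) t') : ℕ ×ₗ ℕ) =
      toLex (cN l (w - j) t, cE l (w - j) t)
    have h6 := Prod.mk.inj (toLex.injective h5)
    rw [h1, h2, h3, h4, h6.1, h6.2]
  · change (toLex (cN l (w - i) a', cE l (w - i) a') : ℕ ×ₗ ℕ) <
      toLex (cN l (w - i) a, cE l (w - i) a) at hi2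
    show (toLex (cN l (w - i) t', cE l (w - i) t') : ℕ ×ₗ ℕ) <
      toLex (cN l (w - i) t, cE l (w - i) t)
    rw [Prod.Lex.toLex_lt_toLex'] at hi2 ⊢
    rw [h1, h2, h3, h4]
    change cN l (w - i) a' ≤ cN l (w - i) a ∧ (cN l (w - i) a' = cN l (w - i) a →
      cE l (w - i) a' < cE l (w - i) a) at hi2
    show cN l (w - i) a' + C (w - i) ≤ cN l (w - i) a + C (w - i) ∧
      (cN l (w - i) a' + C (w - i) = cN l (w - i) a + C (w - i) →
        cE l (w - i) a' + D (w - i) < cE l (w - i) a + D (w - i))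
    refine ⟨by omega, fun h5 => ?_⟩
    have := hi2.2 (by omega)
    omega

/-- replacing a subtree by a better one with the same set -/
theorem pot_replace {l : Finset ℕ → ℕ} {w : ℕ} {x t x' : BT} (h : Sub x t)
    (hset : x'.set = x.set) (hok : x'.Ok) (htok : t.Ok) (hw : x'.Wid l w) (htw : t.Wid l w)
    (hlt : pot l w x' < pot l w x) :
    ∃ t', t'.set = t.set ∧ t'.Ok ∧ t'.Wid l w ∧ pot l w t' < pot l w t := by
  induction h with
  | refl => exact ⟨x', hset, hok, hw, hlt⟩
  | @left a b _ ih =>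
    obtain ⟨hoa, hob, hd⟩ := htok
    obtain ⟨a', e1, e2, e3, e4⟩ := ih hoa (fun t ht => htw t (Sub.left ht))
    refine ⟨node a' b, ?_, ⟨e2, hob, by rw [e1]; exact hd⟩, ?_, ?_⟩
    · show a'.set ∪ b.set = a.set ∪ b.set
      rw [e1]
    · intro t ht
      cases ht with
      | refl =>
        show l (a'.set ∪ b.set) ≤ w
        rw [e1]
        exact htw _ (Sub.refl _)
      | left ht => exact e3 t ht
      | right ht => exact htw t (Sub.right ht)
    · refine pot_shift (fun m => cN l m b + if m ≤ l (a.set ∪ b.set) then 1 else 0)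
        (fun m => cE l m b + (if m ≤ l (a.set ∪ b.set) ∧ m ≤ l a.set then 1 else 0) +
          (if m ≤ l (a.set ∪ b.set) ∧ m ≤ l b.set then 1 else 0)) ?_ ?_ ?_ ?_ e4
      · intro m
        show cN l m a + cN l m b + _ = _
        ring
      · intro m
        show cN l m a' + cN l m b + (if m ≤ l (a'.set ∪ b.set) then 1 else 0) = _
        rw [e1]
        ring
      · intro m
        show cE l m a + cE l m b + _ + _ = _
        ring
      · intro m
        show cE l m a' + cE l m b + (if m ≤ l (a'.set ∪ b.set) ∧ m ≤ l a'.set then 1 else 0) +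
          (if m ≤ l (a'.set ∪ b.set) ∧ m ≤ l b.set then 1 else 0) = _
        rw [e1]
        ring
  | @right a b _ ih =>
    obtain ⟨hoa, hob, hd⟩ := htok
    obtain ⟨b', e1, e2, e3, e4⟩ := ih hob (fun t ht => htw t (Sub.right ht))
    refine ⟨node a b', ?_, ⟨hoa, e2, by rw [e1]; exact hd⟩, ?_, ?_⟩
    · show a.set ∪ b'.set = a.set ∪ b.set
      rw [e1]
    · intro t ht
      cases ht with
      | refl =>
        show l (a.set ∪ b'.set) ≤ w
        rw [e1]
        exact htw _ (Sub.refl _)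
      | left ht => exact htw t (Sub.left ht)
      | right ht => exact e3 t ht
    · refine pot_shift (fun m => cN l m a + if m ≤ l (a.set ∪ b.set) then 1 else 0)
        (fun m => cE l m a + (if m ≤ l (a.set ∪ b.set) ∧ m ≤ l a.set then 1 else 0) +
          (if m ≤ l (a.set ∪ b.set) ∧ m ≤ l b.set then 1 else 0)) ?_ ?_ ?_ ?_ e4
      · intro m
        show cN l m a + cN l m b + _ = _
        ring
      · intro m
        show cN l m a + cN l m b' + (if m ≤ l (a.set ∪ b'.set) then 1 else 0) = _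
        rw [e1]
        ring
      · intro m
        show cE l m a + cE l m b + _ + _ = _
        ring
      · intro m
        show cE l m a + cE l m b' + (if m ≤ l (a.set ∪ b'.set) ∧ m ≤ l a.set then 1 else 0) +
          (if m ≤ l (a.set ∪ b'.set) ∧ m ≤ l b'.set then 1 else 0) = _
        rw [e1]
        ring

theorem exists_linked {E : Finset ℕ} {l : Finset ℕ → ℕ} {w : ℕ} (hs : SymSub E l) {t : BT}
    (hok : t.Ok) (hset : t.set = E) (hw : t.Wid l w) :
    ∃ t' : BT, t'.Ok ∧ t'.set = E ∧ t'.Wid l w ∧ Linked l t' := by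
  have hwf : WellFounded (fun a b : Lex (Fin w → ℕ ×ₗ ℕ) => a < b) := wellFounded_lt
  obtain ⟨T, hT, hmin⟩ := (InvImage.wf (pot l w) hwf).has_min
    {s : BT | s.Ok ∧ s.set = E ∧ s.Wid l w} ⟨t, hok, hset, hw⟩
  obtain ⟨hTok, hTset, hTw⟩ := hT
  refine ⟨T, hTok, hTset, hTw, ?_⟩
  intro x z m hx hxm hzm hDn Y0 hzY hYx
  by_contra hcon
  push Not at hcon
  obtain ⟨L, rfl, hPW⟩ := hDn.wrap
  have hxok : (BT.wrap L z).Ok := hx.ok hTok
  have hxE : (BT.wrap L z).set ⊆ E := by
    rw [← hTset]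
    exact hx.set_subset
  have hxw : (BT.wrap L z).Wid l w := fun s hs' => hTw s (hs'.trans hx)
  obtain ⟨Y, κ, hcfg⟩ := choose_Y hs hxok hxE
  have h1 := hcfg.min Y0 hzY hYx
  have h2 := pot_new hcfg (pw_mono (by omega : κ + 1 ≤ m) hPW) hxw
  obtain ⟨e1, e2⟩ := hcfg.new
  obtain ⟨T', f1, f2, f3, f4⟩ := pot_replace hx e1 e2 hTok (hcfg.wid hxw) hTw h2
  exact hmin T' ⟨f2, f1.trans hTset, f3⟩ f4

end Pool.Agent.Helper28.BW
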