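import Pool.Agent.Helper28.BW.OptSplit

/-!
# BW-10: optimal representations, balanced classes have two boundary vertices

Let `G` be optimal, `A ∈ F`, `v ∈ bd G E A`, `B = E \ A`.
`m2i_left`. If the `A`-component of `v` is balanced then it contains another vertex of `bd G E A`. Proof. Suppose not.
Choose `v'` outside `vs G E` (finite) and let `G' = spl G A v v'`. In `G'` the component of `v'` (all edges of `E`)
is `C = {v'} ∪ (cls (img G A) v \ {v})`: an edge `e` of `E` of `G'` with an end in `C`: if the end is `v'` then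
`e ∈ A` (it was at `v`); if the end is `w ∈ cls (img G A) v`, `w ≠ v`, then `w ∈ vs G A` and `w` is not in
the boundary, so all edges of `E` at `w` are in `A`; in both cases the other end is in `C` as well. So by `W_closed`
walks from `v'` in `img G' E` are walks of `img G' A` and stay in `C`; renaming `v'` to `v` they are walks of
`img G A` from `v`. So `v ∉ C` is not joined to `v'` and `v'` is balanced in `G'`: `(v, v', 1)` is not in the
closure, against `opt_split`.
`m2i_right`. If the `B`-component of `v` is balanced then it contains another vertex of `bd G E A`. Same proof: in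
`G'` the component of `v` is `cls (img G B) v`, by the same argument (the edges of `G'` at `v` are in `B`, every
other vertex of `cls (img G B) v` is in `vs G B` and not in the boundary), which does not contain `v'` and is
balanced.
-/

set_option autoImplicit false

namespace Pool.Agent.Helper28.BW

variable {H : Type} [Group H]

private theorem exists_new (G : GG H) (E : Finset ℕ) : ∃ v', v' ∉ vs G E :=
  (vs_finite G E).exists_notMem

private theorem spl_mem {G : GG H} {A : Finset ℕ} {v v' e : ℕ} (he : e ∈ A) :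
    spl G A v v' e = (if (G e).1 = v then v' else (G e).1,
      if (G e).2.1 = v then v' else (G e).2.1, (G e).2.2) := by
  unfold spl
  rw [if_pos he]

private theorem spl_notMem {G : GG H} {A : Finset ℕ} {v v' e : ℕ} (he : e ∉ A) :
    spl G A v v' e = G e := by
  unfold spl
  rw [if_neg he]

private theorem end1 {G : GG H} {X : Finset ℕ} {e : ℕ} (he : e ∈ X) : (G e).1 ∈ vs G X :=
  mem_vx_left (Set.mem_image_of_mem G he)

private theorem end2 {G : GG H} {X : Finset ℕ} {e : ℕ} (he : e ∈ X) : (G e).2.1 ∈ vs G X :=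
  mem_vx_right (Set.mem_image_of_mem G he)

private theorem edge_con {G : GG H} {X : Finset ℕ} {e : ℕ} (he : e ∈ X) :
    Con (img G X) (G e).1 (G e).2.1 :=
  ⟨(G e).2.2, W.edge (Set.mem_image_of_mem G he)⟩

theorem m2i_left {G : GG H} {r : Finset ℕ → ℕ} {E : Finset ℕ} {F : List (Finset ℕ)}
    (h : Opt G r E F) {A : Finset ℕ} (hA : A ∈ F) {v : ℕ} (hv : v ∈ bd G E A)
    (hb : ¬ Unb (img G A) v) : ∃ w ∈ bd G E A, w ≠ v ∧ Con (img G A) v w := by
  by_contra hcon
  push Not at hcon
  have hAE : A ⊆ E := h.2.1.1 A hA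
  obtain ⟨v', hv'⟩ := exists_new G E
  have hvE : v ∈ vs G E := vs_mono G hAE hv.1
  have hne : v ≠ v' := fun h1 => hv' (h1 ▸ hvE)
  have hcl := opt_split h hA hv hv'
  -- the component of `v'`
  let C : Set ℕ := {x | x = v' ∨ (Con (img G A) v x ∧ x ≠ v)}
  have hCv : v ∉ C := by
    rintro (h1 | h1)
    · exact hne h1
    · exact h1.2 rfl
  -- an end of an edge in `A`
  have hσ : ∀ a, a ∈ vs G E → ((if a = v then v' else a) ∈ C ↔ Con (img G A) v a) := by
    intro a ha
    by_cases hav : a = v
    · rw [if_pos hav, hav]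
      exact ⟨fun _ => Con.refl _ _, fun _ => Or.inl rfl⟩
    · rw [if_neg hav]
      constructor
      · rintro (h1 | h1)
        · exact absurd (h1 ▸ ha) hv'
        · exact h1.1
      · exact fun h1 => Or.inr ⟨h1, hav⟩
  have hclosed : ∀ t ∈ img (spl G A v v') E, (t.1 ∈ C ∨ t.2.1 ∈ C) →
      t.1 ∈ C ∧ t.2.1 ∈ C ∧ t ∈ img (spl G A v v') A := by
    rintro _ ⟨e, he, rfl⟩ hor
    have he' : e ∈ E := he
    by_cases heA : e ∈ A
    · have h1 : (G e).1 ∈ vs G E := end1 he'
      have h2 : (G e).2.1 ∈ vs G E := end2 he'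
      have h3 : Con (img G A) v (G e).1 ∧ Con (img G A) v (G e).2.1 := by
        rw [spl_mem heA] at hor
        simp only at hor
        rw [hσ _ h1, hσ _ h2] at hor
        rcases hor with h4 | h4
        · exact ⟨h4, h4.trans (edge_con heA)⟩
        · exact ⟨h4.trans (edge_con heA).symm, h4⟩
      refine ⟨?_, ?_, Set.mem_image_of_mem _ heA⟩
      · rw [spl_mem heA]
        exact (hσ _ h1).2 h3.1
      · rw [spl_mem heA]
        exact (hσ _ h2).2 h3.2
    · exfalso
      rw [spl_notMem heA] at hor
      have heB : e ∈ E \ A := Finset.mem_sdiff.2 ⟨he', heA⟩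
      have hno : ∀ a, a ∈ vs G (E \ A) → a ∉ C := by
        rintro a ha (h1 | h1)
        · exact hv' (h1 ▸ vs_mono G Finset.sdiff_subset ha)
        · rcases Con_ends h1.1 with h2 | h2
          · exact h1.2 h2.symm
          · exact hcon a ⟨h2.2, ha⟩ h1.2 h1.1
      rcases hor with h1 | h1
      · exact hno _ (end1 heB) h1
      · exact hno _ (end2 heB) h1
  have hC' : v' ∈ C := Or.inl rfl
  rcases hcl with h1 | h1
  · exact hCv (W_closed hC' hclosed h1.symm).1
  · obtain ⟨g, hg, hW⟩ := h1.2
    have h2 := (W_closed hC' hclosed hW).2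
    have h3 := W_map (σ := fun u => if u = v' then v else u) h2
    simp only [if_true] at h3
    refine hb ⟨g, hg, h3.mono ?_⟩
    rintro _ ⟨_, ⟨e, he, rfl⟩, rfl⟩
    have heA : e ∈ A := he
    refine ⟨e, he, ?_⟩
    have hτ : ∀ a, a ∈ vs G E → (if (if a = v then v' else a) = v' then v else
        (if a = v then v' else a)) = a := by
      intro a ha
      by_cases hav : a = v
      · rw [if_pos hav, if_pos rfl, hav]
      · have h4 : a ≠ v' := fun h4 => hv' (h4 ▸ ha)
        rw [if_neg hav, if_neg h4]
    rw [spl_mem heA]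
    simp only
    rw [hτ _ (end1 (hAE heA)), hτ _ (end2 (hAE heA))]

theorem m2i_right {G : GG H} {r : Finset ℕ → ℕ} {E : Finset ℕ} {F : List (Finset ℕ)}
    (h : Opt G r E F) {A : Finset ℕ} (hA : A ∈ F) {v : ℕ} (hv : v ∈ bd G E A)
    (hb : ¬ Unb (img G (E \ A)) v) : ∃ w ∈ bd G E A, w ≠ v ∧ Con (img G (E \ A)) v w := by
  by_contra hcon
  push Not at hcon
  have hAE : A ⊆ E := h.2.1.1 A hA
  obtain ⟨v', hv'⟩ := exists_new G E
  have hvE : v ∈ vs G E := vs_mono G hAE hv.1
  have hne : v ≠ v' := fun h1 => hv' (h1 ▸ hvE)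
  have hcl := opt_split h hA hv hv'
  let C : Set ℕ := cls (img G (E \ A)) v
  have hCv' : v' ∉ C := by
    intro h1
    rcases Con_ends (show Con (img G (E \ A)) v v' from h1) with h2 | h2
    · exact hne h2
    · exact hv' (vs_mono G Finset.sdiff_subset h2.2)
  have hclosed : ∀ t ∈ img (spl G A v v') E, (t.1 ∈ C ∨ t.2.1 ∈ C) →
      t.1 ∈ C ∧ t.2.1 ∈ C ∧ t ∈ img G (E \ A) := by
    rintro _ ⟨e, he, rfl⟩ hor
    have he' : e ∈ E := he
    by_cases heA : e ∈ A
    · exfalso
      rw [spl_mem heA] at hor
      simp only at hor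
      have hno : ∀ a, a ∈ vs G A → (if a = v then v' else a) ∉ C := by
        intro a ha h1
        by_cases hav : a = v
        · rw [if_pos hav] at h1
          exact hCv' h1
        · rw [if_neg hav] at h1
          have h2 : Con (img G (E \ A)) v a := h1
          rcases Con_ends h2 with h3 | h3
          · exact hav h3.symm
          · exact hcon a ⟨ha, h3.2⟩ hav h2
      rcases hor with h1 | h1
      · exact hno _ (end1 heA) h1
      · exact hno _ (end2 heA) h1
    · have heB : e ∈ E \ A := Finset.mem_sdiff.2 ⟨he', heA⟩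
      rw [spl_notMem heA] at hor ⊢
      have h3 : Con (img G (E \ A)) v (G e).1 ∧ Con (img G (E \ A)) v (G e).2.1 := by
        rcases hor with h4 | h4
        · have h5 : Con (img G (E \ A)) v (G e).1 := h4
          exact ⟨h5, h5.trans (edge_con heB)⟩
        · have h5 : Con (img G (E \ A)) v (G e).2.1 := h4
          exact ⟨h5.trans (edge_con heB).symm, h5⟩
      exact ⟨h3.1, h3.2, Set.mem_image_of_mem G heB⟩
  have hC : v ∈ C := mem_cls_self _ _
  rcases hcl with h1 | h1
  · exact hCv' (W_closed hC hclosed h1).1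
  · obtain ⟨g, hg, hW⟩ := h1.1
    exact hb ⟨g, hg, (W_closed hC hclosed hW).2⟩

end Pool.Agent.Helper28.BW
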