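import Pool.Agent.Helper28.BW.OptSplit

/-!
# BW-11: optimal representations, a balanced digon of components is balanced

Let `G` be optimal, `A ∈ F`, `B = E \ A`, `S = bd G E A`. Suppose the `A`-component `L` of `y` and the
`B`-component `K` of `y` are balanced and both contain exactly the vertices `x`, `y` of `S` (`x ≠ y`). Then `y` is
balanced in `img G E`.
Proof. Suppose `y` is unbalanced in `E`. Let `g` be the gain from `y` to `x` in `A` and `g'` the gain from `y`
to `x` in `B`; both unique. If `g = g'` then `y` is balanced in `E`: define `φ w` for `w ∈ L ∪ K` as the gain from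
`y` to `w` in `A` resp. `B` (the common vertices of `L` and `K` are in `S`, so they are `x` and `y`, where the
two definitions agree); every edge `(a, b, c)` of `E` with an end in `L ∪ K` has both ends in `L` (if it is in `A`)
or in `K` (if it is in `B`) and satisfies `φ b = φ a * c`; so every walk from `y` to `w` in `E` has gain `φ w`,
and walks from `y` to `y` have gain `1`, contradiction. So `g ≠ g'`.
Split at `y`: `G' = spl G A y y'`. The component of `y` in `G'` (all edges) is contained in
`K ∪ (L \ {y}) ∪ {y'}`, where now `K` and `L' = (L \ {y}) ∪ {y'}` meet only in `x`. Define `φ' w` for `w ∈ K` as the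
gain from `y` to `w` in `B` and for `w ∈ L'` as `g' * g⁻¹ *` (gain from `y` to `w` in `A`, with `y'` in place of `y`);
these agree at `x` (both are `g'`). Every walk of `G'` from `y` to `w` has gain `φ' w`. So `y` is balanced in `G'`
(`φ' y = 1`) and a walk from `y` to `y'` has gain `g' * g⁻¹ ≠ 1`. So `(y, y', 1)` is not in the closure, against
`opt_split`.
-/

set_option autoImplicit false

namespace Pool.Agent.Helper28.BW

variable {H : Type} [Group H]

/-- a step along an edge in either direction -/
private def st (T : Set (Tri H)) (v w : ℕ) (c : H) : Prop := (v, w, c) ∈ T ∨ (w, v, c⁻¹) ∈ T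

private theorem st_W {T : Set (Tri H)} {u v w : ℕ} {h c : H} (h1 : W T u v h) (h2 : st T v w c) :
    W T u w (h * c) := by
  rcases h2 with h2 | h2
  · exact W.fwd h1 h2
  · have h3 := W.bwd h1 h2
    rwa [inv_inv] at h3

private theorem st_vx {T : Set (Tri H)} {v w : ℕ} {c : H} (h2 : st T v w c) : v ∈ vx T := by
  rcases h2 with h2 | h2
  · exact mem_vx_left h2
  · exact mem_vx_right h2

private theorem W_rel {T : Set (Tri H)} {u : ℕ} (P : ℕ → H → Prop) (h0 : P u 1)
    (hs : ∀ v w h c, P v h → st T v w c → P w (h * c)) {v : ℕ} {h : H} (hw : W T u v h) :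
    P v h := by
  induction hw with
  | refl => exact h0
  | fwd _ h2 ih => exact hs _ _ _ _ ih (Or.inl h2)
  | bwd _ h2 ih => exact hs _ _ _ _ ih (Or.inr (by rwa [inv_inv]))

theorem m2ii {G : GG H} {r : Finset ℕ → ℕ} {E : Finset ℕ} {F : List (Finset ℕ)}
    (h : Opt G r E F) {A : Finset ℕ} (hA : A ∈ F) {x y : ℕ}
    (h1 : Two (img G A) (bd G E A) y x) (h2 : Two (img G (E \ A)) (bd G E A) y x) :
    ¬ Unb (img G E) y := by
  classical
  have hAE : A ⊆ E := h.2.1.1 A hA
  obtain ⟨hyS, hxS, hyx, hbA, ⟨g, hg⟩, honlyA⟩ := h1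
  obtain ⟨-, -, -, hbB, ⟨g', hg'⟩, honlyB⟩ := h2
  have hone : ∀ {T : Set (Tri H)} {k : H}, ¬ Unb T y → W T y y k → k = 1 := by
    intro T k hb hk
    by_contra hne
    exact hb ⟨k, hne, hk⟩
  -- membership in the boundary
  have hSA : ∀ v k, W (img G A) y v k → v ∈ vx (img G (E \ A)) → v = y ∨ v = x := by
    intro v k hk hv
    rcases W_ends hk with h3 | h3
    · exact Or.inl h3.1.symm
    · exact honlyA v ⟨h3.2, hv⟩ ⟨k, hk⟩
  have hSB : ∀ v k, W (img G (E \ A)) y v k → v ∈ vx (img G A) → v = y ∨ v = x := by
    intro v k hk hv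
    rcases W_ends hk with h3 | h3
    · exact Or.inl h3.1.symm
    · exact honlyB v ⟨hv, h3.2⟩ ⟨k, hk⟩
  have himg : img G E = img G A ∪ img G (E \ A) := by
    rw [← img_union, Finset.union_sdiff_of_subset hAE]
  rintro ⟨k0, hk0, hW0⟩
  -- the two gains are different
  have hgg : g ≠ g' := by
    intro hgg
    have hP : W (img G A) y y k0 ∨ W (img G (E \ A)) y y k0 := by
      refine W_rel (T := img G E) (u := y)
        (fun v k => W (img G A) y v k ∨ W (img G (E \ A)) y v k) (Or.inl (W.refl y)) ?_ hW0
      intro v w k c hP hst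
      have hst' : st (img G A) v w c ∨ st (img G (E \ A)) v w c := by
        rcases hst with h3 | h3
        · rw [himg] at h3
          rcases h3 with h3 | h3
          · exact Or.inl (Or.inl h3)
          · exact Or.inr (Or.inl h3)
        · rw [himg] at h3
          rcases h3 with h3 | h3
          · exact Or.inl (Or.inr h3)
          · exact Or.inr (Or.inr h3)
      rcases hP with hP | hP
      · rcases hst' with h3 | h3
        · exact Or.inl (st_W hP h3)
        · rcases hSA v k hP (st_vx h3) with h4 | h4
          · subst h4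
            rw [hone hbA hP]
            exact Or.inr (st_W (W.refl _) h3)
          · subst h4
            rw [W_unique hbA hP hg, hgg]
            exact Or.inr (st_W hg' h3)
      · rcases hst' with h3 | h3
        · rcases hSB v k hP (st_vx h3) with h4 | h4
          · subst h4
            rw [hone hbB hP]
            exact Or.inl (st_W (W.refl _) h3)
          · subst h4
            rw [W_unique hbB hP hg', ← hgg]
            exact Or.inl (st_W hg h3)
        · exact Or.inr (st_W hP h3)
    rcases hP with hP | hP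
    · exact hk0 (hone hbA hP)
    · exact hk0 (hone hbB hP)
  -- the splitting
  obtain ⟨y', hy'⟩ : ∃ y' : ℕ, y' ∉ vs G E := by
    obtain ⟨y', h3⟩ := Infinite.exists_notMem_finset (vs_finite G E).toFinset
    exact ⟨y', fun h4 => h3 ((Set.Finite.mem_toFinset _).2 h4)⟩
  have hvA : vx (img G A) ⊆ vs G E := vs_mono G hAE
  have hvB : vx (img G (E \ A)) ⊆ vs G E := vs_mono G Finset.sdiff_subset
  have hyE : y ∈ vs G E := hvA hyS.1
  have hyy : y ≠ y' := fun h3 => hy' (h3 ▸ hyE)
  have hcl := opt_split h hA hyS hy'
  let σ : ℕ → ℕ := fun w => if w = y then y' else w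
  have hσy : σ y = y' := if_pos rfl
  have hσn : ∀ w, w ≠ y → σ w = w := fun w hw => if_neg hw
  have hσne : ∀ w, σ w ≠ y := by
    intro w hw
    by_cases h3 : w = y
    · rw [h3, hσy] at hw
      exact hyy hw.symm
    · rw [hσn w h3] at hw
      exact h3 hw
  have hWE : ∀ {w : ℕ} {k : H}, W (img G A) y w k → w ∈ vs G E := by
    intro w k hk
    rcases W_ends hk with h3 | h3
    · rw [← h3.1]
      exact hyE
    · exact hvA h3.2
  have hσinj : ∀ a b, a ∈ vs G E → b ∈ vs G E → σ a = σ b → a = b := by
    intro a b ha hb hab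
    by_cases h3 : a = y
    · by_cases h4 : b = y
      · rw [h3, h4]
      · exfalso
        rw [h3, hσy, hσn b h4] at hab
        exact hy' (hab ▸ hb)
    · by_cases h4 : b = y
      · exfalso
        rw [h4, hσy, hσn a h3] at hab
        exact hy' (hab ▸ ha)
      · rwa [hσn a h3, hσn b h4] at hab
  have hstep : ∀ v w c, st (img (spl G A y y') E) v w c →
      st (img G (E \ A)) v w c ∨ ∃ a b, st (img G A) a b c ∧ v = σ a ∧ w = σ b := by
    have hmem : ∀ t ∈ img (spl G A y y') E, t ∈ img G (E \ A) ∨
        ∃ s ∈ img G A, t = (σ s.1, σ s.2.1, s.2.2) := by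
      rintro t ⟨e, he, rfl⟩
      by_cases heA : e ∈ A
      · right
        refine ⟨G e, ⟨e, heA, rfl⟩, ?_⟩
        unfold spl
        rw [if_pos heA]
      · left
        refine ⟨e, ?_, ?_⟩
        · rw [Finset.mem_coe, Finset.mem_sdiff]
          exact ⟨he, heA⟩
        · unfold spl
          rw [if_neg heA]
    rintro v w c (h3 | h3)
    · rcases hmem _ h3 with h4 | ⟨s, hs, h4⟩
      · exact Or.inl (Or.inl h4)
      · right
        rw [Prod.mk.injEq, Prod.mk.injEq] at h4
        refine ⟨s.1, s.2.1, Or.inl ?_, h4.1, h4.2.1⟩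
        rw [h4.2.2]
        exact hs
    · rcases hmem _ h3 with h4 | ⟨s, hs, h4⟩
      · exact Or.inl (Or.inr h4)
      · right
        rw [Prod.mk.injEq, Prod.mk.injEq] at h4
        refine ⟨s.2.1, s.1, Or.inr ?_, h4.2.1, h4.1⟩
        rw [h4.2.2]
        exact hs
  have hP : ∀ v k, W (img (spl G A y y') E) y v k →
      (W (img G (E \ A)) y v k ∨ ∃ w0 k0, W (img G A) y w0 k0 ∧ v = σ w0 ∧ k = g' * g⁻¹ * k0) := by
    intro v k hk
    refine W_rel (T := img (spl G A y y') E) (u := y)
      (fun v k => W (img G (E \ A)) y v k ∨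
        ∃ w0 k0, W (img G A) y w0 k0 ∧ v = σ w0 ∧ k = g' * g⁻¹ * k0) (Or.inl (W.refl y)) ?_ hk
    rintro v w k c (hB | ⟨w0, k0, hA0, rfl, rfl⟩) hst
    · rcases hstep v w c hst with h3 | ⟨a, b, h3, rfl, rfl⟩
      · exact Or.inl (st_W hB h3)
      · right
        have haA := st_vx h3
        have hay : a ≠ y := by
          intro h4
          rw [h4, hσy] at hB
          rcases W_ends hB with h5 | h5
          · exact hyy h5.1
          · exact hy' (hvB h5.2)
        rw [hσn a hay] at hB
        rcases hSB a k hB haA with h4 | h4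
        · exact absurd h4 hay
        · subst h4
          refine ⟨b, g * c, st_W hg h3, rfl, ?_⟩
          rw [W_unique hbB hB hg']
          group
    · rcases hstep _ w c hst with h3 | ⟨a, b, h3, h4, rfl⟩
      · left
        have hvB' := st_vx h3
        have hw0 : w0 ≠ y := by
          intro h4
          rw [h4, hσy] at hvB'
          exact hy' (hvB hvB')
        rw [hσn w0 hw0] at h3 hvB'
        rcases hSA w0 k0 hA0 hvB' with h4 | h4
        · exact absurd h4 hw0
        · subst h4
          rw [W_unique hbA hA0 hg, inv_mul_cancel_right]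
          exact st_W hg' h3
      · right
        have h5 : w0 = a := hσinj w0 a (hWE hA0) (hvA (st_vx h3)) h4
        subst h5
        exact ⟨b, k0 * c, st_W hA0 h3, rfl, by rw [mul_assoc]⟩
  rcases hcl with hcl | hcl
  · rcases hP _ _ hcl with h3 | ⟨w0, k1, h3, h4, h5⟩
    · rcases W_ends h3 with h6 | h6
      · exact hyy h6.1
      · exact hy' (hvB h6.2)
    · have h6 : w0 = y := by
        by_contra h7
        have h8 : y' = w0 := by
          rw [← hσn w0 h7]
          exact h4
        exact hy' (h8 ▸ hWE h3)
      rw [h6] at h3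
      have h7 := hone hbA h3
      apply hgg
      have h8 : (1 : H) = g' * g⁻¹ * k1 := h5
      rw [h7, mul_one] at h8
      exact (mul_inv_eq_one.1 h8.symm).symm
  · obtain ⟨k1, hk1, hW1⟩ := hcl.1
    rcases hP _ _ hW1 with h3 | ⟨w0, k2, h3, h4, h5⟩
    · exact hk1 (hone hbB h3)
    · exact hσne w0 h4.symm

end Pool.Agent.Helper28.BW
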