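import Pool.Agent.Helper28.BW.SwapLoc

/-!
# BW-14: the series swap decreases the boundary of `A` and increases no other one

`G' = swp G K L x y z`, `B = E \ A`, `R = E \ (K ∪ L)`. A vertex `w ∉ {x, y, z}` has the same edges in `G` and
in `G'`. In `G'`: the edges of `E` at `x` are the edges of `R` at `x` and the edges of `L` at `y` (in `G`); the edges at `y` are
the edges of `L` at `z` and the edges of `K` at `x` (in `G`); the edges at `z` are the edges of `K` at `y` and the
edges of `R` at `z` (in `G`). Edges of `R` at `x` are in `A` (`SwC.edge_x`), edges of `R` at `z` are in `B`.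
(i) `Y ⊆ A`. `K` is disjoint from `Y`. If `x` is in the new boundary of `Y` then there is an edge of `Y` at `x` in `G'`:
an edge of `R` at `x`, then `x ∈ bd G E Y` (as `K` has an edge at `x`), or an edge of `L` at `y`, then `y ∈ bd G E Y`
(`K` has an edge at `y`). If `y` is in the new boundary, there is an edge of `Y` at `y` in `G'`, it is in `L` and at
`z` in `G`, and `z ∈ vs G B`, so `z ∈ bd G E Y`. `z` is not in the new boundary: all its edges are in `B`. So
the new boundary of `Y` injects into the old one: `w ↦ w` for `w ∉ {x, y, z}`, `y ↦ z`, `x ↦ x` if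
`x ∈ bd G E Y` and `x ↦ y` otherwise.
(ii) `A ⊆ Y ⊆ E`: apply (i) to `SwC.symm` and `E \ Y ⊆ B` (`bd_compl`, `swp_symm`).
(iii) `Y` disjoint from `A`: `E \ Y` contains `A`; use (ii) and `bd_compl`.
(iv) `Y = A`: all edges at `x` in `G'` are in `A`, all edges at `z` in `G'` are in `B`, so neither is in the new
boundary; the new boundary is contained in the old one minus `x` (all three of `x, y, z` are in the old one).
-/

set_option autoImplicit false
set_option linter.unusedSectionVars false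

namespace Pool.Agent.Helper28.BW

variable {H : Type} [Group H] {G : GG H} {E A K L : Finset ℕ} {x y z : ℕ}

private def At (G : GG H) (e w : ℕ) : Prop := w = (G e).1 ∨ w = (G e).2.1

private theorem mem_vs {G : GG H} {X : Finset ℕ} {w : ℕ} : w ∈ vs G X ↔ ∃ e ∈ X, At G e w := by
  constructor
  · rintro ⟨t, ⟨e, he, rfl⟩, h⟩
    exact ⟨e, he, h⟩
  · rintro ⟨e, he, h⟩
    exact ⟨G e, ⟨e, he, rfl⟩, h⟩

private theorem mv_cases (a b c d u : ℕ) : (u = a ∧ mv a b c d u = b) ∨
    (u = c ∧ mv a b c d u = d) ∨ (u ≠ a ∧ u ≠ c ∧ mv a b c d u = u) := by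
  unfold mv
  by_cases h1 : u = a
  · left
    exact ⟨h1, if_pos h1⟩
  · right
    by_cases h2 : u = c
    · left
      refine ⟨h2, ?_⟩
      rw [if_neg h1, if_pos h2]
    · right
      refine ⟨h1, h2, ?_⟩
      rw [if_neg h1, if_neg h2]

/-- edges of `K` in the new graph -/
private theorem at_K (h : SwC G E A K L x y z) {e w : ℕ} (he : e ∈ K)
    (hw : At (swp G K L x y z) e w) :
    (w = y ∧ At G e x) ∨ (w = z ∧ At G e y) ∨ (w ≠ x ∧ w ≠ y ∧ w ≠ z ∧ At G e w) := by
  have hG : swp G K L x y z e = (mv x y y z (G e).1, mv x y y z (G e).2.1, (G e).2.2) := by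
    unfold swp
    rw [if_pos he]
  have key : ∀ u, At G e u → w = mv x y y z u →
      (w = y ∧ At G e x) ∨ (w = z ∧ At G e y) ∨ (w ≠ x ∧ w ≠ y ∧ w ≠ z ∧ At G e w) := by
    intro u hu hwu
    have huz : u ≠ z := by
      rintro rfl
      exact h.zL.2 (mem_vs.2 ⟨e, he, hu⟩)
    rcases mv_cases x y y z u with ⟨h1, h2⟩ | ⟨h1, h2⟩ | ⟨h1, h2, h3⟩
    · left
      rw [← h1]
      exact ⟨hwu.trans h2, hu⟩
    · right; left
      rw [← h1]
      exact ⟨hwu.trans h2, hu⟩
    · right; right
      rw [hwu, h3]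
      exact ⟨h1, h2, huz, hu⟩
  rcases hw with hw | hw
  · rw [hG] at hw
    exact key _ (Or.inl rfl) hw
  · rw [hG] at hw
    exact key _ (Or.inr rfl) hw

/-- edges of `L` in the new graph -/
private theorem at_L (h : SwC G E A K L x y z) {e w : ℕ} (he : e ∈ L)
    (hw : At (swp G K L x y z) e w) :
    (w = x ∧ At G e y) ∨ (w = y ∧ At G e z) ∨ (w ≠ x ∧ w ≠ y ∧ w ≠ z ∧ At G e w) := by
  have heK : e ∉ K := fun hK => (Finset.disjoint_left.1 h.disj) hK he
  have hG : swp G K L x y z e = (mv y x z y (G e).1, mv y x z y (G e).2.1, (G e).2.2) := by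
    unfold swp
    rw [if_neg heK, if_pos he]
  have key : ∀ u, At G e u → w = mv y x z y u →
      (w = x ∧ At G e y) ∨ (w = y ∧ At G e z) ∨ (w ≠ x ∧ w ≠ y ∧ w ≠ z ∧ At G e w) := by
    intro u hu hwu
    have hux : u ≠ x := by
      rintro rfl
      exact h.xK.2 (mem_vs.2 ⟨e, he, hu⟩)
    rcases mv_cases y x z y u with ⟨h1, h2⟩ | ⟨h1, h2⟩ | ⟨h1, h2, h3⟩
    · left
      rw [← h1]
      exact ⟨hwu.trans h2, hu⟩
    · right; left
      rw [← h1]
      exact ⟨hwu.trans h2, hu⟩
    · right; right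
      rw [hwu, h3]
      exact ⟨hux, h1, h2, hu⟩
  rcases hw with hw | hw
  · rw [hG] at hw
    exact key _ (Or.inl rfl) hw
  · rw [hG] at hw
    exact key _ (Or.inr rfl) hw

/-- other edges in the new graph -/
private theorem at_R {e w : ℕ} (h1 : e ∉ K) (h2 : e ∉ L) (hw : At (swp G K L x y z) e w) :
    At G e w := by
  have hG : swp G K L x y z e = G e := by
    unfold swp
    rw [if_neg h1, if_neg h2]
  unfold At at hw
  rw [hG] at hw
  exact hw

/-- a vertex different from `x, y, z` -/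
private theorem at_other (h : SwC G E A K L x y z) {e w : ℕ} (hx : w ≠ x) (hy : w ≠ y)
    (hz : w ≠ z) (hw : At (swp G K L x y z) e w) : At G e w := by
  by_cases hK : e ∈ K
  · rcases at_K h hK hw with h1 | h1 | h1
    · exact absurd h1.1 hy
    · exact absurd h1.1 hz
    · exact h1.2.2.2
  · by_cases hL : e ∈ L
    · rcases at_L h hL hw with h1 | h1 | h1
      · exact absurd h1.1 hx
      · exact absurd h1.1 hy
      · exact h1.2.2.2
    · exact at_R hK hL hw

private theorem bd_other (h : SwC G E A K L x y z) {Y : Finset ℕ} {w : ℕ} (hx : w ≠ x)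
    (hy : w ≠ y) (hz : w ≠ z) (hw : w ∈ bd (swp G K L x y z) E Y) : w ∈ bd G E Y := by
  obtain ⟨h1, h2⟩ := hw
  obtain ⟨e, he, hea⟩ := mem_vs.1 h1
  obtain ⟨f, hf, hfa⟩ := mem_vs.1 h2
  exact ⟨mem_vs.2 ⟨e, he, at_other h hx hy hz hea⟩, mem_vs.2 ⟨f, hf, at_other h hx hy hz hfa⟩⟩

/-- `z` is not an end of an edge of `A` in the new graph -/
private theorem z_notMem (h : SwC G E A K L x y z) {Y : Finset ℕ} (hY : Y ⊆ A) :
    z ∉ vs (swp G K L x y z) Y := by
  intro hz
  obtain ⟨e, he, hea⟩ := mem_vs.1 hz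
  have heA := hY he
  have heK : e ∉ K := fun hK => (Finset.mem_sdiff.1 (h.subK hK)).2 heA
  by_cases hL : e ∈ L
  · rcases at_L h hL hea with h1 | h1 | h1
    · exact h.ne h1.1.symm
    · exact h.mems.2.2.2.2 h1.1.symm
    · exact h1.2.2.1 rfl
  · exact hL (h.edge_z heA (at_R heK hL hea))

/-- `x` is not an end of an edge of `E \ A` in the new graph -/
private theorem x_notMem (h : SwC G E A K L x y z) : x ∉ vs (swp G K L x y z) (E \ A) := by
  intro hx
  obtain ⟨e, he, hea⟩ := mem_vs.1 hx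
  have heL : e ∉ L := fun hL => (Finset.mem_sdiff.1 he).2 (h.subL hL)
  by_cases hK : e ∈ K
  · rcases at_K h hK hea with h1 | h1 | h1
    · exact h.mems.2.2.2.1 h1.1
    · exact h.ne h1.1
    · exact h1.1 rfl
  · exact hK (h.edge_x he (at_R hK heL hea))

private theorem subK' (h : SwC G E A K L x y z) {Y : Finset ℕ} (hY : Y ⊆ A) : K ⊆ E \ Y := by
  intro e he
  have h1 := Finset.mem_sdiff.1 (h.subK he)
  exact Finset.mem_sdiff.2 ⟨h1.1, fun h2 => h1.2 (hY h2)⟩

private theorem yK (h : SwC G E A K L x y z) : y ∈ vs G K := by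
  rw [h.vsK]
  exact mem_cls_self _ _

theorem swp_bd_sub (h : SwC G E A K L x y z) {Y : Finset ℕ} (hY : Y ⊆ A) :
    (bd (swp G K L x y z) E Y).ncard ≤ (bd G E Y).ncard := by
  classical
  have hz : z ∉ bd (swp G K L x y z) E Y := fun hz => z_notMem h hY hz.1
  have hy : y ∈ bd (swp G K L x y z) E Y → z ∈ bd G E Y := by
    intro hy
    obtain ⟨e, he, hea⟩ := mem_vs.1 hy.1
    have heA := hY he
    have heK : e ∉ K := fun hK => (Finset.mem_sdiff.1 (h.subK hK)).2 heA
    have hz2 : z ∈ vs G (E \ Y) := vs_mono G (Finset.sdiff_subset_sdiff (Finset.Subset.refl E) hY)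
      h.mems.2.2.1.2
    by_cases hL : e ∈ L
    · rcases at_L h hL hea with h1 | h1 | h1
      · exact absurd h1.1.symm h.mems.2.2.2.1
      · exact ⟨mem_vs.2 ⟨e, he, h1.2⟩, hz2⟩
      · exact absurd rfl h1.2.1
    · exfalso
      apply h.notMem_R
      refine mem_vs.2 ⟨e, ?_, at_R heK hL hea⟩
      rw [Finset.mem_sdiff, Finset.mem_union]
      exact ⟨h.hA heA, fun hh => hh.elim heK hL⟩
  have hx : x ∈ bd (swp G K L x y z) E Y → x ∉ bd G E Y → y ∈ bd G E Y := by
    intro hx hxn
    obtain ⟨e, he, hea⟩ := mem_vs.1 hx.1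
    have heA := hY he
    have heK : e ∉ K := fun hK => (Finset.mem_sdiff.1 (h.subK hK)).2 heA
    by_cases hL : e ∈ L
    · rcases at_L h hL hea with h1 | h1 | h1
      · exact ⟨mem_vs.2 ⟨e, he, h1.2⟩, vs_mono G (subK' h hY) (yK h)⟩
      · exact absurd h1.1 h.mems.2.2.2.1
      · exact absurd rfl h1.1
    · exact absurd ⟨mem_vs.2 ⟨e, he, at_R heK hL hea⟩, vs_mono G (subK' h hY) h.xK.1⟩ hxn
  have hxy := h.mems.2.2.2.1
  have hyz := h.mems.2.2.2.2
  have hxz := h.ne
  refine Set.ncard_le_ncard_of_injOn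
    (fun w => if w = y then z else if w = x then (if x ∈ bd G E Y then x else y) else w)
    ?_ ?_ (bd_finite G E Y)
  · intro w hw
    by_cases h1 : w = y
    · rw [if_pos h1]
      rw [h1] at hw
      exact hy hw
    · rw [if_neg h1]
      by_cases h2 : w = x
      · rw [if_pos h2]
        rw [h2] at hw
        by_cases h3 : x ∈ bd G E Y
        · rw [if_pos h3]
          exact h3
        · rw [if_neg h3]
          exact hx hw h3
      · rw [if_neg h2]
        refine bd_other h h2 h1 ?_ hw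
        rintro rfl
        exact hz hw
  · intro a ha b hb hab
    have haz : a ≠ z := fun hh => hz (hh ▸ ha)
    have hbz : b ≠ z := fun hh => hz (hh ▸ hb)
    beta_reduce at hab
    by_cases h3 : x ∈ bd G E Y
    · rw [if_pos h3] at hab
      split_ifs at hab <;> simp_all
    · rw [if_neg h3] at hab
      split_ifs at hab <;> simp_all

theorem swp_bd_le (h : SwC G E A K L x y z) {Y : Finset ℕ} (hYE : Y ⊆ E)
    (hY : Y ⊆ A ∨ A ⊆ Y ∨ Disjoint Y A) :
    (bd (swp G K L x y z) E Y).ncard ≤ (bd G E Y).ncard := by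
  have hsw : swp G K L x y z = swp G L K z y x :=
    swp_symm G h.disj h.mems.2.2.2.1 h.mems.2.2.2.2
  rcases hY with hY | hY | hY
  · exact swp_bd_sub h hY
  · have h1 := swp_bd_sub h.symm (Y := E \ Y) (Finset.sdiff_subset_sdiff (Finset.Subset.refl E) hY)
    rw [← hsw, bd_compl _ hYE, bd_compl _ hYE] at h1
    exact h1
  · have h1 := swp_bd_sub h.symm (Y := Y) (by
      intro e he
      exact Finset.mem_sdiff.2 ⟨hYE he, Finset.disjoint_left.1 hY he⟩)
    rw [← hsw] at h1
    exact h1

theorem swp_bd_lt (h : SwC G E A K L x y z) :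
    (bd (swp G K L x y z) E A).ncard + 1 ≤ (bd G E A).ncard := by
  have hsub : bd (swp G K L x y z) E A ⊆ bd G E A \ {x} := by
    intro w hw
    have hwx : w ≠ x := by
      rintro rfl
      exact x_notMem h hw.2
    have hwz : w ≠ z := by
      rintro rfl
      exact z_notMem h (Finset.Subset.refl A) hw.1
    refine ⟨?_, hwx⟩
    by_cases hwy : w = y
    · rw [hwy]
      exact h.mems.2.1
    · exact bd_other h hwx hwy hwz hw
  have h1 := Set.ncard_le_ncard hsub ((bd_finite G E A).subset Set.sdiff_subset)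
  have h2 := Set.ncard_sdiff_singleton_add_one h.mems.1 (bd_finite G E A)
  omega

end Pool.Agent.Helper28.BW
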