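import Pool.Agent.Helper28.BW.SwapRep
import Pool.Agent.Helper28.BW.SwapBd
import Pool.Agent.Helper28.BW.M2i
import Pool.Agent.Helper28.BW.M2ii

/-!
# BW-15: optimal representations are good

`m1`. Let `G` be optimal, `A ∈ F`, `Two (img G A) S y z` and `Two (img G (E \ A)) S y x` with `S = bd G E A`. Then `x = z`.
Proof. Suppose `x ≠ z`. Let `L` be the set of edges of `A` whose tail is in `cls (img G A) y` and `K` the set of edges of
`E \ A` whose tail is in `cls (img G (E \ A)) y` (finite sets, use filter). A vertex in both components is `y`: it is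
in `S`, so it is in `{y, z}` and in `{y, x}`. Choose `φ : ℕ → H`: for `w ∈ cls (img G (E \ A)) y` let `φ w` be the gain from
`y` to `w` in `E \ A`, for other `w ∈ cls (img G A) y` the gain from `y` to `w` in `A`, and `1` otherwise. `φ y = 1`
by balancedness, so for all `w ∈ cls (img G A) y` it is the gain from `y` to `w` in `A`. For `e = (a, b, g)` in
`K` or `L` we get `φ b = φ a * g` by uniqueness of gains in balanced components (`W_unique`), so in `swi G φ` the
gain of `e` is `φ a * g * (φ b)⁻¹ = 1`. By `opt_switch`, `Con_switch`, `Unb_switch`, `vs_switch` the graph `swi G φ` is optimal and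
`SwC (swi G φ) E A K L x y z` holds. By `swp_rk` the swapped graph represents the same matroid, by `swp_bd_le` no boundary of a
member of `F` is larger and by `swp_bd_lt` that of `A` is smaller: contradiction to `opt_no_better`.

`good_of_opt`: `m1`, `m2ii`, `m2i_left`, `m2i_right`.
`Good.symm`: the definition is symmetric (`bd_compl`, `E \ (E \ A) = A` for `A ⊆ E`).
-/

set_option autoImplicit false

namespace Pool.Agent.Helper28.BW

variable {H : Type} [Group H]

private theorem h99_two (G : GG H) (φ : ℕ → H) (X : Finset ℕ) (S : Set ℕ) (u w : ℕ)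
    (h : Two (img G X) S u w) : Two (img (swi G φ) X) S u w := by
  obtain ⟨h1, h2, h3, h4, h5, h6⟩ := h
  refine ⟨h1, h2, h3, ?_, ?_, ?_⟩
  · rw [Unb_switch]
    exact h4
  · rw [Con_switch]
    exact h5
  · intro x hx hc
    rw [Con_switch] at hc
    exact h6 x hx hc

private theorem h99_cls (G : GG H) (φ : ℕ → H) (X : Finset ℕ) (u : ℕ) :
    cls (img (swi G φ) X) u = cls (img G X) u := by
  ext w
  exact Con_switch G φ X u w

theorem m1 {G : GG H} {r : Finset ℕ → ℕ} {E : Finset ℕ} {F : List (Finset ℕ)}
    (h : Opt G r E F) {A : Finset ℕ} (hA : A ∈ F) {x y z : ℕ}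
    (h1 : Two (img G A) (bd G E A) y z) (h2 : Two (img G (E \ A)) (bd G E A) y x) : x = z := by
  classical
  by_contra hne
  have hAE : A ⊆ E := h.2.1.1 A hA
  obtain ⟨hy, hz, hyz, hbA, hconz, honlyA⟩ := id h1
  obtain ⟨-, hx, hyx, hbB, hconx, honlyB⟩ := id h2
  obtain ⟨φ, hφA, hφB⟩ : ∃ φ : ℕ → H, (∀ w g, W (img G A) y w g → φ w = g) ∧
      ∀ w g, W (img G (E \ A)) y w g → φ w = g := by
    refine ⟨fun w => if hB : Con (img G (E \ A)) y w then hB.choose else
      if hA : Con (img G A) y w then hA.choose else 1, ?_, ?_⟩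
    · intro w g hw
      by_cases hB : Con (img G (E \ A)) y w
      · have hwy : y = w := by
          by_contra hyw
          have hw1 : w ∈ vs G A := by
            rcases Con_ends (⟨g, hw⟩ : Con (img G A) y w) with h3 | h3
            · exact absurd h3 hyw
            · exact h3.2
          have hw2 : w ∈ vs G (E \ A) := by
            rcases Con_ends hB with h3 | h3
            · exact absurd h3 hyw
            · exact h3.2
          have h3 := honlyA w ⟨hw1, hw2⟩ ⟨g, hw⟩
          have h4 := honlyB w ⟨hw1, hw2⟩ hB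
          rcases h3 with h3 | h3
          · exact hyw h3.symm
          · rcases h4 with h4 | h4
            · exact hyw h4.symm
            · exact hne (h4.symm.trans h3)
        subst hwy
        have h3 : g = 1 := W_unique hbA hw (W.refl _)
        have h4 : hB.choose = 1 := W_unique hbB hB.choose_spec (W.refl _)
        simp only [dif_pos hB]
        rw [h3, h4]
      · have hA' : Con (img G A) y w := ⟨g, hw⟩
        simp only [dif_neg hB, dif_pos hA']
        exact W_unique hbA hA'.choose_spec hw
    · intro w g hw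
      have hB : Con (img G (E \ A)) y w := ⟨g, hw⟩
      simp only [dif_pos hB]
      exact W_unique hbB hB.choose_spec hw
  have hbd : bd (swi G φ) E A = bd G E A := by
    unfold bd
    rw [vs_switch, vs_switch]
  have hsw : SwC (swi G φ) E A ((E \ A).filter fun e => (G e).1 ∈ cls (img G (E \ A)) y)
      (A.filter fun e => (G e).1 ∈ cls (img G A) y) x y z := by
    refine ⟨hAE, ?_, ?_, hne, ?_, ?_, ?_⟩
    · rw [hbd]
      exact h99_two G φ A _ y z h1
    · rw [hbd]
      exact h99_two G φ (E \ A) _ y x h2
    · intro e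
      rw [Finset.mem_filter, h99_cls]
      rfl
    · intro e
      rw [Finset.mem_filter, h99_cls]
      rfl
    · intro e he
      have key : ∀ X : Finset ℕ, (∀ w g, W (img G X) y w g → φ w = g) → e ∈ X →
          (G e).1 ∈ cls (img G X) y → (swi G φ e).2.2 = 1 := by
        intro X hX heX hcl
        obtain ⟨g, hg⟩ := hcl
        have h3 : (G e) ∈ img G X := Set.mem_image_of_mem G heX
        have h4 : W (img G X) y (G e).2.1 (g * (G e).2.2) := W.fwd hg h3
        have h5 := hX _ _ hg
        have h6 := hX _ _ h4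
        change φ (G e).1 * (G e).2.2 * (φ (G e).2.1)⁻¹ = 1
        rw [h5, h6, mul_inv_cancel]
      rw [Finset.mem_union, Finset.mem_filter, Finset.mem_filter] at he
      rcases he with he | he
      · exact key _ hφB he.1 he.2
      · exact key _ hφA he.1 he.2
  have hopt := opt_switch h φ
  refine opt_no_better hopt (fun X hX => ?_) (fun B hB => ?_) hA (swp_bd_lt hsw)
  · rw [swp_rk hsw hX]
    exact hopt.1 X hX
  · exact swp_bd_le hsw (h.2.1.1 B hB) (h.2.1.2 B hB A hA)

theorem good_of_opt {G : GG H} {r : Finset ℕ → ℕ} {E : Finset ℕ} {F : List (Finset ℕ)}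
    (h : Opt G r E F) {A : Finset ℕ} (hA : A ∈ F) : Good G E A :=
  ⟨fun _ _ _ h1 h2 => m1 h hA h1 h2, fun _ _ h1 h2 => m2ii h hA h1 h2,
    fun _ hv hb => m2i_left h hA hv hb, fun _ hv hb => m2i_right h hA hv hb⟩

theorem Good.symm {G : GG H} {E A : Finset ℕ} (h : Good G E A) (hA : A ⊆ E) :
    Good G E (E \ A) := by
  have e1 : E \ (E \ A) = A := Finset.sdiff_sdiff_eq_self hA
  refine ⟨?_, ?_, ?_, ?_⟩
  · intro x y z h1 h2
    rw [bd_compl G hA] at h1 h2
    rw [e1] at h2
    exact (h.m1 z y x h2 h1).symm
  · intro x y h1 h2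
    rw [bd_compl G hA] at h1 h2
    rw [e1] at h2
    exact h.m2 x y h2 h1
  · intro v hv hb
    rw [bd_compl G hA] at hv ⊢
    exact h.m2r v hv hb
  · intro v hv hb
    rw [bd_compl G hA] at hv ⊢
    rw [e1] at hb ⊢
    exact h.m2l v hv hb

end Pool.Agent.Helper28.BW
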