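import Pool.Agent.Helper28.BW.PumpA
import Pool.Agent.Helper28.BW.Glue

/-!
# BW-31: pumping

Data: a chain `A 0 ⊂ ... ⊂ A (n-1)` with linking sets (`CHyp`), labels `l i : Finset ℕ → Λ` for the subsets of `A i`, `Λ` finite with
at most `L` elements, such that
(sound) subsets of `A i` with the same label have the same independent extensions by subsets of `E \ A i`;
(trans) `l (i+1) (U ∪ C i) = l i U` for `U ⊆ A i`;
(rep) for `i < j` the minor (contract `CU C i j`, keep `A i ∪ (E \ A j)`) has a representation in which `A i` has at most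
`w` boundary vertices.
Then `(E, r)` is representable if `n` is large in terms of `H`, `w`, `L`.
Proof. For `i < n` let `T i` be the set of all sets `θ ⊆ Λ × (Fin w → Fin w → H → Prop)` of the form
`θ = {(l i U, Trc (img G U) (m, 1)) : U ⊆ A i, r U = |U|}` where `G` ranges over the representations of `(A i, r)` and `m : Fin w → ℕ` over the
injective maps. `T i` is an element of a finite type whose size is bounded in terms of `w`, `L`, `|H|` (transport along a
bijection of `Λ` with `Fin (card Λ)`, or: a set of sets; its cardinality is at most `2 ^ 2 ^ (L * 2 ^ (w * w * |H|))`); if `n` is larger, there are `i < j < n`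
with `T i = T j` (pigeonhole). Let `D = CU C i j`, `B = E \ A j`, and `G` from (rep). By `cu_skew` `contr r D U = r U` for `U ⊆ A i`, so
`G` represents `(A i, r)`. Choose an injective `m : Fin w → ℕ` whose range contains the boundary (at most `w` vertices). The
corresponding `θ` is in `T i = T j`, so there are a representation `G'` of `(A j, r)` and `m'` with the same `θ`. Let `G1` be given by
`glue` for `A0 = A i`, `A = A j`, `B`. Claim: `rk G1 (U ∪ Z) = |U ∪ Z| ↔ r (U ∪ Z) = |U ∪ Z|` for `U ⊆ A j`, `Z ⊆ B`. If `r U ≠ |U|` both sides are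
false. Otherwise `(l j U, trace of U in G') ∈ θ`, so there is `U0 ⊆ A i` with `r U0 = |U0|`, `l i U0 = l j U` and the same trace. By `glue` the
left side is equivalent to `rk G (U0 ∪ Z) = |U0 ∪ Z|`, i.e. `contr r D (U0 ∪ Z) = |U0 ∪ Z|`, i.e. (`D` independent, disjoint)
`r (U0 ∪ D ∪ Z) = |U0 ∪ D ∪ Z|`. Now `l j (U0 ∪ D) = l i U0 = l j U` (`cu_label`) and (sound) at `j`. So the independent sets agree and `G1` represents
`(E, r)` by `rkFn_ext`.
-/

set_option autoImplicit false

namespace Pool.Agent.Helper28.BW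

/-- the hypotheses of the pumping lemma -/
structure PHyp (H : Type) [Group H] (r : Finset ℕ → ℕ) (E : Finset ℕ) (A C : ℕ → Finset ℕ)
    (n w : ℕ) {Λ : Type} (l : ℕ → Finset ℕ → Λ) : Prop where
  ch : CHyp r E A C n
  sound : ∀ i, i < n → ∀ U ⊆ A i, ∀ U' ⊆ A i, l i U = l i U' → ∀ Z ⊆ E \ A i,
    (r (U ∪ Z) = (U ∪ Z).card ↔ r (U' ∪ Z) = (U' ∪ Z).card)
  trans : ∀ i, i + 1 < n → ∀ U ⊆ A i, l (i + 1) (U ∪ C i) = l i U
  rep : ∀ i j, i < j → j < n → ∃ G : GG H, Rep G (contr r (CU C i j)) (A i ∪ (E \ A j)) ∧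
    (bd G (A i ∪ (E \ A j)) (A i)).ncard ≤ w

private theorem vs_finite_pump {H : Type} (G : GG H) (X : Finset ℕ) : (vs G X).Finite := by
  have h1 : (img G X).Finite := (Finset.finite_toSet X).image G
  have h2 : vs G X ⊆ (fun t : Tri H => t.1) '' img G X ∪ (fun t : Tri H => t.2.1) '' img G X := by
    rintro u ⟨t, ht, rfl | rfl⟩
    · exact Or.inl ⟨t, ht, rfl⟩
    · exact Or.inr ⟨t, ht, rfl⟩
  exact ((h1.image _).union (h1.image _)).subset h2

private theorem marks_pump (S : Set ℕ) (hS : S.Finite) (w : ℕ) (h : S.ncard ≤ w) :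
    ∃ m : Fin w → ℕ, Function.Injective m ∧ S ⊆ Set.range m := by
  classical
  have h1 : hS.toFinset.card ≤ w := by
    rwa [← Set.ncard_eq_toFinset_card S hS]
  obtain ⟨t, ht, hc⟩ := Infinite.exists_superset_card_eq hS.toFinset w h1
  refine ⟨t.orderEmbOfFin hc, (t.orderEmbOfFin hc).injective, ?_⟩
  rw [Finset.range_orderEmbOfFin]
  intro x hx
  exact ht (hS.mem_toFinset.2 hx)

/-- the core: two indices with the same type -/
theorem pump_core {H : Type} [Group H] {r : Finset ℕ → ℕ} {E : Finset ℕ} {A C : ℕ → Finset ℕ}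
    {n w : ℕ} {Λ : Type} {l : ℕ → Finset ℕ → Λ} (h : PHyp H r E A C n w l) {i j : ℕ}
    (hij : i < j) (hj : j < n)
    (hT : ∀ (G : GG H) (m : Fin w → ℕ), Function.Injective m → Rep G r (A i) →
      ∃ (G' : GG H) (m' : Fin w → ℕ), Function.Injective m' ∧ Rep G' r (A j) ∧
        ∀ q : Λ × (Fin w → Fin w → H → Prop),
          (∃ U ⊆ A i, r U = U.card ∧
            q = (l i U, Trc (img G U) (fun a => (m a, (1 : H))))) ↔
          (∃ U ⊆ A j, r U = U.card ∧
            q = (l j U, Trc (img G' U) (fun a => (m' a, (1 : H)))))) :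
    ∃ G : GG H, Rep G r E := by
  classical
  have hch := h.ch
  have hr := hch.hr
  obtain ⟨G, hG, hbd⟩ := h.rep i j hij hj
  have hAij : A i ⊆ A j := hch.mono hij.le hj
  have hAE : A j ⊆ E := hch.sub j hj
  have hDs : CU C i j ⊆ A j \ A i := cu_sub hch hij.le hj
  have hDc : r (CU C i j) = (CU C i j).card := cu_indep hch hij.le hj
  have hGA : Rep G r (A i) := by
    intro X hX
    rw [hG X (hX.trans Finset.subset_union_left), contr, cu_skew hch hij.le hj hX, hDc,
      Nat.add_sub_cancel]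
  have hB : (A i ∪ (E \ A j)) \ A i = E \ A j := by
    ext x
    simp only [Finset.mem_sdiff, Finset.mem_union]
    constructor
    · rintro ⟨h1 | h1, h2⟩
      · exact absurd h1 h2
      · exact h1
    · rintro ⟨h1, h2⟩
      exact ⟨Or.inr ⟨h1, h2⟩, fun h3 => h2 (hAij h3)⟩
  have hd0 : Disjoint (A i) (E \ A j) :=
    Finset.disjoint_left.2 fun x hx hx' => (Finset.mem_sdiff.1 hx').2 (hAij hx)
  have hd : Disjoint (A j) (E \ A j) := Finset.disjoint_sdiff
  obtain ⟨m, hm, hmr⟩ := marks_pump _ ((vs_finite_pump G (A i)).subset Set.inter_subset_left) w hbd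
  have hbd' : vs G (A i) ∩ vs G (E \ A j) ⊆ Set.range m := by
    rwa [hB] at hmr
  obtain ⟨G', m', hm', hG', hθ⟩ := hT G m hm hGA
  obtain ⟨G1, h1, h2, h3⟩ := glue (G := G) (G' := G') hd0 hd hm hm' hbd'
  have key : ∀ U ⊆ A j, ∀ Z ⊆ E \ A j,
      (rk G1 (U ∪ Z) = (U ∪ Z).card ↔ r (U ∪ Z) = (U ∪ Z).card) := by
    intro U hU Z hZ
    by_cases hrU : r U = U.card
    · obtain ⟨U0, hU0, hrU0, hq⟩ := (hθ _).2 ⟨U, hU, hrU, rfl⟩
      rw [Prod.mk.injEq] at hq
      have h4 := h3 U0 hU0 U hU (by rw [hGA U0 hU0, hrU0]) (by rw [hG' U hU, hrU]) hq.2.symm Z hZ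
      rw [h4]
      have hUZ : U0 ∪ Z ⊆ A i ∪ (E \ A j) := Finset.union_subset_union hU0 hZ
      have hdis : Disjoint (U0 ∪ Z) (CU C i j) := by
        rw [Finset.disjoint_left]
        intro x hx hx'
        have h5 := Finset.mem_sdiff.1 (hDs hx')
        rcases Finset.mem_union.1 hx with h6 | h6
        · exact h5.2 (hU0 h6)
        · exact (Finset.mem_sdiff.1 (hZ h6)).2 h5.1
      have hcard : (U0 ∪ Z ∪ CU C i j).card = (U0 ∪ Z).card + (CU C i j).card :=
        Finset.card_union_of_disjoint hdis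
      have hge : r (CU C i j) ≤ r (U0 ∪ Z ∪ CU C i j) := hr.mono _ _ Finset.subset_union_right
      have h5 : rk G (U0 ∪ Z) = (U0 ∪ Z).card ↔
          r (U0 ∪ CU C i j ∪ Z) = (U0 ∪ CU C i j ∪ Z).card := by
        rw [hG _ hUZ, contr, Finset.union_right_comm U0 (CU C i j) Z, hcard]
        omega
      rw [h5]
      refine h.sound j hj (U0 ∪ CU C i j) ?_ U hU ?_ Z hZ
      · exact Finset.union_subset (hU0.trans hAij) (hDs.trans Finset.sdiff_subset)
      · rw [cu_label hch h.trans hij.le hj hU0]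
        exact hq.1.symm
    · constructor
      · intro h4
        exfalso
        apply hrU
        rw [← hG' U hU, ← h1 U hU]
        exact (rk_rkFn G1).indep_mono Finset.subset_union_left h4
      · intro h4
        exact absurd (hr.indep_mono Finset.subset_union_left h4) hrU
  refine ⟨G1, rkFn_ext (rk_rkFn G1) hr fun I hI => ?_⟩
  have h4 := key (I ∩ A j) Finset.inter_subset_right (I \ A j)
    (Finset.sdiff_subset_sdiff hI (Finset.Subset.refl _))
  have h5 : I ∩ A j ∪ I \ A j = I := by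
    rw [Finset.union_comm]
    exact Finset.sdiff_union_inter I (A j)
  rwa [h5] at h4

theorem pump (H : Type) [Group H] [Finite H] (w L : ℕ) : ∃ n : ℕ, ∀ (r : Finset ℕ → ℕ)
    (E : Finset ℕ) (A C : ℕ → Finset ℕ) (Λ : Type) (l : ℕ → Finset ℕ → Λ), Finite Λ →
    Nat.card Λ ≤ L → PHyp H r E A C n w l → ∃ G : GG H, Rep G r E := by
  classical
  let Θ := Set (Fin L × (Fin w → Fin w → H → Prop))
  have : Finite Θ := inferInstance
  have : Fintype (Set Θ) := Fintype.ofFinite _
  refine ⟨Fintype.card (Set Θ) + 1, ?_⟩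
  intro r E A C Λ l hfin hcard h
  obtain ⟨φ⟩ : Nonempty (Λ ↪ Fin L) := by
    have := Fintype.ofFinite Λ
    apply Function.Embedding.nonempty_of_card_le
    rw [Fintype.card_fin, ← Nat.card_eq_fintype_card]
    exact hcard
  let T : Fin (Fintype.card (Set Θ) + 1) → Set Θ := fun i =>
    {θ | ∃ (G : GG H) (m : Fin w → ℕ), Function.Injective m ∧ Rep G r (A i) ∧
      θ = {q | ∃ U ⊆ A i, r U = U.card ∧
        q = (φ (l i U), Trc (img G U) (fun a => (m a, (1 : H))))}}
  obtain ⟨i, j, hne, hTij⟩ := Fintype.exists_ne_map_eq_of_card_lt T (by simp)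
  have main : ∀ i j : Fin (Fintype.card (Set Θ) + 1), i < j → T i = T j →
      ∃ G : GG H, Rep G r E := by
    intro i j hij hTij
    refine pump_core h (i := i) (j := j) hij j.2 ?_
    intro G m hm hG
    have h1 : ({q | ∃ U ⊆ A i, r U = U.card ∧
        q = (φ (l i U), Trc (img G U) (fun a => (m a, (1 : H))))} : Θ) ∈ T i :=
      ⟨G, m, hm, hG, rfl⟩
    rw [hTij] at h1
    obtain ⟨G', m', hm', hG', hθ⟩ := h1
    refine ⟨G', m', hm', hG', fun q => ?_⟩
    have h2 : ∀ q : Fin L × (Fin w → Fin w → H → Prop),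
        (∃ U ⊆ A i, r U = U.card ∧
          q = (φ (l i U), Trc (img G U) (fun a => (m a, (1 : H))))) ↔
        (∃ U ⊆ A j, r U = U.card ∧
          q = (φ (l j U), Trc (img G' U) (fun a => (m' a, (1 : H))))) := by
      intro q
      exact Set.ext_iff.1 hθ q
    have h3 := h2 (φ q.1, q.2)
    constructor
    · rintro ⟨U, hU, hrU, hq⟩
      obtain ⟨U', hU', hrU', hq'⟩ := h3.1 ⟨U, hU, hrU, by rw [hq]⟩
      rw [Prod.mk.injEq] at hq'
      exact ⟨U', hU', hrU', Prod.ext (φ.injective hq'.1) hq'.2⟩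
    · rintro ⟨U, hU, hrU, hq⟩
      obtain ⟨U', hU', hrU', hq'⟩ := h3.2 ⟨U, hU, hrU, by rw [hq]⟩
      rw [Prod.mk.injEq] at hq'
      exact ⟨U', hU', hrU', Prod.ext (φ.injective hq'.1) hq'.2⟩
  rcases lt_or_gt_of_ne hne with hlt | hlt
  · exact main i j hlt hTij
  · exact main j i hlt hTij.symm

end Pool.Agent.Helper28.BW
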