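import Pool.Agent.Helper28.BW.Prepare
import Pool.Agent.Helper28.BW.Pump

/-!
# BW-35: a matroid all of whose proper minors are gain-graphic and which has a long chain of small connectivity is gain-graphic

Let `w = 6 * k`, `L = 4 * 2 ^ (w * w * |H|) * 2 ^ (w * w * |H|)`, `n` the number of `pump` for `w`, `L`, and `N` the number of `prepare` for `k`, `n`. `prepare` applies:
`contr r ∅ = r` (as `r ∅ = 0`), so the hypothesis on minors with `(C, D) = (∅, {f})` and `({f}, ∅)` gives the representations. Then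
`lab_trans`, `lab_sound` and `ch` give the fields of `PHyp` with `l = lab r f G G' p q`, `lab_card` the bound. Field `rep`: for `i < j < n` let `D1 = CU C i j ⊆ A j \ A i`
(`cu_sub`), `D2 = (A j \ A i) \ D1`; `D1 ∪ D2 = A j \ A i` is nonempty. The minor `(contr r D1, E \ (D1 ∪ D2))` has a representation, and
`E \ (D1 ∪ D2) = A i ∪ (E \ A j)`. Take an optimal one for the family `[A i]` (`opt_exists`), then `opt_bd_le` and `lam_minor_le` bound the boundary of `A i`
by `6 * lam r E (A i) ≤ 6 * k`. `contr r D1` is a rank function (`RkFn.contr`). `pump` gives the claim.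
-/

set_option autoImplicit false

namespace Pool.Agent.Helper28.BW

theorem mainII (H : Type) [Group H] [Finite H] (k : ℕ) : ∃ N : ℕ, ∀ (r : Finset ℕ → ℕ)
    (E : Finset ℕ) (X : ℕ → Finset ℕ), RkFn r →
    (∀ C D, C ⊆ E → D ⊆ E → Disjoint C D → (C ∪ D).Nonempty →
      ∃ G : GG H, Rep G (contr r C) (E \ (C ∪ D))) →
    (∀ i, i < N → X i ⊆ E) → (∀ i j, i < j → j < N → X i ⊂ X j) →
    (∀ i, i < N → lam r E (X i) ≤ k) → ∃ G : GG H, Rep G r E := by
  classical
  obtain ⟨n, hn⟩ := pump H (6 * k)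
    (4 * 2 ^ ((6 * k) * (6 * k) * Nat.card H) * 2 ^ ((6 * k) * (6 * k) * Nat.card H))
  obtain ⟨N, hN⟩ := prepare H k n
  refine ⟨N, fun r E X hr hmin hXE hXs hXl => ?_⟩
  have hemp : ∀ Y, contr r ∅ Y = r Y := by
    intro Y
    unfold contr
    rw [Finset.union_empty, hr.empty, Nat.sub_zero]
  have hreps : ∀ f ∈ E, (∃ G : GG H, Rep G r (E.erase f)) ∧
      ∃ G : GG H, Rep G (contr r {f}) (E.erase f) := by
    intro f hf
    constructor
    · obtain ⟨G, hG⟩ := hmin ∅ {f} (Finset.empty_subset _) (Finset.singleton_subset_iff.2 hf)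
        (Finset.disjoint_empty_left _) (by rw [Finset.empty_union]; exact Finset.singleton_nonempty f)
      refine ⟨G, fun Y hY => ?_⟩
      rw [hG Y (by rw [Finset.empty_union, Finset.sdiff_singleton_eq_erase]; exact hY), hemp]
    · obtain ⟨G, hG⟩ := hmin {f} ∅ (Finset.singleton_subset_iff.2 hf) (Finset.empty_subset _)
        (Finset.disjoint_empty_right _) (by rw [Finset.union_empty]; exact Finset.singleton_nonempty f)
      exact ⟨G, fun Y hY => hG Y (by
        rw [Finset.union_empty, Finset.sdiff_singleton_eq_erase]; exact hY)⟩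
  obtain ⟨f, G, G', A, C, m, m', p, q, hm, hm', hl, hP⟩ := hN r E X hr hreps hXE hXs hXl
  refine hn r E A C (Lab H m m') (lab r f G G' p q) (lab_finite H m m') (lab_card H hm hm')
    ⟨hP.ch, lab_sound hP, lab_trans hP, ?_⟩
  intro i j hij hj
  have hD1 : CU C i j ⊆ A j \ A i := cu_sub hP.ch hij.le hj
  have hAij : A i ⊆ A j := hP.ch.mono hij.le hj
  have hAs : A i ⊂ A j := hP.ch.smono hij hj
  have hAE : A j ⊆ E := hP.ch.sub j hj
  obtain ⟨D, hD⟩ : ∃ D, D = CU C i j := ⟨_, rfl⟩
  obtain ⟨D', hD'⟩ : ∃ D', D' = (A j \ A i) \ D := ⟨_, rfl⟩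
  rw [← hD] at hD1 ⊢
  have hun : D ∪ D' = A j \ A i := by
    rw [hD']
    exact Finset.union_sdiff_of_subset hD1
  have hdis : Disjoint D D' := by
    rw [hD']
    exact Finset.disjoint_sdiff
  have hDE : D ⊆ E := hD1.trans (Finset.sdiff_subset.trans hAE)
  have hD'E : D' ⊆ E := by
    rw [hD']
    exact Finset.sdiff_subset.trans (Finset.sdiff_subset.trans hAE)
  have hne : (D ∪ D').Nonempty := by
    rw [hun]
    exact Finset.sdiff_nonempty.2 hAs.not_subset
  have hset : E \ (D ∪ D') = A i ∪ (E \ A j) := by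
    rw [hun]
    ext x
    simp only [Finset.mem_sdiff, Finset.mem_union]
    constructor
    · rintro ⟨h1, h2⟩
      by_cases h3 : x ∈ A j
      · left
        by_contra h4
        exact h2 ⟨h3, h4⟩
      · exact Or.inr ⟨h1, h3⟩
    · rintro (h1 | ⟨h1, h2⟩)
      · exact ⟨hAE (hAij h1), fun h => h.2 h1⟩
      · exact ⟨h1, fun h => h2 h.1⟩
  obtain ⟨G0, hG0⟩ := hmin D D' hDE hD'E hdis hne
  have hNC : NC (E \ (D ∪ D')) [A i] := by
    constructor
    · intro B hB
      rw [List.mem_singleton.1 hB, hset]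
      exact Finset.subset_union_left
    · intro B hB B' hB'
      rw [List.mem_singleton.1 hB, List.mem_singleton.1 hB']
      exact Or.inl (Finset.Subset.refl _)
  obtain ⟨G1, hG1⟩ := opt_exists hNC ⟨G0, hG0⟩
  have h1 := opt_bd_le (hr.contr D) hG1 (List.mem_singleton.2 rfl)
  have hAD : Disjoint (A i) D := Finset.disjoint_left.2 fun x hx hx' =>
    (Finset.mem_sdiff.1 (hD1 hx')).2 hx
  have hAD' : Disjoint (A i) D' := Finset.disjoint_left.2 fun x hx hx' => by
    rw [hD'] at hx'
    exact (Finset.mem_sdiff.1 (Finset.mem_sdiff.1 hx').1).2 hx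
  have h2 := lam_minor_le hr (hAij.trans hAE) hDE hD'E hAD hAD' hdis
  have h3 := hl i (lt_trans hij hj)
  refine ⟨G1, ?_, ?_⟩
  · have := hG1.1
    rwa [hset] at this
  · rw [hset] at h1 h2
    omega

end Pool.Agent.Helper28.BW
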