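import Pool.Agent.Helper28.BW.LinkTransport

/-!
# BW-33: marks along a chain of linking data

Let `G` be optimal and let consecutive pairs `A a ⊆ A (a+1)` (`a + 1 < n`) be linked with data `LinkH G r E F (A a) (A (a+1)) (C a) k`. Let
`m = |bd G E (A 0)|`. Then there are marks `p a : Fin m → ℕ × H` for `a < n`, injective, with range `bd G E (A a)`, and with the transport
property. Proof: `p 0` enumerates the finite set `bd G E (A 0)` with gauge `1`; `p (a+1)` from `link_transport` applied to `p a`. (Recursion
with choice: define a sequence of pairs by `Nat.rec` on the statement for `a`, or prove by induction on `n` that a function `p` with the properties up to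
`n` exists, extending with `Function.update`.)
-/

set_option autoImplicit false

namespace Pool.Agent.Helper28.BW

variable {H : Type} [Group H]

private theorem marks_start (G : GG H) (E A : Finset ℕ) :
    ∃ p : Fin (bd G E A).ncard → ℕ × H, Function.Injective (fun x => (p x).1) ∧
      Set.range (fun x => (p x).1) = bd G E A := by
  have hfin : (bd G E A).Finite := (vs_finite G A).subset Set.inter_subset_left
  haveI := hfin.to_subtype
  have e : bd G E A ≃ Fin (bd G E A).ncard :=
    Finite.equivFinOfCardEq (Nat.card_coe_set_eq (bd G E A))
  refine ⟨fun x => ((e.symm x : ℕ), 1), ?_, ?_⟩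
  · intro x y hxy
    exact e.symm.injective (Subtype.ext hxy)
  · ext v
    constructor
    · rintro ⟨x, rfl⟩
      exact (e.symm x).2
    · intro hv
      exact ⟨e ⟨v, hv⟩, by simp⟩

theorem exists_marks {G : GG H} {r : Finset ℕ → ℕ} {E : Finset ℕ} {F : List (Finset ℕ)}
    {A C : ℕ → Finset ℕ} {n k : ℕ}
    (h : ∀ a, a + 1 < n → LinkH G r E F (A a) (A (a + 1)) (C a) k) :
    ∃ p : ℕ → Fin (bd G E (A 0)).ncard → ℕ × H,
      (∀ a, a < n → Function.Injective fun x => (p a x).1) ∧
      (∀ a, a < n → Set.range (fun x => (p a x).1) = bd G E (A a)) ∧
      ∀ a, a + 1 < n → ∀ U ⊆ A a, Trc (img G (U ∪ C a)) (p (a + 1)) = Trc (img G U) (p a) := by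
  induction n with
  | zero =>
    exact ⟨fun _ _ => (0, 1), fun a ha => absurd ha (Nat.not_lt_zero a),
      fun a ha => absurd ha (Nat.not_lt_zero a), fun a ha => absurd ha (Nat.not_lt_zero _)⟩
  | succ n ih =>
    cases n with
    | zero =>
      obtain ⟨p, h1, h2⟩ := marks_start G E (A 0)
      refine ⟨fun _ => p, fun a _ => h1, fun a ha => ?_, fun a ha => by omega⟩
      obtain rfl : a = 0 := by omega
      exact h2
    | succ m =>
      obtain ⟨p, h1, h2, h3⟩ := ih fun a ha => h a (by omega)
      obtain ⟨p', k1, k2, k3⟩ := link_transport (h m (by omega)) (h1 m (by omega)) (h2 m (by omega))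
      have hu : Function.update p (m + 1) p' (m + 1) = p' := Function.update_self _ _ _
      have hne : ∀ a, a ≠ m + 1 → Function.update p (m + 1) p' a = p a :=
        fun a ha => Function.update_of_ne ha _ _
      refine ⟨Function.update p (m + 1) p', fun a ha => ?_, fun a ha => ?_, fun a ha U hU => ?_⟩
      · by_cases hm : a = m + 1
        · rw [hm, hu]
          exact k1
        · rw [hne a hm]
          exact h1 a (by omega)
      · by_cases hm : a = m + 1
        · rw [hm, hu]
          exact k2
        · rw [hne a hm]
          exact h2 a (by omega)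
      · by_cases hm : a = m
        · subst hm
          rw [hu, hne a (by omega)]
          exact k3 U hU
        · rw [hne (a + 1) (by omega), hne a (by omega)]
          exact h3 a (by omega) U hU

end Pool.Agent.Helper28.BW
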