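import Pool.Agent.Helper28.BW.RkFn
import Pool.Agent.Helper57.TOK.Menger

/-!
# BW-47: Menger for edge sets

`Z ⊆ X ⊆ E`, and every `Y` between `Z` and `X` has at least `m` boundary vertices. Then there are `m` disjoint paths from `bd Z` to `bd X` with edges in `X \ Z`:
`x i 0, x i 1, ..., x i (l i)` are the vertices of path number `i`, and `e i j` is an edge joining `x i j` and `x i (j+1)`.
Proof. Let `V = Fin N` with `N` larger than all vertices of `vs G E` (or a subtype), and let `Γ` be the simple graph on `V` with `u` adjacent to `v` iff `u ≠ v` and some edge of `X \ Z`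
joins `u` and `v` (`Jn`). Claim: no set `S` of fewer than `m` vertices separates (`Sep`) `bd G E Z` from `bd G E X` in `Γ`. Suppose `S` does. Let `R` be the set of vertices
reachable from `bd G E Z \ S` avoiding `S` (`Reach`, `sep_iff_reach`, `reach_adj`, `reach_of_mem`), and `Y = Z ∪ {e ∈ X \ Z : an end of e is in R}`. Then `bd G E Y ⊆ S`: let `v ∈ bd G E Y`, `v ∉ S`. If `v` is an end of an
edge of `Y \ Z`, then `v ∈ R` (the edge has an end in `R`; the other end is equal or adjacent). Otherwise `v ∈ vs G Z`, and `v ∈ vs G (E \ Y) ⊆ vs G (E \ Z)`, so `v ∈ bd G E Z`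
and `v ∈ R`. So `v ∈ R`. Let `f ∈ E \ Y` be an edge at `v`. If `f ∈ X` then `f ∈ X \ Z` has the end `v ∈ R`, so `f ∈ Y`, contradiction. So `f ∈ E \ X`, and `v ∈ vs G Y ⊆ vs G X`, so
`v ∈ bd G E X`, and `v` is reachable: contradiction to separation. So `|bd G E Y| ≤ |S| < m`, contradiction. Menger's theorem (`Pool.Agent.Helper57.TOK.menger`) gives disjoint paths
`P i`; put `l i =` length, `x i j = (P i).getVert j` and choose the edges.
-/

set_option autoImplicit false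

namespace Pool.Agent.Helper28.BW

variable {H : Type} [Group H]

/-- the edge `e` joins `u` and `v` -/
def Jn (G : GG H) (e u v : ℕ) : Prop := (∃ g : H, G e = (u, v, g)) ∨ ∃ g : H, G e = (v, u, g)

/-- `m` disjoint paths from `bd Z` to `bd X` with edges in `X \ Z` -/
structure Paths (G : GG H) (E Z X : Finset ℕ) (m : ℕ) (l : Fin m → ℕ) (x : Fin m → ℕ → ℕ)
    (e : Fin m → ℕ → ℕ) : Prop where
  st : ∀ i, x i 0 ∈ bd G E Z
  en : ∀ i, x i (l i) ∈ bd G E X
  inj : ∀ i j i' j', j ≤ l i → j' ≤ l i' → x i j = x i' j' → i = i' ∧ j = j'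
  mem : ∀ i j, j < l i → e i j ∈ X \ Z
  jn : ∀ i j, j < l i → Jn G (e i j) (x i j) (x i (j + 1))

set_option linter.unusedSectionVars false

private theorem vx_fin {T : Set (Tri H)} (hT : T.Finite) : (vx T).Finite := by
  have h : vx T ⊆ (fun t : Tri H => t.1) '' T ∪ (fun t : Tri H => t.2.1) '' T := by
    rintro u ⟨t, ht, rfl | rfl⟩
    · exact Or.inl ⟨t, ht, rfl⟩
    · exact Or.inr ⟨t, ht, rfl⟩
  exact ((hT.image _).union (hT.image _)).subset h

private theorem vs_fin (G : GG H) (X : Finset ℕ) : (vs G X).Finite :=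
  vx_fin (X.finite_toSet.image G)

private theorem mem_vs {G : GG H} {X : Finset ℕ} {v : ℕ} :
    v ∈ vs G X ↔ ∃ e ∈ X, v = (G e).1 ∨ v = (G e).2.1 := by
  constructor
  · rintro ⟨t, ⟨e, he, rfl⟩, h⟩
    exact ⟨e, he, h⟩
  · rintro ⟨e, he, h⟩
    exact ⟨G e, ⟨e, he, rfl⟩, h⟩

private theorem jn_of_ends {G : GG H} {e u v : ℕ} (hne : u ≠ v)
    (hu : u = (G e).1 ∨ u = (G e).2.1) (hv : v = (G e).1 ∨ v = (G e).2.1) : Jn G e u v := by
  rcases hu with hu | hu <;> rcases hv with hv | hv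
  · exact absurd (hu.trans hv.symm) hne
  · exact Or.inl ⟨(G e).2.2, by rw [hu, hv]⟩
  · exact Or.inr ⟨(G e).2.2, by rw [hu, hv]⟩
  · exact absurd (hu.trans hv.symm) hne

/-- the graph of the edges in `F` on the vertices of `E` -/
private def Gm (G : GG H) (E F : Finset ℕ) : SimpleGraph {v : ℕ // v ∈ vs G E} where
  Adj u v := u ≠ v ∧ ∃ e ∈ F, Jn G e u.1 v.1
  symm := ⟨fun u v h => by
    obtain ⟨hne, e, he, hj⟩ := h
    refine ⟨hne.symm, e, he, ?_⟩
    rcases hj with hj | hj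
    · exact Or.inr hj
    · exact Or.inl hj⟩
  loopless := ⟨fun u h => h.1 rfl⟩

open Pool.Agent.Helper57.TOK in
private theorem no_sep {G : GG H} {E Z X : Finset ℕ} {m : ℕ} (hZ : Z ⊆ X)
    (h : ∀ Y, Z ⊆ Y → Y ⊆ X → m ≤ (bd G E Y).ncard) (S : Finset {v : ℕ // v ∈ vs G E})
    (hS : S.card < m) :
    ¬ Sep (Gm G E (X \ Z)) {v | v.1 ∈ bd G E Z} {v | v.1 ∈ bd G E X} (S : Set _) := by
  classical
  intro hsep
  rw [sep_iff_reach] at hsep
  let R : Set {v : ℕ // v ∈ vs G E} := Reach (Gm G E (X \ Z)) {v | v.1 ∈ bd G E Z} (S : Set _)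
  let Y : Finset ℕ := Z ∪ (X \ Z).filter
    (fun e => ∃ r ∈ R, r.1 = (G e).1 ∨ r.1 = (G e).2.1)
  have hZY : Z ⊆ Y := Finset.subset_union_left
  have hYX : Y ⊆ X := by
    intro e he
    rcases Finset.mem_union.1 he with he | he
    · exact hZ he
    · exact (Finset.mem_sdiff.1 (Finset.mem_filter.1 he).1).1
  have hsub : bd G E Y ⊆ Subtype.val '' (S : Set {v : ℕ // v ∈ vs G E}) := by
    rintro v ⟨hv1, hv2⟩
    by_contra hvS
    obtain ⟨e, he, hve⟩ := mem_vs.1 hv1
    obtain ⟨f, hf, hvf⟩ := mem_vs.1 hv2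
    have hfE := (Finset.mem_sdiff.1 hf).1
    have hfY := (Finset.mem_sdiff.1 hf).2
    have hvE : v ∈ vs G E := mem_vs.2 ⟨f, hfE, hvf⟩
    have hvS' : (⟨v, hvE⟩ : {v : ℕ // v ∈ vs G E}) ∉ (S : Set _) := fun hh =>
      hvS ⟨_, hh, rfl⟩
    have hvR : (⟨v, hvE⟩ : {v : ℕ // v ∈ vs G E}) ∈ R := by
      rcases Finset.mem_union.1 he with he | he
      · refine reach_of_mem (show v ∈ bd G E Z from ⟨mem_vs.2 ⟨e, he, hve⟩, ?_⟩) hvS'
        exact mem_vs.2 ⟨f, Finset.mem_sdiff.2 ⟨hfE, fun hh => hfY (hZY hh)⟩, hvf⟩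
      · obtain ⟨heXZ, r, hr, hre⟩ := Finset.mem_filter.1 he
        by_cases hrv : r.1 = v
        · have hrv' : r = ⟨v, hvE⟩ := Subtype.ext hrv
          rw [← hrv']
          exact hr
        · refine reach_adj hr (show (Gm G E (X \ Z)).Adj r ⟨v, hvE⟩ from ⟨?_, e, heXZ, ?_⟩) hvS'
          · intro hh
            exact hrv (congrArg Subtype.val hh)
          · exact jn_of_ends hrv hre hve
    have hfX : f ∉ X := by
      intro hfX
      apply hfY
      refine Finset.mem_union.2 (Or.inr (Finset.mem_filter.2 ⟨?_, ⟨v, hvE⟩, hvR, hvf⟩))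
      exact Finset.mem_sdiff.2 ⟨hfX, fun hh => hfY (hZY hh)⟩
    refine hsep ⟨v, hvE⟩ hvR (reach_of_mem ?_ hvS')
    exact ⟨mem_vs.2 ⟨e, hYX he, hve⟩, mem_vs.2 ⟨f, Finset.mem_sdiff.2 ⟨hfE, hfX⟩, hvf⟩⟩
  have h1 : (bd G E Y).ncard ≤ (Subtype.val '' (S : Set {v : ℕ // v ∈ vs G E})).ncard :=
    Set.ncard_le_ncard hsub (S.finite_toSet.image _)
  have h2 : (Subtype.val '' (S : Set {v : ℕ // v ∈ vs G E})).ncard ≤ S.card := by
    refine (Set.ncard_image_le S.finite_toSet).trans ?_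
    rw [Set.ncard_coe_finset]
  have h3 := h Y hZY hYX
  omega

theorem menger_edges {G : GG H} {E Z X : Finset ℕ} {m : ℕ} (hZ : Z ⊆ X) (hX : X ⊆ E)
    (h : ∀ Y, Z ⊆ Y → Y ⊆ X → m ≤ (bd G E Y).ncard) : ∃ l x e, Paths G E Z X m l x e := by
  classical
  have _hX := hX
  have hfin : Finite {v : ℕ // v ∈ vs G E} := (vs_fin G E).to_subtype
  obtain ⟨a, b, P, hP, hD⟩ := Pool.Agent.Helper57.TOK.menger (Gm G E (X \ Z))
    {v | v.1 ∈ bd G E Z} {v | v.1 ∈ bd G E X} m (no_sep hZ h)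
  have he : ∀ i j, ∃ e, j < (P i).length → e ∈ X \ Z ∧
      Jn G e ((P i).getVert j).1 ((P i).getVert (j + 1)).1 := by
    intro i j
    by_cases hj : j < (P i).length
    · obtain ⟨-, e, he, hj'⟩ := (P i).adj_getVert_succ hj
      exact ⟨e, fun _ => ⟨he, hj'⟩⟩
    · exact ⟨0, fun hh => absurd hh hj⟩
  choose e he using he
  refine ⟨fun i => (P i).length, fun i j => ((P i).getVert j).1, e, ?_, ?_, ?_, ?_, ?_⟩
  · intro i
    have h1 := (hP i).1
    rw [SimpleGraph.Walk.getVert_zero]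
    exact h1
  · intro i
    have h1 := (hP i).2.1
    rw [SimpleGraph.Walk.getVert_length]
    exact h1
  · intro i j i' j' hj hj' hx
    have hx' : (P i).getVert j = (P i').getVert j' := Subtype.ext hx
    by_cases hi : i = i'
    · subst hi
      exact ⟨rfl, (hP i).2.2.getVert_injOn hj hj' hx'⟩
    · exact absurd (hx' ▸ (P i').getVert_mem_support j')
        (hD i i' hi _ ((P i).getVert_mem_support j))
  · intro i j hj
    exact (he i j hj).1
  · intro i j hj
    exact (he i j hj).2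

end Pool.Agent.Helper28.BW
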