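import Pool.Agent.Helper28.BW.BdSub
import Pool.Agent.Helper28.BW.LinkedTree
import Pool.Agent.Helper28.BW.Count
import Pool.Agent.Helper28.BW.Dec

/-!
# BW-54: nice representations

`dec_tree`: a decomposition `Dec l k A` gives a tree (leaf `e` gives the leaf `{e}`; nodes give nodes).
`nice_rep`: let `r` be a rank function with a representation and a decomposition `Dec (lam r E) k E`. Let `t` be the tree and `F` the list of the sets of all subtrees of `t` (define the list by recursion; it is a list of
subsets of `E`, pairwise nested or disjoint by `Sub.laminar`, so `NC E F`). `opt_exists` gives an optimal `G`, `opt_bd_le` gives `|bd G E A| ≤ 6 * lam r E A ≤ 6 * k` for all `A ∈ F`, so `t` has width at most `6 * k` for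
`|bd G E ·|`. `exists_linked` (with `symSub_bd`) gives a linked tree.
-/

set_option autoImplicit false

namespace Pool.Agent.Helper28.BW

variable {H : Type} [Group H]

/-- the sets of all subtrees -/
private def subsets : BT → List (Finset ℕ)
  | BT.leaf s => [s]
  | BT.node a b => (a.set ∪ b.set) :: (subsets a ++ subsets b)

private theorem self_mem_subsets (x : BT) : x.set ∈ subsets x := by
  cases x with
  | leaf s =>
    show s ∈ [s]
    exact List.mem_singleton.2 rfl
  | node a b =>
    show a.set ∪ b.set ∈ (a.set ∪ b.set) :: (subsets a ++ subsets b)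
    exact List.mem_cons.2 (Or.inl rfl)

private theorem mem_subsets_of_sub {t x : BT} (h : BT.Sub t x) : t.set ∈ subsets x := by
  induction h with
  | refl => exact self_mem_subsets _
  | left _ ih => exact List.mem_cons.2 (Or.inr (List.mem_append.2 (Or.inl ih)))
  | right _ ih => exact List.mem_cons.2 (Or.inr (List.mem_append.2 (Or.inr ih)))

private theorem sub_of_mem_subsets {A : Finset ℕ} {x : BT} (h : A ∈ subsets x) :
    ∃ t, BT.Sub t x ∧ t.set = A := by
  induction x with
  | leaf s =>
    have h' : A = s := List.mem_singleton.1 h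
    exact ⟨BT.leaf s, BT.Sub.refl _, h'.symm⟩
  | node a b iha ihb =>
    rcases List.mem_cons.1 h with h1 | h1
    · exact ⟨BT.node a b, BT.Sub.refl _, h1.symm⟩
    · rcases List.mem_append.1 h1 with h2 | h2
      · obtain ⟨t, ht, e⟩ := iha h2
        exact ⟨t, BT.Sub.left ht, e⟩
      · obtain ⟨t, ht, e⟩ := ihb h2
        exact ⟨t, BT.Sub.right ht, e⟩

theorem dec_tree {l : Finset ℕ → ℕ} {k : ℕ} {A : Finset ℕ} (h : Dec l k A) :
    ∃ t : BT, t.Ok ∧ t.set = A ∧ t.Wid l k := by
  induction h with
  | leaf e he =>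
    refine ⟨BT.leaf {e}, (Finset.card_singleton e).le, rfl, ?_⟩
    intro t ht
    cases ht
    exact he
  | node A B hd _ _ hAB ihA ihB =>
    obtain ⟨a, ha1, ha2, ha3⟩ := ihA
    obtain ⟨b, hb1, hb2, hb3⟩ := ihB
    refine ⟨BT.node a b, ⟨ha1, hb1, ?_⟩, ?_, ?_⟩
    · rw [ha2, hb2]
      exact hd
    · show a.set ∪ b.set = A ∪ B
      rw [ha2, hb2]
    · intro t ht
      cases ht with
      | refl =>
        show l (a.set ∪ b.set) ≤ k
        rw [ha2, hb2]
        exact hAB
      | left h => exact ha3 t h
      | right h => exact hb3 t h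

theorem nice_rep {r : Finset ℕ → ℕ} (hr : RkFn r) {E : Finset ℕ} {k : ℕ}
    (hG : ∃ G : GG H, Rep G r E) (hd : Dec (lam r E) k E) :
    ∃ (G : GG H) (t : BT), Rep G r E ∧ t.Ok ∧ t.set = E ∧
      t.Wid (fun X => (bd G E X).ncard) (6 * k) ∧ Linked (fun X => (bd G E X).ncard) t := by
  obtain ⟨t, ht1, ht2, ht3⟩ := dec_tree hd
  have hNC : NC E (subsets t) := by
    constructor
    · intro A hA
      obtain ⟨x, hx, e⟩ := sub_of_mem_subsets hA
      rw [← e, ← ht2]
      exact hx.set_subset
    · intro A hA B hB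
      obtain ⟨x, hx, e⟩ := sub_of_mem_subsets hA
      obtain ⟨y, hy, e'⟩ := sub_of_mem_subsets hB
      rw [← e, ← e']
      exact hx.laminar hy ht1
  obtain ⟨G, hGo⟩ := opt_exists hNC hG
  have hw : t.Wid (fun X => (bd G E X).ncard) (6 * k) := by
    intro x hx
    have h1 := opt_bd_le hr hGo (mem_subsets_of_sub hx)
    have h2 := ht3 x hx
    have h3 : (bd G E x.set).ncard ≤ 6 * k := h1.trans (Nat.mul_le_mul_left 6 h2)
    exact h3
  obtain ⟨t', h1, h2, h3, h4⟩ := exists_linked (symSub_bd G E) ht1 ht2 hw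
  exact ⟨G, t', hGo.1, h1, h2, h3, h4⟩

end Pool.Agent.Helper28.BW
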