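import Pool.Agent.Helper28.BW.Split

/-!
# BW-09: optimal representations cannot be split

If `G` is optimal for the family `F`, `A ∈ F` and `v ∈ bd G E A`, then `(v, v', 1)` lies in the closure of all
edges of `spl G A v v'`: otherwise `spl G A v v'` represents the same matroid (`spl_rep`), no boundary of a member
of `F` is larger (`spl_bd_le`, the family is nested or disjoint) and that of `A` is smaller (`spl_bd_lt`), so `Phi`
is smaller, against optimality (sum over the list).
An optimal representation exists as soon as some representation exists (`Phi` is a natural number).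
-/

set_option autoImplicit false

namespace Pool.Agent.Helper28.BW

variable {H : Type} [Group H]

theorem opt_exists {r : Finset ℕ → ℕ} {E : Finset ℕ} {F : List (Finset ℕ)} (hF : NC E F)
    (h : ∃ G : GG H, Rep G r E) : ∃ G : GG H, Opt G r E F := by
  classical
  have hex : ∃ n : ℕ, ∃ G : GG H, Rep G r E ∧ Phi G E F = n := by
    obtain ⟨G, hG⟩ := h
    exact ⟨_, G, hG, rfl⟩
  obtain ⟨G, hG, hn⟩ := Nat.find_spec hex
  refine ⟨G, hG, hF, fun G' hG' => ?_⟩
  rw [hn]
  exact Nat.find_min' hex ⟨G', hG', rfl⟩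

/-- no representation has boundaries which are nowhere larger and somewhere smaller -/
theorem opt_no_better {G : GG H} {r : Finset ℕ → ℕ} {E : Finset ℕ} {F : List (Finset ℕ)}
    (h : Opt G r E F) {G' : GG H} (hG' : Rep G' r E)
    (hle : ∀ A ∈ F, (bd G' E A).ncard ≤ (bd G E A).ncard) {A : Finset ℕ} (hA : A ∈ F) :
    ¬ (bd G' E A).ncard + 1 ≤ (bd G E A).ncard := by
  intro hlt
  have h1 := h.2.2 G' hG'
  have h2 : Phi G' E F < Phi G E F :=
    List.sum_lt_sum (fun A => (bd G' E A).ncard) (fun A => (bd G E A).ncard) hle ⟨A, hA, hlt⟩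
  omega

theorem opt_split {G : GG H} {r : Finset ℕ → ℕ} {E : Finset ℕ} {F : List (Finset ℕ)}
    (h : Opt G r E F) {A : Finset ℕ} (hA : A ∈ F) {v v' : ℕ} (hv : v ∈ bd G E A)
    (hv' : v' ∉ vs G E) : (v, v', (1 : H)) ∈ cl (img (spl G A v v') E) := by
  by_contra hcl
  have hAE : A ⊆ E := h.2.1.1 A hA
  have hvE : v ∈ vs G E := by
    obtain ⟨t, ⟨e, he, het⟩, hvt⟩ := hv.1
    exact ⟨t, ⟨e, hAE he, het⟩, hvt⟩
  have hne : v ≠ v' := fun h0 => hv' (h0 ▸ hvE)
  refine opt_no_better h (spl_rep h.1 hv' hne hcl) ?_ hA (spl_bd_lt G hAE hv' hv)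
  intro B hB
  exact spl_bd_le G hAE (h.2.1.1 B hB) (h.2.1.2 B hB A hA) hv'

end Pool.Agent.Helper28.BW
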