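import Pool.Agent.Helper28.BW.Transient
import Pool.Agent.Helper28.BW.FA

/-!
# BW-20: stable pairs in a linked chain with constant interval function

Let `A 0 ⊆ ... ⊆ A (n-1)` be a linked chain (`LChain`), `G` optimal for a family containing all `A i`, and let
`ff G E (A i) (A j)` be the same number for all `i < j < n`. Then for `1 ≤ i < j`, `j + 1 < n` the pair `A i ⊆ A j` is stable.
Proof. (s1), (s2): take the triple `A0 = A (i-1)`, `A = A i`, `A1 = A j`. `noMerge_of_ff` gives `nm`, `nm'`, and `low` follows from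
`LChain.low` and `LChain.eq`. So `TrH G r E (A (i-1)) (A i) (A j)` and, by `transient_SL`, every `a ∈ bd G E (A i)` satisfies
`Mt G (A (i-1)) (A i) a`. Now `nm` is (s1) and (s2). (s3), (s4): the triple `A i`, `A j`, `A (j+1)`, `transient_SK` and `nm'`.
-/

set_option autoImplicit false

namespace Pool.Agent.Helper28.BW

variable {H : Type} [Group H]

private lemma trh_aux {G : GG H} {r : Finset ℕ → ℕ} (hr : RkFn r) {E : Finset ℕ}
    {F : List (Finset ℕ)} (h : Opt G r E F) {A : ℕ → Finset ℕ} {n k : ℕ}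
    (hc : LChain r E A n k) {c : ℕ}
    (hconst : ∀ i j, i < j → j < n → ff G E (A i) (A j) = c) {i j l : ℕ} (hij : i < j) (hjl : j < l)
    (hl : l < n) : TrH G r E (A i) (A j) (A l) := by
  have h0 : A i ⊆ A j := hc.mono i j hij.le (hjl.trans hl)
  have h1 : A j ⊆ A l := hc.mono j l hjl.le hl
  have hE : A l ⊆ E := hc.sub l hl
  have hnm := noMerge_of_ff G h0 h1 hE
    (by rw [hconst i l (hij.trans hjl) hl, hconst i j hij (hjl.trans hl)])
    (by rw [hconst i l (hij.trans hjl) hl, hconst j l hjl hl])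
  exact ⟨hr, h.1, h0, h1, hE, fun Y hY1 hY2 => by
    rw [hc.eq j (hjl.trans hl)]
    exact hc.low i l (hij.trans hjl).le hl Y hY1 hY2, hnm.1, hnm.2⟩

theorem stable_of_const {G : GG H} {r : Finset ℕ → ℕ} (hr : RkFn r) {E : Finset ℕ}
    {F : List (Finset ℕ)} (h : Opt G r E F) {A : ℕ → Finset ℕ} {n k : ℕ}
    (hc : LChain r E A n k) (hF : ∀ i, i < n → A i ∈ F) {c : ℕ}
    (hconst : ∀ i j, i < j → j < n → ff G E (A i) (A j) = c) :
    ∀ i j, 1 ≤ i → i < j → j + 1 < n → Stable G E (A i) (A j) := by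
  intro i j hi hij hj
  have hg1 : Good G E (A i) := good_of_opt h (hF i (by omega))
  have hg2 : Good G E (A j) := good_of_opt h (hF j (by omega))
  have t1 : TrH G r E (A (i - 1)) (A i) (A j) :=
    trh_aux hr h hc hconst (by omega) hij (by omega)
  have t2 : TrH G r E (A i) (A j) (A (j + 1)) :=
    trh_aux hr h hc hconst hij (Nat.lt_succ_self j) hj
  have m1 : ∀ a ∈ bd G E (A i), Mt G (A (i - 1)) (A i) a := by
    intro a ha
    by_contra hcon
    have h1 : a ∈ SL G E (A (i - 1)) (A i) := ⟨ha, hcon⟩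
    rw [transient_SL t1 hg1] at h1
    exact h1
  have hAj : A j ⊆ E := hc.sub j (by omega)
  have m2 : ∀ b ∈ bd G E (A j), Mt G (E \ A (j + 1)) (E \ A j) b := by
    intro b hb
    by_contra hcon
    have hb' : b ∈ bd G E (E \ A j) := by
      unfold bd at hb ⊢
      rw [Finset.sdiff_sdiff_eq_self hAj]
      exact ⟨hb.2, hb.1⟩
    have h1 : b ∈ SL G E (E \ A (j + 1)) (E \ A j) := ⟨hb', hcon⟩
    rw [transient_SK t2 hg2] at h1
    exact h1
  exact ⟨fun a ha a' ha' hcon => t1.nm.1 a ha a' ha' (m1 a ha) (m1 a' ha') hcon,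
    fun a ha hu => t1.nm.2 a ha (m1 a ha) hu,
    fun b hb b' hb' hcon => t2.nm'.1 b hb b' hb' (m2 b hb) (m2 b' hb') hcon,
    fun b hb hu => t2.nm'.2 b hb (m2 b hb) hu⟩

end Pool.Agent.Helper28.BW
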