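import Pool.Agent.Helper28.BW.Transfer
import Pool.Agent.Helper28.BW.Extract
import Pool.Agent.Helper28.BW.StableChain
import Pool.Agent.Helper28.BW.Marks
import Pool.Agent.Helper28.BW.Labels

/-!
# BW-34: preparing the chain

`prepare`: for all `k`, `n` there is `N` such that: if `(E, r)` has representations (over `H`) of `r` on `E \ f` and of
`contr r {f}` on `E \ f` for every `f ∈ E`, and a strictly increasing chain `X 0 ⊂ ... ⊂ X (N-1) ⊆ E` with `lam ≤ k`, then there is prepared data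
`Prep` of length `n` with `m, m' ≤ 6 * k`, such that moreover `lam r E (A i) ≤ k` for `i < n`.
Proof. Let `n5 = n + 2`, `NI` the number of `interval` for `P = 48 * k` and `n5`, `NE` the number of `extract` for `k` and `4 * NI`, and
`N = NE + 2`. Choose `f ∈ X (NE + 1) \ X NE`. `extract` gives `A1`, `c ≤ k`, a linked strictly increasing chain of length `4 * NI` in `X (NE - 1) ⊆ X NE`, so
`f ∉ A1 i`. `transfer_del` (length `2 * (2 * NI)`) and then `transfer_con` applied to the shifted chain give a shifted chain `A3 i`, `i < NI`, which is linked in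
`(E, r)` with `c`, in `(E \ f, r)` with `k1 ≤ c` and in `(E \ f, contr r {f})` with `k2 ≤ c` (`LChain.comp` for shifts), and linkings of the first transfer
to the other two. Let `F` be the list of all `A3 i`, `i < NI` (nested, so `NC (E \ f) F`). Let `G`, `G'` be optimal representations of `r` and
of `contr r {f}` on `E \ f` for `F` (`opt_exists`). `opt_bd_le`: boundaries have at most `6 * k` vertices. The function
`g i j = ff G (E \ f) (A3 i) (A3 j) + ff G' (E \ f) (A3 i) (A3 j)` is at most `48 * k` (`ff_le`) and monotone (`ff_anti`), so constant on a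
subsequence `s` of length `n5`. As both summands are monotone and the sum is constant, both are constant (compare every pair with the pair
`(0, n5 - 1)`). `stable_of_const` for `G` and `G'` and `A4 a = A3 (s a)`: the pairs `(i, j)` with `1 ≤ i < j`, `j + 1 < n5` are stable for both. Let
`A a = A4 (a + 1)` for `a < n`. For `a + 1 < n` `tutte` gives `C a` with `Lk r (A a) (C a) (E \ A (a+1)) c`, hence the linkings in
`E \ f` for `r` and `contr r {f}`, so `LinkH` for `G` and for `G'`. `exists_marks` twice gives `p`, `q`. All fields of `Prep` are at hand (`sk`, `sk'` are the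
first components of `Lk`).
-/

set_option autoImplicit false

namespace Pool.Agent.Helper28.BW

theorem prepare (H : Type) [Group H] (k n : ℕ) : ∃ N : ℕ, ∀ (r : Finset ℕ → ℕ) (E : Finset ℕ)
    (X : ℕ → Finset ℕ), RkFn r →
    (∀ f ∈ E, (∃ G : GG H, Rep G r (E.erase f)) ∧
      ∃ G : GG H, Rep G (contr r {f}) (E.erase f)) →
    (∀ i, i < N → X i ⊆ E) → (∀ i j, i < j → j < N → X i ⊂ X j) →
    (∀ i, i < N → lam r E (X i) ≤ k) →
    ∃ (f : ℕ) (G G' : GG H) (A C : ℕ → Finset ℕ) (m m' : ℕ) (p : ℕ → Fin m → ℕ × H)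
      (q : ℕ → Fin m' → ℕ × H), m ≤ 6 * k ∧ m' ≤ 6 * k ∧
      (∀ i, i < n → lam r E (A i) ≤ k) ∧ Prep r E f G G' A C n m m' p q := by
  obtain ⟨NI, hNI⟩ := interval (48 * k) (n + 2)
  obtain ⟨NE, hNE⟩ := extract k (2 * (2 * NI))
  refine ⟨NE + 2, ?_⟩
  intro r E X hr hrep hXE hXs hXl
  -- the element f
  have hss : X NE ⊂ X (NE + 1) := hXs NE (NE + 1) (by omega) (by omega)
  obtain ⟨f, hf1, hf0⟩ := Finset.exists_of_ssubset hss
  have hfE : f ∈ E := hXE (NE + 1) (by omega) hf1
  obtain ⟨A1, c, hck, hch, hst, hA1X⟩ := hNE r E X (fun i hi => hXE i (by omega))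
    (fun i j hij hj => hXs i j hij (by omega)) (fun i hi => hXl i (by omega))
  have hXX : X (NE - 1) ⊆ X NE := by
    rcases Nat.eq_zero_or_pos NE with h0 | h0
    · rw [h0]
    · exact (hXs (NE - 1) NE (by omega) (by omega)).subset
  have hfA1 : ∀ i, i < 2 * (2 * NI) → f ∉ A1 i := fun i hi h => hf0 (hXX (hA1X i hi h))
  -- transfers
  obtain ⟨s1, k1, hs1, hk1, hch1, hlk1⟩ := transfer_del hr hch hfE hfA1
  have hchE2 : LChain r E (fun a => A1 (s1 + a)) (2 * NI) c :=
    hch.comp (s := fun a => s1 + a) (fun a b hab => Nat.add_lt_add_left hab s1)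
      (fun a ha => by show s1 + a < _; omega)
  obtain ⟨s2, k2, hs2, hk2, hch2, hlk2⟩ := transfer_con hr hchE2 hfE
    (fun i hi => hfA1 (s1 + i) (by omega))
  obtain ⟨A3, hA3⟩ : ∃ A3 : ℕ → Finset ℕ, A3 = fun i => A1 (s1 + (s2 + i)) := ⟨_, rfl⟩
  have hcE : LChain r E A3 NI c := by
    rw [hA3]
    exact hchE2.comp (s := fun a => s2 + a) (fun a b hab => Nat.add_lt_add_left hab s2)
      (fun a ha => by show s2 + a < _; omega)
  have hcD : LChain r (E.erase f) A3 NI k1 := by
    rw [hA3]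
    exact hch1.comp (s := fun a => s2 + a) (fun a b hab => Nat.add_lt_add_left hab s2)
      (fun a ha => by show s2 + a < _; omega)
  have hcC : LChain (contr r {f}) (E.erase f) A3 NI k2 := by
    rw [hA3]
    exact hch2
  have hA3s : ∀ i j, i < j → j < NI → A3 i ⊂ A3 j := by
    intro i j hij hj
    rw [hA3]
    exact hst _ _ (by omega) (by omega)
  have hA3f : ∀ i, i < NI → f ∉ A3 i := by
    intro i hi
    rw [hA3]
    exact hfA1 _ (by omega)
  have hlkD : ∀ i j, i < j → j < NI → ∀ C ⊆ A3 j \ A3 i, Lk r (A3 i) C (E \ A3 j) c →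
      Lk r (A3 i) C ((E.erase f) \ A3 j) k1 := by
    intro i j hij hj C hC h
    rw [hA3] at hC h ⊢
    exact hlk1 (s2 + i) (s2 + j) (by omega) (by omega) C hC h
  have hlkC : ∀ i j, i < j → j < NI → ∀ C ⊆ A3 j \ A3 i, Lk r (A3 i) C (E \ A3 j) c →
      Lk (contr r {f}) (A3 i) C ((E.erase f) \ A3 j) k2 := by
    intro i j hij hj C hC h
    rw [hA3] at hC h ⊢
    exact hlk2 i j hij hj C hC h
  -- the family and the optimal representations
  obtain ⟨F, hF⟩ : ∃ F : List (Finset ℕ), F = (List.range NI).map A3 := ⟨_, rfl⟩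
  have hmem : ∀ i, i < NI → A3 i ∈ F := by
    intro i hi
    rw [hF]
    exact List.mem_map_of_mem (List.mem_range.2 hi)
  have hmem' : ∀ Y ∈ F, ∃ i, i < NI ∧ A3 i = Y := by
    intro Y hY
    rw [hF, List.mem_map] at hY
    obtain ⟨i, hi, rfl⟩ := hY
    exact ⟨i, List.mem_range.1 hi, rfl⟩
  have hNC : NC (E.erase f) F := by
    refine ⟨?_, ?_⟩
    · intro Y hY
      obtain ⟨i, hi, rfl⟩ := hmem' Y hY
      exact hcD.sub i hi
    · intro Y hY Z hZ
      obtain ⟨i, hi, rfl⟩ := hmem' Y hY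
      obtain ⟨j, hj, rfl⟩ := hmem' Z hZ
      rcases le_total i j with hij | hij
      · exact Or.inl (hcD.mono i j hij hj)
      · exact Or.inr (Or.inl (hcD.mono j i hij hi))
  obtain ⟨G, hG⟩ := opt_exists hNC (hrep f hfE).1
  obtain ⟨G', hG'⟩ := opt_exists hNC (hrep f hfE).2
  have hr' : RkFn (contr r {f}) := hr.contr {f}
  have hbG : ∀ i, i < NI → (bd G (E.erase f) (A3 i)).ncard ≤ 6 * k := by
    intro i hi
    have h1 := opt_bd_le hr hG (hmem i hi)
    rw [hcD.eq i hi] at h1
    omega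
  have hbG' : ∀ i, i < NI → (bd G' (E.erase f) (A3 i)).ncard ≤ 6 * k := by
    intro i hi
    have h1 := opt_bd_le hr' hG' (hmem i hi)
    rw [hcC.eq i hi] at h1
    omega
  -- the interval function
  obtain ⟨s, hs, hsN, c0, hc0, hconst⟩ := hNI
    (fun i j => ff G (E.erase f) (A3 i) (A3 j) + ff G' (E.erase f) (A3 i) (A3 j))
    (by
      intro i j hij hj
      have h1 := ff_le G (A' := A3 j) (hcD.sub i (hij.trans hj))
      have h2 := ff_le G' (A' := A3 j) (hcD.sub i (hij.trans hj))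
      have h3 := hbG i (hij.trans hj)
      have h4 := hbG j hj
      have h5 := hbG' i (hij.trans hj)
      have h6 := hbG' j hj
      show ff G (E.erase f) (A3 i) (A3 j) + ff G' (E.erase f) (A3 i) (A3 j) ≤ 48 * k
      omega)
    (by
      intro i' i j j' h1 h2 h3 h4
      have h5 : A3 i' ⊆ A3 i := hcD.mono i' i h1 (by omega)
      have h6 : A3 i ⊆ A3 j := hcD.mono i j h2.le (by omega)
      have h7 : A3 j ⊆ A3 j' := hcD.mono j j' h3 h4
      exact Nat.add_le_add (ff_anti G h5 h6 h7 (hcD.sub j' h4))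
        (ff_anti G' h5 h6 h7 (hcD.sub j' h4)))
  have hs0 : ∀ a b, a < b → b < n + 2 →
      ff G (E.erase f) (A3 (s a)) (A3 (s b)) =
          ff G (E.erase f) (A3 (s 0)) (A3 (s (n + 1))) ∧
        ff G' (E.erase f) (A3 (s a)) (A3 (s b)) =
          ff G' (E.erase f) (A3 (s 0)) (A3 (s (n + 1))) := by
    intro a b hab hb
    have h1 := hconst a b hab hb
    have h2 := hconst 0 (n + 1) (by omega) (by omega)
    have hN : s (n + 1) < NI := hsN (n + 1) (by omega)
    have m0 : s 0 ≤ s a := hs.monotone (Nat.zero_le a)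
    have m1 : s a ≤ s b := hs.monotone hab.le
    have m2 : s b ≤ s (n + 1) := hs.monotone (by omega)
    have h5 : A3 (s 0) ⊆ A3 (s a) := hcD.mono _ _ m0 (by omega)
    have h6 : A3 (s a) ⊆ A3 (s b) := hcD.mono _ _ m1 (by omega)
    have h7 : A3 (s b) ⊆ A3 (s (n + 1)) := hcD.mono _ _ m2 hN
    have h8 := ff_anti G h5 h6 h7 (hcD.sub _ hN)
    have h9 := ff_anti G' h5 h6 h7 (hcD.sub _ hN)
    have h1' : ff G (E.erase f) (A3 (s a)) (A3 (s b)) +
      ff G' (E.erase f) (A3 (s a)) (A3 (s b)) = c0 := h1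
    have h2' : ff G (E.erase f) (A3 (s 0)) (A3 (s (n + 1))) +
      ff G' (E.erase f) (A3 (s 0)) (A3 (s (n + 1))) = c0 := h2
    constructor <;> omega
  have hc4D : LChain r (E.erase f) (fun a => A3 (s a)) (n + 2) k1 := hcD.comp hs hsN
  have hc4C : LChain (contr r {f}) (E.erase f) (fun a => A3 (s a)) (n + 2) k2 :=
    hcC.comp hs hsN
  have hstG := stable_of_const hr hG hc4D (fun i hi => hmem _ (hsN i hi))
    (c := ff G (E.erase f) (A3 (s 0)) (A3 (s (n + 1)))) (fun i j hij hj => (hs0 i j hij hj).1)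
  have hstG' := stable_of_const hr' hG' hc4C (fun i hi => hmem _ (hsN i hi))
    (c := ff G' (E.erase f) (A3 (s 0)) (A3 (s (n + 1)))) (fun i j hij hj => (hs0 i j hij hj).2)
  -- the final chain
  obtain ⟨A, hA⟩ : ∃ A : ℕ → Finset ℕ, A = fun a => A3 (s (a + 1)) := ⟨_, rfl⟩
  have hsn : ∀ a, a < n → s (a + 1) < NI := fun a ha => hsN (a + 1) (by omega)
  have hAE : ∀ a, a < n → A a ⊆ E := by
    intro a ha
    rw [hA]
    exact hcE.sub _ (hsn a ha)
  have hAs : ∀ a, a + 1 < n → A a ⊂ A (a + 1) := by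
    intro a ha
    rw [hA]
    exact hA3s _ _ (hs (Nat.lt_succ_self _)) (hsn (a + 1) ha)
  have hex : ∀ a, ∃ C : Finset ℕ, a + 1 < n →
      C ⊆ A (a + 1) \ A a ∧ Lk r (A a) C (E \ A (a + 1)) c := by
    intro a
    by_cases ha : a + 1 < n
    · have hlt : s (a + 1) < s (a + 1 + 1) := hs (Nat.lt_succ_self _)
      have h2 : s (a + 1 + 1) < NI := hsn (a + 1) ha
      have h1 : s (a + 1) < NI := by omega
      obtain ⟨C, hC1, hC2⟩ := tutte hr (hcE.mono _ _ hlt.le h2) (hcE.sub _ h2) (hcE.eq _ h1)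
        (hcE.eq _ h2) (fun Y hY1 hY2 => hcE.low _ _ hlt.le h2 Y hY1 hY2)
      refine ⟨C, fun _ => ?_⟩
      rw [hA]
      exact ⟨hC1, hC2⟩
    · exact ⟨∅, fun h => absurd h ha⟩
  choose C hC using hex
  have hLD : ∀ a, a + 1 < n → Lk r (A a) (C a) ((E.erase f) \ A (a + 1)) k1 := by
    intro a ha
    have h1 := hC a ha
    rw [hA] at h1 ⊢
    exact hlkD _ _ (hs (Nat.lt_succ_self _)) (hsn (a + 1) ha) (C a) h1.1 h1.2
  have hLC : ∀ a, a + 1 < n → Lk (contr r {f}) (A a) (C a) ((E.erase f) \ A (a + 1)) k2 := by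
    intro a ha
    have h1 := hC a ha
    rw [hA] at h1 ⊢
    exact hlkC _ _ (hs (Nat.lt_succ_self _)) (hsn (a + 1) ha) (C a) h1.1 h1.2
  have hAF : ∀ a, a < n → A a ∈ F := by
    intro a ha
    rw [hA]
    exact hmem _ (hsn a ha)
  have hLG : ∀ a, a + 1 < n → LinkH G r (E.erase f) F (A a) (A (a + 1)) (C a) k1 := by
    intro a ha
    refine ⟨hr, hG, hAF a (by omega), hAF (a + 1) ha, (hAs a ha).subset, (hC a ha).1,
      hLD a ha, ?_, ?_, ?_⟩
    · rw [hA]
      exact hcD.eq _ (hsn a (by omega))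
    · rw [hA]
      exact hcD.eq _ (hsn (a + 1) ha)
    · rw [hA]
      exact hstG (a + 1) (a + 1 + 1) (by omega) (by omega) (by omega)
  have hLG' : ∀ a, a + 1 < n →
      LinkH G' (contr r {f}) (E.erase f) F (A a) (A (a + 1)) (C a) k2 := by
    intro a ha
    refine ⟨hr', hG', hAF a (by omega), hAF (a + 1) ha, (hAs a ha).subset, (hC a ha).1,
      hLC a ha, ?_, ?_, ?_⟩
    · rw [hA]
      exact hcC.eq _ (hsn a (by omega))
    · rw [hA]
      exact hcC.eq _ (hsn (a + 1) ha)
    · rw [hA]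
      exact hstG' (a + 1) (a + 1 + 1) (by omega) (by omega) (by omega)
  obtain ⟨p, hp1, hp2, hp3⟩ := exists_marks hLG
  obtain ⟨q, hq1, hq2, hq3⟩ := exists_marks hLG'
  have hm : (bd G (E.erase f) (A 0)).ncard ≤ 6 * k := by
    rw [hA]
    exact hbG _ (hsN 1 (by omega))
  have hm' : (bd G' (E.erase f) (A 0)).ncard ≤ 6 * k := by
    rw [hA]
    exact hbG' _ (hsN 1 (by omega))
  refine ⟨f, G, G', A, C, _, _, p, q, hm, hm', ?_, ?_⟩
  · intro a ha
    have h1 : lam r E (A a) = c := by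
      rw [hA]
      exact hcE.eq _ (hsn a ha)
    omega
  · exact
      { ch := ⟨hr, hAE, hAs, fun a ha => (hC a ha).1, fun a ha => (hLD a ha).1⟩
        hf := hfE
        fA := fun a ha => by
          rw [hA]
          exact hA3f _ (hsn a ha)
        rG := hG.1
        rG' := hG'.1
        sk' := fun a ha => (hLC a ha).1
        pinj := hp1
        prange := hp2
        ptr := hp3
        qinj := hq1
        qrange := hq2
        qtr := hq3 }

end Pool.Agent.Helper28.BW
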