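import Pool.Agent.Helper28.BW.RkFn

/-!
# BW-29: unions of linking sets along the chain

`CU C i j = C i ∪ ... ∪ C (j-1)`. Hypotheses: `A i ⊆ A (i+1)`, `C i ⊆ A (i+1) \ A i`, `r (A i ∪ C i) = r (A i) + |C i|`.
`cu_sub`: `CU C i j ⊆ A j \ A i` (induction on `j`).
`cu_skew`: `r (A i ∪ CU C i j) = r (A i) + |CU C i j|`: induction on `j`; `A i ∪ CU C i j ⊆ A j`, so the marginal of `C j` over it
is at least the marginal over `A j`, which is `|C j|`; `C j` is disjoint from `CU C i j ⊆ A j`.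
Then for all `U ⊆ A i`: `r (U ∪ CU C i j) = r U + |CU C i j|` (marginal of `CU` over `U` is at least the one over `A i`).
`cu_label`: `ℓ j (U ∪ CU C i j) = ℓ i U` by induction on `j`: `U ∪ CU C i j ⊆ A j`.
-/

set_option autoImplicit false

namespace Pool.Agent.Helper28.BW

/-- union of the linking sets `C i, ..., C (j-1)` -/
def CU (C : ℕ → Finset ℕ) (i j : ℕ) : Finset ℕ := (Finset.Ico i j).biUnion C

/-- hypotheses on a chain with linking sets -/
structure CHyp (r : Finset ℕ → ℕ) (E : Finset ℕ) (A C : ℕ → Finset ℕ) (n : ℕ) : Prop where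
  hr : RkFn r
  sub : ∀ i, i < n → A i ⊆ E
  ssub : ∀ i, i + 1 < n → A i ⊂ A (i + 1)
  hC : ∀ i, i + 1 < n → C i ⊆ A (i + 1) \ A i
  sk : ∀ i, i + 1 < n → r (A i ∪ C i) = r (A i) + (C i).card

theorem CHyp.mono {r : Finset ℕ → ℕ} {E : Finset ℕ} {A C : ℕ → Finset ℕ} {n : ℕ}
    (h : CHyp r E A C n) {i j : ℕ} (hij : i ≤ j) (hj : j < n) : A i ⊆ A j := by
  induction hij with
  | refl => exact Finset.Subset.refl _
  | @step m hm ih => exact (ih (by omega)).trans (h.ssub m hj).1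

theorem CHyp.smono {r : Finset ℕ → ℕ} {E : Finset ℕ} {A C : ℕ → Finset ℕ} {n : ℕ}
    (h : CHyp r E A C n) {i j : ℕ} (hij : i < j) (hj : j < n) : A i ⊂ A j :=
  lt_of_lt_of_le (h.ssub i (by omega)) (h.mono hij hj)

private theorem CU_self (C : ℕ → Finset ℕ) (i : ℕ) : CU C i i = ∅ := by
  simp [CU]

private theorem CU_succ (C : ℕ → Finset ℕ) {i j : ℕ} (hij : i ≤ j) :
    CU C i (j + 1) = CU C i j ∪ C j := by
  have h1 : Finset.Ico i (j + 1) = insert j (Finset.Ico i j) := by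
    ext x
    simp only [Finset.mem_insert, Finset.mem_Ico]
    omega
  rw [CU, h1, Finset.biUnion_insert, Finset.union_comm]
  rfl

theorem cu_sub {r : Finset ℕ → ℕ} {E : Finset ℕ} {A C : ℕ → Finset ℕ} {n : ℕ}
    (h : CHyp r E A C n) {i j : ℕ} (hij : i ≤ j) (hj : j < n) : CU C i j ⊆ A j \ A i := by
  induction hij with
  | refl => rw [CU_self]; exact Finset.empty_subset _
  | @step m hm ih =>
    rw [CU_succ C hm]
    refine Finset.union_subset ?_ ?_
    · exact (ih (by omega)).trans (Finset.sdiff_subset_sdiff (h.ssub m hj).1 (Finset.Subset.refl _))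
    · exact (h.hC m hj).trans
        (Finset.sdiff_subset_sdiff (Finset.Subset.refl _) (h.mono hm (by omega)))

private theorem cu_sub' {r : Finset ℕ → ℕ} {E : Finset ℕ} {A C : ℕ → Finset ℕ} {n : ℕ}
    (h : CHyp r E A C n) {i j : ℕ} (hij : i ≤ j) (hj : j < n) {U : Finset ℕ} (hU : U ⊆ A i) :
    U ∪ CU C i j ⊆ A j :=
  Finset.union_subset (hU.trans (h.mono hij hj)) ((cu_sub h hij hj).trans Finset.sdiff_subset)

private theorem cu_card {r : Finset ℕ → ℕ} {E : Finset ℕ} {A C : ℕ → Finset ℕ} {n : ℕ}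
    (h : CHyp r E A C n) {i j : ℕ} (hij : i ≤ j) (hj : j + 1 < n) :
    (CU C i (j + 1)).card = (CU C i j).card + (C j).card := by
  rw [CU_succ C hij]
  refine Finset.card_union_of_disjoint (Finset.disjoint_left.2 fun x hx hx' => ?_)
  exact (Finset.mem_sdiff.1 (h.hC j hj hx')).2
    (Finset.sdiff_subset (cu_sub h hij (by omega) hx))

theorem cu_skew {r : Finset ℕ → ℕ} {E : Finset ℕ} {A C : ℕ → Finset ℕ} {n : ℕ}
    (h : CHyp r E A C n) {i j : ℕ} (hij : i ≤ j) (hj : j < n) {U : Finset ℕ} (hU : U ⊆ A i) :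
    r (U ∪ CU C i j) = r U + (CU C i j).card := by
  induction hij with
  | refl => rw [CU_self, Finset.union_empty, Finset.card_empty, add_zero]
  | @step m hm ih =>
    have h1 := ih (by omega)
    have h2 := cu_sub' h hm (by omega) hU
    have h3 := h.hr.marg (Z := C m) h2
    have h4 := h.sk m hj
    have h5 := h.hr.union_le (U ∪ CU C i m) (C m)
    have h6 := cu_card h hm hj
    have h7 : U ∪ CU C i (m + 1) = U ∪ CU C i m ∪ C m := by
      rw [CU_succ C hm, Finset.union_assoc]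
    change r (U ∪ CU C i (m + 1)) = r U + (CU C i (m + 1)).card
    rw [h7]
    omega

theorem cu_indep {r : Finset ℕ → ℕ} {E : Finset ℕ} {A C : ℕ → Finset ℕ} {n : ℕ}
    (h : CHyp r E A C n) {i j : ℕ} (hij : i ≤ j) (hj : j < n) :
    r (CU C i j) = (CU C i j).card := by
  have h1 := cu_skew h hij hj (Finset.empty_subset (A i))
  rwa [Finset.empty_union, h.hr.empty, zero_add] at h1

theorem cu_label {r : Finset ℕ → ℕ} {E : Finset ℕ} {A C : ℕ → Finset ℕ} {n : ℕ}
    (h : CHyp r E A C n) {Λ : Type} {l : ℕ → Finset ℕ → Λ}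
    (ht : ∀ i, i + 1 < n → ∀ U ⊆ A i, l (i + 1) (U ∪ C i) = l i U)
    {i j : ℕ} (hij : i ≤ j) (hj : j < n) {U : Finset ℕ} (hU : U ⊆ A i) :
    l j (U ∪ CU C i j) = l i U := by
  induction hij with
  | refl => rw [CU_self, Finset.union_empty]
  | @step m hm ih =>
    have h1 := ih (by omega)
    have h2 := cu_sub' h hm (by omega) hU
    have h7 : U ∪ CU C i (m + 1) = U ∪ CU C i m ∪ C m := by
      rw [CU_succ C hm, Finset.union_assoc]
    change l (m + 1) (U ∪ CU C i (m + 1)) = l i U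
    rw [h7, ht m hj _ h2, h1]

end Pool.Agent.Helper28.BW
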