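import Pool.Agent.Helper28.BW.LinkLR

/-!
# BW-22: every boundary vertex is reached by the linking

Data `LinkH`, `B = E \ A`, `B' = E \ A'`.
`reach_left`. Every `v ∈ bd G E A` is joined in `C` to a vertex of `vs G B'`. Proof. Suppose not. Let `v'` be a new vertex and
`G' = spl G A v v'` (edges of `A` at `v` go to `v'`). By `opt_split` it suffices to show `(v, v', 1) ∉ cl (img G' E)`, and by
`spl_notMem_of_rk_le` that `rk G' E ≤ rk G E`. Let `X = A ∪ C ∪ B'`. The component of `v` in `img G' X` is the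
`C`-component `D` of `v`: `D` contains no vertex of `vs G B'` (assumption) and no vertex of `vs G A` except `v` (`link_left`), and the
edges of `A` at `v` have moved to `v'`; so every edge of `img G' X` at a vertex of `D` is an edge of `C` (`W_closed`).
So `v` is not joined to `v'` in `img G' X` and it is balanced there (`link_left` with `a = a' = v`): `(v, v', 1) ∉ cl (img G' X)`, so
`rk G' X = rk G X` (`spl_rk`). Also `rk G' (B' ∪ C) = rk G (B' ∪ C)` and `rk G' B = rk G B` (disjoint from `A`). Submodularity in `G'`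
(`RkFn.marg` with `B' ∪ C ⊆ B` and the set `A`): `rk G' E - rk G' B ≤ rk G' X - rk G' (B' ∪ C)`. By `Lk`:
`rk G X - rk G (B' ∪ C) = rk G A - k = rk G E - rk G B` (as `lam r E A = k`). So `rk G' E ≤ rk G E`.
`reach_right`. Every `v ∈ bd G E A'` is joined in `C` to a vertex of `vs G A`. Suppose not; `G' = spl G A' v v'`. In `G'` the
`C`-edges at `v` are at `v'`; `v ∉ vs G A` (trivial walk). The component of `v'` in `img G' X` is the `C`-component of `v` with
`v` renamed `v'`: it contains no vertex of `vs G A` and no vertex of `vs G B'` (the only possible one is `v`, `link_right`,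
and the edges of `B'` at `v` stay at `v ≠ v'`). It is balanced and does not contain `v`. So `rk G' X = rk G X`. Now use the sets
`A'` and `A ∪ C ⊆ A'`, whose ranks do not change (`spl_rk_of_subset`): `rk G' E - rk G' A' ≤ rk G' X - rk G' (A ∪ C)
= rk G X - rk G (A ∪ C) = rk G B' - k = rk G E - rk G A'`.
-/

set_option autoImplicit false

namespace Pool.Agent.Helper28.BW

variable {H : Type} [Group H]

private theorem rc_fresh (G : GG H) (E : Finset ℕ) : ∃ v' : ℕ, v' ∉ vs G E :=
  (vs_finite G E).infinite_compl.nonempty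

private theorem rc_spl_mem {G : GG H} {A : Finset ℕ} {v v' e : ℕ} (he : e ∈ A) :
    spl G A v v' e = (if (G e).1 = v then v' else (G e).1,
      if (G e).2.1 = v then v' else (G e).2.1, (G e).2.2) := by
  unfold spl
  rw [if_pos he]

private theorem rc_spl_not {G : GG H} {A : Finset ℕ} {v v' e : ℕ} (he : e ∉ A) :
    spl G A v v' e = G e := by
  unfold spl
  rw [if_neg he]

private theorem rc_l (G : GG H) {X : Finset ℕ} {e : ℕ} (he : e ∈ X) : (G e).1 ∈ vs G X :=
  ⟨G e, ⟨e, he, rfl⟩, Or.inl rfl⟩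

private theorem rc_r (G : GG H) {X : Finset ℕ} {e : ℕ} (he : e ∈ X) : (G e).2.1 ∈ vs G X :=
  ⟨G e, ⟨e, he, rfl⟩, Or.inr rfl⟩

private theorem rc_con (G : GG H) {X : Finset ℕ} {e : ℕ} (he : e ∈ X) :
    Con (img G X) (G e).1 (G e).2.1 := ⟨(G e).2.2, W.edge ⟨e, he, rfl⟩⟩

/-- the ranks, once the rank of `A ∪ C ∪ B'` does not go up -/
private theorem rc_sets {E A A' C : Finset ℕ} (hA : A ⊆ E) (hA' : A' ⊆ E) (hAA : A ⊆ A')
    (hC : C ⊆ A' \ A) :
    A ∪ C ∪ (E \ A') ⊆ E ∧ (E \ A') ∪ C ⊆ E \ A ∧ (E \ A) ∪ A = E ∧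
      (E \ A') ∪ C ∪ A = A ∪ C ∪ (E \ A') ∧ A ∪ C ⊆ A' ∧ A' ∪ (E \ A') = E ∧
      Disjoint ((E \ A') ∪ C) A := by
  have h1 : C ⊆ E := hC.trans (Finset.sdiff_subset.trans hA')
  refine ⟨?_, ?_, ?_, ?_, ?_, ?_, ?_⟩
  · exact Finset.union_subset (Finset.union_subset hA h1) Finset.sdiff_subset
  · refine Finset.union_subset (Finset.sdiff_subset_sdiff subset_rfl hAA) ?_
    intro x hx
    have := hC hx
    rw [Finset.mem_sdiff] at this ⊢
    exact ⟨h1 hx, this.2⟩
  · exact Finset.sdiff_union_of_subset hA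
  · ext x
    simp only [Finset.mem_union]
    tauto
  · exact Finset.union_subset hAA (hC.trans Finset.sdiff_subset)
  · exact Finset.union_sdiff_of_subset hA'
  · rw [Finset.disjoint_left]
    intro x hx hxA
    rw [Finset.mem_union, Finset.mem_sdiff] at hx
    rcases hx with hx | hx
    · exact hx.2 (hAA hxA)
    · exact (Finset.mem_sdiff.1 (hC hx)).2 hxA

theorem reach_left {G : GG H} {r : Finset ℕ → ℕ} {E : Finset ℕ} {F : List (Finset ℕ)}
    {A A' C : Finset ℕ} {k : ℕ} (h : LinkH G r E F A A' C k) {v : ℕ} (hv : v ∈ bd G E A) :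
    ∃ w ∈ vs G (E \ A'), Con (img G C) v w := by
  by_contra hn
  push Not at hn
  obtain ⟨v', hv'⟩ := rc_fresh G E
  have hAE : A ⊆ E := h.opt.2.1.1 A h.mA
  have hAE' : A' ⊆ E := h.opt.2.1.1 A' h.mA'
  have hvE : v ∈ vs G E := vs_mono G hAE hv.1
  have hne : v ≠ v' := fun h0 => hv' (h0 ▸ hvE)
  obtain ⟨s1, s2, s3, s4, s5, s6, s7⟩ := rc_sets hAE hAE' h.sub h.hC
  have hCE : C ⊆ E := h.hC.trans (Finset.sdiff_subset.trans hAE')
  have hv'D : ¬ Con (img G C) v v' := by
    intro hc
    rcases Con_ends hc with h1 | h1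
    · exact hne h1
    · exact hv' (vs_mono G hCE h1.2)
  have hAD : ∀ a ∈ vs G A, Con (img G C) v a → v = a := by
    intro a ha hc
    obtain ⟨g, hg⟩ := hc
    exact (link_left h hv.1 ha hg).1
  have hcl : ∀ (x : ℕ) (g : H), W (img (spl G A v v') (A ∪ C ∪ (E \ A'))) v x g →
      x ∈ cls (img G C) v ∧ W (img G C) v x g := by
    intro x g hw
    refine W_closed (mem_cls_self _ v) ?_ hw
    rintro t ⟨e, he, rfl⟩ ht
    have he' : e ∈ A ∪ C ∪ (E \ A') := he
    by_cases heA : e ∈ A
    · exfalso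
      rw [rc_spl_mem heA] at ht
      rcases ht with ht | ht
      · by_cases h1 : (G e).1 = v
        · rw [if_pos h1] at ht
          exact hv'D ht
        · rw [if_neg h1] at ht
          exact h1 (hAD _ (rc_l G heA) ht).symm
      · by_cases h1 : (G e).2.1 = v
        · simp only [if_pos h1] at ht
          exact hv'D ht
        · simp only [if_neg h1] at ht
          exact h1 (hAD _ (rc_r G heA) ht).symm
    · rw [rc_spl_not heA] at ht ⊢
      have heCB : e ∈ C ∨ e ∈ E \ A' := by
        rw [Finset.mem_union, Finset.mem_union] at he'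
        rcases he' with (h1 | h1) | h1
        · exact absurd h1 heA
        · exact Or.inl h1
        · exact Or.inr h1
      rcases heCB with heC | heB
      · refine ⟨?_, ?_, ⟨e, heC, rfl⟩⟩
        · rcases ht with ht | ht
          · exact ht
          · exact Con.trans ht (rc_con G heC).symm
        · rcases ht with ht | ht
          · exact Con.trans ht (rc_con G heC)
          · exact ht
      · exfalso
        rcases ht with ht | ht
        · exact hn _ (rc_l G heB) ht
        · exact hn _ (rc_r G heB) ht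
  have hnot : (v, v', (1 : H)) ∉ cl (img (spl G A v v') (A ∪ C ∪ (E \ A'))) := by
    rintro (h1 | ⟨⟨g, hg, hw⟩, -⟩)
    · exact hv'D (hcl _ _ h1).1
    · exact hg (link_left h hv.1 hv.1 (hcl _ _ hw).2).2
  have e1 := spl_rk G (A := A) hv' hne s1
  rw [if_neg hnot, add_zero] at e1
  have e2 := spl_rk_of_disjoint G (A := A) (v := v) (v' := v') s7
  have e3 := spl_rk_of_disjoint G (A := A) (X := E \ A) (v := v) (v' := v')
    Finset.sdiff_disjoint
  have e4 := (rk_rkFn (spl G A v v')).marg (Z := A) s2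
  rw [s3, s4] at e4
  have hrep := h.opt.1
  have f1 := hrep _ s1
  have f2 := hrep _ (s2.trans Finset.sdiff_subset)
  have f3 := hrep (E \ A) Finset.sdiff_subset
  have f4 := hrep E subset_rfl
  obtain ⟨l1, l2, l3⟩ := h.lk
  have f5 := lam_eq h.hr hAE
  rw [h.kA] at f5
  exact spl_notMem_of_rk_le hv' hne (by omega) (opt_split h.opt h.mA hv hv')

theorem reach_right {G : GG H} {r : Finset ℕ → ℕ} {E : Finset ℕ} {F : List (Finset ℕ)}
    {A A' C : Finset ℕ} {k : ℕ} (h : LinkH G r E F A A' C k) {v : ℕ} (hv : v ∈ bd G E A') :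
    ∃ w ∈ vs G A, Con (img G C) v w := by
  classical
  by_contra hn
  push Not at hn
  obtain ⟨v', hv'⟩ := rc_fresh G E
  have hAE : A ⊆ E := h.opt.2.1.1 A h.mA
  have hAE' : A' ⊆ E := h.opt.2.1.1 A' h.mA'
  have hvE : v ∈ vs G E := vs_mono G hAE' hv.1
  have hne : v ≠ v' := fun h0 => hv' (h0 ▸ hvE)
  obtain ⟨s1, s2, s3, s4, s5, s6, s7⟩ := rc_sets hAE hAE' h.sub h.hC
  have hCA' : C ⊆ A' := h.hC.trans Finset.sdiff_subset
  have hCE : C ⊆ E := hCA'.trans hAE'
  have hvA : v ∉ vs G A := fun h1 => hn v h1 (Con.refl _ v)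
  obtain ⟨σ, hσ⟩ : ∃ σ : ℕ → ℕ, σ = fun u => if u = v then v' else u := ⟨_, rfl⟩
  have hσv : σ v = v' := by rw [hσ]; exact if_pos rfl
  have hσn : ∀ u, u ≠ v → σ u = u := by
    intro u hu
    rw [hσ]
    exact if_neg hu
  have hinj : Set.InjOn σ {u | u ≠ v'} := by
    intro a ha b hb hab
    by_cases h1 : a = v <;> by_cases h2 : b = v
    · rw [h1, h2]
    · rw [h1, hσv, hσn b h2] at hab
      exact absurd hab.symm hb
    · rw [h2, hσv, hσn a h1] at hab
      exact absurd hab ha
    · rwa [hσn a h1, hσn b h2] at hab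
  have hEne : ∀ a ∈ vs G E, a ≠ v' := fun a ha h0 => hv' (h0 ▸ ha)
  have hcne : ∀ b, Con (img G C) v b → b ≠ v' := by
    intro b hc h0
    rcases Con_ends hc with h1 | h1
    · exact hne (h1.trans h0)
    · exact hEne b (vs_mono G hCE h1.2) h0
  -- a vertex of `G` whose image lies in the renamed component
  have hpull : ∀ a ∈ vs G E, σ a ∈ σ '' cls (img G C) v → Con (img G C) v a := by
    rintro a ha ⟨b, hb, hab⟩
    have : b = a := hinj (hcne b hb) (hEne a ha) hab
    rw [← this]
    exact hb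
  have hspl : ∀ e ∈ A', spl G A' v v' e = (σ (G e).1, σ (G e).2.1, (G e).2.2) := by
    intro e he
    rw [rc_spl_mem he, hσ]
  have hcl : ∀ (x : ℕ) (g : H), W (img (spl G A' v v') (A ∪ C ∪ (E \ A'))) v' x g →
      x ∈ σ '' cls (img G C) v ∧
        W ((fun t : Tri H => (σ t.1, σ t.2.1, t.2.2)) '' img G C) v' x g := by
    intro x g hw
    refine W_closed ⟨v, mem_cls_self _ v, hσv⟩ ?_ hw
    rintro t ⟨e, he, rfl⟩ ht
    have he' : e ∈ A ∪ C ∪ (E \ A') := he
    by_cases heA' : e ∈ A'
    · rw [hspl e heA'] at ht ⊢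
      have heE : e ∈ E := hAE' heA'
      have ht' : Con (img G C) v (G e).1 ∨ Con (img G C) v (G e).2.1 := by
        rcases ht with ht | ht
        · exact Or.inl (hpull _ (rc_l G heE) ht)
        · exact Or.inr (hpull _ (rc_r G heE) ht)
      by_cases heC : e ∈ C
      · refine ⟨⟨(G e).1, ?_, rfl⟩, ⟨(G e).2.1, ?_, rfl⟩, ⟨G e, ⟨e, heC, rfl⟩, rfl⟩⟩
        · rcases ht' with ht' | ht'
          · exact ht'
          · exact Con.trans ht' (rc_con G heC).symm
        · rcases ht' with ht' | ht'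
          · exact Con.trans ht' (rc_con G heC)
          · exact ht'
      · exfalso
        have heA : e ∈ A := by
          rw [Finset.mem_union, Finset.mem_union, Finset.mem_sdiff] at he'
          rcases he' with (h1 | h1) | h1
          · exact h1
          · exact absurd h1 heC
          · exact absurd heA' h1.2
        rcases ht' with ht' | ht'
        · exact hn _ (rc_l G heA) ht'
        · exact hn _ (rc_r G heA) ht'
    · exfalso
      have heB : e ∈ E \ A' := by
        rw [Finset.mem_union] at he'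
        rcases he' with h1 | h1
        · exact absurd (s5 h1) heA'
        · exact h1
      rw [rc_spl_not heA'] at ht
      have key : ∀ b ∈ vs G (E \ A'), b ∉ σ '' cls (img G C) v := by
        rintro b hb ⟨c, ⟨g, hg⟩, hcb⟩
        by_cases h1 : c = v
        · rw [h1, hσv] at hcb
          exact hEne b (vs_mono G Finset.sdiff_subset hb) hcb.symm
        · rw [hσn c h1] at hcb
          rw [← hcb] at hb
          exact h1 (link_right h hv.2 hb hg).1.symm
      rcases ht with ht | ht
      · exact key _ (rc_l G heB) ht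
      · exact key _ (rc_r G heB) ht
  have hnot : (v, v', (1 : H)) ∉ cl (img (spl G A' v v') (A ∪ C ∪ (E \ A'))) := by
    rintro (h1 | ⟨-, ⟨g, hg, hw⟩⟩)
    · obtain ⟨⟨c, hc, hcv⟩, -⟩ := hcl _ _ h1.symm
      by_cases h2 : c = v
      · rw [h2, hσv] at hcv
        exact hne hcv.symm
      · rw [hσn c h2] at hcv
        exact h2 hcv
    · have h2 := (hcl _ _ hw).2
      have h3 : W ((fun t : Tri H => (σ t.1, σ t.2.1, t.2.2)) '' img G C) (σ v) (σ v) g := by
        rw [hσv]
        exact h2
      rw [W_map_iff (D := {u | u ≠ v'}) (fun u hu => hEne u (vs_mono G hCE hu)) hinj hne hne] at h3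
      exact hg (link_right h hv.2 hv.2 h3).2
  have e1 := spl_rk G (A := A') hv' hne s1
  rw [if_neg hnot, add_zero] at e1
  have e2 := spl_rk_of_subset G (v := v) hv' (s5.trans hAE') s5
  have e3 := spl_rk_of_subset G (A := A') (v := v) hv' hAE' subset_rfl
  have e4 := (rk_rkFn (spl G A' v v')).marg (Z := E \ A') s5
  rw [s6] at e4
  have hrep := h.opt.1
  have f1 := hrep _ s1
  have f2 := hrep _ (s5.trans hAE')
  have f3 := hrep A' hAE'
  have f4 := hrep E subset_rfl
  obtain ⟨l1, l2, l3⟩ := h.lk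
  have f5 := lam_eq h.hr hAE'
  rw [h.kA'] at f5
  exact spl_notMem_of_rk_le hv' hne (by omega) (opt_split h.opt h.mA' hv hv')

end Pool.Agent.Helper28.BW
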