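import Pool.Agent.Helper28.BW.Bal

/-!
# BW-03: the rank function

`rho T + bal T S = |S|` for every finite `S ⊇ vx T`: the vertices of `S` outside `vx T` are
balanced singleton components. (For `S = vx T` it is the definition together with `bal_le_ncard`; adding a
vertex `s ∉ vx T` to `S` adds exactly one balanced component, namely `{s}`, which is a new one.)
`rho (insert t T) = rho T + 1` if `t ∉ cl T`, and `= rho T` otherwise: take
`S = vx (insert t T)` in the first formula for both sets and use BW-02.
-/

set_option autoImplicit false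
set_option linter.unusedSectionVars false

namespace Pool.Agent.Helper28.BW

variable {H : Type} [Group H]

theorem cls_of_notMem_vx {T : Set (Tri H)} {w : ℕ} (hw : w ∉ vx T) : cls T w = {w} := by
  ext x
  constructor
  · intro hx
    rcases Con_ends hx with h | h
    · exact h.symm
    · exact absurd h.1 hw
  · rintro rfl
    exact mem_cls_self T x

theorem rho_add_bal {T : Set (Tri H)} {S : Set ℕ} (hS : S.Finite) (hT : vx T ⊆ S) :
    rho T + bal T S = S.ncard := by
  have hv : (vx T).Finite := hS.subset hT
  have h1 := bal_le_ncard T hv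
  have e1 : balC T S = balC T (vx T) ∪ (fun w : ℕ => ({w} : Set ℕ)) '' (S \ vx T) := by
    ext c
    constructor
    · rintro ⟨u, hu, hb, rfl⟩
      by_cases h : u ∈ vx T
      · exact Or.inl ⟨u, h, hb, rfl⟩
      · exact Or.inr ⟨u, ⟨hu, h⟩, (cls_of_notMem_vx h).symm⟩
    · rintro (⟨u, hu, hb, rfl⟩ | ⟨u, ⟨hu, h⟩, rfl⟩)
      · exact ⟨u, hT hu, hb, rfl⟩
      · exact ⟨u, hu, fun h' => h h'.mem_vx, (cls_of_notMem_vx h).symm⟩
  have hdisj : Disjoint (balC T (vx T)) ((fun w : ℕ => ({w} : Set ℕ)) '' (S \ vx T)) := by
    rw [Set.disjoint_left]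
    rintro c ⟨u, hu, hb, rfl⟩ ⟨w, ⟨_, hw⟩, h⟩
    apply hw
    have : u ∈ ({w} : Set ℕ) := by
      simp only at h
      rw [h]
      exact mem_cls_self T u
    rw [Set.mem_singleton_iff] at this
    rwa [this] at hu
  have e2 : bal T S = bal T (vx T) + (S \ vx T).ncard := by
    rw [bal, e1, Set.ncard_union_eq hdisj (balC_finite T hv) ((hS.subset Set.sdiff_subset).image _),
      Set.ncard_image_of_injective _ Set.singleton_injective]
    rfl
  have e3 : (S \ vx T).ncard + (vx T).ncard = S.ncard := Set.ncard_sdiff_add_ncard_of_subset hT hS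
  rw [rho, e2]
  omega

theorem rho_empty : rho (∅ : Set (Tri H)) = 0 := by
  rw [rho, vx_empty, Set.ncard_empty, Nat.zero_sub]

theorem rho_insert_of_mem {T : Set (Tri H)} {t : Tri H} (hT : T.Finite) (ht : t ∈ cl T) :
    rho (insert t T) = rho T := by
  have hS : (vx (insert t T)).Finite := vx_finite (hT.insert t)
  have h1 := rho_add_bal hS (Set.Subset.refl _)
  have h2 := rho_add_bal (T := T) hS (vx_mono (Set.subset_insert t T))
  have h3 : bal (insert t T) (vx (insert t T)) = bal T (vx (insert t T)) := by
    rw [bal, bal, balC_insert_of_mem _ ht]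
  omega

theorem rho_insert_of_notMem {T : Set (Tri H)} {t : Tri H} (hT : T.Finite) (ht : t ∉ cl T) :
    rho (insert t T) = rho T + 1 := by
  have hS : (vx (insert t T)).Finite := vx_finite (hT.insert t)
  have h1 := rho_add_bal hS (Set.Subset.refl _)
  have h2 := rho_add_bal (T := T) hS (vx_mono (Set.subset_insert t T))
  have h3 := bal_insert_of_notMem hS (mem_vx_left (Set.mem_insert t T))
    (mem_vx_right (Set.mem_insert t T)) ht
  omega

end Pool.Agent.Helper28.BW
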