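import Pool.Agent.Helper28.BW.Rho

/-!
# BW-04: the rank function is a matroid rank function

From BW-03: adding `t` to `T` increases `rho` by `0` or `1`, by `1` iff `t ∉ cl T`, and `cl` is monotone
(`cl_mono`). So the marginal values decrease: for `T ⊆ T'` finite, `rho (insert t T') - rho T' ≤
rho (insert t T) - rho T`. Hence monotonicity (induction on `T' \ T`) and submodularity
`rho (T ∪ T') + rho (T ∩ T') ≤ rho T + rho T'` (induction: add the elements of `T \ T'` one by one to `T ∩ T'`
and to `T'`). If all elements of `T'` lie in `cl T` then `rho (T ∪ T') = rho T` (add them one by one, `cl` is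
monotone). `rk G` satisfies the rank conditions because `img G (X ∪ Y) = img G X ∪ img G Y`,
`img G (X ∩ Y) ⊆ img G X ∩ img G Y`, `img G (insert e X) = insert (G e) (img G X)`.
If `rho {t} = 0` then `t = (u, u, 1)`: `t ∈ cl ∅` and `∅` has only the trivial walks.
For two rank functions with the same independent subsets of `E` (`r I = |I|`), the ranks agree on subsets
of `E`: `r X` is the largest size of an independent subset of `X` (greedily extend an independent subset;
an independent subset `I` of `X` that is maximal satisfies `r X = |I|` by submodularity).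
-/

set_option autoImplicit false
set_option linter.unusedSectionVars false

namespace Pool.Agent.Helper28.BW

variable {H : Type} [Group H]

theorem rho_le_insert {T : Set (Tri H)} (hT : T.Finite) (t : Tri H) :
    rho T ≤ rho (insert t T) := by
  by_cases h : t ∈ cl T
  · rw [rho_insert_of_mem hT h]
  · rw [rho_insert_of_notMem hT h]
    exact Nat.le_succ _

theorem rho_insert_le {T : Set (Tri H)} (hT : T.Finite) (t : Tri H) :
    rho (insert t T) ≤ rho T + 1 := by
  by_cases h : t ∈ cl T
  · rw [rho_insert_of_mem hT h]
    exact Nat.le_succ _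
  · rw [rho_insert_of_notMem hT h]

theorem rho_mono {T T' : Set (Tri H)} (hT : T'.Finite) (h : T ⊆ T') : rho T ≤ rho T' := by
  have hTf : T.Finite := hT.subset h
  have key : ∀ U : Set (Tri H), U.Finite → rho T ≤ rho (T ∪ U) := by
    intro U hU
    induction U, hU using Set.Finite.induction_on with
    | empty => rw [Set.union_empty]
    | @insert a U _ hU ih =>
      rw [Set.union_insert]
      exact ih.trans (rho_le_insert (hTf.union hU) a)
  have := key T' hT
  rwa [Set.union_eq_self_of_subset_left h] at this

theorem rho_marg {T T' U : Set (Tri H)} (hT' : T'.Finite) (hU : U.Finite) (h : T ⊆ T') :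
    rho (T' ∪ U) + rho T ≤ rho (T ∪ U) + rho T' := by
  have hT : T.Finite := hT'.subset h
  induction U, hU using Set.Finite.induction_on with
  | empty => rw [Set.union_empty, Set.union_empty, add_comm]
  | @insert a U _ hU ih =>
    rw [Set.union_insert, Set.union_insert]
    have hf1 := hT.union hU
    have hf2 := hT'.union hU
    by_cases h1 : a ∈ cl (T' ∪ U)
    · rw [rho_insert_of_mem hf2 h1]
      have := rho_le_insert hf1 a
      omega
    · have h2 : a ∉ cl (T ∪ U) := fun h3 =>
        h1 (cl_mono (Set.union_subset_union_left U h) h3)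
      rw [rho_insert_of_notMem hf2 h1, rho_insert_of_notMem hf1 h2]
      omega

theorem rho_submod {T T' : Set (Tri H)} (hT : T.Finite) (hT' : T'.Finite) :
    rho (T ∪ T') + rho (T ∩ T') ≤ rho T + rho T' := by
  have := rho_marg hT' hT (Set.inter_subset_right : T ∩ T' ⊆ T')
  rwa [Set.union_comm T' T, Set.union_eq_self_of_subset_left
    (Set.inter_subset_left : T ∩ T' ⊆ T)] at this

theorem rho_union_cl {T T' : Set (Tri H)} (hT : T.Finite) (hT' : T'.Finite) (h : T' ⊆ cl T) :
    rho (T ∪ T') = rho T := by
  induction T', hT' using Set.Finite.induction_on with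
  | empty => rw [Set.union_empty]
  | @insert a U _ hU ih =>
    rw [Set.union_insert, rho_insert_of_mem (hT.union hU), ih ((Set.subset_insert a U).trans h)]
    exact cl_mono Set.subset_union_left (h (Set.mem_insert a U))

theorem rk_rkFn (G : GG H) : RkFn (rk G) where
  empty := by rw [rk, img_empty, rho_empty]
  mono X Y h := rho_mono (img_finite G Y) (img_mono G h)
  ins X e := by
    rw [rk, img_insert]
    exact rho_insert_le (img_finite G X) _
  sub X Y := by
    have h1 := rho_submod (img_finite G X) (img_finite G Y)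
    have h2 : rk G (X ∩ Y) ≤ rho (img G X ∩ img G Y) := by
      refine rho_mono ((img_finite G X).subset Set.inter_subset_left) ?_
      exact Set.subset_inter (img_mono G Finset.inter_subset_left)
        (img_mono G Finset.inter_subset_right)
    have h3 : rk G (X ∪ Y) = rho (img G X ∪ img G Y) := by rw [rk, img_union]
    have h4 : rk G X = rho (img G X) := rfl
    have h5 : rk G Y = rho (img G Y) := rfl
    omega

theorem eq_one_of_rho_singleton {u v : ℕ} {g : H} (h : rho ({(u, v, g)} : Set (Tri H)) = 0) :
    u = v ∧ g = 1 := by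
  by_cases h1 : ((u, v, g) : Tri H) ∈ cl (∅ : Set (Tri H))
  · rcases h1 with h1 | ⟨h1, _⟩
    · exact W.empty_iff.1 h1
    · have := h1.mem_vx
      rw [vx_empty] at this
      exact absurd this (Set.notMem_empty _)
  · have h2 := rho_insert_of_notMem Set.finite_empty h1
    rw [rho_empty, insert_empty_eq, h] at h2
    omega

theorem RkFn.marg {r : Finset ℕ → ℕ} (hr : RkFn r) {X Y Z : Finset ℕ} (h : X ⊆ Y) :
    r (Y ∪ Z) + r X ≤ r (X ∪ Z) + r Y := by
  have h1 := hr.sub (X ∪ Z) Y
  have h2 : X ∪ Z ∪ Y = Y ∪ Z := by
    ext a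
    simp only [Finset.mem_union]
    constructor
    · rintro ((h3 | h3) | h3)
      · exact Or.inl (h h3)
      · exact Or.inr h3
      · exact Or.inl h3
    · rintro (h3 | h3)
      · exact Or.inr h3
      · exact Or.inl (Or.inr h3)
  have h3 : r X ≤ r ((X ∪ Z) ∩ Y) :=
    hr.mono _ _ (Finset.subset_inter Finset.subset_union_left h)
  rw [h2] at h1
  omega

theorem RkFn.union_le {r : Finset ℕ → ℕ} (hr : RkFn r) (X Z : Finset ℕ) :
    r (X ∪ Z) ≤ r X + Z.card := by
  induction Z using Finset.induction_on with
  | empty => simp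
  | insert a Z ha ih =>
    rw [Finset.union_insert, Finset.card_insert_of_notMem ha]
    have := hr.ins (X ∪ Z) a
    omega

theorem RkFn.le_card {r : Finset ℕ → ℕ} (hr : RkFn r) (X : Finset ℕ) : r X ≤ X.card := by
  have := hr.union_le ∅ X
  rwa [Finset.empty_union, hr.empty, Nat.zero_add] at this

/-- subsets of independent sets are independent -/
theorem RkFn.indep_mono {r : Finset ℕ → ℕ} (hr : RkFn r) {X Y : Finset ℕ} (h : X ⊆ Y)
    (hY : r Y = Y.card) : r X = X.card := by
  apply le_antisymm (hr.le_card X)
  have h1 := hr.union_le X (Y \ X)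
  rw [Finset.union_sdiff_of_subset h, hY] at h1
  have h2 := Finset.card_sdiff_add_card_eq_card h
  omega

theorem RkFn.exists_basis {r : Finset ℕ → ℕ} (hr : RkFn r) (X : Finset ℕ) :
    ∃ I ⊆ X, r I = I.card ∧ r I = r X := by
  induction X using Finset.induction_on with
  | empty => exact ⟨∅, Finset.Subset.refl _, by rw [hr.empty, Finset.card_empty], rfl⟩
  | insert a X ha ih =>
    obtain ⟨I, hI, h1, h2⟩ := ih
    by_cases h3 : r (insert a X) = r X
    · exact ⟨I, hI.trans (Finset.subset_insert a X), h1, by rw [h3, h2]⟩
    · have h4 := hr.ins X a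
      have h5 := hr.mono X (insert a X) (Finset.subset_insert a X)
      have h6 := hr.marg (Z := {a}) hI
      have e1 : X ∪ {a} = insert a X := by
        rw [Finset.union_comm]; rfl
      have e2 : I ∪ {a} = insert a I := by
        rw [Finset.union_comm]; rfl
      rw [e1, e2] at h6
      have h7 := hr.le_card (insert a I)
      rw [Finset.card_insert_of_notMem (fun h => ha (hI h))] at h7
      refine ⟨insert a I, Finset.insert_subset_insert a hI, ?_, ?_⟩
      · rw [Finset.card_insert_of_notMem (fun h => ha (hI h))]
        omega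
      · omega

/-- rank functions are determined by their independent sets -/
theorem rkFn_ext {r r' : Finset ℕ → ℕ} (hr : RkFn r) (hr' : RkFn r') {E : Finset ℕ}
    (h : ∀ I ⊆ E, r I = I.card ↔ r' I = I.card) : ∀ X ⊆ E, r X = r' X := by
  intro X hX
  apply le_antisymm
  · obtain ⟨I, hI, h1, h2⟩ := hr.exists_basis X
    have h3 := (h I (hI.trans hX)).1 h1
    have h4 := hr'.mono I X hI
    omega
  · obtain ⟨I, hI, h1, h2⟩ := hr'.exists_basis X
    have h3 := (h I (hI.trans hX)).2 h1
    have h4 := hr.mono I X hI
    omega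

/-- the connectivity function with the subtraction removed -/
theorem lam_eq {r : Finset ℕ → ℕ} (hr : RkFn r) {E X : Finset ℕ} (h : X ⊆ E) :
    lam r E X + r E = r X + r (E \ X) := by
  have h1 := hr.sub X (E \ X)
  rw [Finset.union_sdiff_of_subset h] at h1
  rw [lam]
  omega

theorem lam_compl {r : Finset ℕ → ℕ} {E X : Finset ℕ} (h : X ⊆ E) :
    lam r E (E \ X) = lam r E X := by
  rw [lam, lam, Finset.sdiff_sdiff_eq_self h, add_comm]

theorem lam_submod {r : Finset ℕ → ℕ} (hr : RkFn r) {E X Y : Finset ℕ} (hX : X ⊆ E)
    (hY : Y ⊆ E) : lam r E (X ∪ Y) + lam r E (X ∩ Y) ≤ lam r E X + lam r E Y := by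
  have h1 := lam_eq hr (Finset.union_subset hX hY)
  have h2 := lam_eq hr (Finset.inter_subset_left.trans hX : X ∩ Y ⊆ E)
  have h3 := lam_eq hr hX
  have h4 := lam_eq hr hY
  have h5 := hr.sub X Y
  have h6 := hr.sub (E \ X) (E \ Y)
  have e1 : E \ X ∪ E \ Y = E \ (X ∩ Y) := (Finset.sdiff_inter_distrib_right E X Y).symm
  have e2 : (E \ X) ∩ (E \ Y) = E \ (X ∪ Y) := (Finset.sdiff_union_distrib E X Y).symm
  rw [e1, e2] at h6
  omega

end Pool.Agent.Helper28.BW
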