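import Pool.Agent.Helper28.BW.TwoSided
import Pool.Agent.Helper28.BW.RkFn

/-!
# BW-17: the transient components, skewness and the first inequality

Situation: `A0 ⊆ A ⊆ A1 ⊆ E`, `B = E \ A`, `S = bd G E A`, `k = lam r E A` and `k ≤ lam r E Y` for all `Y` between `A0` and
`A1`. Let `SK` be the set of `u ∈ S` whose `B`-component contains no vertex of `vs G (E \ A1)`, and `K` the set of
edges of `B` whose tail is in the `B`-component of some `u ∈ SK`.
`trK_sub`: `K ⊆ A1` (an edge of `K` outside `A1` would have its tail in `vs G (E \ A1)`).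
`trK_skew`: `rk G (A ∪ K) = rk G A + rk G K`. Proof. `K` is a union of `B`-components, so `K` and `B \ K` have no common vertex and
`rk G B = rk G K + rk G (B \ K)` (`two_sided_rk` with `S = ∅`). `A ∪ K` is between `A0` and `A1` so
`r (A ∪ K) + r (B \ K) - r E ≥ k = r A + r B - r E`, so `r (A ∪ K) ≥ r A + r K`; the other inequality is submodularity.
`trK_vs`: `vs G K ∩ vs G A = SK`, and for `u ∈ SK` the `K`-component of `u` is the `B`-component of `u` with the same balancedness.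
`trK_ineq`: by `two_sided_rk` for `K` and `A` with the set `SK`:
 `|SK| + bal (A ∪ K) SK = bal K SK + bal A SK`. Let `bK = bal (img G B) SK` (`= bal (img G K) SK`) and
`bL = bal (img G A) SL`, where `SL` is the set of `u ∈ S` whose `A`-component contains no vertex of `vs G A0`.
Claim: `bal (img G A) SK ≤ bal (img G (A ∪ K)) SK + bL`. The balanced `A`-components meeting `SK` and no vertex of
`vs G A0` are at most `bL`. The other ones (persistent): by `NoMerge G S A0 A A1` and `A ∪ K ⊆ A1`, the component of `A ∪ K`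
containing a persistent balanced one is balanced, and different persistent ones lie in different components; so
there are at most `bal (img G (A ∪ K)) SK` of them. Hence `|SK| ≤ bK + bL`.
-/

set_option autoImplicit false

namespace Pool.Agent.Helper28.BW

variable {H : Type} [Group H]

/-- boundary vertices of `A` whose `A`-component does not meet `vs G A0` -/
def SL (G : GG H) (E A0 A : Finset ℕ) : Set ℕ := {u | u ∈ bd G E A ∧ ¬ Mt G A0 A u}

/-- the hypotheses of the transient lemma -/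
structure TrH (G : GG H) (r : Finset ℕ → ℕ) (E A0 A A1 : Finset ℕ) : Prop where
  hr : RkFn r
  rep : Rep G r E
  h0 : A0 ⊆ A
  h1 : A ⊆ A1
  hE : A1 ⊆ E
  low : ∀ Y, A0 ⊆ Y → Y ⊆ A1 → lam r E A ≤ lam r E Y
  nm : NoMerge G (bd G E A) A0 A A1
  nm' : NoMerge G (bd G E A) (E \ A1) (E \ A) (E \ A0)

/-- the hypotheses are symmetric under complementation -/
theorem TrH.symm {G : GG H} {r : Finset ℕ → ℕ} {E A0 A A1 : Finset ℕ}
    (h : TrH G r E A0 A A1) : TrH G r E (E \ A1) (E \ A) (E \ A0) := by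
  have hA : A ⊆ E := h.h1.trans h.hE
  have hA0 : A0 ⊆ E := h.h0.trans hA
  refine ⟨h.hr, h.rep, Finset.sdiff_subset_sdiff (Finset.Subset.refl E) h.h1,
    Finset.sdiff_subset_sdiff (Finset.Subset.refl E) h.h0, Finset.sdiff_subset, ?_, ?_, ?_⟩
  · intro Y hY1 hY2
    have hYE : Y ⊆ E := hY2.trans Finset.sdiff_subset
    rw [lam_compl hA, ← lam_compl hYE]
    apply h.low
    · intro a ha
      rw [Finset.mem_sdiff]
      refine ⟨hA0 ha, fun haY => ?_⟩
      exact (Finset.mem_sdiff.1 (hY2 haY)).2 ha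
    · intro a ha
      rw [Finset.mem_sdiff] at ha
      by_contra hcon
      exact ha.2 (hY1 (Finset.mem_sdiff.2 ⟨ha.1, hcon⟩))
  · rw [bd_compl G hA]
    exact h.nm'
  · rw [bd_compl G hA, Finset.sdiff_sdiff_eq_self hA0, Finset.sdiff_sdiff_eq_self hA,
      Finset.sdiff_sdiff_eq_self h.hE]
    exact h.nm

open Classical in
/-- the edges of `E \ A` in the components (of `E \ A`) of the vertices in `SL G E (E \ A1) (E \ A)` -/
noncomputable def trK (G : GG H) (E A A1 : Finset ℕ) : Finset ℕ :=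
  (E \ A).filter fun e => ∃ u ∈ SL G E (E \ A1) (E \ A), Con (img G (E \ A)) u (G e).1

private theorem mem_trK {G : GG H} {E A A1 : Finset ℕ} {e : ℕ} : e ∈ trK G E A A1 ↔
    e ∈ E \ A ∧ ∃ u ∈ SL G E (E \ A1) (E \ A), Con (img G (E \ A)) u (G e).1 := by
  classical
  unfold trK
  rw [Finset.mem_filter]

private theorem trK_sub' {G : GG H} {E A A1 : Finset ℕ} : trK G E A A1 ⊆ E \ A :=
  fun _ he => (mem_trK.1 he).1

private theorem mem_img {G : GG H} {X : Finset ℕ} {e : ℕ} (he : e ∈ X) : G e ∈ img G X := ⟨e, he, rfl⟩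

private theorem con_edge {T : Set (Tri H)} {t : Tri H} (ht : t ∈ T) : Con T t.1 t.2.1 :=
  ⟨t.2.2, W.edge ht⟩

private theorem mem_vs {G : GG H} {X : Finset ℕ} {x : ℕ} : x ∈ vs G X ↔ ∃ e ∈ X, x = (G e).1 ∨ x = (G e).2.1 := by
  constructor
  · rintro ⟨t, ⟨e, he, rfl⟩, h⟩
    exact ⟨e, he, h⟩
  · rintro ⟨e, he, h⟩
    exact ⟨G e, ⟨e, he, rfl⟩, h⟩

/-- an end of an edge of `B` in the component of `u ∈ SK` -/
private theorem mem_trK_of {G : GG H} {E A A1 : Finset ℕ} {u x e : ℕ} (hu : u ∈ SL G E (E \ A1) (E \ A))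
    (he : e ∈ E \ A) (hx : x = (G e).1 ∨ x = (G e).2.1) (hc : Con (img G (E \ A)) u x) :
    e ∈ trK G E A A1 := by
  refine mem_trK.2 ⟨he, u, hu, ?_⟩
  rcases hx with rfl | rfl
  · exact hc
  · exact hc.trans (con_edge (mem_img he)).symm

private theorem con_of_mem_trK {G : GG H} {E A A1 : Finset ℕ} {x e : ℕ} (he : e ∈ trK G E A A1)
    (hx : x = (G e).1 ∨ x = (G e).2.1) :
    ∃ u ∈ SL G E (E \ A1) (E \ A), Con (img G (E \ A)) u x := by
  obtain ⟨h1, u, hu, hc⟩ := mem_trK.1 he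
  refine ⟨u, hu, ?_⟩
  rcases hx with rfl | rfl
  · exact hc
  · exact hc.trans (con_edge (mem_img h1))

theorem trK_sub {G : GG H} {r : Finset ℕ → ℕ} {E A0 A A1 : Finset ℕ}
    (h : TrH G r E A0 A A1) : trK G E A A1 ⊆ A1 \ A := by
  have _ := h.h0
  intro e he
  obtain ⟨h1, u, hu, hc⟩ := mem_trK.1 he
  rw [Finset.mem_sdiff] at h1 ⊢
  refine ⟨?_, h1.2⟩
  by_contra hcon
  apply hu.2
  exact ⟨(G e).1, mem_vs.2 ⟨e, Finset.mem_sdiff.2 ⟨h1.1, hcon⟩, Or.inl rfl⟩, hc⟩

theorem trK_vs {G : GG H} {r : Finset ℕ → ℕ} {E A0 A A1 : Finset ℕ}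
    (h : TrH G r E A0 A A1) :
    vs G (trK G E A A1) ∩ vs G A = SL G E (E \ A1) (E \ A) := by
  have hA : A ⊆ E := h.h1.trans h.hE
  ext x
  constructor
  · rintro ⟨hx1, hx2⟩
    obtain ⟨e, he, hx⟩ := mem_vs.1 hx1
    obtain ⟨u, hu, hc⟩ := con_of_mem_trK he hx
    refine ⟨?_, ?_⟩
    · rw [bd_compl G hA]
      exact ⟨hx2, vs_mono G trK_sub' hx1⟩
    · rintro ⟨a, ha, hca⟩
      exact hu.2 ⟨a, ha, hc.trans hca⟩
  · intro hx
    have hx1 : x ∈ bd G E A := by
      have := hx.1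
      rwa [bd_compl G hA] at this
    refine ⟨?_, hx1.1⟩
    obtain ⟨e, he, hxe⟩ := mem_vs.1 hx1.2
    exact mem_vs.2 ⟨e, mem_trK_of hx he hxe (Con.refl _ _), hxe⟩

theorem trK_con {G : GG H} {r : Finset ℕ → ℕ} {E A0 A A1 : Finset ℕ}
    (h : TrH G r E A0 A A1) {u : ℕ} (hu : u ∈ SL G E (E \ A1) (E \ A)) (v : ℕ) (g : H) :
    W (img G (trK G E A A1)) u v g ↔ W (img G (E \ A)) u v g := by
  have _ := h.h0
  refine ⟨fun h1 => h1.mono (img_mono G trK_sub'), fun h1 => ?_⟩
  refine (W_closed (C := cls (img G (E \ A)) u) (T' := img G (trK G E A A1)) (mem_cls_self _ u) ?_ h1).2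
  rintro t ⟨e, he, rfl⟩ ht
  have he' : e ∈ E \ A := he
  have hc : Con (img G (E \ A)) u (G e).1 ∧ Con (img G (E \ A)) u (G e).2.1 := by
    rcases ht with ht | ht
    · exact ⟨ht, Con.trans ht (con_edge (mem_img he'))⟩
    · exact ⟨Con.trans ht (con_edge (mem_img he')).symm, ht⟩
  exact ⟨hc.1, hc.2, mem_img (mem_trK_of hu he' (Or.inl rfl) hc.1)⟩

private theorem bal_none (T : Set (Tri H)) : bal T ∅ = 0 := by
  have : balC T ∅ = ∅ := by
    ext c
    constructor
    · rintro ⟨u, hu, _⟩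
      exact absurd hu (Set.notMem_empty u)
    · intro hc
      exact absurd hc (Set.notMem_empty c)
  rw [bal, this, Set.ncard_empty]

private theorem trK_disj {G : GG H} {E A A1 : Finset ℕ} :
    vs G (trK G E A A1) ∩ vs G ((E \ A) \ trK G E A A1) ⊆ ∅ := by
  rintro x ⟨hx1, hx2⟩
  obtain ⟨e, he, hxe⟩ := mem_vs.1 hx1
  obtain ⟨e', he', hxe'⟩ := mem_vs.1 hx2
  obtain ⟨u, hu, hc⟩ := con_of_mem_trK he hxe
  rw [Finset.mem_sdiff] at he'
  exact absurd (mem_trK_of hu he'.1 hxe' hc) he'.2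

theorem trK_skew {G : GG H} {r : Finset ℕ → ℕ} {E A0 A A1 : Finset ℕ}
    (h : TrH G r E A0 A A1) :
    rk G (A ∪ trK G E A A1) = rk G A + rk G (trK G E A A1) := by
  have hA : A ⊆ E := h.h1.trans h.hE
  have hK1 : trK G E A A1 ⊆ E \ A := trK_sub'
  have hAK : A ∪ trK G E A A1 ⊆ A1 := by
    apply Finset.union_subset h.h1
    exact (trK_sub h).trans Finset.sdiff_subset
  have h1 := two_sided_rk G (trK G E A A1) ((E \ A) \ trK G E A A1) Set.finite_empty trK_disj
  rw [bal_none, bal_none, bal_none, Set.ncard_empty, Finset.union_sdiff_of_subset hK1] at h1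
  have h2 := h.low (A ∪ trK G E A A1) (h.h0.trans Finset.subset_union_left) hAK
  have h3 := lam_eq h.hr hA
  have h4 := lam_eq h.hr (hAK.trans h.hE)
  have h5 : E \ (A ∪ trK G E A A1) = (E \ A) \ trK G E A A1 := by
    rw [sdiff_sdiff_left]
    rfl
  rw [h5] at h4
  have r1 := h.rep A hA
  have r2 := h.rep (E \ A) Finset.sdiff_subset
  have r3 := h.rep (A ∪ trK G E A A1) (hAK.trans h.hE)
  have r4 := h.rep ((E \ A) \ trK G E A A1) (Finset.sdiff_subset.trans Finset.sdiff_subset)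
  have h6 := (rk_rkFn G).sub A (trK G E A A1)
  omega

private theorem SL_sub {G : GG H} {E A0 A : Finset ℕ} : SL G E A0 A ⊆ bd G E A := fun _ hu => hu.1

theorem trK_ineq {G : GG H} {r : Finset ℕ → ℕ} {E A0 A A1 : Finset ℕ}
    (h : TrH G r E A0 A A1) :
    (SL G E (E \ A1) (E \ A)).ncard ≤
      bal (img G (E \ A)) (SL G E (E \ A1) (E \ A)) + bal (img G A) (SL G E A0 A) := by
  classical
  have hA : A ⊆ E := h.h1.trans h.hE
  have hAK : trK G E A A1 ∪ A ⊆ A1 :=
    Finset.union_subset ((trK_sub h).trans Finset.sdiff_subset) h.h1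
  set SK := SL G E (E \ A1) (E \ A) with hSK
  have hSKb : SK ⊆ bd G E A := by
    intro u hu
    have := hu.1
    rwa [bd_compl G hA] at this
  have hSKf : SK.Finite := (bd_finite G E A).subset hSKb
  have hSLf : (SL G E A0 A).Finite := (bd_finite G E A).subset SL_sub
  have h1 := two_sided_rk G (trK G E A A1) A hSKf (trK_vs h).subset
  have h2 := trK_skew h
  rw [Finset.union_comm] at h2
  -- the components of `K` and of `B`
  have h3 : bal (img G (trK G E A A1)) SK = bal (img G (E \ A)) SK := by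
    have hW : ∀ u ∈ SK, ∀ v g, W (img G (trK G E A A1)) u v g ↔ W (img G (E \ A)) u v g :=
      fun u hu v g => trK_con h hu v g
    have hU : ∀ u ∈ SK, (Unb (img G (trK G E A A1)) u ↔ Unb (img G (E \ A)) u) := by
      intro u hu
      constructor
      · rintro ⟨g, hg, hw⟩
        exact ⟨g, hg, (hW u hu u g).1 hw⟩
      · rintro ⟨g, hg, hw⟩
        exact ⟨g, hg, (hW u hu u g).2 hw⟩
    have hc : ∀ u ∈ SK, cls (img G (trK G E A A1)) u = cls (img G (E \ A)) u := by
      intro u hu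
      ext v
      constructor
      · rintro ⟨g, hw⟩
        exact ⟨g, (hW u hu v g).1 hw⟩
      · rintro ⟨g, hw⟩
        exact ⟨g, (hW u hu v g).2 hw⟩
    have hbal : balC (img G (trK G E A A1)) SK = balC (img G (E \ A)) SK := by
      ext c
      constructor
      · rintro ⟨u, hu, hb, rfl⟩
        exact ⟨u, hu, fun hn => hb ((hU u hu).2 hn), hc u hu⟩
      · rintro ⟨u, hu, hb, rfl⟩
        exact ⟨u, hu, fun hn => hb ((hU u hu).1 hn), (hc u hu).symm⟩
    rw [bal, bal, hbal]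
  -- persistent components
  have h4 : bal (img G A) SK ≤ bal (img G (trK G E A A1 ∪ A)) SK + bal (img G A) (SL G E A0 A) := by
    set P : Set (Set ℕ) := {c | ∃ u ∈ SK, ¬ Unb (img G A) u ∧ Mt G A0 A u ∧ c = cls (img G A) u} with hP
    have hsub : balC (img G A) SK ⊆ P ∪ balC (img G A) (SL G E A0 A) := by
      rintro c ⟨u, hu, hb, rfl⟩
      by_cases hm : Mt G A0 A u
      · exact Or.inl ⟨u, hu, hb, hm, rfl⟩
      · exact Or.inr ⟨u, ⟨hSKb hu, hm⟩, hb, rfl⟩
    have hPsub : P ⊆ balC (img G A) SK := by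
      rintro c ⟨u, hu, hb, _, rfl⟩
      exact ⟨u, hu, hb, rfl⟩
    have hPf : P.Finite := (balC_finite _ hSKf).subset hPsub
    have hP1 : P.ncard ≤ bal (img G (trK G E A A1 ∪ A)) SK := by
      have hex : ∀ c ∈ P, ∃ u, u ∈ SK ∧ ¬ Unb (img G A) u ∧ Mt G A0 A u ∧ c = cls (img G A) u := by
        rintro c ⟨u, hu, hb, hm, rfl⟩
        exact ⟨u, hu, hb, hm, rfl⟩
      choose! f hf using hex
      refine Set.ncard_le_ncard_of_injOn (fun c => cls (img G (trK G E A A1 ∪ A)) (f c)) ?_ ?_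
        (balC_finite _ hSKf)
      · intro c hc
        obtain ⟨hu, hb, hm, _⟩ := hf c hc
        refine ⟨f c, hu, fun hn => hb ?_, rfl⟩
        exact h.nm.2 (f c) (hSKb hu) hm (hn.mono (img_mono G hAK))
      · intro c hc c' hc' heq
        obtain ⟨hu, hb, hm, hcc⟩ := hf c hc
        obtain ⟨hu', hb', hm', hcc'⟩ := hf c' hc'
        have hcon : Con (img G (trK G E A A1 ∪ A)) (f c) (f c') := cls_eq_iff.1 heq
        have hcon2 := h.nm.1 (f c) (hSKb hu) (f c') (hSKb hu') hm hm' (hcon.mono (img_mono G hAK))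
        rw [hcc, hcc']
        exact cls_eq_iff.2 hcon2
    calc bal (img G A) SK ≤ (P ∪ balC (img G A) (SL G E A0 A)).ncard :=
          Set.ncard_le_ncard hsub (hPf.union (balC_finite _ hSLf))
      _ ≤ P.ncard + (balC (img G A) (SL G E A0 A)).ncard := Set.ncard_union_le _ _
      _ ≤ _ := Nat.add_le_add_right hP1 _
  omega

end Pool.Agent.Helper28.BW
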