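import Pool.Agent.Helper28.BW.Ident

/-!
# BW-08: splitting a vertex

`spl G A v v'` moves the ends at `v` of the edges in `A` to the new vertex `v'` (not a vertex of `G`).
`spl_rk`. Renaming `v'` back to `v` turns `spl G A v v'` into `G` on the edges of `E` (as `v'` is not a vertex
of `G` on `E`), so by `ident` applied to `T' = img (spl G A v v') X`:
`rho (insert (v, v', 1) T') = rk G X + 1`. By BW-03 the left side is `rk (spl ..) X` if `(v, v', 1) ∈ cl T'` and
`rk (spl ..) X + 1` otherwise.
`spl_rk_eq`: if `(v, v', 1)` is not in the closure for `X = E` then it is not in the closure for any `X ⊆ E`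
(`cl_mono`), so `spl G A v v'` represents the same matroid.
`spl_bd_le`. Only the vertices `v` and `v'` matter. In `spl ..` the edges at `v'` are in `A` and the edges of `E` at
`v` are in `E \ A`. Let `A'` be nested with or disjoint from `A`.
 If `A' ⊆ A`: `v` is not in the new boundary of `A'` (no edge of `A'` at `v`); if `v'` is, then there are an
edge of `A'` and an edge of `A \ A'` at `v'`, which were at `v`, so `v` was in the old boundary.
 If `A ⊆ A'`: `v'` is not in the new boundary (all its edges are in `A'`); if `v` is in the new one then `v` was in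
the old one. If `A'` is disjoint from `A`: `v'` has no edge of `A'`, and again `v` new implies `v` old.
So the new boundary injects into the old one.
`spl_bd_lt`: for `A' = A` neither `v` nor `v'` is in the new boundary, but `v` was in the old one.
-/

set_option autoImplicit false

namespace Pool.Agent.Helper28.BW

variable {H : Type} [Group H]

private theorem mem_vs_left (G : GG H) {Y : Finset ℕ} {e : ℕ} (he : e ∈ Y) :
    (G e).1 ∈ vs G Y := mem_vx_left ⟨e, Finset.mem_coe.2 he, rfl⟩

private theorem mem_vs_right (G : GG H) {Y : Finset ℕ} {e : ℕ} (he : e ∈ Y) :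
    (G e).2.1 ∈ vs G Y := mem_vx_right ⟨e, Finset.mem_coe.2 he, rfl⟩

omit [Group H] in
private theorem spl_mem (G : GG H) {A : Finset ℕ} {v v' e : ℕ} (he : e ∈ A) :
    spl G A v v' e = (if (G e).1 = v then v' else (G e).1,
      if (G e).2.1 = v then v' else (G e).2.1, (G e).2.2) := by
  unfold spl
  rw [if_pos he]

omit [Group H] in
private theorem spl_notMem (G : GG H) {A : Finset ℕ} {v v' e : ℕ} (he : e ∉ A) :
    spl G A v v' e = G e := by
  unfold spl
  rw [if_neg he]

private theorem mv_self (v v' : ℕ) : mv v' v v' v v' = v := by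
  unfold mv
  rw [if_pos rfl]

private theorem mv_ne {v v' u : ℕ} (h : u ≠ v') : mv v' v v' v u = u := by
  unfold mv
  rw [if_neg h, if_neg h]

private theorem mv_back {v v' u : ℕ} (h : u ≠ v') : mv v' v v' v (if u = v then v' else u) = u := by
  by_cases hu : u = v
  · rw [if_pos hu, mv_self, hu]
  · rw [if_neg hu, mv_ne h]

private theorem img_back (G : GG H) {E A X : Finset ℕ} {v v' : ℕ} (hv' : v' ∉ vs G E)
    (hX : X ⊆ E) :
    (fun t : Tri H => (mv v' v v' v t.1, mv v' v v' v t.2.1, t.2.2)) '' img (spl G A v v') X =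
      img G X := by
  unfold img
  rw [Set.image_image]
  refine Set.image_congr fun e he => ?_
  have h1 : (G e).1 ≠ v' := fun h => hv' (h ▸ mem_vs_left G (hX (Finset.mem_coe.1 he)))
  have h2 : (G e).2.1 ≠ v' := fun h => hv' (h ▸ mem_vs_right G (hX (Finset.mem_coe.1 he)))
  by_cases hA : e ∈ A
  · rw [spl_mem G hA]
    simp only [mv_back h1, mv_back h2]
  · rw [spl_notMem G hA]
    simp only [mv_ne h1, mv_ne h2]

private theorem vs_empty (G : GG H) : vs G ∅ = ∅ := by
  unfold vs
  rw [img_empty, vx_empty]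

private theorem vs_spl (G : GG H) {E A Y : Finset ℕ} {v v' u : ℕ} (hv' : v' ∉ vs G E)
    (hY : Y ⊆ E) (hu : u ∈ vs (spl G A v v') Y) :
    (u ≠ v' ∧ u ≠ v ∧ u ∈ vs G Y) ∨ (u = v' ∧ v ∈ vs G (Y ∩ A)) ∨
      (u = v ∧ v ∈ vs G (Y \ A)) := by
  obtain ⟨t, ⟨e, he, rfl⟩, h⟩ := hu
  rw [Finset.mem_coe] at he
  have h1 : (G e).1 ≠ v' := fun h => hv' (h ▸ mem_vs_left G (hY he))
  have h2 : (G e).2.1 ≠ v' := fun h => hv' (h ▸ mem_vs_right G (hY he))
  by_cases hA : e ∈ A
  · rw [spl_mem G hA] at h
    have heA : e ∈ Y ∩ A := Finset.mem_inter.2 ⟨he, hA⟩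
    rcases h with h | h
    · by_cases hv : (G e).1 = v
      · simp only [if_pos hv] at h
        exact Or.inr (Or.inl ⟨h, hv ▸ mem_vs_left G heA⟩)
      · simp only [if_neg hv] at h
        refine Or.inl ⟨?_, ?_, ?_⟩
        · rw [h]; exact h1
        · rw [h]; exact hv
        · rw [h]; exact mem_vs_left G he
    · by_cases hv : (G e).2.1 = v
      · simp only [if_pos hv] at h
        exact Or.inr (Or.inl ⟨h, hv ▸ mem_vs_right G heA⟩)
      · simp only [if_neg hv] at h
        refine Or.inl ⟨?_, ?_, ?_⟩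
        · rw [h]; exact h2
        · rw [h]; exact hv
        · rw [h]; exact mem_vs_right G he
  · rw [spl_notMem G hA] at h
    have heA : e ∈ Y \ A := Finset.mem_sdiff.2 ⟨he, hA⟩
    rcases h with h | h
    · by_cases hv : (G e).1 = v
      · exact Or.inr (Or.inr ⟨h.trans hv, hv ▸ mem_vs_left G heA⟩)
      · refine Or.inl ⟨?_, ?_, ?_⟩
        · rw [h]; exact h1
        · rw [h]; exact hv
        · rw [h]; exact mem_vs_left G he
    · by_cases hv : (G e).2.1 = v
      · exact Or.inr (Or.inr ⟨h.trans hv, hv ▸ mem_vs_right G heA⟩)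
      · refine Or.inl ⟨?_, ?_, ?_⟩
        · rw [h]; exact h2
        · rw [h]; exact hv
        · rw [h]; exact mem_vs_right G he

open Classical in
theorem spl_rk (G : GG H) {E A X : Finset ℕ} {v v' : ℕ} (hv' : v' ∉ vs G E) (hne : v ≠ v')
    (hX : X ⊆ E) :
    rk (spl G A v v') X =
      rk G X + (if (v, v', (1 : H)) ∈ cl (img (spl G A v v') X) then 1 else 0) := by
  have h1 := ident (img_finite (spl G A v v') X) hne
  rw [img_back G hv' hX] at h1
  have h1' : rho (insert (v, v', (1 : H)) (img (spl G A v v') X)) = rk G X + 1 := h1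
  split_ifs with h
  · rw [rho_insert_of_mem (img_finite _ _) h] at h1'
    exact h1'
  · rw [rho_insert_of_notMem (img_finite _ _) h] at h1'
    have h2 : rk (spl G A v v') X = rho (img (spl G A v v') X) := rfl
    omega

theorem spl_rep {G : GG H} {r : Finset ℕ → ℕ} {E A : Finset ℕ} {v v' : ℕ} (hG : Rep G r E)
    (hv' : v' ∉ vs G E) (hne : v ≠ v') (hcl : (v, v', (1 : H)) ∉ cl (img (spl G A v v') E)) :
    Rep (spl G A v v') r E := by
  intro X hX
  have hnot : (v, v', (1 : H)) ∉ cl (img (spl G A v v') X) := fun h =>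
    hcl (cl_mono (T := img (spl G A v v') X) (img_mono (spl G A v v') hX) h)
  rw [spl_rk G hv' hne hX, if_neg hnot, add_zero, hG X hX]

/-- if the rank of `E` does not go up, the splitting represents the same matroid -/
theorem spl_notMem_of_rk_le {G : GG H} {E A : Finset ℕ} {v v' : ℕ}
    (hv' : v' ∉ vs G E) (hne : v ≠ v') (hrk : rk (spl G A v v') E ≤ rk G E) :
    (v, v', (1 : H)) ∉ cl (img (spl G A v v') E) := by
  intro h
  rw [spl_rk G hv' hne (Finset.Subset.refl E), if_pos h] at hrk
  omega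

/-- subsets of `A`, and subsets disjoint from `A`, keep their rank -/
theorem spl_rk_of_subset (G : GG H) {E A X : Finset ℕ} {v v' : ℕ} (hv' : v' ∉ vs G E)
    (hX : X ⊆ E) (hXA : X ⊆ A) : rk (spl G A v v') X = rk G X := by
  have h1 : img (spl G A v v') X =
      (fun t : Tri H => ((fun u => if u = v then v' else u) t.1,
        (fun u => if u = v then v' else u) t.2.1, t.2.2)) '' img G X := by
    unfold img
    rw [Set.image_image]
    refine Set.image_congr fun e he => ?_
    rw [spl_mem G (hXA (Finset.mem_coe.1 he))]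
  unfold rk
  rw [h1]
  refine rho_rename (T := img G X) (σ := fun u => if u = v then v' else u) ?_
  intro a ha b hb hab
  have ha' : a ≠ v' := fun h => hv' (h ▸ vs_mono G hX ha)
  have hb' : b ≠ v' := fun h => hv' (h ▸ vs_mono G hX hb)
  simp only at hab
  split_ifs at hab with h2 h3 h3
  · rw [h2, h3]
  · exact absurd hab.symm hb'
  · exact absurd hab ha'
  · exact hab

theorem spl_rk_of_disjoint (G : GG H) {A X : Finset ℕ} {v v' : ℕ}
    (hXA : Disjoint X A) : rk (spl G A v v') X = rk G X := by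
  have h1 : img (spl G A v v') X = img G X := by
    unfold img
    refine Set.image_congr fun e he => ?_
    exact spl_notMem G (Finset.disjoint_left.1 hXA (Finset.mem_coe.1 he))
  unfold rk
  rw [h1]

theorem spl_bd_le (G : GG H) {E A A' : Finset ℕ} {v v' : ℕ} (hA : A ⊆ E) (hA' : A' ⊆ E)
    (hnc : A' ⊆ A ∨ A ⊆ A' ∨ Disjoint A' A) (hv' : v' ∉ vs G E) :
    (bd (spl G A v v') E A').ncard ≤ (bd G E A').ncard := by
  have hEA' : E \ A' ⊆ E := Finset.sdiff_subset
  refine Set.ncard_le_ncard_of_injOn (mv v' v v' v) ?_ ?_ (bd_finite G E A')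
  · rintro u ⟨hu1, hu2⟩
    rcases vs_spl G hv' hA' hu1 with ⟨h1, h2, h3⟩ | ⟨h1, h3⟩ | ⟨h1, h3⟩
    · rcases vs_spl G hv' hEA' hu2 with ⟨_, _, h4⟩ | ⟨h4, _⟩ | ⟨h4, _⟩
      · rw [mv_ne h1]
        exact ⟨h3, h4⟩
      · exact absurd h4 h1
      · exact absurd h4 h2
    · have h5 : v ∈ vs G A' := vs_mono G Finset.inter_subset_left h3
      have h6 : v ∈ vs G (E \ A') := by
        rcases vs_spl G hv' hEA' hu2 with ⟨h4, _, _⟩ | ⟨_, h4⟩ | ⟨_, h4⟩
        · exact absurd h1 h4
        · exact vs_mono G Finset.inter_subset_left h4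
        · exact vs_mono G Finset.sdiff_subset h4
      rw [h1, mv_self]
      exact ⟨h5, h6⟩
    · have h5 : v ∈ vs G A' := vs_mono G Finset.sdiff_subset h3
      have h6 : v ∈ vs G (E \ A') := by
        rcases vs_spl G hv' hEA' hu2 with ⟨_, h4, _⟩ | ⟨_, h4⟩ | ⟨_, h4⟩
        · exact absurd h1 h4
        · exact vs_mono G Finset.inter_subset_left h4
        · exact vs_mono G Finset.sdiff_subset h4
      have h7 : mv v' v v' v v = v := by
        by_cases hvv : v = v'
        · rw [← hvv, mv_self]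
        · exact mv_ne hvv
      rw [h1, h7]
      exact ⟨h5, h6⟩
  · have hnot : v ≠ v' → v ∈ bd (spl G A v v') E A' → v' ∈ bd (spl G A v v') E A' → False := by
      rintro hne ⟨hv1, hv2⟩ ⟨hw1, hw2⟩
      have a1 : v ∈ vs G (A' \ A) := by
        rcases vs_spl G hv' hA' hv1 with ⟨_, h4, _⟩ | ⟨h4, _⟩ | ⟨_, h4⟩
        · exact absurd rfl h4
        · exact absurd h4 hne
        · exact h4
      have b1 : v ∈ vs G (A' ∩ A) := by
        rcases vs_spl G hv' hA' hw1 with ⟨h4, _, _⟩ | ⟨_, h4⟩ | ⟨h4, _⟩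
        · exact absurd rfl h4
        · exact h4
        · exact absurd h4.symm hne
      have b2 : v ∈ vs G ((E \ A') ∩ A) := by
        rcases vs_spl G hv' hEA' hw2 with ⟨h4, _, _⟩ | ⟨_, h4⟩ | ⟨h4, _⟩
        · exact absurd rfl h4
        · exact h4
        · exact absurd h4.symm hne
      rcases hnc with h | h | h
      · rw [Finset.sdiff_eq_empty_iff_subset.2 h, vs_empty] at a1
        exact a1
      · have h8 : (E \ A') ∩ A = ∅ := by
          rw [Finset.eq_empty_iff_forall_notMem]
          intro x hx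
          rw [Finset.mem_inter, Finset.mem_sdiff] at hx
          exact hx.1.2 (h hx.2)
        rw [h8, vs_empty] at b2
        exact b2
      · rw [Finset.disjoint_iff_inter_eq_empty.1 h, vs_empty] at b1
        exact b1
    intro a ha b hb hab
    by_cases ha' : a = v'
    · by_cases hb' : b = v'
      · rw [ha', hb']
      · rw [ha', mv_self, mv_ne hb'] at hab
        rw [ha'] at ha
        rw [← hab] at hb
        exact (hnot (fun h => hb' (hab.symm.trans h)) hb ha).elim
    · by_cases hb' : b = v'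
      · rw [hb', mv_self, mv_ne ha'] at hab
        rw [hb'] at hb
        rw [hab] at ha
        exact (hnot (fun h => ha' (hab.trans h)) ha hb).elim
      · rwa [mv_ne ha', mv_ne hb'] at hab

theorem spl_bd_lt (G : GG H) {E A : Finset ℕ} {v v' : ℕ} (hA : A ⊆ E) (hv' : v' ∉ vs G E)
    (hv : v ∈ bd G E A) : (bd (spl G A v v') E A).ncard + 1 ≤ (bd G E A).ncard := by
  have hEA' : E \ A ⊆ E := Finset.sdiff_subset
  have h0 : (E \ A) ∩ A = ∅ := by
    rw [Finset.eq_empty_iff_forall_notMem]
    intro x hx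
    rw [Finset.mem_inter, Finset.mem_sdiff] at hx
    exact hx.1.2 hx.2
  have hsub : ∀ u ∈ bd (spl G A v v') E A, u ≠ v ∧ u ∈ bd G E A := by
    rintro u ⟨hu1, hu2⟩
    rcases vs_spl G hv' hA hu1 with ⟨h1, h2, h3⟩ | ⟨h1, h3⟩ | ⟨h1, h3⟩
    · rcases vs_spl G hv' hEA' hu2 with ⟨_, _, h4⟩ | ⟨h4, _⟩ | ⟨h4, _⟩
      · exact ⟨h2, h3, h4⟩
      · exact absurd h4 h1
      · exact absurd h4 h2
    · rcases vs_spl G hv' hEA' hu2 with ⟨h4, _, _⟩ | ⟨_, h4⟩ | ⟨h4, _⟩
      · exact absurd h1 h4
      · rw [h0, vs_empty] at h4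
        exact h4.elim
      · exfalso
        apply hv'
        rw [← h1, h4]
        exact vs_mono G hA hv.1
    · rw [Finset.sdiff_self, vs_empty] at h3
      exact h3.elim
  have hnot : v ∉ bd (spl G A v v') E A := fun h => (hsub v h).1 rfl
  have h1 : insert v (bd (spl G A v v') E A) ⊆ bd G E A :=
    Set.insert_subset hv fun u hu => (hsub u hu).2
  rw [← Set.ncard_insert_of_notMem hnot (bd_finite _ E A)]
  exact Set.ncard_le_ncard h1 (bd_finite G E A)

end Pool.Agent.Helper28.BW
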