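import Pool.Agent.Helper28.BW.Ident

/-!
# BW-12: the series swap, local facts

Situation `SwC G E A K L x y z`: `B = E \ A`, `S = bd G E A`; `L` = the edges of the `A`-component of `y`, which is
balanced and contains exactly `y, z` of `S`; `K` = the edges of the `B`-component of `y`, balanced, containing exactly
`y, x` of `S`; `x ≠ z`; all gains on `K ∪ L` are `1`.
Facts (all direct): `x, y, z` are distinct and in `S`. `vs G K = cls (img G B) y`, `vs G L = cls (img G A) y`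
(`y` is in `vs G A` and in `vs G B`). A vertex of `vs G K` which is an end of an edge in `E \ K` is `x` or `y`: the
edge is not in `B` (else it is in `K`), so it is in `A` and the vertex is in `S`. Similarly for `L` with `y`, `z`.
`vs G K ∩ vs G L = {y}`. An edge of `E` at `y` is in `K ∪ L`. With `R = E \ (K ∪ L)`: `vs G R ∩ vs G K ⊆ {x}`,
`vs G R ∩ vs G L ⊆ {z}`, `y ∉ vs G R`. Edges of `A` at `z` are in `L`, edges of `B` at `x` are in `K`,
edges of `B` at `z` exist, edges of `A` at `x` exist.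
Symmetry: `SwC G E A K L x y z` implies `SwC G E (E \ A) L K z y x` and the swapped graphs are the same
(`K`, `L` are disjoint).
-/

set_option autoImplicit false

namespace Pool.Agent.Helper28.BW

variable {H : Type} [Group H] {G : GG H} {E A K L : Finset ℕ} {x y z : ℕ}

private lemma mem_vs_iff {X : Finset ℕ} {u : ℕ} :
    u ∈ vs G X ↔ ∃ e ∈ X, u = (G e).1 ∨ u = (G e).2.1 := by
  constructor
  · rintro ⟨t, ⟨e, he, rfl⟩, h⟩
    exact ⟨e, he, h⟩
  · rintro ⟨e, he, h⟩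
    exact ⟨G e, ⟨e, he, rfl⟩, h⟩

private lemma con_edge {X : Finset ℕ} {e : ℕ} (he : e ∈ X) :
    Con (img G X) (G e).1 (G e).2.1 :=
  ⟨(G e).2.2, W.edge ⟨e, he, rfl⟩⟩

/-- an edge with an end in the class has its tail in the class -/
private lemma tail_mem {X : Finset ℕ} {e u : ℕ} (he : e ∈ X) (hu : Con (img G X) y u)
    (h : u = (G e).1 ∨ u = (G e).2.1) : (G e).1 ∈ cls (img G X) y := by
  rcases h with h | h
  · rw [← h]
    exact hu
  · have h1 := con_edge (G := G) he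
    rw [← h] at h1
    exact hu.trans h1.symm

private lemma end_mem {X : Finset ℕ} {e u : ℕ} (he : e ∈ X)
    (h1 : (G e).1 ∈ cls (img G X) y) (h : u = (G e).1 ∨ u = (G e).2.1) :
    Con (img G X) y u := by
  rcases h with h | h
  · rw [h]
    exact h1
  · rw [h]
    exact Con.trans h1 (con_edge he)

private lemma vs_eq_cls {X K : Finset ℕ} (hy : y ∈ vs G X)
    (hK : ∀ e, e ∈ K ↔ e ∈ X ∧ (G e).1 ∈ cls (img G X) y) : vs G K = cls (img G X) y := by
  ext u
  constructor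
  · intro hu
    obtain ⟨e, he, h⟩ := mem_vs_iff.mp hu
    obtain ⟨h1, h2⟩ := (hK e).mp he
    exact end_mem h1 h2 h
  · intro hu
    have hu' : Con (img G X) y u := hu
    have h1 : u ∈ vs G X := by
      rcases Con_ends hu' with h | h
      · rw [← h]
        exact hy
      · exact h.2
    obtain ⟨e, he, h⟩ := mem_vs_iff.mp h1
    exact mem_vs_iff.mpr ⟨e, (hK e).mpr ⟨he, tail_mem he hu' h⟩, h⟩

theorem SwC.disj (h : SwC G E A K L x y z) : Disjoint K L := by
  rw [Finset.disjoint_left]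
  intro e he he'
  exact (Finset.mem_sdiff.mp ((h.hK e).mp he).1).2 ((h.hL e).mp he').1

theorem SwC.subK (h : SwC G E A K L x y z) : K ⊆ E \ A := fun e he => ((h.hK e).mp he).1

theorem SwC.subL (h : SwC G E A K L x y z) : L ⊆ A := fun e he => ((h.hL e).mp he).1

theorem SwC.mems (h : SwC G E A K L x y z) :
    x ∈ bd G E A ∧ y ∈ bd G E A ∧ z ∈ bd G E A ∧ x ≠ y ∧ y ≠ z := by
  obtain ⟨h1, h2, h3, -⟩ := h.two1
  obtain ⟨-, h5, h6, -⟩ := h.two2
  exact ⟨h5, h1, h2, h6.symm, h3⟩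

theorem SwC.vsK (h : SwC G E A K L x y z) : vs G K = cls (img G (E \ A)) y :=
  vs_eq_cls h.two1.1.2 h.hK

theorem SwC.vsL (h : SwC G E A K L x y z) : vs G L = cls (img G A) y :=
  vs_eq_cls h.two1.1.1 h.hL

theorem SwC.capK (h : SwC G E A K L x y z) : vs G K ∩ vs G (E \ K) ⊆ {x, y} := by
  rintro u ⟨hu1, hu2⟩
  have hc : Con (img G (E \ A)) y u := by
    rw [h.vsK] at hu1
    exact hu1
  obtain ⟨e, he, hue⟩ := mem_vs_iff.mp hu2
  obtain ⟨heE, heK⟩ := Finset.mem_sdiff.mp he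
  have heA : e ∈ A := by
    by_contra heA
    have h1 : e ∈ E \ A := Finset.mem_sdiff.mpr ⟨heE, heA⟩
    exact heK ((h.hK e).mpr ⟨h1, tail_mem h1 hc hue⟩)
  have hS : u ∈ bd G E A := ⟨mem_vs_iff.mpr ⟨e, heA, hue⟩, vs_mono G h.subK hu1⟩
  rcases h.two2.2.2.2.2.2 u hS hc with h1 | h1
  · exact Or.inr h1
  · exact Or.inl h1

theorem SwC.capL (h : SwC G E A K L x y z) : vs G L ∩ vs G (E \ L) ⊆ {y, z} := by
  rintro u ⟨hu1, hu2⟩
  have hc : Con (img G A) y u := by
    rw [h.vsL] at hu1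
    exact hu1
  obtain ⟨e, he, hue⟩ := mem_vs_iff.mp hu2
  obtain ⟨heE, heL⟩ := Finset.mem_sdiff.mp he
  have heA : e ∉ A := by
    intro heA
    exact heL ((h.hL e).mpr ⟨heA, tail_mem heA hc hue⟩)
  have hS : u ∈ bd G E A :=
    ⟨vs_mono G h.subL hu1, mem_vs_iff.mpr ⟨e, Finset.mem_sdiff.mpr ⟨heE, heA⟩, hue⟩⟩
  rcases h.two1.2.2.2.2.2 u hS hc with h1 | h1
  · exact Or.inl h1
  · exact Or.inr h1

theorem SwC.capKL (h : SwC G E A K L x y z) : vs G K ∩ vs G L = {y} := by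
  ext u
  constructor
  · rintro ⟨hu1, hu2⟩
    have hS : u ∈ bd G E A := ⟨vs_mono G h.subL hu2, vs_mono G h.subK hu1⟩
    rw [h.vsK] at hu1
    rw [h.vsL] at hu2
    rcases h.two2.2.2.2.2.2 u hS hu1 with h1 | h1
    · exact h1
    · rcases h.two1.2.2.2.2.2 u hS hu2 with h2 | h2
      · exact h2
      · exact absurd (h1.symm.trans h2) h.ne
  · intro hu
    rw [Set.mem_singleton_iff] at hu
    rw [hu, h.vsK, h.vsL]
    exact ⟨mem_cls_self _ _, mem_cls_self _ _⟩

theorem SwC.notMem_R (h : SwC G E A K L x y z) : y ∉ vs G (E \ (K ∪ L)) := by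
  intro hy
  obtain ⟨e, he, hye⟩ := mem_vs_iff.mp hy
  obtain ⟨heE, heK⟩ := Finset.mem_sdiff.mp he
  rw [Finset.mem_union, not_or] at heK
  by_cases heA : e ∈ A
  · exact heK.2 ((h.hL e).mpr ⟨heA, tail_mem heA (Con.refl _ _) hye⟩)
  · have h1 : e ∈ E \ A := Finset.mem_sdiff.mpr ⟨heE, heA⟩
    exact heK.1 ((h.hK e).mpr ⟨h1, tail_mem h1 (Con.refl _ _) hye⟩)

theorem SwC.capR (h : SwC G E A K L x y z) :
    vs G (K ∪ L) ∩ vs G (E \ (K ∪ L)) ⊆ {x, z} := by
  rintro u ⟨hu1, hu2⟩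
  have huy : u ≠ y := by
    intro h1
    rw [h1] at hu2
    exact h.notMem_R hu2
  rw [vs_union] at hu1
  rcases hu1 with hu1 | hu1
  · have h1 : u ∈ vs G (E \ K) :=
      vs_mono G (Finset.sdiff_subset_sdiff (Finset.Subset.refl E) Finset.subset_union_left) hu2
    rcases h.capK ⟨hu1, h1⟩ with h2 | h2
    · exact Or.inl h2
    · exact absurd h2 huy
  · have h1 : u ∈ vs G (E \ L) :=
      vs_mono G (Finset.sdiff_subset_sdiff (Finset.Subset.refl E) Finset.subset_union_right) hu2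
    rcases h.capL ⟨hu1, h1⟩ with h2 | h2
    · exact absurd h2 huy
    · exact Or.inr h2

theorem SwC.xK (h : SwC G E A K L x y z) : x ∈ vs G K ∧ x ∉ vs G L := by
  have h1 : x ∈ vs G K := by
    rw [h.vsK]
    exact h.two2.2.2.2.2.1
  refine ⟨h1, fun h2 => ?_⟩
  have h3 : x ∈ vs G K ∩ vs G L := ⟨h1, h2⟩
  rw [h.capKL] at h3
  exact h.mems.2.2.2.1 h3

theorem SwC.zL (h : SwC G E A K L x y z) : z ∈ vs G L ∧ z ∉ vs G K := by
  have h1 : z ∈ vs G L := by
    rw [h.vsL]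
    exact h.two1.2.2.2.2.1
  refine ⟨h1, fun h2 => ?_⟩
  have h3 : z ∈ vs G K ∩ vs G L := ⟨h2, h1⟩
  rw [h.capKL] at h3
  exact h.mems.2.2.2.2 h3.symm

theorem SwC.edge_x (h : SwC G E A K L x y z) {e : ℕ} (he : e ∈ E \ A)
    (hx : x = (G e).1 ∨ x = (G e).2.1) : e ∈ K :=
  (h.hK e).mpr ⟨he, tail_mem he h.two2.2.2.2.2.1 hx⟩

theorem SwC.edge_z (h : SwC G E A K L x y z) {e : ℕ} (he : e ∈ A)
    (hz : z = (G e).1 ∨ z = (G e).2.1) : e ∈ L :=
  (h.hL e).mpr ⟨he, tail_mem he h.two1.2.2.2.2.1 hz⟩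

theorem SwC.symm (h : SwC G E A K L x y z) : SwC G E (E \ A) L K z y x := by
  have hEA : E \ (E \ A) = A := by
    rw [sdiff_sdiff_right_self]
    exact inf_eq_right.mpr h.hA
  refine ⟨Finset.sdiff_subset, ?_, ?_, h.ne.symm, h.hK, ?_, ?_⟩
  · rw [bd_compl G h.hA]
    exact h.two2
  · rw [bd_compl G h.hA, hEA]
    exact h.two1
  · rw [hEA]
    exact h.hL
  · intro e he
    exact h.one e (by rwa [Finset.union_comm] at he)

theorem swp_symm (G : GG H) {K L : Finset ℕ} (h : Disjoint K L) {x y z : ℕ} (hxy : x ≠ y)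
    (hyz : y ≠ z) : swp G K L x y z = swp G L K z y x := by
  have m1 : ∀ u, mv x y y z u = mv y z x y u := by
    intro u
    unfold mv
    by_cases h1 : u = x
    · by_cases h2 : u = y
      · exact absurd (h1.symm.trans h2) hxy
      · rw [if_pos h1, if_neg h2, if_pos h1]
    · by_cases h2 : u = y
      · rw [if_neg h1, if_pos h2, if_pos h2]
      · rw [if_neg h1, if_neg h2, if_neg h2, if_neg h1]
  have m2 : ∀ u, mv y x z y u = mv z y y x u := by
    intro u
    unfold mv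
    by_cases h1 : u = y
    · by_cases h2 : u = z
      · exact absurd (h1.symm.trans h2) hyz
      · rw [if_pos h1, if_neg h2, if_pos h1]
    · by_cases h2 : u = z
      · rw [if_neg h1, if_pos h2, if_pos h2]
      · rw [if_neg h1, if_neg h2, if_neg h2, if_neg h1]
  funext e
  unfold swp
  by_cases h1 : e ∈ K
  · have h2 : e ∉ L := Finset.disjoint_left.mp h h1
    rw [if_pos h1, if_neg h2, if_pos h1, m1, m1]
  · by_cases h2 : e ∈ L
    · rw [if_neg h1, if_pos h2, if_pos h2, m2, m2]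
    · rw [if_neg h1, if_neg h2, if_neg h2, if_neg h1]

end Pool.Agent.Helper28.BW
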