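import Pool.Agent.Helper28.BW.SwapLoc
import Pool.Agent.Helper28.BW.Join

/-!
# BW-13: the series swap does not change the ranks

Let `G' = swp G K L x y z` and `R = E \ (K ∪ L)`. All gains on `K ∪ L` are `1`, so every walk in a subset of
`K ∪ L` has gain `1`, in `G` and in `G'`.
(i) For `U ⊆ K`: `rk G' U = rk G U`: `img G' U` is the renaming of `img G U` by `x ↦ y`, `y ↦ z`, which is injective
on `vs G K` because `z ∉ vs G K` (`rho_rename`). For `U ⊆ L` similarly (`y ↦ x`, `z ↦ y`, `x ∉ vs G L`).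
(ii) For `U ⊆ K ∪ L`: `rk G U = rk G (U ∩ K) + rk G (U ∩ L)` by `two_sided_rk` with `S = {y}` (all three `bal`
numbers are `1`), and the same for `G'` (the vertex sets of `K` and `L` in `G'` meet only in `y`). So
`rk G' U = rk G U`.
(iii) Traces on `x`, `z` (marks `p 0 = (x, 1)`, `p 1 = (z, 1)`): for `U ⊆ K ∪ L`, `W (img G U) x x h ↔ h = 1`, the
same for `z`, and `W (img G U) x z h` iff `h = 1`, `x` and `y` are joined in `U ∩ K` and `y` and `z` are
joined in `U ∩ L` (a walk from `x` to `z` must pass from `K` to `L` at `y`; the walk before the first visit of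
`y` is in `K`; use `join_trace` with the marks `x, y, z` or a direct induction). In `G'`: iff `h = 1`, `x` and `y` are
joined in the moved `U ∩ L` and `y` and `z` are joined in the moved `U ∩ K`; by (i) renaming this is the same
condition. So `Trc (img G U) p = Trc (img G' U) p`.
(iv) For `X ⊆ E` put `U = X ∩ (K ∪ L)`, `Z = X \ (K ∪ L)`. `img G' Z = img G Z`. Common vertices of `U` and `Z` are
`x`, `z` only, in `G` (`SwC.capR`) and in `G'`. `join_rank` gives `rk G' X = rk G X`.
-/

set_option autoImplicit false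
set_option linter.unusedSectionVars false

namespace Pool.Agent.Helper28.BW

variable {H : Type} [Group H] {G : GG H} {E A K L : Finset ℕ} {x y z : ℕ}

theorem swp_img_K (G : GG H) (K L : Finset ℕ) (x y z : ℕ) {U : Finset ℕ} (hU : U ⊆ K) :
    img (swp G K L x y z) U =
      (fun t : Tri H => (mv x y y z t.1, mv x y y z t.2.1, t.2.2)) '' img G U := by
  rw [img, img, Set.image_image]
  refine Set.image_congr fun e he => ?_
  have he' : e ∈ K := hU he
  simp only [swp, if_pos he']

theorem swp_img_L (G : GG H) {K L : Finset ℕ} (hd : Disjoint K L) (x y z : ℕ) {U : Finset ℕ}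
    (hU : U ⊆ L) : img (swp G K L x y z) U =
      (fun t : Tri H => (mv y x z y t.1, mv y x z y t.2.1, t.2.2)) '' img G U := by
  rw [img, img, Set.image_image]
  refine Set.image_congr fun e he => ?_
  have he' : e ∈ L := hU he
  have he2 : e ∉ K := fun h => Finset.disjoint_left.1 hd h he'
  simp only [swp, if_neg he2, if_pos he']

theorem swp_img_R (G : GG H) {K L : Finset ℕ} (x y z : ℕ) {U : Finset ℕ}
    (hU : Disjoint U (K ∪ L)) : img (swp G K L x y z) U = img G U := by
  rw [img, img]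
  refine Set.image_congr fun e he => ?_
  have h1 := Finset.disjoint_left.1 hU he
  rw [Finset.mem_union] at h1
  push Not at h1
  simp only [swp, if_neg h1.1, if_neg h1.2]

theorem injOn_mvK (h : SwC G E A K L x y z) : Set.InjOn (mv x y y z) (vs G K) := by
  have hz := h.zL.2
  obtain ⟨_, _, _, hxy, hyz⟩ := h.mems
  intro a ha b hb hab
  have haz : a ≠ z := fun h' => hz (h' ▸ ha)
  have hbz : b ≠ z := fun h' => hz (h' ▸ hb)
  unfold mv at hab
  split_ifs at hab with h1 h2 h3 h4 h5 h6 h7 <;> omega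

theorem injOn_mvL (h : SwC G E A K L x y z) : Set.InjOn (mv y x z y) (vs G L) := by
  have hx := h.xK.2
  obtain ⟨_, _, _, hxy, hyz⟩ := h.mems
  intro a ha b hb hab
  have hax : a ≠ x := fun h' => hx (h' ▸ ha)
  have hbx : b ≠ x := fun h' => hx (h' ▸ hb)
  unfold mv at hab
  split_ifs at hab with h1 h2 h3 h4 h5 h6 h7 <;> omega

theorem swp_rk_K (h : SwC G E A K L x y z) {U : Finset ℕ} (hU : U ⊆ K) :
    rk (swp G K L x y z) U = rk G U := by
  rw [rk, swp_img_K G K L x y z hU]
  exact rho_rename ((injOn_mvK h).mono (vs_mono G hU))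

theorem swp_rk_L (h : SwC G E A K L x y z) {U : Finset ℕ} (hU : U ⊆ L) :
    rk (swp G K L x y z) U = rk G U := by
  rw [rk, swp_img_L G h.disj x y z hU]
  exact rho_rename ((injOn_mvL h).mono (vs_mono G hU))

/-- all gains are one -/
theorem W_one {T : Set (Tri H)} (hT : ∀ t ∈ T, t.2.2 = 1) {u v : ℕ} {g : H} (hw : W T u v g) :
    g = 1 := by
  induction hw with
  | refl => rfl
  | fwd _ ht ih =>
    have := hT _ ht
    simp only at this
    rw [ih, this, mul_one]
  | bwd _ ht ih =>
    have := hT _ ht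
    simp only at this
    rw [ih, this, inv_one, mul_one]

theorem bal_one {T : Set (Tri H)} (hT : ∀ t ∈ T, t.2.2 = 1) (y : ℕ) : bal T {y} = 1 := by
  have : balC T {y} = {cls T y} := by
    ext c
    constructor
    · rintro ⟨u, hu, hb, rfl⟩
      rw [Set.mem_singleton_iff.1 hu]
      rfl
    · intro hc
      refine ⟨y, rfl, ?_, hc⟩
      rintro ⟨g, hg, hw⟩
      exact hg (W_one hT hw)
  rw [bal, this, Set.ncard_singleton]

theorem img_one (h : SwC G E A K L x y z) {U : Finset ℕ} (hU : U ⊆ K ∪ L) :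
    ∀ t ∈ img G U, t.2.2 = 1 := by
  rintro _ ⟨e, he, rfl⟩
  exact h.one e (hU he)

theorem swp_img_one (h : SwC G E A K L x y z) {U : Finset ℕ} (hU : U ⊆ K ∪ L) :
    ∀ t ∈ img (swp G K L x y z) U, t.2.2 = 1 := by
  rintro _ ⟨e, he, rfl⟩
  have h1 := h.one e (hU he)
  unfold swp
  split_ifs <;> exact h1

theorem swp_vsK (h : SwC G E A K L x y z) {w : ℕ} (hw : w ∈ vs (swp G K L x y z) K) :
    w = y ∨ w = z ∨ (w ≠ x ∧ w ≠ y ∧ w ∈ vs G K) := by
  rw [vs, swp_img_K G K L x y z (Finset.Subset.refl _)] at hw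
  obtain ⟨_, ⟨t, ht, rfl⟩, hw⟩ := hw
  simp only at hw
  have key : ∀ a ∈ vs G K, mv x y y z a = y ∨ mv x y y z a = z ∨
      (mv x y y z a ≠ x ∧ mv x y y z a ≠ y ∧ mv x y y z a ∈ vs G K) := by
    intro a ha
    unfold mv
    split_ifs with h1 h2
    · exact Or.inl rfl
    · exact Or.inr (Or.inl rfl)
    · exact Or.inr (Or.inr ⟨h1, h2, ha⟩)
  rcases hw with hw | hw
  · rw [hw]
    exact key _ (mem_vx_left ht)
  · rw [hw]
    exact key _ (mem_vx_right ht)

theorem swp_vsL (h : SwC G E A K L x y z) {w : ℕ} (hw : w ∈ vs (swp G K L x y z) L) :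
    w = x ∨ w = y ∨ (w ≠ y ∧ w ≠ z ∧ w ∈ vs G L) := by
  rw [vs, swp_img_L G h.disj x y z (Finset.Subset.refl _)] at hw
  obtain ⟨_, ⟨t, ht, rfl⟩, hw⟩ := hw
  simp only at hw
  have key : ∀ a ∈ vs G L, mv y x z y a = x ∨ mv y x z y a = y ∨
      (mv y x z y a ≠ y ∧ mv y x z y a ≠ z ∧ mv y x z y a ∈ vs G L) := by
    intro a ha
    unfold mv
    split_ifs with h1 h2
    · exact Or.inl rfl
    · exact Or.inr (Or.inl rfl)
    · exact Or.inr (Or.inr ⟨h1, h2, ha⟩)
  rcases hw with hw | hw
  · rw [hw]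
    exact key _ (mem_vx_left ht)
  · rw [hw]
    exact key _ (mem_vx_right ht)

theorem swp_capKL (h : SwC G E A K L x y z) :
    vs (swp G K L x y z) K ∩ vs (swp G K L x y z) L ⊆ {y} := by
  obtain ⟨_, _, _, hxy, hyz⟩ := h.mems
  have hxz := h.ne
  rintro w ⟨hK, hL⟩
  rcases swp_vsK h hK with h1 | h1 | ⟨h1, h1', h1''⟩
  · exact h1
  · rcases swp_vsL h hL with h2 | h2 | ⟨h2, h2', h2''⟩
    · exact absurd (h2.symm.trans h1) hxz
    · exact h2
    · exact absurd h1 h2'
  · rcases swp_vsL h hL with h2 | h2 | ⟨h2, h2', h2''⟩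
    · exact absurd h2 h1
    · exact h2
    · rw [← h.capKL]
      exact ⟨h1'', h2''⟩

theorem inter_union_KL {U K L : Finset ℕ} (hU : U ⊆ K ∪ L) : (U ∩ K) ∪ (U ∩ L) = U := by
  rw [← Finset.inter_union_distrib_left]
  exact Finset.inter_eq_left.2 hU

theorem swp_rk_KL (h : SwC G E A K L x y z) {U : Finset ℕ} (hU : U ⊆ K ∪ L) :
    rk (swp G K L x y z) U = rk G U := by
  have hUK : U ∩ K ⊆ K := Finset.inter_subset_right
  have hUL : U ∩ L ⊆ L := Finset.inter_subset_right
  have hUK' : U ∩ K ⊆ K ∪ L := hUK.trans Finset.subset_union_left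
  have hUL' : U ∩ L ⊆ K ∪ L := hUL.trans Finset.subset_union_right
  have h1 := two_sided_rk G (U ∩ K) (U ∩ L) (Set.finite_singleton y) (by
    rw [← h.capKL]
    exact Set.inter_subset_inter (vs_mono G hUK) (vs_mono G hUL))
  have h2 := two_sided_rk (swp G K L x y z) (U ∩ K) (U ∩ L) (Set.finite_singleton y)
    (Set.Subset.trans (Set.inter_subset_inter (vs_mono _ hUK) (vs_mono _ hUL)) (swp_capKL h))
  rw [inter_union_KL hU, bal_one (img_one h hUK'), bal_one (img_one h hUL'),
    bal_one (img_one h hU), Set.ncard_singleton] at h1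
  rw [inter_union_KL hU, bal_one (swp_img_one h hUK'), bal_one (swp_img_one h hUL'),
    bal_one (swp_img_one h hU), Set.ncard_singleton] at h2
  have h3 := swp_rk_K h hUK
  have h4 := swp_rk_L h hUL
  omega

theorem con_two_blocks {T1 T2 : Set (Tri H)} {x y z : ℕ} (hv : vx T1 ∩ vx T2 ⊆ {y})
    (hx : x ∉ vx T2) (hz : z ∉ vx T1) (hxz : x ≠ z) :
    Con (T1 ∪ T2) x z ↔ Con T1 x y ∧ Con T2 y z := by
  constructor
  · rintro ⟨g, hg⟩
    have key : ∀ p g, W (T1 ∪ T2) x p g → Con T1 x p ∨ (Con T1 x y ∧ Con T2 y p) := by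
      intro p g hw
      induction hw with
      | refl => exact Or.inl (Con.refl _ _)
      | @fwd p q h1 g1 _ ht ih =>
        rcases ht with ht | ht
        · left
          rcases ih with ih | ⟨ih1, ih2⟩
          · exact ih.trans ⟨_, W.edge ht⟩
          · rcases Con_ends ih2 with h2 | h2
            · rw [h2] at ih1
              exact ih1.trans ⟨_, W.edge ht⟩
            · have : p = y := hv ⟨mem_vx_left ht, h2.2⟩
              rw [← this] at ih1
              exact ih1.trans ⟨_, W.edge ht⟩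
        · right
          rcases ih with ih | ⟨ih1, ih2⟩
          · rcases Con_ends ih with h2 | h2
            · exfalso
              apply hx
              rw [h2]
              exact mem_vx_left ht
            · have : p = y := hv ⟨h2.2, mem_vx_left ht⟩
              rw [← this]
              exact ⟨ih, ⟨_, W.edge ht⟩⟩
          · exact ⟨ih1, ih2.trans ⟨_, W.edge ht⟩⟩
      | @bwd p q h1 g1 _ ht ih =>
        rcases ht with ht | ht
        · left
          rcases ih with ih | ⟨ih1, ih2⟩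
          · exact ih.trans ⟨_, W.edge_inv ht⟩
          · rcases Con_ends ih2 with h2 | h2
            · rw [h2] at ih1
              exact ih1.trans ⟨_, W.edge_inv ht⟩
            · have : p = y := hv ⟨mem_vx_right ht, h2.2⟩
              rw [← this] at ih1
              exact ih1.trans ⟨_, W.edge_inv ht⟩
        · right
          rcases ih with ih | ⟨ih1, ih2⟩
          · rcases Con_ends ih with h2 | h2
            · exfalso
              apply hx
              rw [h2]
              exact mem_vx_right ht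
            · have : p = y := hv ⟨h2.2, mem_vx_right ht⟩
              rw [← this]
              exact ⟨ih, ⟨_, W.edge_inv ht⟩⟩
          · exact ⟨ih1, ih2.trans ⟨_, W.edge_inv ht⟩⟩
    rcases key z g hg with h1 | h1
    · exfalso
      rcases Con_ends h1 with h2 | h2
      · exact hxz h2
      · exact hz h2.2
    · exact h1
  · rintro ⟨h1, h2⟩
    exact (h1.mono Set.subset_union_left).trans (h2.mono Set.subset_union_right)

theorem trc_one {T T' : Set (Tri H)} (hT : ∀ t ∈ T, t.2.2 = 1) (hT' : ∀ t ∈ T', t.2.2 = 1)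
    {x z : ℕ} (hc : Con T x z ↔ Con T' x z) :
    Trc T ![(x, (1 : H)), (z, 1)] = Trc T' ![(x, (1 : H)), (z, 1)] := by
  have key : ∀ (T : Set (Tri H)), (∀ t ∈ T, t.2.2 = 1) → ∀ a b : ℕ, ∀ g : H,
      W T a b g ↔ Con T a b ∧ g = 1 := by
    intro T hT a b g
    constructor
    · intro hw
      exact ⟨⟨g, hw⟩, W_one hT hw⟩
    · rintro ⟨⟨k, hk⟩, rfl⟩
      rwa [W_one hT hk] at hk
  have hc' : Con T z x ↔ Con T' z x :=
    ⟨fun h => (hc.1 h.symm).symm, fun h => (hc.2 h.symm).symm⟩
  have hr : ∀ a, Con T a a ↔ Con T' a a := fun a => ⟨fun _ => Con.refl _ _, fun _ => Con.refl _ _⟩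
  funext a b g
  unfold Trc
  rw [key T hT, key T' hT']
  apply propext
  refine and_congr ?_ Iff.rfl
  fin_cases a <;> fin_cases b
  · exact hr x
  · exact hc
  · exact hc'
  · exact hr z

theorem swp_trace (h : SwC G E A K L x y z) {U : Finset ℕ} (hU : U ⊆ K ∪ L) :
    Trc (img (swp G K L x y z) U) ![(x, (1 : H)), (z, 1)] = Trc (img G U) ![(x, (1 : H)), (z, 1)] := by
  apply trc_one (swp_img_one h hU) (img_one h hU)
  have hUK : U ∩ K ⊆ K := Finset.inter_subset_right
  have hUL : U ∩ L ⊆ L := Finset.inter_subset_right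
  obtain ⟨_, _, _, hxy, hyz⟩ := h.mems
  have hxz := h.ne
  have hyK : y ∈ vs G K := by
    have : y ∈ vs G K ∩ vs G L := by rw [h.capKL]; rfl
    exact this.1
  have hyL : y ∈ vs G L := by
    have : y ∈ vs G K ∩ vs G L := by rw [h.capKL]; rfl
    exact this.2
  have e1 : Con (img G U) x z ↔ Con (img G (U ∩ K)) x y ∧ Con (img G (U ∩ L)) y z := by
    rw [← con_two_blocks (T1 := img G (U ∩ K)) (T2 := img G (U ∩ L)) _ _ _ hxz, ← img_union,
      inter_union_KL hU]
    · rw [← h.capKL]
      exact Set.inter_subset_inter (vs_mono G hUK) (vs_mono G hUL)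
    · exact fun h' => h.xK.2 (vs_mono G hUL h')
    · exact fun h' => h.zL.2 (vs_mono G hUK h')
  have e2 : Con (img (swp G K L x y z) U) x z ↔
      Con (img (swp G K L x y z) (U ∩ L)) x y ∧ Con (img (swp G K L x y z) (U ∩ K)) y z := by
    rw [← con_two_blocks (T1 := img (swp G K L x y z) (U ∩ L))
      (T2 := img (swp G K L x y z) (U ∩ K)) _ _ _ hxz, ← img_union, Finset.union_comm,
      inter_union_KL hU]
    · rw [Set.inter_comm]
      exact Set.Subset.trans (Set.inter_subset_inter (vs_mono _ hUK) (vs_mono _ hUL))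
        (swp_capKL h)
    · intro h'
      rcases swp_vsK h (vs_mono _ hUK h') with h1 | h1 | h1
      · exact hxy h1
      · exact hxz h1
      · exact h1.1 rfl
    · intro h'
      rcases swp_vsL h (vs_mono _ hUL h') with h1 | h1 | h1
      · exact hxz h1.symm
      · exact hyz h1.symm
      · exact h1.2.1 rfl
  have e3 : Con (img (swp G K L x y z) (U ∩ L)) x y ↔ Con (img G (U ∩ L)) y z := by
    rw [swp_img_L G h.disj x y z hUL]
    have m1 : mv y x z y y = x := by unfold mv; rw [if_pos rfl]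
    have m2 : mv y x z y z = y := by unfold mv; rw [if_neg hyz.symm, if_pos rfl]
    have := fun g : H => W_map_iff (g := g) (vs_mono G hUL) (injOn_mvL h) hyL h.zL.1
    rw [m1, m2] at this
    exact exists_congr this
  have e4 : Con (img (swp G K L x y z) (U ∩ K)) y z ↔ Con (img G (U ∩ K)) x y := by
    rw [swp_img_K G K L x y z hUK]
    have m1 : mv x y y z x = y := by unfold mv; rw [if_pos rfl]
    have m2 : mv x y y z y = z := by unfold mv; rw [if_neg hxy.symm, if_pos rfl]
    have := fun g : H => W_map_iff (g := g) (vs_mono G hUK) (injOn_mvK h) h.xK.1 hyK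
    rw [m1, m2] at this
    exact exists_congr this
  rw [e1, e2, e3, e4, and_comm]

theorem swp_rk (h : SwC G E A K L x y z) {X : Finset ℕ} (hX : X ⊆ E) :
    rk (swp G K L x y z) X = rk G X := by
  have hXU : X ∩ (K ∪ L) ∪ X \ (K ∪ L) = X := by
    rw [Finset.union_comm]
    exact Finset.sdiff_union_inter X (K ∪ L)
  have hU : X ∩ (K ∪ L) ⊆ K ∪ L := Finset.inter_subset_right
  have hZ : Disjoint (X \ (K ∪ L)) (K ∪ L) := Finset.sdiff_disjoint
  have hZE : X \ (K ∪ L) ⊆ E \ (K ∪ L) := Finset.sdiff_subset_sdiff hX (Finset.Subset.refl _)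
  have hxz := h.ne
  have hyK : y ∈ vs G K := by
    have : y ∈ vs G K ∩ vs G L := by rw [h.capKL]; rfl
    exact this.1
  have hinj : Function.Injective fun a => ((![(x, (1 : H)), (z, 1)] : Fin 2 → ℕ × H) a).1 := by
    intro a b hab
    fin_cases a <;> fin_cases b
    · rfl
    · exact absurd hab hxz
    · exact absurd hab hxz.symm
    · rfl
  have hrange : ∀ w, (w = x ∨ w = z) →
      w ∈ Set.range fun a => ((![(x, (1 : H)), (z, 1)] : Fin 2 → ℕ × H) a).1 := by
    rintro w (rfl | rfl)
    · exact ⟨0, rfl⟩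
    · exact ⟨1, rfl⟩
  have hvK : vs G K ⊆ vs G (K ∪ L) := vs_mono G Finset.subset_union_left
  have hvL : vs G L ⊆ vs G (K ∪ L) := vs_mono G Finset.subset_union_right
  have hv1 : vs G (X ∩ (K ∪ L)) ∩ vs G (X \ (K ∪ L)) ⊆
      Set.range fun a => ((![(x, (1 : H)), (z, 1)] : Fin 2 → ℕ × H) a).1 := by
    rintro w ⟨hw1, hw2⟩
    exact hrange w (h.capR ⟨vs_mono G hU hw1, vs_mono G hZE hw2⟩)
  have hv2 : vs (swp G K L x y z) (X ∩ (K ∪ L)) ∩ vs (swp G K L x y z) (X \ (K ∪ L)) ⊆
      Set.range fun a => ((![(x, (1 : H)), (z, 1)] : Fin 2 → ℕ × H) a).1 := by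
    rintro w ⟨hw1, hw2⟩
    have hw2' : w ∈ vs G (E \ (K ∪ L)) := by
      rw [vs, swp_img_R G x y z hZ] at hw2
      exact vs_mono G hZE hw2
    have hw1' := vs_mono (swp G K L x y z) hU hw1
    rw [vs_union] at hw1'
    apply hrange
    rcases hw1' with hw | hw
    · rcases swp_vsK h hw with h1 | h1 | h1
      · rw [h1] at hw2'
        exact absurd hw2' h.notMem_R
      · exact Or.inr h1
      · exact h.capR ⟨hvK h1.2.2, hw2'⟩
    · rcases swp_vsL h hw with h1 | h1 | h1
      · exact Or.inl h1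
      · rw [h1] at hw2'
        exact absurd hw2' h.notMem_R
      · exact h.capR ⟨hvL h1.2.2, hw2'⟩
  have key := join_rank (img_finite G (X ∩ (K ∪ L))) (img_finite G (X \ (K ∪ L)))
    (img_finite (swp G K L x y z) (X ∩ (K ∪ L))) (img_finite (swp G K L x y z) (X \ (K ∪ L)))
    hinj hinj hv1 hv2 (swp_trace h hU).symm (by rw [swp_img_R G x y z hZ])
  rw [← img_union, ← img_union, hXU] at key
  have h1 : rho (img (swp G K L x y z) (X ∩ (K ∪ L))) = rho (img G (X ∩ (K ∪ L))) :=
    swp_rk_KL h hU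
  have h2 : rho (img (swp G K L x y z) (X \ (K ∪ L))) = rho (img G (X \ (K ∪ L))) := by
    rw [swp_img_R G x y z hZ]
  rw [rk, rk]
  omega

end Pool.Agent.Helper28.BW
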