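import Pool.Agent.Helper28.BW.MengerE

/-!
# BW-48: the edges of the disjoint paths

Let `Paths G E Z X m l x e`, `|bd Z| = |bd X| = m`, and `C` the set of all `e i j`, `j < l i`. Then `C` is independent, trivial on `vs G Z` and on `vs G (E \ X)`, and joins
`bd Z` to `bd X`.
Proof. The `x i 0` are `m` different elements of `bd Z`, so all of them; the `x i (l i)` are all elements of `bd X`. By `inj`: if `x i j ∈ bd Z` (`j ≤ l i`) then
`j = 0`; if `x i j ∈ bd X` then `j = l i`. Every vertex in `vs G C` is some `x i j`. If `a ∈ vs G Z ∩ vs G C` then `a ∈ vs G (E \ Z)`, so `a ∈ bd Z`, `a = x i 0`. If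
`b ∈ vs G (E \ X) ∩ vs G C` then `b ∈ vs G X`, so `b ∈ bd X`, `b = x i (l i)`. Potentials: `pot i 0 = 1`, `pot i (j+1) = pot i j * g` where `g` is the gain of `e i j` from `x i j`
to `x i (j+1)`. Claim: if `W (img G C) (x i j) v g` with `j ≤ l i` then `v = x i j'` for some `j' ≤ l i` and `g = (pot i j)⁻¹ * pot i j'` (induction on the walk; an edge `e i' j''` at `x i j'` has
`i' = i` by `inj`). Hence the trivial-walk properties (`W_ends`: a walk which is not trivial has both ends in `vs G C`), and `Con (img G C) (x i 0) (x i (l i))`.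
Independence: the edges `e i j` are pairwise different (their ends determine `(i, j)`), so `|C| = ∑ l i`. Every vertex is balanced in `C` by the claim, the classes of the vertices of `vs G C`
are the sets `{x i 0, ..., x i (l i)}` with `l i ≥ 1`, so `bal (img G C) (vs G C) = #{i : l i ≥ 1}` and `|vs G C| = ∑ (l i + 1)` over these `i`; `rho_add_bal`. (Or: add the edges
one by one along the paths; each new edge has a new vertex, so it is not in the closure.)
-/

set_option autoImplicit false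

namespace Pool.Agent.Helper28.BW

variable {H : Type} [Group H]

private theorem range_eq {m : ℕ} {S : Set ℕ} (hS : S.Finite) (hm : S.ncard = m) (f : Fin m → ℕ)
    (hf : Function.Injective f) (hfS : ∀ i, f i ∈ S) : ∀ a ∈ S, ∃ i, a = f i := by
  have h1 : Set.range f ⊆ S := by
    rintro _ ⟨i, rfl⟩
    exact hfS i
  have h2 : (Set.range f).ncard = m := by
    rw [← Set.image_univ, Set.ncard_image_of_injective _ hf, Set.ncard_univ, Nat.card_eq_fintype_card,
      Fintype.card_fin]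
  have h3 : Set.range f = S := Set.eq_of_subset_of_ncard_le h1 (by rw [h2, hm]) hS
  intro a ha
  rw [← h3] at ha
  obtain ⟨i, hi⟩ := ha
  exact ⟨i, hi.symm⟩

theorem thread {G : GG H} {E Z X : Finset ℕ} {m : ℕ} {l : Fin m → ℕ} {x e : Fin m → ℕ → ℕ}
    (hZ : Z ⊆ X) (hX : X ⊆ E) (h : Paths G E Z X m l x e) (h1 : (bd G E Z).ncard = m)
    (h2 : (bd G E X).ncard = m) :
    ∃ C : Finset ℕ, C ⊆ X \ Z ∧ rk G C = C.card ∧
      (∀ a ∈ vs G Z, ∀ a' ∈ vs G Z, ∀ g : H, W (img G C) a a' g → a = a' ∧ g = 1) ∧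
      (∀ b ∈ vs G (E \ X), ∀ b' ∈ vs G (E \ X), ∀ g : H, W (img G C) b b' g →
        b = b' ∧ g = 1) ∧
      (∀ a ∈ bd G E Z, ∃ b ∈ bd G E X, Con (img G C) a b) ∧
      (∀ b ∈ bd G E X, ∃ a ∈ bd G E Z, Con (img G C) b a) := by
  classical
  have hlt : ∀ (i : Fin m) (j : ℕ), ∃ γ : H, j < l i →
      (G (e i j) = (x i j, x i (j + 1), γ) ∨ G (e i j) = (x i (j + 1), x i j, γ⁻¹)) := by
    intro i j
    by_cases hj : j < l i
    · rcases h.jn i j hj with ⟨g, hg⟩ | ⟨g, hg⟩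
      · exact ⟨g, fun _ => Or.inl hg⟩
      · exact ⟨g⁻¹, fun _ => Or.inr (by rw [inv_inv]; exact hg)⟩
    · exact ⟨1, fun h' => absurd h' hj⟩
  choose γ hγ using hlt
  obtain ⟨pot, hpot0, hpots⟩ : ∃ pot : Fin m → ℕ → H, (∀ i, pot i 0 = 1) ∧
      ∀ i j, pot i (j + 1) = pot i j * γ i j :=
    ⟨fun i j => Nat.rec 1 (fun j r => r * γ i j) j, fun _ => rfl, fun _ _ => rfl⟩
  have hγ1 : ∀ i j, γ i j = (pot i j)⁻¹ * pot i (j + 1) := by
    intro i j
    rw [hpots]
    group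
  have hγ2 : ∀ i j, (γ i j)⁻¹ = (pot i (j + 1))⁻¹ * pot i j := by
    intro i j
    rw [hpots]
    group
  have edge : ∀ P : Finset (Fin m × ℕ), (∀ p ∈ P, p.2 < l p.1) →
      ∀ t ∈ img G (P.image fun p => e p.1 p.2), ∃ p ∈ P,
        t = (x p.1 p.2, x p.1 (p.2 + 1), γ p.1 p.2) ∨
        t = (x p.1 (p.2 + 1), x p.1 p.2, (γ p.1 p.2)⁻¹) := by
    intro P hP t ht
    obtain ⟨f, hf, rfl⟩ := ht
    obtain ⟨p, hp, rfl⟩ := Finset.mem_image.mp (Finset.mem_coe.mp hf)
    exact ⟨p, hp, hγ _ _ (hP p hp)⟩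
  have walk : ∀ P : Finset (Fin m × ℕ), (∀ p ∈ P, p.2 < l p.1) → ∀ (u v : ℕ) (g : H),
      W (img G (P.image fun p => e p.1 p.2)) u v g → ∀ i j, j ≤ l i → u = x i j →
      ∃ j', j' ≤ l i ∧ v = x i j' ∧ g = (pot i j)⁻¹ * pot i j' ∧
        ∀ k, (i, k) ∉ P → j ≤ k → j' ≤ k := by
    intro P hP u v g hw
    have up : ∀ (p : Fin m × ℕ) (i : Fin m) (j a b : ℕ) (g' : H), p ∈ P → j ≤ l i → a = x i j →
        a = x p.1 p.2 → b = x p.1 (p.2 + 1) → g' = γ p.1 p.2 → ∃ j', j' ≤ l i ∧ b = x i j' ∧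
          g' = (pot i j)⁻¹ * pot i j' ∧ ∀ k, (i, k) ∉ P → j ≤ k → j' ≤ k := by
      intro p i j a b g' hp hj ha ha' hb hg
      have hpl := hP p hp
      obtain ⟨rfl, rfl⟩ := h.inj i j p.1 p.2 hj hpl.le (ha.symm.trans ha')
      refine ⟨p.2 + 1, hpl, hb, by rw [hg, hγ1], fun k hk hjk => ?_⟩
      have hne : k ≠ p.2 := by
        rintro rfl
        exact hk hp
      omega
    have down : ∀ (p : Fin m × ℕ) (i : Fin m) (j a b : ℕ) (g' : H), p ∈ P → j ≤ l i → a = x i j →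
        a = x p.1 (p.2 + 1) → b = x p.1 p.2 → g' = (γ p.1 p.2)⁻¹ → ∃ j', j' ≤ l i ∧ b = x i j' ∧
          g' = (pot i j)⁻¹ * pot i j' ∧ ∀ k, (i, k) ∉ P → j ≤ k → j' ≤ k := by
      intro p i j a b g' hp hj ha ha' hb hg
      have hpl := hP p hp
      obtain ⟨rfl, rfl⟩ := h.inj i j p.1 (p.2 + 1) hj hpl (ha.symm.trans ha')
      exact ⟨p.2, hpl.le, hb, by rw [hg, hγ2], fun k hk hjk => by omega⟩
    induction hw with
    | refl =>
      intro i j hj hu
      exact ⟨j, hj, hu, by rw [inv_mul_cancel], fun k _ h => h⟩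
    | fwd _ ht ih =>
      intro i j hj hu
      obtain ⟨j1, h1, h2, h3, h4⟩ := ih i j hj hu
      obtain ⟨p, hp, hp' | hp'⟩ := edge P hP _ ht
      · simp only [Prod.mk.injEq] at hp'
        obtain ⟨j2, k1, k2, k3, k4⟩ := up p i j1 _ _ _ hp h1 h2 hp'.1 hp'.2.1 hp'.2.2
        exact ⟨j2, k1, k2, by rw [h3, k3]; group, fun k hk hjk => k4 k hk (h4 k hk hjk)⟩
      · simp only [Prod.mk.injEq] at hp'
        obtain ⟨j2, k1, k2, k3, k4⟩ := down p i j1 _ _ _ hp h1 h2 hp'.1 hp'.2.1 hp'.2.2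
        exact ⟨j2, k1, k2, by rw [h3, k3]; group, fun k hk hjk => k4 k hk (h4 k hk hjk)⟩
    | bwd _ ht ih =>
      intro i j hj hu
      obtain ⟨j1, h1, h2, h3, h4⟩ := ih i j hj hu
      obtain ⟨p, hp, hp' | hp'⟩ := edge P hP _ ht
      · simp only [Prod.mk.injEq] at hp'
        obtain ⟨j2, k1, k2, k3, k4⟩ := down p i j1 _ _ _ hp h1 h2 hp'.2.1 hp'.1
          (congrArg (fun z : H => z⁻¹) hp'.2.2)
        exact ⟨j2, k1, k2, by rw [h3, k3]; group, fun k hk hjk => k4 k hk (h4 k hk hjk)⟩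
      · simp only [Prod.mk.injEq] at hp'
        obtain ⟨j2, k1, k2, k3, k4⟩ := up p i j1 _ _ _ hp h1 h2 hp'.2.1 hp'.1
          ((congrArg (fun z : H => z⁻¹) hp'.2.2).trans (inv_inv _))
        exact ⟨j2, k1, k2, by rw [h3, k3]; group, fun k hk hjk => k4 k hk (h4 k hk hjk)⟩
  have ind : ∀ P : Finset (Fin m × ℕ), (∀ p ∈ P, p.2 < l p.1) →
      rk G (P.image fun p => e p.1 p.2) = (P.image fun p => e p.1 p.2).card := by
    intro P
    induction P using Finset.induction_on with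
    | empty =>
      intro _
      rw [Finset.image_empty, Finset.card_empty, (rk_rkFn G).empty]
    | insert p P hp ih =>
      intro hP
      have hP' : ∀ q ∈ P, q.2 < l q.1 := fun q hq => hP q (Finset.mem_insert_of_mem hq)
      have hpl := hP p (Finset.mem_insert_self _ _)
      have hcl : G (e p.1 p.2) ∉ cl (img G (P.image fun p => e p.1 p.2)) := by
        have nounb : ∀ j, j ≤ l p.1 →
            ¬ Unb (img G (P.image fun p => e p.1 p.2)) (x p.1 j) := by
          rintro j hj ⟨g, hg, hw⟩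
          obtain ⟨j', h1, h2, h3, -⟩ := walk P hP' _ _ _ hw p.1 j hj rfl
          obtain ⟨-, h4⟩ := h.inj _ _ _ _ hj h1 h2
          subst h4
          rw [inv_mul_cancel] at h3
          exact hg h3
        have nocon : ∀ g, ¬ W (img G (P.image fun p => e p.1 p.2)) (x p.1 p.2)
            (x p.1 (p.2 + 1)) g := by
          intro g hw
          obtain ⟨j', h1, h2, -, h4⟩ := walk P hP' _ _ _ hw p.1 p.2 hpl.le rfl
          have h5 := (h.inj _ _ _ _ (Nat.succ_le_of_lt hpl) h1 h2).2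
          have h6 := h4 p.2 hp le_rfl
          omega
        rcases hγ p.1 p.2 hpl with h0 | h0
        · rw [h0]
          rintro (hw | ⟨hu, -⟩)
          · exact nocon _ hw
          · exact nounb _ hpl.le hu
        · rw [h0]
          rintro (hw | ⟨hu, -⟩)
          · exact nocon _ (W.symm hw)
          · exact nounb _ (Nat.succ_le_of_lt hpl) hu
      have hnot : e p.1 p.2 ∉ P.image fun p => e p.1 p.2 := fun hm =>
        hcl (subset_cl _ ⟨_, Finset.mem_coe.mpr hm, rfl⟩)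
      rw [Finset.image_insert, Finset.card_insert_of_notMem hnot, ← ih hP', rk, img_insert,
        rho_insert_of_notMem (img_finite G _) hcl]
      rfl
  obtain ⟨P, hPm⟩ : ∃ P : Finset (Fin m × ℕ), ∀ p, p ∈ P ↔ p.2 < l p.1 := by
    refine ⟨((Finset.univ : Finset (Fin m)) ×ˢ Finset.range (Finset.univ.sup l)).filter
      (fun p => p.2 < l p.1), fun p => ?_⟩
    rw [Finset.mem_filter, Finset.mem_product, Finset.mem_range]
    constructor
    · exact fun hh => hh.2
    · intro hh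
      exact ⟨⟨Finset.mem_univ _, hh.trans_le (Finset.le_sup (Finset.mem_univ p.1))⟩, hh⟩
  have hPl : ∀ p ∈ P, p.2 < l p.1 := fun p hp => (hPm p).mp hp
  obtain ⟨C, hC⟩ : ∃ C : Finset ℕ, C = P.image fun p => e p.1 p.2 := ⟨_, rfl⟩
  have hCXZ : C ⊆ X \ Z := by
    rw [hC]
    intro f hf
    obtain ⟨p, hp, rfl⟩ := Finset.mem_image.mp hf
    exact h.mem _ _ (hPl p hp)
  have hCX : C ⊆ X := hCXZ.trans Finset.sdiff_subset
  have hCEZ : C ⊆ E \ Z := hCXZ.trans (Finset.sdiff_subset_sdiff hX (Finset.Subset.refl _))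
  have hvC : ∀ a ∈ vs G C, ∃ i j, j ≤ l i ∧ a = x i j := by
    rintro a ⟨t, ht, hat⟩
    rw [hC] at ht
    obtain ⟨p, hp, rfl | rfl⟩ := edge P hPl t ht
    · have hpl := hPl p hp
      rcases hat with hat | hat
      · exact ⟨p.1, p.2, hpl.le, hat⟩
      · exact ⟨p.1, p.2 + 1, hpl, hat⟩
    · have hpl := hPl p hp
      rcases hat with hat | hat
      · exact ⟨p.1, p.2 + 1, hpl, hat⟩
      · exact ⟨p.1, p.2, hpl.le, hat⟩
  have hbZ : ∀ a ∈ bd G E Z, ∃ i, a = x i 0 :=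
    range_eq (bd_finite G E Z) h1 (fun i => x i 0)
      (fun i i' hii => (h.inj i 0 i' 0 (Nat.zero_le _) (Nat.zero_le _) hii).1) h.st
  have hbX : ∀ a ∈ bd G E X, ∃ i, a = x i (l i) :=
    range_eq (bd_finite G E X) h2 (fun i => x i (l i))
      (fun i i' hii => (h.inj i (l i) i' (l i') le_rfl le_rfl hii).1) h.en
  have hcon : ∀ i, Con (img G C) (x i 0) (x i (l i)) := by
    intro i
    have hj : ∀ j, j ≤ l i → Con (img G C) (x i 0) (x i j) := by
      intro j
      induction j with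
      | zero => intro _; exact Con.refl _ _
      | succ j ih =>
        intro hj
        have hjl : j < l i := hj
        have hmC : G (e i j) ∈ img G C := by
          rw [hC]
          exact ⟨e i j, Finset.mem_coe.mpr (Finset.mem_image.mpr ⟨(i, j), (hPm _).mpr hjl, rfl⟩),
            rfl⟩
        refine (ih hjl.le).trans ?_
        rcases hγ i j hjl with h0 | h0
        · rw [h0] at hmC
          exact ⟨_, W.edge hmC⟩
        · rw [h0] at hmC
          exact Con.symm ⟨_, W.edge hmC⟩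
    exact hj _ le_rfl
  refine ⟨C, hCXZ, ?_, ?_, ?_, ?_, ?_⟩
  · rw [hC]
    exact ind P hPl
  · intro a ha a' ha' g hw
    rcases W_ends hw with h0 | ⟨h3, h4⟩
    · exact h0
    · obtain ⟨i, hi⟩ := hbZ a ⟨ha, vs_mono G hCEZ h3⟩
      obtain ⟨i', hi'⟩ := hbZ a' ⟨ha', vs_mono G hCEZ h4⟩
      rw [hC] at hw
      obtain ⟨j', k1, k2, k3, -⟩ := walk P hPl _ _ _ hw i 0 (Nat.zero_le _) hi
      obtain ⟨rfl, rfl⟩ := h.inj i j' i' 0 k1 (Nat.zero_le _) (k2.symm.trans hi')
      rw [inv_mul_cancel] at k3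
      exact ⟨hi.trans hi'.symm, k3⟩
  · intro a ha a' ha' g hw
    rcases W_ends hw with h0 | ⟨h3, h4⟩
    · exact h0
    · obtain ⟨i, hi⟩ := hbX a ⟨vs_mono G hCX h3, ha⟩
      obtain ⟨i', hi'⟩ := hbX a' ⟨vs_mono G hCX h4, ha'⟩
      rw [hC] at hw
      obtain ⟨j', k1, k2, k3, -⟩ := walk P hPl _ _ _ hw i (l i) le_rfl hi
      obtain ⟨rfl, rfl⟩ := h.inj i j' i' (l i') k1 le_rfl (k2.symm.trans hi')
      rw [inv_mul_cancel] at k3
      exact ⟨hi.trans hi'.symm, k3⟩
  · intro a ha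
    obtain ⟨i, rfl⟩ := hbZ a ha
    exact ⟨x i (l i), h.en i, hcon i⟩
  · intro b hb
    obtain ⟨i, rfl⟩ := hbX b hb
    exact ⟨x i 0, h.st i, (hcon i).symm⟩

end Pool.Agent.Helper28.BW
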