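import Pool.Agent.Helper28.BW.Tutte
import Pool.Agent.Helper28.BW.Interval

/-!
# BW-28: a linked chain stays linked when an element outside is deleted or contracted

Let `A 0 ⊆ ... ⊆ A (n-1)` be a linked chain of connectivity `k` in `(E, r)` and `f ∈ E` in none of the `A i`.
DELETION. For `Y ⊆ E \ f` put `a(Y) = r (E \ Y) - r ((E \ f) \ Y) ∈ {0, 1}`, nondecreasing in `Y` (marginal of `f` over a smaller
set), and `a∞ = r E - r (E \ f)`. Then `lam r (E \ f) Y + a(Y) = lam r E Y + a∞`. By `half` there are `n` (of `2n`) consecutive indices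
where `a(A i)` is constant `= a`; then `a(Y) = a` for all `Y` in between and the subchain is linked in `E \ f` with
connectivity `k1 = k - a + a∞` (and `a∞ ≤ a`). If moreover `Lk r (A i) C (E \ A j) k` then `Lk r (A i) C ((E \ f) \ A j) k1`: write `A = A i`,
`B = E \ A j`, `B1 = B \ f`. `r (B1 ∪ C) = r B1 + |C|` because the marginal of `C` over the smaller set `B1` is at least the marginal over `B`. For the
third equation let `aC = r (A ∪ C ∪ B) - r (A ∪ C ∪ B1)`; we need `aC = a∞`. `a∞ ≤ aC ≤ a` (marginals of `f` over `E \ f`, `A ∪ C ∪ B1`, `B1`).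
Suppose `aC = 1`, `a∞ = 0`, so `a = 1`. `r (A ∪ C ∪ B1) = r (A ∪ C ∪ B) - 1 = r A + |C| + r B - k - 1 = r A + |C| + r B1 - k` (as
`r B = r B1 + 1`), and `r (C ∪ B1) = |C| + r B1`; so the marginal of `A` over `C ∪ B1` is `r A - k`, hence the marginal over the
larger set `(E \ f) \ A` is at most that: `r (E \ f) - r ((E \ f) \ A) ≤ r A - k`. But `r (E \ f) = r E` and `r ((E \ f) \ A) = r (E \ A) - 1` (`a = 1`
at `A`), so `r E - r (E \ A) + 1 ≤ r A - k`, contradicting `lam r E A = k`.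
CONTRACTION. `r' = contr r {f}`, `E' = E \ f`. For `Y ⊆ E'`: `lam r' E' Y = lam r E Y - c(Y)` with `c(Y) = r {f} + r Y - r (Y ∪ f) ∈ {0, 1}`,
nondecreasing in `Y`. By `half` there are `n` consecutive indices where `c(A i)` is constant `= c`; there the chain is linked with
`k2 = k - c`. If `Lk r (A i) C (E \ A j) k` then `Lk r' (A i) C (E' \ A j) k2`: `c(A ∪ C) = c(A)` as `A ⊆ A ∪ C ⊆ A j`, so
`r (A ∪ C ∪ f) - r (A ∪ C) = r (A ∪ f) - r A`; the other two equations are direct since `f ∈ E \ A j`.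
-/

set_option autoImplicit false

namespace Pool.Agent.Helper28.BW

private theorem erase_union {E : Finset ℕ} {f : ℕ} (hf : f ∈ E) : E.erase f ∪ {f} = E := by
  ext x
  simp only [Finset.mem_union, Finset.mem_erase, Finset.mem_singleton]
  constructor
  · rintro (h | h)
    · exact h.2
    · rw [h]; exact hf
  · intro h
    by_cases hx : x = f
    · exact Or.inr hx
    · exact Or.inl ⟨hx, h⟩

private theorem sdiff_erase {E Y : Finset ℕ} {f : ℕ} (hf : f ∈ E) (hY : f ∉ Y) :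
    (E.erase f) \ Y ∪ {f} = E \ Y := by
  ext x
  simp only [Finset.mem_union, Finset.mem_erase, Finset.mem_singleton, Finset.mem_sdiff]
  constructor
  · rintro (h | h)
    · exact ⟨h.1.2, h.2⟩
    · rw [h]; exact ⟨hf, hY⟩
  · intro h
    by_cases hx : x = f
    · exact Or.inr hx
    · exact Or.inl ⟨⟨hx, h.1⟩, h.2⟩

private theorem sub_erase {E Y : Finset ℕ} {f : ℕ} (hYE : Y ⊆ E) (hY : f ∉ Y) :
    Y ⊆ E.erase f := fun x hx => Finset.mem_erase.2 ⟨fun h => hY (h ▸ hx), hYE hx⟩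

/-- deletion -/
theorem transfer_del {r : Finset ℕ → ℕ} (hr : RkFn r) {E : Finset ℕ} {A : ℕ → Finset ℕ}
    {n k f : ℕ} (hc : LChain r E A (2 * n) k) (hf : f ∈ E) (hfA : ∀ i, i < 2 * n → f ∉ A i) :
    ∃ s k1, s + n ≤ 2 * n ∧ k1 ≤ k ∧ LChain r (E.erase f) (fun i => A (s + i)) n k1 ∧
      ∀ i j, i < j → j < n → ∀ C ⊆ A (s + j) \ A (s + i), Lk r (A (s + i)) C (E \ A (s + j)) k →
        Lk r (A (s + i)) C ((E.erase f) \ A (s + j)) k1 := by
  rcases Nat.eq_zero_or_pos n with hn | hn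
  · subst hn
    refine ⟨0, 0, le_rfl, Nat.zero_le _, ⟨?_, ?_, ?_, ?_⟩, ?_⟩
    · intro i hi; exact absurd hi (Nat.not_lt_zero _)
    · intro i j _ hj; exact absurd hj (Nat.not_lt_zero _)
    · intro i hi; exact absurd hi (Nat.not_lt_zero _)
    · intro i j _ hj; exact absurd hj (Nat.not_lt_zero _)
    · intro i j _ hj; exact absurd hj (Nat.not_lt_zero _)
  -- the marginals of `f`
  have hmarg : ∀ Y Y' : Finset ℕ, Y ⊆ Y' → f ∉ Y' →
      r (E \ Y) + r ((E.erase f) \ Y') ≤ r (E \ Y') + r ((E.erase f) \ Y) := by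
    intro Y Y' h1 h2
    have h3 := hr.marg (Z := {f}) (Finset.sdiff_subset_sdiff (Finset.Subset.refl (E.erase f)) h1)
    rwa [sdiff_erase hf (fun h => h2 (h1 h)), sdiff_erase hf h2] at h3
  have hle : ∀ Y : Finset ℕ, f ∉ Y → r (E \ Y) ≤ r ((E.erase f) \ Y) + 1 := by
    intro Y hY
    have h1 := hr.union_le ((E.erase f) \ Y) {f}
    rwa [sdiff_erase hf hY, Finset.card_singleton] at h1
  have hge : ∀ Y : Finset ℕ, r ((E.erase f) \ Y) ≤ r (E \ Y) := fun Y =>
    hr.mono _ _ (Finset.sdiff_subset_sdiff (Finset.erase_subset _ _) (Finset.Subset.refl _))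
  have hE1 : r (E.erase f) ≤ r E := hr.mono _ _ (Finset.erase_subset _ _)
  have hE2 : ∀ Y : Finset ℕ, f ∉ Y → r E + r ((E.erase f) \ Y) ≤ r (E \ Y) + r (E.erase f) := by
    intro Y hY
    have h1 := hmarg ∅ Y (Finset.empty_subset _) hY
    rwa [Finset.sdiff_empty, Finset.sdiff_empty] at h1
  have hlam : ∀ Y : Finset ℕ, Y ⊆ E → f ∉ Y →
      lam r (E.erase f) Y + r (E \ Y) + r (E.erase f) =
        lam r E Y + r E + r ((E.erase f) \ Y) := by
    intro Y hY hfY
    have h1 := lam_eq hr hY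
    have h2 := lam_eq hr (sub_erase hY hfY)
    omega
  obtain ⟨s, hs, hw⟩ := half n (fun i => r (E \ A i) = r ((E.erase f) \ A i) + 1) (by
    intro i j hij hj h1
    have h2 := hmarg _ _ (hc.mono i j hij hj) (hfA j hj)
    have h3 := hle _ (hfA j hj)
    show r (E \ A j) = r ((E.erase f) \ A j) + 1
    change r (E \ A i) = r ((E.erase f) \ A i) + 1 at h1
    omega)
  obtain ⟨a, ha1, haw⟩ : ∃ a, a ≤ 1 ∧ ∀ i, i < n →
      r (E \ A (s + i)) = r ((E.erase f) \ A (s + i)) + a := by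
    rcases hw with hw | hw
    · exact ⟨1, le_rfl, fun i hi => hw i hi⟩
    · refine ⟨0, Nat.zero_le _, fun i hi => ?_⟩
      have h1 := hw i hi
      have h2 := hle _ (hfA (s + i) (by omega))
      have h3 := hge (A (s + i))
      change ¬ r (E \ A (s + i)) = r ((E.erase f) \ A (s + i)) + 1 at h1
      omega
  have hbet : ∀ i j, i ≤ j → j < n → ∀ Y, A (s + i) ⊆ Y → Y ⊆ A (s + j) →
      r (E \ Y) = r ((E.erase f) \ Y) + a := by
    intro i j hij hj Y h1 h2
    have hfj := hfA (s + j) (by omega)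
    have hfY : f ∉ Y := fun h => hfj (h2 h)
    have h3 := hmarg _ _ h1 hfY
    have h4 := hmarg _ _ h2 hfj
    have h5 := haw i (by omega)
    have h6 := haw j hj
    omega
  have hs0 : ∀ i, i < n → A (s + i) ⊆ E := fun i hi => hc.sub _ (by omega)
  have hfs : ∀ i, i < n → f ∉ A (s + i) := fun i hi => hfA _ (by omega)
  have hk0 := hc.eq (s + 0) (by omega)
  have hl0 := hlam _ (hs0 0 hn) (hfs 0 hn)
  have ha0 := haw 0 hn
  have hE20 := hE2 _ (hfs 0 hn)
  refine ⟨s, k + r E - (a + r (E.erase f)), hs, by omega, ⟨fun i hi => ?_, fun i j hij hj => ?_,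
    fun i hi => ?_, fun i j hij hj Y h1 h2 => ?_⟩, fun i j hij hj C hC hL => ?_⟩
  · exact sub_erase (hs0 i hi) (hfs i hi)
  · exact hc.mono _ _ (by omega) (by omega)
  · have h1 := hlam _ (hs0 i hi) (hfs i hi)
    have h2 := hc.eq (s + i) (by omega)
    have h3 := haw i hi
    show lam r (E.erase f) (A (s + i)) = _
    omega
  · have hYE : Y ⊆ E := h2.trans (hs0 j hj)
    have hfY : f ∉ Y := fun h => hfs j hj (h2 h)
    have h3 := hlam Y hYE hfY
    have h4 := hc.low (s + i) (s + j) (by omega) (by omega) Y h1 h2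
    have h5 := hbet i j hij hj Y h1 h2
    omega
  · obtain ⟨l1, l2, l3⟩ := hL
    obtain ⟨X, hX⟩ : ∃ X, X = A (s + i) := ⟨_, rfl⟩
    obtain ⟨X', hX'⟩ : ∃ X', X' = A (s + j) := ⟨_, rfl⟩
    have hi : i < n := by omega
    have hXX : X ⊆ X' := by rw [hX, hX']; exact hc.mono _ _ (by omega) (by omega)
    have hXE : X' ⊆ E := by rw [hX']; exact hs0 j hj
    have hfX' : f ∉ X' := by rw [hX']; exact hfs j hj
    have hkX := hc.eq (s + i) (by omega)
    have hwi := haw i hi
    have hwj := haw j hj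
    rw [← hX] at l1 l3 hC hkX hwi
    rw [← hX'] at l2 l3 hC hwj
    rw [← hX, ← hX']
    have hlamX := lam_eq hr (hXX.trans hXE)
    -- the second equation
    have hB : (E.erase f) \ X' ⊆ E \ X' :=
      Finset.sdiff_subset_sdiff (Finset.erase_subset _ _) (Finset.Subset.refl _)
    have g1 := hr.marg (Z := C) hB
    have g2 := hr.union_le ((E.erase f) \ X') C
    -- the marginal of `f` over `X ∪ C ∪ B1`
    have hCX' : C ⊆ X' := fun x hx => (Finset.mem_sdiff.1 (hC hx)).1
    have e1 : X ∪ C ∪ (E.erase f) \ X' ∪ {f} = X ∪ C ∪ E \ X' := by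
      rw [Finset.union_assoc (X ∪ C), sdiff_erase hf hfX']
    have s1 : X ∪ C ∪ (E.erase f) \ X' ⊆ E.erase f := by
      refine Finset.union_subset (Finset.union_subset ?_ ?_) Finset.sdiff_subset
      · exact sub_erase (hXX.trans hXE) (fun h => hfX' (hXX h))
      · exact sub_erase (hCX'.trans hXE) (fun h => hfX' (hCX' h))
    have m1 := hr.marg (Z := {f}) s1
    rw [erase_union hf, e1] at m1
    have m2 := hr.marg (X := (E.erase f) \ X') (Y := X ∪ C ∪ (E.erase f) \ X') (Z := {f})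
      Finset.subset_union_right
    rw [e1, sdiff_erase hf hfX'] at m2
    have m3 : r (X ∪ C ∪ (E.erase f) \ X') ≤ r (X ∪ C ∪ E \ X') :=
      hr.mono _ _ (Finset.union_subset_union_right hB)
    -- the marginal of `X`
    have s2 : C ∪ (E.erase f) \ X' ⊆ (E.erase f) \ X := by
      refine Finset.union_subset ?_ (Finset.sdiff_subset_sdiff (Finset.Subset.refl _) hXX)
      intro x hx
      have h1 := Finset.mem_sdiff.1 (hC hx)
      exact Finset.mem_sdiff.2 ⟨sub_erase hXE hfX' h1.1, h1.2⟩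
    have m4 := hr.marg (Z := X) s2
    have e2 : (E.erase f) \ X ∪ X = E.erase f :=
      Finset.sdiff_union_of_subset (sub_erase (hXX.trans hXE) (fun h => hfX' (hXX h)))
    have e3 : C ∪ (E.erase f) \ X' ∪ X = X ∪ C ∪ (E.erase f) \ X' := by
      rw [Finset.union_comm _ X, Finset.union_assoc X]
    rw [e2, e3] at m4
    have e4 : C ∪ (E.erase f) \ X' = (E.erase f) \ X' ∪ C := Finset.union_comm _ _
    rw [e4] at m4
    refine ⟨l1, ?_, ?_⟩
    · omega
    · omega

/-- contraction -/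
theorem transfer_con {r : Finset ℕ → ℕ} (hr : RkFn r) {E : Finset ℕ} {A : ℕ → Finset ℕ}
    {n k f : ℕ} (hc : LChain r E A (2 * n) k) (hf : f ∈ E) (hfA : ∀ i, i < 2 * n → f ∉ A i) :
    ∃ s k2, s + n ≤ 2 * n ∧ k2 ≤ k ∧
      LChain (contr r {f}) (E.erase f) (fun i => A (s + i)) n k2 ∧
      ∀ i j, i < j → j < n → ∀ C ⊆ A (s + j) \ A (s + i), Lk r (A (s + i)) C (E \ A (s + j)) k →
        Lk (contr r {f}) (A (s + i)) C ((E.erase f) \ A (s + j)) k2 := by
  rcases Nat.eq_zero_or_pos n with hn | hn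
  · subst hn
    refine ⟨0, 0, le_rfl, Nat.zero_le _, ⟨?_, ?_, ?_, ?_⟩, ?_⟩
    · intro i hi; exact absurd hi (Nat.not_lt_zero _)
    · intro i j _ hj; exact absurd hj (Nat.not_lt_zero _)
    · intro i hi; exact absurd hi (Nat.not_lt_zero _)
    · intro i j _ hj; exact absurd hj (Nat.not_lt_zero _)
    · intro i j _ hj; exact absurd hj (Nat.not_lt_zero _)
  have hr' : RkFn (contr r {f}) := hr.contr {f}
  have hcon : ∀ Y : Finset ℕ, contr r {f} Y + r {f} = r (Y ∪ {f}) := by
    intro Y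
    have h1 := hr.mono {f} (Y ∪ {f}) Finset.subset_union_right
    show r (Y ∪ {f}) - r {f} + r {f} = r (Y ∪ {f})
    omega
  have hmarg : ∀ Y Y' : Finset ℕ, Y ⊆ Y' →
      r (Y' ∪ {f}) + r Y ≤ r (Y ∪ {f}) + r Y' := fun Y Y' h => hr.marg h
  have hf1 : r {f} ≤ 1 := by
    have h1 := hr.le_card {f}
    rwa [Finset.card_singleton] at h1
  have hc0 : ∀ Y : Finset ℕ, r (Y ∪ {f}) ≤ r Y + r {f} := by
    intro Y
    have h1 := hr.sub Y {f}
    omega
  have hc1 : ∀ Y : Finset ℕ, r Y ≤ r (Y ∪ {f}) := fun Y => hr.mono _ _ Finset.subset_union_left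
  have hlam : ∀ Y : Finset ℕ, Y ⊆ E → f ∉ Y →
      lam (contr r {f}) (E.erase f) Y + r {f} + r Y = lam r E Y + r (Y ∪ {f}) := by
    intro Y hY hfY
    have h1 := lam_eq hr hY
    have h2 := lam_eq hr' (sub_erase hY hfY)
    have h3 := hcon (E.erase f)
    have h4 := hcon Y
    have h5 := hcon ((E.erase f) \ Y)
    rw [erase_union hf] at h3
    rw [sdiff_erase hf hfY] at h5
    omega
  obtain ⟨s, hs, hw⟩ := half n (fun i => r (A i ∪ {f}) + 1 = r (A i) + r {f}) (by
    intro i j hij hj h1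
    have h2 := hmarg _ _ (hc.mono i j hij hj)
    have h3 := hc0 (A j)
    have h4 := hc1 (A j)
    show r (A j ∪ {f}) + 1 = r (A j) + r {f}
    change r (A i ∪ {f}) + 1 = r (A i) + r {f} at h1
    have h5 := hc1 (A i)
    omega)
  obtain ⟨c, hc2, hcw⟩ : ∃ c, c ≤ 1 ∧ ∀ i, i < n →
      r (A (s + i) ∪ {f}) + c = r (A (s + i)) + r {f} := by
    rcases hw with hw | hw
    · exact ⟨1, le_rfl, fun i hi => hw i hi⟩
    · refine ⟨0, Nat.zero_le _, fun i hi => ?_⟩
      have h1 := hw i hi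
      have h2 := hc0 (A (s + i))
      have h3 := hc1 (A (s + i))
      change ¬ r (A (s + i) ∪ {f}) + 1 = r (A (s + i)) + r {f} at h1
      omega
  have hbet : ∀ i j, i ≤ j → j < n → ∀ Y, A (s + i) ⊆ Y → Y ⊆ A (s + j) →
      r (Y ∪ {f}) + c = r Y + r {f} := by
    intro i j hij hj Y h1 h2
    have h3 := hmarg _ _ h1
    have h4 := hmarg _ _ h2
    have h5 := hcw i (by omega)
    have h6 := hcw j hj
    omega
  have hs0 : ∀ i, i < n → A (s + i) ⊆ E := fun i hi => hc.sub _ (by omega)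
  have hfs : ∀ i, i < n → f ∉ A (s + i) := fun i hi => hfA _ (by omega)
  refine ⟨s, k - c, hs, by omega, ⟨fun i hi => ?_, fun i j hij hj => ?_,
    fun i hi => ?_, fun i j hij hj Y h1 h2 => ?_⟩, fun i j hij hj C hC hL => ?_⟩
  · exact sub_erase (hs0 i hi) (hfs i hi)
  · exact hc.mono _ _ (by omega) (by omega)
  · have h1 := hlam _ (hs0 i hi) (hfs i hi)
    have h2 := hc.eq (s + i) (by omega)
    have h3 := hcw i hi
    show lam (contr r {f}) (E.erase f) (A (s + i)) = _
    omega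
  · have hYE : Y ⊆ E := h2.trans (hs0 j hj)
    have hfY : f ∉ Y := fun h => hfs j hj (h2 h)
    have h3 := hlam Y hYE hfY
    have h4 := hc.low (s + i) (s + j) (by omega) (by omega) Y h1 h2
    have h5 := hbet i j hij hj Y h1 h2
    omega
  · obtain ⟨l1, l2, l3⟩ := hL
    have hi : i < n := by omega
    have hCX' : C ⊆ A (s + j) := fun x hx => (Finset.mem_sdiff.1 (hC hx)).1
    have hXX : A (s + i) ⊆ A (s + j) := hc.mono _ _ (by omega) (by omega)
    have hl := hlam _ (hs0 i hi) (hfs i hi)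
    have hk := hc.eq (s + i) (by omega)
    have w1 := hcw i hi
    have w2 := hbet i j (by omega) hj (A (s + i) ∪ C) Finset.subset_union_left
      (Finset.union_subset hXX hCX')
    have c1 := hcon (A (s + i))
    have c2 := hcon (A (s + i) ∪ C)
    have c3 := hcon ((E.erase f) \ A (s + j))
    have c4 := hcon ((E.erase f) \ A (s + j) ∪ C)
    have c5 := hcon (A (s + i) ∪ C ∪ (E.erase f) \ A (s + j))
    have e1 : A (s + i) ∪ C ∪ (E.erase f) \ A (s + j) ∪ {f} = A (s + i) ∪ C ∪ E \ A (s + j) := by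
      rw [Finset.union_assoc (A (s + i) ∪ C), sdiff_erase hf (hfs j hj)]
    have e2 : (E.erase f) \ A (s + j) ∪ C ∪ {f} = E \ A (s + j) ∪ C := by
      rw [Finset.union_right_comm, sdiff_erase hf (hfs j hj)]
    rw [sdiff_erase hf (hfs j hj)] at c3
    rw [e2] at c4
    rw [e1] at c5
    refine ⟨?_, ?_, ?_⟩
    · omega
    · omega
    · omega

/-- subsequences of linked chains are linked chains -/
theorem LChain.comp {r : Finset ℕ → ℕ} {E : Finset ℕ} {A : ℕ → Finset ℕ} {n m k : ℕ}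
    (hc : LChain r E A n k) {s : ℕ → ℕ} (hs : StrictMono s) (hm : ∀ a, a < m → s a < n) :
    LChain r E (fun a => A (s a)) m k :=
  ⟨fun i hi => hc.sub _ (hm i hi), fun i j hij hj => hc.mono _ _ (hs.monotone hij) (hm j hj),
    fun i hi => hc.eq _ (hm i hi),
    fun i j hij hj Y h1 h2 => hc.low _ _ (hs.monotone hij) (hm j hj) Y h1 h2⟩

end Pool.Agent.Helper28.BW
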