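import Pool.Agent.Helper28.BW.Skew
import Pool.Agent.Helper28.BW.Count

/-!
# BW-18: the transient lemma

Hypotheses `TrH G r E A0 A A1` and `Good G E A`. Write `B = E \ A`, `S = bd G E A`,
`SK = SL G E (E \ A1) (E \ A)`, `SL = SL G E A0 A`, `bK = bal (img G B) SK`, `bL = bal (img G A) SL`.
(1) `trK_ineq` and the same inequality for `TrH.symm` (note `E \ (E \ A1) = A1` etc.):
 `|SK| ≤ bK + bL` and `|SL| ≤ bL + bK`.
(2) Every balanced `B`-component meeting `SK` contains at least two vertices of `S` (`m2r`), and all vertices of `S` in a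
`B`-component meeting `SK` are in `SK` (same component). So `2 * bK ≤ |SK|`, with equality only if all components of
vertices of `SK` are balanced and contain exactly two vertices of `S`. Similarly `2 * bL ≤ |SL|`.
(3) So `2 * bK ≤ bK + bL` and `2 * bL ≤ bK + bL`: `bK = bL` and equality everywhere: every `u ∈ SK` satisfies
`Two (img G B) S u w` for some `w`, every `u ∈ SL` satisfies `Two (img G A) S u w` for some `w`.
(4) Suppose `x ∈ SK`, `Two (img G B) S x y`. Let `K` be the set of edges of `B` with tail in the `B`-component of `x`, `K ⊆ trK`.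
 By `trK_skew` and submodularity `K` is skew to every subset of `A`: `rk G (F ∪ K) = rk G F + rk G K` for `F ⊆ A`
 (marginals: `r (F ∪ K) - r F ≥ r (A ∪ K) - r A = r K` where `r (A ∪ K) = r A + r K` in turn from `r (A ∪ trK)`).
 (a) If `x ∈ SL`: `Two (img G A) S x z` for some `z`; by `m1` (with `y := x`, `x := y`) `y = z`; by `m2` `x` is balanced in
 `E`. Let `F` be the edges of `A` with tail in the `A`-component of `x`; `vs G F ∩ vs G K = {x, y}`;
 `two_sided_rk` for `F`, `K`, `{x, y}`: `rk F + rk K + 1 + 1 = rk (F ∪ K) + 2 + bal (F ∪ K) {x, y}`, so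
 `bal (F ∪ K) {x, y} = 0`: `x` is unbalanced in `F ∪ K ⊆ E`. Contradiction.
 (b) If `x ∉ SL`: also `y ∉ SL` (else `Two (img G A) S y z'`, by `m1` at `y` `z' = x`, then `x` is in the `A`-component
 of `y` and `x ∈ SL`). So both are persistent: `Mt G A0 A x`, `Mt G A0 A y`. They are joined in
 `K ⊆ A1`, so by `nm` they are joined in `A`. Let `F` be the edges of `A` with tail in the `A`-component of `x`.
 `vs G F ∩ vs G K = {x, y}` and `two_sided_rk`: `rk F + rk K + bal F {x,y} + 1 = rk (F ∪ K) + 2 + bal (F ∪ K) {x,y}`, so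
 `bal F {x, y} = 1 + bal (F ∪ K) {x, y}`. `bal F {x,y} ≤ 1` (one component), so `x` is balanced in `A` and
 `bal (F ∪ K) {x,y} = 0`, so `x` is unbalanced in `F ∪ K ⊆ A1`. This contradicts the second part of `nm`.
 Hence `SK = ∅`, so `bK = 0 = bL` and `|SL| ≤ 0`, `SL = ∅`.
-/

set_option autoImplicit false

namespace Pool.Agent.Helper28.BW

variable {H : Type} [Group H]

/-- the property of meeting `V(A0)` only depends on the component -/
private theorem Mt_con {G : GG H} {A0 A : Finset ℕ} {u v : ℕ} (h : Con (img G A) u v)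
    (hm : Mt G A0 A v) : Mt G A0 A u := by
  obtain ⟨a, ha, hc⟩ := hm
  exact ⟨a, ha, h.trans hc⟩

/-- balanced components meeting a connected pair -/
private theorem bal_pair {T : Set (Tri H)} {x y : ℕ} (h : Con T x y) :
    (Unb T x → bal T {x, y} = 0) ∧ (¬ Unb T x → bal T {x, y} = 1) := by
  constructor
  · intro hx
    have e : balC T {x, y} = ∅ := by
      rw [Set.eq_empty_iff_forall_notMem]
      rintro c ⟨u, hu, hb, _⟩
      rcases hu with rfl | hu
      · exact hb hx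
      · rw [Set.mem_singleton_iff] at hu
        subst hu
        exact hb (hx.of_con h)
    rw [bal, e, Set.ncard_empty]
  · intro hx
    have e : balC T {x, y} = {cls T x} := by
      ext c
      constructor
      · rintro ⟨u, hu, hb, rfl⟩
        rcases hu with rfl | hu
        · rfl
        · rw [Set.mem_singleton_iff] at hu
          subst hu
          exact cls_eq_iff.2 h.symm
      · rintro rfl
        exact ⟨x, Or.inl rfl, hx, rfl⟩
    rw [bal, e, Set.ncard_singleton]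

/-- walks in a component only use its edges -/
private theorem comp_walk {G : GG H} {B K : Finset ℕ} {x : ℕ}
    (hK : ∀ e, e ∈ K ↔ e ∈ B ∧ Con (img G B) x (G e).1) {v : ℕ} {g : H}
    (h : W (img G B) x v g) : W (img G K) x v g := by
  refine (W_closed (C := cls (img G B) x) (T := img G B) (mem_cls_self _ x) ?_ h).2
  rintro t ⟨e, he, rfl⟩ ht
  have h1 : Con (img G B) (G e).1 (G e).2.1 := ⟨(G e).2.2, W.edge ⟨e, he, rfl⟩⟩
  have h2 : Con (img G B) x (G e).1 := by
    rcases ht with ht | ht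
    · exact ht
    · exact Con.trans ht h1.symm
  exact ⟨h2, h2.trans h1, ⟨e, Finset.mem_coe.2 ((hK e).2 ⟨Finset.mem_coe.1 he, h2⟩), rfl⟩⟩

/-- a set `K` of edges of `E \ A` inside `trK` is skew to every subset of `A` -/
theorem trK_skew_sub {G : GG H} {r : Finset ℕ → ℕ} {E A0 A A1 : Finset ℕ}
    (h : TrH G r E A0 A A1) {K F : Finset ℕ} (hK : K ⊆ trK G E A A1) (hF : F ⊆ A) :
    rk G (F ∪ K) = rk G F + rk G K := by
  have hr := rk_rkFn G
  have h0 := trK_skew h
  have h1 := hr.marg (Z := A) hK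
  have h2 := hr.marg (Z := K) hF
  have h3 := hr.sub F K
  rw [Finset.union_comm (trK G E A A1) A, Finset.union_comm K A] at h1
  omega

private theorem ineqs {G : GG H} {r : Finset ℕ → ℕ} {E A0 A A1 : Finset ℕ}
    (h : TrH G r E A0 A A1) (hg : Good G E A) :
    ((SL G E (E \ A1) (E \ A)).ncard ≤
      bal (img G (E \ A)) (SL G E (E \ A1) (E \ A)) + bal (img G A) (SL G E A0 A)) ∧
    ((SL G E A0 A).ncard ≤
      bal (img G (E \ A)) (SL G E (E \ A1) (E \ A)) + bal (img G A) (SL G E A0 A)) ∧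
    (6 * bal (img G (E \ A)) (SL G E (E \ A1) (E \ A)) +
      {u | u ∈ SL G E (E \ A1) (E \ A) ∧ (Unb (img G (E \ A)) u ∨
        3 ≤ (cls (img G (E \ A)) u ∩ SL G E (E \ A1) (E \ A)).ncard)}.ncard ≤
      3 * (SL G E (E \ A1) (E \ A)).ncard) ∧
    (6 * bal (img G A) (SL G E A0 A) +
      {u | u ∈ SL G E A0 A ∧ (Unb (img G A) u ∨
        3 ≤ (cls (img G A) u ∩ SL G E A0 A).ncard)}.ncard ≤
      3 * (SL G E A0 A).ncard) := by
  have hAE : A ⊆ E := h.h1.trans h.hE
  have hA0E : A0 ⊆ E := h.h0.trans hAE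
  have hbd : bd G E (E \ A) = bd G E A := bd_compl G hAE
  have h1 := trK_ineq h
  have h2 := trK_ineq h.symm
  rw [Finset.sdiff_sdiff_eq_self hAE, Finset.sdiff_sdiff_eq_self hA0E] at h2
  refine ⟨h1, by omega, ?_, ?_⟩
  · apply cnt
    · exact (bd_finite G E (E \ A)).subset (fun u hu => hu.1)
    · intro u hu hb
      obtain ⟨w, hw, hne, hc⟩ := hg.m2r u (hbd ▸ hu.1) hb
      refine ⟨w, ⟨hbd.symm ▸ hw, fun hm => hu.2 (Mt_con hc hm)⟩, hne, hc⟩
  · apply cnt
    · exact (bd_finite G E A).subset (fun u hu => hu.1)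
    · intro u hu hb
      obtain ⟨w, hw, hne, hc⟩ := hg.m2l u hu.1 hb
      exact ⟨w, ⟨hw, fun hm => hu.2 (Mt_con hc hm)⟩, hne, hc⟩

private theorem two_of {T : Set (Tri H)} {S S' : Set ℕ} (hS' : S'.Finite) (hsub : S' ⊆ S)
    (hcl : ∀ u ∈ S', ∀ w ∈ S, Con T u w → w ∈ S')
    (h2 : ∀ u ∈ S', ¬ Unb T u → ∃ w ∈ S', w ≠ u ∧ Con T u w)
    (h0 : {u | u ∈ S' ∧ (Unb T u ∨ 3 ≤ (cls T u ∩ S').ncard)}.ncard = 0) :
    ∀ u ∈ S', ∃ w, Two T S u w := by
  intro u hu
  have hfin : {u | u ∈ S' ∧ (Unb T u ∨ 3 ≤ (cls T u ∩ S').ncard)}.Finite :=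
    hS'.subset (fun u hu => hu.1)
  rw [Set.ncard_eq_zero hfin] at h0
  have h1 : ¬ (Unb T u ∨ 3 ≤ (cls T u ∩ S').ncard) := by
    intro hn
    have : u ∈ {u | u ∈ S' ∧ (Unb T u ∨ 3 ≤ (cls T u ∩ S').ncard)} := ⟨hu, hn⟩
    rw [h0] at this
    exact this
  rw [not_or, not_le] at h1
  obtain ⟨w, hw, hne, hc⟩ := h2 u hu h1.1
  refine ⟨w, hsub hu, hsub hw, hne.symm, h1.1, hc, ?_⟩
  intro z hz hcz
  by_contra hcon
  rw [not_or] at hcon
  have hz' := hcl u hu z hz hcz
  have h3 : ({u, w, z} : Set ℕ).ncard = 3 := by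
    rw [Set.ncard_eq_three]
    exact ⟨u, w, z, hne.symm, Ne.symm hcon.1, Ne.symm hcon.2, rfl⟩
  have h4 : ({u, w, z} : Set ℕ) ⊆ cls T u ∩ S' := by
    rintro a (rfl | rfl | rfl)
    · exact ⟨Con.refl _ _, hu⟩
    · exact ⟨hc, hw⟩
    · exact ⟨hcz, hz'⟩
  have h5 := Set.ncard_le_ncard h4 (hS'.subset Set.inter_subset_right)
  omega

/-- steps (1)-(3) -/
theorem transient_two {G : GG H} {r : Finset ℕ → ℕ} {E A0 A A1 : Finset ℕ}
    (h : TrH G r E A0 A A1) (hg : Good G E A) :
    (∀ u ∈ SL G E (E \ A1) (E \ A), ∃ w, Two (img G (E \ A)) (bd G E A) u w) ∧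
      (∀ u ∈ SL G E A0 A, ∃ w, Two (img G A) (bd G E A) u w) := by
  have hAE : A ⊆ E := h.h1.trans h.hE
  have hbd : bd G E (E \ A) = bd G E A := bd_compl G hAE
  obtain ⟨i1, i2, i3, i4⟩ := ineqs h hg
  constructor
  · apply two_of
    · exact (bd_finite G E (E \ A)).subset (fun u hu => hu.1)
    · intro u hu
      exact hbd ▸ hu.1
    · intro u hu w hw hc
      exact ⟨hbd.symm ▸ hw, fun hm => hu.2 (Mt_con hc hm)⟩
    · intro u hu hb
      obtain ⟨w, hw, hne, hc⟩ := hg.m2r u (hbd ▸ hu.1) hb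
      refine ⟨w, ⟨hbd.symm ▸ hw, fun hm => hu.2 (Mt_con hc hm)⟩, hne, hc⟩
    · omega
  · apply two_of
    · exact (bd_finite G E A).subset (fun u hu => hu.1)
    · intro u hu
      exact hu.1
    · intro u hu w hw hc
      exact ⟨hw, fun hm => hu.2 (Mt_con hc hm)⟩
    · intro u hu hb
      obtain ⟨w, hw, hne, hc⟩ := hg.m2l u hu.1 hb
      exact ⟨w, ⟨hw, fun hm => hu.2 (Mt_con hc hm)⟩, hne, hc⟩
    · omega

private theorem Two.symm' {T : Set (Tri H)} {S : Set ℕ} {u w : ℕ} (h : Two T S u w) :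
    Two T S w u := by
  obtain ⟨h1, h2, h3, h4, h5, h6⟩ := h
  exact ⟨h2, h1, h3.symm, fun hb => h4 (hb.of_con h5.symm), h5.symm,
    fun x hx hc => (h6 x hx (h5.trans hc)).symm⟩

/-- step (4) -/
theorem transient_SK {G : GG H} {r : Finset ℕ → ℕ} {E A0 A A1 : Finset ℕ}
    (h : TrH G r E A0 A A1) (hg : Good G E A) : SL G E (E \ A1) (E \ A) = ∅ := by
  classical
  have hAE : A ⊆ E := h.h1.trans h.hE
  have hbd : bd G E (E \ A) = bd G E A := bd_compl G hAE
  obtain ⟨t1, t2⟩ := transient_two h hg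
  rw [Set.eq_empty_iff_forall_notMem]
  intro x hx
  obtain ⟨y, hxy⟩ := t1 x hx
  have hxS : x ∈ bd G E A := hxy.1
  have hyS : y ∈ bd G E A := hxy.2.1
  have hne : x ≠ y := hxy.2.2.1
  have hbB : ¬ Unb (img G (E \ A)) x := hxy.2.2.2.1
  have hcB : Con (img G (E \ A)) x y := hxy.2.2.2.2.1
  have hex := hxy.2.2.2.2.2
  -- the two edge sets
  set K : Finset ℕ := (E \ A).filter (fun e => Con (img G (E \ A)) x (G e).1) with hKdef
  set F : Finset ℕ := A.filter (fun e => Con (img G A) x (G e).1) with hFdef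
  have hK : ∀ e, e ∈ K ↔ e ∈ E \ A ∧ Con (img G (E \ A)) x (G e).1 := fun e => Finset.mem_filter
  have hF : ∀ e, e ∈ F ↔ e ∈ A ∧ Con (img G A) x (G e).1 := fun e => Finset.mem_filter
  have hKtr : K ⊆ trK G E A A1 := by
    intro e he
    rw [hK] at he
    unfold trK
    rw [Finset.mem_filter]
    exact ⟨he.1, x, hx, he.2⟩
  have hKA1 : K ⊆ A1 := fun e he => (Finset.mem_sdiff.1 (trK_sub h (hKtr he))).1
  have hKB : K ⊆ E \ A := Finset.filter_subset _ _
  have hFA : F ⊆ A := Finset.filter_subset _ _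
  have hsk := trK_skew_sub h hKtr hFA
  have hvs : vs G F ∩ vs G K ⊆ ({x, y} : Set ℕ) := by
    rintro v ⟨hv1, hv2⟩
    have hvS : v ∈ bd G E A := ⟨vs_mono G hFA hv1, vs_mono G hKB hv2⟩
    have hcv : Con (img G (E \ A)) x v := by
      obtain ⟨t, ⟨e, he, rfl⟩, ht⟩ := hv2
      have he' := (hK e).1 (Finset.mem_coe.1 he)
      rcases ht with ht | ht
      · rw [ht]
        exact he'.2
      · rw [ht]
        exact he'.2.trans ⟨(G e).2.2, W.edge ⟨e, Finset.mem_coe.2 he'.1, rfl⟩⟩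
    exact hex v hvS hcv
  have hts := two_sided_rk G F K (S := ({x, y} : Set ℕ)) (by simp) hvs
  have hcK : Con (img G K) x y := by
    obtain ⟨g, hg'⟩ := hcB
    exact ⟨g, comp_walk hK hg'⟩
  have hbK : ¬ Unb (img G K) x := fun hb => hbB (hb.mono (img_mono G hKB))
  have hbalK := (bal_pair hcK).2 hbK
  -- `x` and `y` are joined in `A`
  have hcase : (x ∈ SL G E A0 A ∧ Two (img G A) (bd G E A) x y) ∨ Mt G A0 A x := by
    by_cases hm : Mt G A0 A x
    · exact Or.inr hm
    · left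
      have hxL : x ∈ SL G E A0 A := ⟨hxS, hm⟩
      obtain ⟨z, hz⟩ := t2 x hxL
      have := hg.m1 y x z hz hxy
      rw [← this] at hz
      exact ⟨hxL, hz⟩
  have hcA : Con (img G A) x y := by
    rcases hcase with hc | hc
    · exact hc.2.2.2.2.2.1
    · have hmy : Mt G A0 A y := by
        by_contra hmy
        obtain ⟨z, hz⟩ := t2 y ⟨hyS, hmy⟩
        have := hg.m1 x y z hz hxy.symm'
        rw [← this] at hz
        have hcyx : Con (img G A) y x := hz.2.2.2.2.1
        exact hmy (Mt_con hcyx hc)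
      exact h.nm.1 x hxS y hyS hc hmy (hcK.mono (img_mono G hKA1))
  have hcF : Con (img G F) x y := by
    obtain ⟨g, hg'⟩ := hcA
    exact ⟨g, comp_walk hF hg'⟩
  have hcFK : Con (img G (F ∪ K)) x y := hcF.mono (img_mono G Finset.subset_union_left)
  have hpair : ({x, y} : Set ℕ).ncard = 2 := Set.ncard_pair hne
  rw [hpair, hbalK, hsk] at hts
  have hbF : ¬ Unb (img G F) x := by
    intro hb
    have := (bal_pair hcF).1 hb
    omega
  have hbalF := (bal_pair hcF).2 hbF
  have hUFK : Unb (img G (F ∪ K)) x := by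
    by_contra hb
    have := (bal_pair hcFK).2 hb
    omega
  rcases hcase with hc | hc
  · refine hg.m2 y x hc.2 hxy (hUFK.mono (img_mono G ?_))
    exact Finset.union_subset (hFA.trans hAE) (hKB.trans Finset.sdiff_subset)
  · have hA1 : Unb (img G A1) x :=
      hUFK.mono (img_mono G (Finset.union_subset (hFA.trans h.h1) hKA1))
    obtain ⟨g, hg1, hg2⟩ := h.nm.2 x hxS hc hA1
    exact hbF ⟨g, hg1, comp_walk hF hg2⟩

theorem transient_SL {G : GG H} {r : Finset ℕ → ℕ} {E A0 A A1 : Finset ℕ}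
    (h : TrH G r E A0 A A1) (hg : Good G E A) : SL G E A0 A = ∅ := by
  obtain ⟨i1, i2, i3, i4⟩ := ineqs h hg
  have hfin : (SL G E A0 A).Finite := (bd_finite G E A).subset (fun u hu => hu.1)
  rw [transient_SK h hg, Set.ncard_empty] at i3
  rw [transient_SK h hg] at i2
  rw [← Set.ncard_eq_zero hfin]
  omega

end Pool.Agent.Helper28.BW
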