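import Mathlib

/-!
# BW-40: rooted binary trees of finite sets

`BT`: rooted binary trees with leaves labelled by finite sets. `set t` is the union of the leaf sets; `Ok`: leaf sets have at most one
element and the two children of a node have disjoint sets. `inter Y`, `diff Y` intersect all leaf sets with `Y` resp. remove `Y`.
`Sub t x`: `t` is a subtree of `x`. `Wid l w x`: all subtrees `t` of `x` have `l t.set ≤ w`. `cN l m x`: number of subtrees with
`m ≤ l`. `cE l m x`: number of parent-child pairs with `m ≤ l` for both. `cS Y x`: number of subtrees `t` split by `Y` (both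
`t.set ∩ Y` and `t.set \ Y` nonempty). A list `L` of siblings (top-most first) describes a path: `wrap L z`. `owr Y I L`: the same tree with
`z` replaced by `I` and every sibling `s` replaced by `s.diff Y`.
All lemmas of this file are direct inductions.
-/

set_option autoImplicit false

namespace Pool.Agent.Helper28.BW

/-- rooted binary trees with finite sets at the leaves -/
inductive BT : Type
  | leaf (s : Finset ℕ) : BT
  | node (a b : BT) : BT

namespace BT

/-- the union of the leaf sets -/
def set : BT → Finset ℕ
  | leaf s => s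
  | node a b => a.set ∪ b.set

/-- leaf sets have at most one element, children are disjoint -/
def Ok : BT → Prop
  | leaf s => s.card ≤ 1
  | node a b => a.Ok ∧ b.Ok ∧ Disjoint a.set b.set

/-- intersect all leaf sets with `Y` -/
def inter (Y : Finset ℕ) : BT → BT
  | leaf s => leaf (s ∩ Y)
  | node a b => node (a.inter Y) (b.inter Y)

/-- remove `Y` from all leaf sets -/
def diff (Y : Finset ℕ) : BT → BT
  | leaf s => leaf (s \ Y)
  | node a b => node (a.diff Y) (b.diff Y)

/-- `Sub t x`: `t` is a subtree of `x` -/
inductive Sub : BT → BT → Prop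
  | refl (x : BT) : Sub x x
  | left {t a b : BT} : Sub t a → Sub t (node a b)
  | right {t a b : BT} : Sub t b → Sub t (node a b)

/-- all subtrees have width at most `w` -/
def Wid (l : Finset ℕ → ℕ) (w : ℕ) (x : BT) : Prop := ∀ t, Sub t x → l t.set ≤ w

/-- number of subtrees of width at least `m` -/
def cN (l : Finset ℕ → ℕ) (m : ℕ) : BT → ℕ
  | leaf s => if m ≤ l s then 1 else 0
  | node a b => cN l m a + cN l m b + if m ≤ l (a.set ∪ b.set) then 1 else 0

/-- number of parent-child pairs, both of width at least `m` -/
def cE (l : Finset ℕ → ℕ) (m : ℕ) : BT → ℕ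
  | leaf _ => 0
  | node a b => cE l m a + cE l m b +
      (if m ≤ l (a.set ∪ b.set) ∧ m ≤ l a.set then 1 else 0) +
      (if m ≤ l (a.set ∪ b.set) ∧ m ≤ l b.set then 1 else 0)

/-- `t` is split by `Y` -/
def Split (Y : Finset ℕ) (t : BT) : Prop := (t.set ∩ Y).Nonempty ∧ (t.set \ Y).Nonempty

open Classical in
/-- number of subtrees split by `Y` -/
noncomputable def cS (Y : Finset ℕ) : BT → ℕ
  | leaf s => if Split Y (leaf s) then 1 else 0
  | node a b => cS Y a + cS Y b + if Split Y (node a b) then 1 else 0

/-- the tree with path `L` (siblings, top-most first) down to `z` -/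
def wrap : List (Bool × BT) → BT → BT
  | [], z => z
  | (true, s) :: L, z => node (wrap L z) s
  | (false, s) :: L, z => node s (wrap L z)

/-- all trees on the path have width at least `m` -/
def PW (l : Finset ℕ → ℕ) (m : ℕ) : List (Bool × BT) → BT → Prop
  | [], z => m ≤ l z.set
  | c :: L, z => m ≤ l (wrap (c :: L) z).set ∧ PW l m L z

/-- the outer tree -/
def owr (Y : Finset ℕ) (I : BT) : List (Bool × BT) → BT
  | [] => I
  | (true, s) :: L => node (owr Y I L) (s.diff Y)
  | (false, s) :: L => node (s.diff Y) (owr Y I L)

/-- number of subtrees of siblings on the path split by `Y` -/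
noncomputable def pS (Y : Finset ℕ) : List (Bool × BT) → ℕ
  | [] => 0
  | (_, s) :: L => cS Y s + pS Y L

theorem Sub.trans {t x y : BT} (h1 : Sub t x) (h2 : Sub x y) : Sub t y := by
  induction h2 with
  | refl => exact h1
  | left _ ih => exact Sub.left ih
  | right _ ih => exact Sub.right ih

theorem Sub.set_subset {t x : BT} (h : Sub t x) : t.set ⊆ x.set := by
  induction h with
  | refl => exact Finset.Subset.refl _
  | left _ ih => exact ih.trans Finset.subset_union_left
  | right _ ih => exact ih.trans Finset.subset_union_right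

theorem Sub.ok {t x : BT} (h : Sub t x) (hx : x.Ok) : t.Ok := by
  induction h with
  | refl => exact hx
  | left _ ih => exact ih hx.1
  | right _ ih => exact ih hx.2.1

/-- two subtrees of an `Ok` tree have nested or disjoint sets -/
theorem Sub.laminar {t t' x : BT} (h : Sub t x) (h' : Sub t' x) (hx : x.Ok) :
    t.set ⊆ t'.set ∨ t'.set ⊆ t.set ∨ Disjoint t.set t'.set := by
  induction x with
  | leaf s =>
    cases h
    cases h'
    exact Or.inl (Finset.Subset.refl _)
  | node a b iha ihb =>
    cases h with
    | refl => exact Or.inr (Or.inl h'.set_subset)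
    | left h1 =>
      cases h' with
      | refl => exact Or.inl (h1.set_subset.trans Finset.subset_union_left)
      | left h2 => exact iha h1 h2 hx.1
      | right h2 => exact Or.inr (Or.inr (hx.2.2.mono h1.set_subset h2.set_subset))
    | right h1 =>
      cases h' with
      | refl => exact Or.inl (h1.set_subset.trans Finset.subset_union_right)
      | left h2 => exact Or.inr (Or.inr (hx.2.2.symm.mono h1.set_subset h2.set_subset))
      | right h2 => exact ihb h1 h2 hx.2.1

theorem set_inter (Y : Finset ℕ) (x : BT) : (x.inter Y).set = x.set ∩ Y := by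
  induction x with
  | leaf s => rfl
  | node a b iha ihb =>
    show (a.inter Y).set ∪ (b.inter Y).set = (a.set ∪ b.set) ∩ Y
    rw [iha, ihb, Finset.union_inter_distrib_right]

theorem set_diff (Y : Finset ℕ) (x : BT) : (x.diff Y).set = x.set \ Y := by
  induction x with
  | leaf s => rfl
  | node a b iha ihb =>
    show (a.diff Y).set ∪ (b.diff Y).set = (a.set ∪ b.set) \ Y
    rw [iha, ihb, Finset.union_sdiff_distrib]

theorem Ok.inter {x : BT} (h : x.Ok) (Y : Finset ℕ) : (x.inter Y).Ok := by
  induction x with
  | leaf s => exact (Finset.card_le_card Finset.inter_subset_left).trans h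
  | node a b iha ihb =>
    refine ⟨iha h.1, ihb h.2.1, ?_⟩
    rw [set_inter, set_inter]
    exact h.2.2.mono Finset.inter_subset_left Finset.inter_subset_left

theorem Ok.diff {x : BT} (h : x.Ok) (Y : Finset ℕ) : (x.diff Y).Ok := by
  induction x with
  | leaf s => exact (Finset.card_le_card Finset.sdiff_subset).trans h
  | node a b iha ihb =>
    refine ⟨iha h.1, ihb h.2.1, ?_⟩
    rw [set_diff, set_diff]
    exact h.2.2.mono Finset.sdiff_subset Finset.sdiff_subset

/-- subtrees of `x.inter Y` are the `t.inter Y` -/
theorem sub_inter {t x : BT} {Y : Finset ℕ} (h : Sub t (x.inter Y)) :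
    ∃ t', Sub t' x ∧ t = t'.inter Y := by
  induction x with
  | leaf s =>
    cases h
    exact ⟨leaf s, Sub.refl _, rfl⟩
  | node a b iha ihb =>
    cases h with
    | refl => exact ⟨node a b, Sub.refl _, rfl⟩
    | left h1 =>
      obtain ⟨t', h2, h3⟩ := iha h1
      exact ⟨t', Sub.left h2, h3⟩
    | right h1 =>
      obtain ⟨t', h2, h3⟩ := ihb h1
      exact ⟨t', Sub.right h2, h3⟩

theorem sub_diff {t x : BT} {Y : Finset ℕ} (h : Sub t (x.diff Y)) :
    ∃ t', Sub t' x ∧ t = t'.diff Y := by
  induction x with
  | leaf s =>
    cases h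
    exact ⟨leaf s, Sub.refl _, rfl⟩
  | node a b iha ihb =>
    cases h with
    | refl => exact ⟨node a b, Sub.refl _, rfl⟩
    | left h1 =>
      obtain ⟨t', h2, h3⟩ := iha h1
      exact ⟨t', Sub.left h2, h3⟩
    | right h1 =>
      obtain ⟨t', h2, h3⟩ := ihb h1
      exact ⟨t', Sub.right h2, h3⟩

theorem inter_eq_self {x : BT} {Y : Finset ℕ} (h : x.set ⊆ Y) : x.inter Y = x := by
  induction x with
  | leaf s =>
    have h' : s ⊆ Y := h
    show leaf (s ∩ Y) = leaf s
    rw [Finset.inter_eq_left.2 h']
  | node a b iha ihb =>
    show node (a.inter Y) (b.inter Y) = node a b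
    rw [iha (Finset.subset_union_left.trans h), ihb (Finset.subset_union_right.trans h)]

theorem sub_wrap (L : List (Bool × BT)) (z : BT) : Sub z (wrap L z) := by
  induction L with
  | nil => exact Sub.refl _
  | cons c L ih =>
    obtain ⟨c, s⟩ := c
    cases c with
    | true => exact Sub.left ih
    | false => exact Sub.right ih

theorem sub_wrap_sib {L : List (Bool × BT)} {z s : BT} {c : Bool} (h : (c, s) ∈ L) :
    Sub s (wrap L z) := by
  induction L with
  | nil => exact absurd h List.not_mem_nil
  | cons c' L ih =>
    obtain ⟨c', s'⟩ := c'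
    rcases List.mem_cons.1 h with h1 | h1
    · obtain ⟨rfl, rfl⟩ := Prod.mk.inj h1
      cases c with
      | true => exact Sub.right (Sub.refl _)
      | false => exact Sub.left (Sub.refl _)
    · cases c' with
      | true => exact Sub.left (ih h1)
      | false => exact Sub.right (ih h1)

/-- siblings on the path are disjoint from `z` -/
theorem wrap_sib_disjoint {L : List (Bool × BT)} {z s : BT} {c : Bool} (h : (c, s) ∈ L)
    (hok : (wrap L z).Ok) : Disjoint s.set z.set := by
  induction L with
  | nil => exact absurd h List.not_mem_nil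
  | cons c' L ih =>
    obtain ⟨c', s'⟩ := c'
    rcases List.mem_cons.1 h with h1 | h1
    · obtain ⟨rfl, rfl⟩ := Prod.mk.inj h1
      cases c with
      | true => exact hok.2.2.symm.mono_right (sub_wrap L z).set_subset
      | false => exact hok.2.2.mono_right (sub_wrap L z).set_subset
    · cases c' with
      | true => exact ih h1 hok.1
      | false => exact ih h1 hok.2.1

/-- the set of the outer tree, when the inner tree has set `Y ⊇ z.set` -/
theorem set_owr {Y : Finset ℕ} {I z : BT} (hI : I.set = Y) (hz : z.set ⊆ Y)
    (L : List (Bool × BT)) : (owr Y I L).set = (wrap L z).set ∪ Y := by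
  induction L with
  | nil =>
    show I.set = z.set ∪ Y
    rw [hI, Finset.union_eq_right.2 hz]
  | cons c L ih =>
    obtain ⟨c, s⟩ := c
    cases c with
    | true =>
      show (owr Y I L).set ∪ (s.diff Y).set = (wrap L z).set ∪ s.set ∪ Y
      rw [ih, set_diff]
      ext x
      simp only [Finset.mem_union, Finset.mem_sdiff]
      tauto
    | false =>
      show (s.diff Y).set ∪ (owr Y I L).set = s.set ∪ (wrap L z).set ∪ Y
      rw [ih, set_diff]
      ext x
      simp only [Finset.mem_union, Finset.mem_sdiff]
      tauto

theorem ok_owr {Y : Finset ℕ} {I z : BT} (hI : I.set = Y) (hIo : I.Ok) (hz : z.set ⊆ Y)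
    {L : List (Bool × BT)} (h : (wrap L z).Ok) : (owr Y I L).Ok := by
  have key : ∀ (L : List (Bool × BT)) (s : BT), Disjoint (wrap L z).set s.set →
      Disjoint (owr Y I L).set (s.diff Y).set := by
    intro L s hd
    rw [set_owr hI hz L, set_diff, Finset.disjoint_union_left]
    refine ⟨hd.mono_right Finset.sdiff_subset, ?_⟩
    exact Finset.disjoint_sdiff
  induction L with
  | nil => exact hIo
  | cons c L ih =>
    obtain ⟨c, s⟩ := c
    cases c with
    | true => exact ⟨ih h.1, h.2.1.diff Y, key L s h.2.2⟩
    | false => exact ⟨h.1.diff Y, ih h.2.1, (key L s h.2.2.symm).symm⟩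

end BT

end Pool.Agent.Helper28.BW
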