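import Pool.Agent.Helper28.BW.RkFn

/-!
# BW-27: Tutte's linking theorem (rank function form)

`tutte`. Let `r` be a rank function, `A ⊆ A' ⊆ E`, `lam r E A = lam r E A' = k` and `k ≤ lam r E Y` for all `A ⊆ Y ⊆ A'`. Then there
is `C ⊆ A' \ A` with `Lk r A C (E \ A') k`.
Proof. Step 1 (minimum connectivity is kept by a deletion or a contraction of a single element). For disjoint `X`, `Z` and a
ground set `E` let `κ(r, E, X, Z) ≥ k` mean `lam r E Y ≥ k` for all `Y` with `X ⊆ Y ⊆ E \ Z`. Claim: if `e ∈ E \ (X ∪ Z)` and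
`κ(r, E, X, Z) ≥ k` then `κ(r, E \ e, X, Z) ≥ k` or `κ(contr r {e}, E \ e, X, Z) ≥ k`. Otherwise there are `Y1`, `Y2 ∌ e` between with
`lam r (E \ e) Y1 < k` and `lam (contr r {e}) (E \ e) Y2 < k`. Now
 `lam r (E \ e) Y1 = r Y1 + r (E \ e \ Y1) - r (E \ e)` and
 `lam (contr r {e}) (E \ e) Y2 = r (Y2 ∪ e) + r (E \ Y2) - r E - r {e}`. By submodularity
 `r Y1 + r (Y2 ∪ e) ≥ r (Y1 ∩ Y2) + r (Y1 ∪ Y2 ∪ e)` and
 `r (E \ e \ Y1) + r (E \ Y2) ≥ r (E \ (Y1 ∪ Y2 ∪ e)) + r (E \ (Y1 ∩ Y2))`. The sum of the two small connectivities is therefore at least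
 `lam r E (Y1 ∩ Y2) + lam r E (Y1 ∪ Y2 ∪ e) + r E - r (E \ e) - r {e} ≥ 2 * k - 1`, but it is at most `2 * k - 2`.
Step 2. Induction on `|E \ (X ∪ Z)|` (rank functions `r`, `contr r {e}` are rank functions; `contr (contr r C) {e} = contr r (C ∪ e)`):
if `κ(r, E, X, Z) ≥ k` then there is `C ⊆ E \ (X ∪ Z)` with `lam (contr r C) (X ∪ Z) X ≥ k`. (Delete or contract one element
after the other; deleting does not change `r`.) With `Z = E \ A'`, `X = A`.
Step 3. We may take `C` independent: replace `C` by a maximal subset `C0` with `r C0 = |C0|`; then `r C0 = r C` and `r (Y ∪ C0) = r (Y ∪ C)`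
for all `Y`, so `contr r C0 = contr r C`.
Step 4. Now `r (A ∪ C) - |C| + r (B ∪ C) - |C| - r (A ∪ B ∪ C) + |C| ≥ k` with `B = E \ A'`. By submodularity (marginals decrease,
`B ∪ C ⊆ E \ A`): `r (A ∪ B ∪ C) - r (B ∪ C) ≥ r E - r (E \ A) = r A - k`. Hence `r (A ∪ C) - |C| ≥ k + r A - k`, so `r (A ∪ C) ≥ r A + |C|`,
so equality. In the same way `r (B ∪ C) = r B + |C|` (using `lam r E A' = k`). Then the first inequality says
`r (A ∪ C ∪ B) + k ≤ r A + |C| + r B`, and the marginal inequality gives `≥`.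
-/

set_option autoImplicit false

namespace Pool.Agent.Helper28.BW

private theorem tt_subadd {r : Finset ℕ → ℕ} (hr : RkFn r) (X Y : Finset ℕ) :
    r (X ∪ Y) ≤ r X + r Y := by
  have := hr.sub X Y
  omega

private theorem tt_marg {r : Finset ℕ → ℕ} (hr : RkFn r) {X Y Z : Finset ℕ} (h : X ⊆ Y) :
    r (Y ∪ Z) + r X ≤ r (X ∪ Z) + r Y := by
  have h1 := hr.sub (X ∪ Z) Y
  have h2 : X ∪ Z ∪ Y = Y ∪ Z := by
    ext x
    simp only [Finset.mem_union]
    constructor
    · rintro ((h3 | h3) | h3)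
      · exact Or.inl (h h3)
      · exact Or.inr h3
      · exact Or.inl h3
    · rintro (h3 | h3)
      · exact Or.inr h3
      · exact Or.inl (Or.inr h3)
  have h4 : r X ≤ r ((X ∪ Z) ∩ Y) := by
    apply hr.mono
    intro x hx
    exact Finset.mem_inter.2 ⟨Finset.mem_union_left _ hx, h hx⟩
  rw [h2] at h1
  omega

private theorem tt_basis {r : Finset ℕ → ℕ} (hr : RkFn r) (C : Finset ℕ) :
    ∃ C0, C0 ⊆ C ∧ r C0 = C0.card ∧ r C0 = r C := by
  induction C using Finset.induction_on with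
  | empty => exact ⟨∅, Finset.Subset.refl _, by simp [hr.empty], rfl⟩
  | insert e C heC ih =>
    obtain ⟨C0, h1, h2, h3⟩ := ih
    by_cases h4 : r (insert e C) = r C
    · exact ⟨C0, h1.trans (Finset.subset_insert _ _), h2, by rw [h3, h4]⟩
    · have h5 := hr.ins C e
      have h6 := hr.mono C (insert e C) (Finset.subset_insert _ _)
      have h7 := hr.ins C0 e
      have h8 := tt_marg hr (Z := {e}) h1
      have h9 : C ∪ {e} = insert e C := by
        ext x
        simp [or_comm]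
      have h10 : C0 ∪ {e} = insert e C0 := by
        ext x
        simp [or_comm]
      rw [h9, h10] at h8
      have h11 : e ∉ C0 := fun h => heC (h1 h)
      have h12 : (insert e C0).card = C0.card + 1 := Finset.card_insert_of_notMem h11
      refine ⟨insert e C0, Finset.insert_subset_insert _ h1, ?_, ?_⟩
      · omega
      · omega

private theorem tt_same {r : Finset ℕ → ℕ} (hr : RkFn r) {C0 C : Finset ℕ} (h : C0 ⊆ C)
    (h1 : r C0 = r C) (Y : Finset ℕ) : r (Y ∪ C0) = r (Y ∪ C) := by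
  apply le_antisymm
  · exact hr.mono _ _ (Finset.union_subset_union_right h)
  · have h2 := tt_marg hr (Z := Y) h
    have h3 : C ∪ Y = Y ∪ C := Finset.union_comm _ _
    have h4 : C0 ∪ Y = Y ∪ C0 := Finset.union_comm _ _
    rw [h3, h4] at h2
    omega

theorem RkFn.contr {r : Finset ℕ → ℕ} (hr : RkFn r) (C : Finset ℕ) : RkFn (contr r C) := by
  refine ⟨?_, ?_, ?_, ?_⟩
  · show r (∅ ∪ C) - r C = 0
    simp
  · intro X Y hXY
    have h1 := hr.mono (X ∪ C) (Y ∪ C) (Finset.union_subset_union_left hXY)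
    show r (X ∪ C) - r C ≤ r (Y ∪ C) - r C
    omega
  · intro X e
    have h1 := hr.ins (X ∪ C) e
    have h2 : insert e X ∪ C = insert e (X ∪ C) := Finset.insert_union _ _ _
    show r (insert e X ∪ C) - r C ≤ r (X ∪ C) - r C + 1
    rw [h2]
    have h3 := hr.mono C (X ∪ C) Finset.subset_union_right
    omega
  · intro X Y
    have h1 := hr.sub (X ∪ C) (Y ∪ C)
    have h2 : X ∪ C ∪ (Y ∪ C) = X ∪ Y ∪ C := by
      ext x
      simp only [Finset.mem_union]
      tauto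
    have h3 : (X ∪ C) ∩ (Y ∪ C) = X ∩ Y ∪ C := by
      ext x
      simp only [Finset.mem_union, Finset.mem_inter]
      tauto
    rw [h2, h3] at h1
    have h4 := hr.mono C (X ∪ C) Finset.subset_union_right
    have h5 := hr.mono C (Y ∪ C) Finset.subset_union_right
    have h6 := hr.mono C (X ∪ Y ∪ C) Finset.subset_union_right
    have h7 := hr.mono C (X ∩ Y ∪ C) Finset.subset_union_right
    show r (X ∪ Y ∪ C) - r C + (r (X ∩ Y ∪ C) - r C) ≤ r (X ∪ C) - r C + (r (Y ∪ C) - r C)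
    omega

theorem contr_contr {r : Finset ℕ → ℕ} (hr : RkFn r) (C D X : Finset ℕ) :
    BW.contr (BW.contr r C) D X = BW.contr r (C ∪ D) X := by
  show r (X ∪ D ∪ C) - r C - (r (D ∪ C) - r C) = r (X ∪ (C ∪ D)) - r (C ∪ D)
  have h1 : X ∪ D ∪ C = X ∪ (C ∪ D) := by
    ext x
    simp only [Finset.mem_union]
    tauto
  have h2 : D ∪ C = C ∪ D := Finset.union_comm _ _
  rw [h1, h2]
  have h3 := hr.mono C (C ∪ D) Finset.subset_union_left
  omega

/-- step 1 -/
theorem tutte_step {r : Finset ℕ → ℕ} (hr : RkFn r) {E X Z : Finset ℕ} {e k : ℕ} (he : e ∈ E)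
    (hX : X ⊆ E) (hZ : Z ⊆ E) (heX : e ∉ X) (heZ : e ∉ Z)
    (h : ∀ Y, X ⊆ Y → Y ⊆ E \ Z → k ≤ lam r E Y) :
    (∀ Y, X ⊆ Y → Y ⊆ (E.erase e) \ Z → k ≤ lam r (E.erase e) Y) ∨
      ∀ Y, X ⊆ Y → Y ⊆ (E.erase e) \ Z → k ≤ lam (BW.contr r {e}) (E.erase e) Y := by
  by_contra hcon
  push Not at hcon
  obtain ⟨⟨Y1, hXY1, hY1, hl1⟩, ⟨Y2, hXY2, hY2, hl2⟩⟩ := hcon
  have he1 : e ∉ Y1 := by
    intro h1
    have h2 := Finset.mem_sdiff.1 (hY1 h1)
    exact (Finset.mem_erase.1 h2.1).1 rfl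
  have he2 : e ∉ Y2 := by
    intro h1
    have h2 := Finset.mem_sdiff.1 (hY2 h1)
    exact (Finset.mem_erase.1 h2.1).1 rfl
  have hE1 : ∀ x ∈ Y1, x ∈ E ∧ x ∉ Z := by
    intro x hx
    have h2 := Finset.mem_sdiff.1 (hY1 hx)
    exact ⟨(Finset.mem_erase.1 h2.1).2, h2.2⟩
  have hE2 : ∀ x ∈ Y2, x ∈ E ∧ x ∉ Z := by
    intro x hx
    have h2 := Finset.mem_sdiff.1 (hY2 hx)
    exact ⟨(Finset.mem_erase.1 h2.1).2, h2.2⟩
  have hs1 := hr.sub Y1 (Y2 ∪ {e})
  have hs2 := hr.sub (E.erase e \ Y1) (E \ Y2)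
  have e1 : Y1 ∩ (Y2 ∪ {e}) = Y1 ∩ Y2 := by
    ext x
    simp only [Finset.mem_inter, Finset.mem_union, Finset.mem_singleton]
    constructor
    · rintro ⟨h1, h2 | h2⟩
      · exact ⟨h1, h2⟩
      · subst h2
        exact absurd h1 he1
    · rintro ⟨h1, h2⟩
      exact ⟨h1, Or.inl h2⟩
  have e2 : (E.erase e \ Y1) ∩ (E \ Y2) = E \ (Y1 ∪ (Y2 ∪ {e})) := by
    ext x
    simp only [Finset.mem_inter, Finset.mem_union, Finset.mem_singleton, Finset.mem_sdiff,
      Finset.mem_erase]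
    tauto
  have e3 : (E.erase e \ Y1) ∪ (E \ Y2) = E \ (Y1 ∩ Y2) := by
    ext x
    simp only [Finset.mem_inter, Finset.mem_union, Finset.mem_sdiff, Finset.mem_erase]
    constructor
    · rintro (⟨⟨h1, h2⟩, h3⟩ | ⟨h1, h2⟩)
      · exact ⟨h2, fun h => h3 h.1⟩
      · exact ⟨h1, fun h => h2 h.2⟩
    · rintro ⟨h1, h2⟩
      by_cases h3 : x ∈ Y2
      · left
        refine ⟨⟨?_, h1⟩, fun h => h2 ⟨h, h3⟩⟩
        rintro rfl
        exact he2 h3
      · right
        exact ⟨h1, h3⟩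
  rw [e1] at hs1
  rw [e2, e3] at hs2
  have hk1 := h (Y1 ∩ Y2) (Finset.subset_inter hXY1 hXY2) (by
    intro x hx
    have h1 := hE1 x (Finset.mem_inter.1 hx).1
    exact Finset.mem_sdiff.2 h1)
  have hk2 := h (Y1 ∪ (Y2 ∪ {e})) (hXY1.trans Finset.subset_union_left) (by
    intro x hx
    simp only [Finset.mem_union, Finset.mem_singleton] at hx
    rcases hx with h1 | h1 | h1
    · exact Finset.mem_sdiff.2 (hE1 x h1)
    · exact Finset.mem_sdiff.2 (hE2 x h1)
    · subst h1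
      exact Finset.mem_sdiff.2 ⟨he, heZ⟩)
  unfold lam at hk1 hk2 hl1 hl2
  unfold BW.contr at hl2
  have e4 : (E.erase e \ Y2) ∪ {e} = E \ Y2 := by
    ext x
    simp only [Finset.mem_union, Finset.mem_singleton, Finset.mem_sdiff, Finset.mem_erase]
    constructor
    · rintro (⟨⟨h1, h2⟩, h3⟩ | h1)
      · exact ⟨h2, h3⟩
      · subst h1
        exact ⟨he, he2⟩
    · rintro ⟨h1, h2⟩
      by_cases h3 : x = e
      · exact Or.inr h3
      · exact Or.inl ⟨⟨h3, h1⟩, h2⟩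
  have e5 : E.erase e ∪ {e} = E := by
    ext x
    simp only [Finset.mem_union, Finset.mem_singleton, Finset.mem_erase]
    constructor
    · rintro (⟨_, h1⟩ | h1)
      · exact h1
      · subst h1
        exact he
    · intro h1
      by_cases h3 : x = e
      · exact Or.inr h3
      · exact Or.inl ⟨h3, h1⟩
  rw [e4, e5] at hl2
  have m1 := hr.mono {e} (Y2 ∪ {e}) Finset.subset_union_right
  have m2 := hr.mono {e} (E \ Y2) (by
    intro x hx
    rw [Finset.mem_singleton] at hx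
    subst hx
    exact Finset.mem_sdiff.2 ⟨he, he2⟩)
  have m3 := hr.mono {e} E (Finset.singleton_subset_iff.2 he)
  have m4 := hr.mono (E.erase e) E (Finset.erase_subset _ _)
  have m5 : r {e} ≤ 1 := by
    have h1 := hr.ins ∅ e
    rw [hr.empty] at h1
    simpa using h1
  omega

/-- step 2 -/
theorem tutte_min {r : Finset ℕ → ℕ} (hr : RkFn r) {E X Z : Finset ℕ} {k : ℕ}
    (hX : X ⊆ E) (hZ : Z ⊆ E) (hd : Disjoint X Z)
    (h : ∀ Y, X ⊆ Y → Y ⊆ E \ Z → k ≤ lam r E Y) :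
    ∃ C, C ⊆ E \ (X ∪ Z) ∧ k ≤ lam (BW.contr r C) (X ∪ Z) X := by
  have key : ∀ n : ℕ, ∀ (r : Finset ℕ → ℕ) (E : Finset ℕ), RkFn r → X ⊆ E → Z ⊆ E →
      (E \ (X ∪ Z)).card = n → (∀ Y, X ⊆ Y → Y ⊆ E \ Z → k ≤ lam r E Y) →
      ∃ C, C ⊆ E \ (X ∪ Z) ∧ k ≤ lam (BW.contr r C) (X ∪ Z) X := by
    intro n
    induction n with
    | zero =>
      intro r E hr hX hZ hn h
      have h1 : E = X ∪ Z := by
        apply Finset.Subset.antisymm
        · exact Finset.sdiff_eq_empty_iff_subset.1 (Finset.card_eq_zero.1 hn)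
        · exact Finset.union_subset hX hZ
      refine ⟨∅, Finset.empty_subset _, ?_⟩
      have h2 := h X (Finset.Subset.refl _) (by
        intro x hx
        exact Finset.mem_sdiff.2 ⟨hX hx, fun hz => (Finset.disjoint_left.1 hd) hx hz⟩)
      have h3 : BW.contr r ∅ = r := by
        funext Y
        show r (Y ∪ ∅) - r ∅ = r Y
        rw [Finset.union_empty, hr.empty]
        rfl
      rw [h3]
      rw [h1] at h2
      exact h2
    | succ n ih =>
      intro r E hr hX hZ hn h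
      have hne : (E \ (X ∪ Z)).Nonempty := by
        rw [← Finset.card_pos]
        omega
      obtain ⟨e, he⟩ := hne
      have he1 := Finset.mem_sdiff.1 he
      have heX : e ∉ X := fun h1 => he1.2 (Finset.mem_union_left _ h1)
      have heZ : e ∉ Z := fun h1 => he1.2 (Finset.mem_union_right _ h1)
      have hX' : X ⊆ E.erase e := by
        intro x hx
        refine Finset.mem_erase.2 ⟨?_, hX hx⟩
        rintro rfl
        exact heX hx
      have hZ' : Z ⊆ E.erase e := by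
        intro x hx
        refine Finset.mem_erase.2 ⟨?_, hZ hx⟩
        rintro rfl
        exact heZ hx
      have hE' : E.erase e \ (X ∪ Z) = (E \ (X ∪ Z)).erase e := by
        ext x
        simp only [Finset.mem_sdiff, Finset.mem_erase]
        tauto
      have hn' : (E.erase e \ (X ∪ Z)).card = n := by
        rw [hE', Finset.card_erase_of_mem he, hn]
        rfl
      have hsub : E.erase e \ (X ∪ Z) ⊆ E \ (X ∪ Z) := by
        rw [hE']
        exact Finset.erase_subset _ _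
      rcases tutte_step hr he1.1 hX hZ heX heZ h with h1 | h1
      · obtain ⟨C, hC, hk⟩ := ih r (E.erase e) hr hX' hZ' hn' h1
        exact ⟨C, hC.trans hsub, hk⟩
      · obtain ⟨C, hC, hk⟩ := ih (BW.contr r {e}) (E.erase e) (hr.contr {e}) hX' hZ' hn' h1
        refine ⟨{e} ∪ C, ?_, ?_⟩
        · exact Finset.union_subset (Finset.singleton_subset_iff.2 he) (hC.trans hsub)
        · have h2 : BW.contr (BW.contr r {e}) C = BW.contr r ({e} ∪ C) := by
            funext Y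
            exact contr_contr hr _ _ _
          rw [← h2]
          exact hk
  exact key _ r E hr hX hZ rfl h

theorem tutte {r : Finset ℕ → ℕ} (hr : RkFn r) {E A A' : Finset ℕ} {k : ℕ} (hA : A ⊆ A')
    (hA' : A' ⊆ E) (h1 : lam r E A = k) (h2 : lam r E A' = k)
    (h : ∀ Y, A ⊆ Y → Y ⊆ A' → k ≤ lam r E Y) :
    ∃ C, C ⊆ A' \ A ∧ Lk r A C (E \ A') k := by
  have hd : Disjoint A (E \ A') := by
    rw [Finset.disjoint_left]
    intro x hx hx'
    exact (Finset.mem_sdiff.1 hx').2 (hA hx)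
  obtain ⟨C, hC, hk⟩ := tutte_min hr (hA.trans hA') (Finset.sdiff_subset (s := E) (t := A')) hd (by
    intro Y hY hY'
    apply h Y hY
    intro x hx
    have h3 := Finset.mem_sdiff.1 (hY' hx)
    by_contra h4
    exact h3.2 (Finset.mem_sdiff.2 ⟨h3.1, h4⟩))
  obtain ⟨C0, hC0, hc1, hc2⟩ := tt_basis hr C
  have hCs : C ⊆ A' \ A := by
    intro x hx
    have h3 := Finset.mem_sdiff.1 (hC hx)
    refine Finset.mem_sdiff.2 ⟨?_, fun h4 => h3.2 (Finset.mem_union_left _ h4)⟩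
    by_contra h4
    exact h3.2 (Finset.mem_union_right _ (Finset.mem_sdiff.2 ⟨h3.1, h4⟩))
  have hCs0 : C0 ⊆ A' \ A := hC0.trans hCs
  refine ⟨C0, hCs0, ?_⟩
  have hcc : BW.contr r C = BW.contr r C0 := by
    funext Y
    show r (Y ∪ C) - r C = r (Y ∪ C0) - r C0
    rw [tt_same hr hC0 hc2 Y, hc2]
  rw [hcc] at hk
  unfold lam at hk h1 h2
  unfold BW.contr at hk
  have e1 : (A ∪ E \ A') \ A = E \ A' := by
    ext x
    simp only [Finset.mem_sdiff, Finset.mem_union]
    constructor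
    · rintro ⟨h3 | h3, h4⟩
      · exact absurd h3 h4
      · exact h3
    · rintro ⟨h3, h4⟩
      exact ⟨Or.inr ⟨h3, h4⟩, fun h5 => h4 (hA h5)⟩
  rw [e1] at hk
  have e2 : A ∪ E \ A' ∪ C0 = A ∪ C0 ∪ E \ A' := by
    ext x
    simp only [Finset.mem_union]
    tauto
  rw [e2] at hk
  have m1 := hr.mono C0 (A ∪ C0) Finset.subset_union_right
  have m2 := hr.mono C0 (E \ A' ∪ C0) Finset.subset_union_right
  have m3 := hr.mono (A ∪ C0) (A ∪ C0 ∪ E \ A') Finset.subset_union_left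
  -- first marginal inequality
  have g1 := tt_marg hr (X := E \ A' ∪ C0) (Y := E \ A) (Z := A) (by
    intro x hx
    rcases Finset.mem_union.1 hx with h3 | h3
    · have h4 := Finset.mem_sdiff.1 h3
      exact Finset.mem_sdiff.2 ⟨h4.1, fun h5 => h4.2 (hA h5)⟩
    · have h4 := Finset.mem_sdiff.1 (hCs0 h3)
      exact Finset.mem_sdiff.2 ⟨hA' h4.1, h4.2⟩)
  have e3 : E \ A ∪ A = E := Finset.sdiff_union_of_subset (hA.trans hA')
  have e4 : E \ A' ∪ C0 ∪ A = A ∪ C0 ∪ E \ A' := by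
    ext x
    simp only [Finset.mem_union]
    tauto
  rw [e3, e4] at g1
  have g2 := tt_marg hr (X := A ∪ C0) (Y := A') (Z := E \ A') (by
    intro x hx
    rcases Finset.mem_union.1 hx with h3 | h3
    · exact hA h3
    · exact (Finset.mem_sdiff.1 (hCs0 h3)).1)
  have e5 : A' ∪ E \ A' = E := Finset.union_sdiff_of_subset hA'
  rw [e5] at g2
  have s1 := tt_subadd hr A C0
  have s2 := tt_subadd hr (E \ A') C0
  have s3 := tt_subadd hr A (E \ A)
  have s4 := tt_subadd hr A' (E \ A')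
  rw [Finset.union_sdiff_of_subset (hA.trans hA')] at s3
  rw [e5] at s4
  have s5 := hr.sub (A ∪ C0) (E \ A' ∪ C0)
  have e6 : A ∪ C0 ∪ (E \ A' ∪ C0) = A ∪ C0 ∪ E \ A' := by
    ext x
    simp only [Finset.mem_union]
    tauto
  rw [e6] at s5
  have m4 := hr.mono C0 ((A ∪ C0) ∩ (E \ A' ∪ C0)) (by
    intro x hx
    exact Finset.mem_inter.2 ⟨Finset.mem_union_right _ hx, Finset.mem_union_right _ hx⟩)
  refine ⟨?_, ?_, ?_⟩
  · omega
  · omega
  · omega

/-- minors have smaller connectivity -/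
theorem lam_minor_le {r : Finset ℕ → ℕ} (hr : RkFn r) {E A C D : Finset ℕ} (hA : A ⊆ E)
    (hC : C ⊆ E) (hD : D ⊆ E) (h1 : Disjoint A C) (h2 : Disjoint A D) (h3 : Disjoint C D) :
    lam (BW.contr r C) (E \ (C ∪ D)) A ≤ lam r E A := by
  unfold lam BW.contr
  have e1 : (E \ (C ∪ D)) \ A ∪ C = E \ (A ∪ D) := by
    ext x
    simp only [Finset.mem_sdiff, Finset.mem_union]
    constructor
    · rintro (⟨⟨h4, h5⟩, h6⟩ | h4)
      · exact ⟨h4, fun h7 => h7.elim h6 fun h8 => h5 (Or.inr h8)⟩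
      · refine ⟨hC h4, fun h7 => h7.elim (fun h8 => ?_) (fun h8 => ?_)⟩
        · exact (Finset.disjoint_left.1 h1) h8 h4
        · exact (Finset.disjoint_left.1 h3) h4 h8
    · rintro ⟨h4, h5⟩
      by_cases h6 : x ∈ C
      · exact Or.inr h6
      · refine Or.inl ⟨⟨h4, fun h7 => h7.elim h6 fun h8 => h5 (Or.inr h8)⟩, fun h7 => h5 (Or.inl h7)⟩
  have e2 : E \ (C ∪ D) ∪ C = E \ D := by
    ext x
    simp only [Finset.mem_sdiff, Finset.mem_union]
    constructor
    · rintro (⟨h4, h5⟩ | h4)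
      · exact ⟨h4, fun h7 => h5 (Or.inr h7)⟩
      · exact ⟨hC h4, fun h7 => (Finset.disjoint_left.1 h3) h4 h7⟩
    · rintro ⟨h4, h5⟩
      by_cases h6 : x ∈ C
      · exact Or.inr h6
      · exact Or.inl ⟨h4, fun h7 => h7.elim h6 h5⟩
  rw [e1, e2]
  have g1 := tt_subadd hr A C
  have g2 := hr.sub (E \ A) (E \ D)
  have e3 : E \ A ∪ E \ D = E := by
    ext x
    simp only [Finset.mem_sdiff, Finset.mem_union]
    constructor
    · rintro (⟨h4, _⟩ | ⟨h4, _⟩)
      · exact h4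
      · exact h4
    · intro h4
      by_cases h5 : x ∈ A
      · exact Or.inr ⟨h4, fun h6 => (Finset.disjoint_left.1 h2) h5 h6⟩
      · exact Or.inl ⟨h4, h5⟩
  have e4 : (E \ A) ∩ (E \ D) = E \ (A ∪ D) := by
    ext x
    simp only [Finset.mem_sdiff, Finset.mem_union, Finset.mem_inter]
    tauto
  rw [e3, e4] at g2
  have m1 := hr.mono C (A ∪ C) Finset.subset_union_right
  have m2 := hr.mono C (E \ D) (by
    intro x hx
    exact Finset.mem_sdiff.2 ⟨hC hx, fun h5 => (Finset.disjoint_left.1 h3) hx h5⟩)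
  have m3 := hr.mono C (E \ (A ∪ D)) (by
    intro x hx
    refine Finset.mem_sdiff.2 ⟨hC hx, fun h5 => ?_⟩
    rcases Finset.mem_union.1 h5 with h6 | h6
    · exact (Finset.disjoint_left.1 h1) h6 hx
    · exact (Finset.disjoint_left.1 h3) hx h6)
  omega

end Pool.Agent.Helper28.BW
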